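import Mathlib

/-!
The finite Ramsey theorem for hypergraphs with finitely many colours, for all sizes up to `M`
simultaneously.  (Adapted from `Pool.Agent.D12a3a.Ramsey`.)
-/

set_option autoImplicit false

namespace Pool.Agent.H55

open Finset

/-- Finite Ramsey theorem for `r`-subsets and finitely many colours. -/
theorem ramsey_r (C : Type) [Finite C] [Nonempty C] (r : ℕ) : ∀ m : ℕ, ∃ t : ℕ,
    ∀ {α : Type} [LinearOrder α] (S : Finset α) (c : Finset α → C), t ≤ S.card →
    ∃ A : Finset α, A ⊆ S ∧ A.card = m ∧ ∃ col : C, ∀ e ⊆ A, e.card = r → c e = col := by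
  classical
  induction r with
  | zero =>
    intro m
    refine ⟨m, ?_⟩
    intro α _ S c hS
    obtain ⟨A, hA, hc⟩ := Finset.exists_subset_card_eq hS
    refine ⟨A, hA, hc, c ∅, ?_⟩
    intro e _ he
    rw [Finset.card_eq_zero] at he
    rw [he]
  | succ r ih =>
    -- end-homogeneous sets
    have key : ∀ m : ℕ, ∃ t : ℕ, ∀ {α : Type} [LinearOrder α] (S : Finset α)
        (c : Finset α → C), t ≤ S.card →
        ∃ A : Finset α, A ⊆ S ∧ A.card = m ∧ ∃ col : α → C, ∀ x ∈ A, ∀ e ⊆ A, e.card = r →
          (∀ y ∈ e, x < y) → c (insert x e) = col x := by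
      intro m
      induction m with
      | zero =>
        refine ⟨0, ?_⟩
        intro α _ S c _
        refine ⟨∅, Finset.empty_subset _, rfl, fun _ => Classical.arbitrary C, ?_⟩
        intro x hx
        exact absurd hx (Finset.notMem_empty _)
      | succ m ihm =>
        obtain ⟨t, ht⟩ := ihm
        obtain ⟨t', ht'⟩ := ih t
        refine ⟨t' + 1, ?_⟩
        intro α _ S c hS
        have hne : S.Nonempty := by
          rw [← Finset.card_pos]; omega
        set x := S.min' hne with hx
        have hxS : x ∈ S := S.min'_mem hne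
        have hS' : t' ≤ (S.erase x).card := by
          rw [Finset.card_erase_of_mem hxS]; omega
        obtain ⟨S2, hS2, hS2c, colx, hcolx⟩ := ht' (S.erase x) (fun e => c (insert x e)) hS'
        obtain ⟨A, hA, hAc, col, hcol⟩ := ht S2 c (by omega)
        have hAS : A ⊆ S.erase x := hA.trans hS2
        have hxA : x ∉ A := fun h => (Finset.notMem_erase x S) (hAS h)
        have hlt : ∀ y ∈ A, x < y := by
          intro y hy
          have hyS := Finset.mem_of_mem_erase (hAS hy)
          have h1 : x ≤ y := S.min'_le y hyS
          exact lt_of_le_of_ne h1 (fun h => hxA (by rw [h]; exact hy))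
        refine ⟨insert x A, ?_, ?_, Function.update col x colx, ?_⟩
        · intro y hy
          rcases Finset.mem_insert.1 hy with h | h
          · rw [h]; exact hxS
          · exact Finset.mem_of_mem_erase (hAS h)
        · rw [Finset.card_insert_of_notMem hxA, hAc]
        · intro y hy e he hec hey
          rcases Finset.mem_insert.1 hy with h | h
          · subst h
            rw [Function.update_self]
            apply hcolx e _ hec
            intro z hz
            rcases Finset.mem_insert.1 (he hz) with h' | h'
            · exact absurd (hey z hz) (by rw [h']; exact lt_irrefl _)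
            · exact hA h'
          · have hyx : y ≠ x := fun h' => hxA (by rw [← h']; exact h)
            rw [Function.update_of_ne hyx]
            apply hcol y h e _ hec hey
            intro z hz
            rcases Finset.mem_insert.1 (he hz) with h' | h'
            · have h1 := hey z hz
              have h2 := hlt y h
              rw [h'] at h1
              exact absurd (lt_trans h1 h2) (lt_irrefl _)
            · exact h'
    intro m
    obtain ⟨t, ht⟩ := key (Nat.card C * m)
    refine ⟨t, ?_⟩
    intro α _ S c hS
    obtain ⟨A, hA, hAc, col, hcol⟩ := ht S c hS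
    have hpig : ∃ b : C, m ≤ (A.filter (fun x => col x = b)).card := by
      have := Fintype.ofFinite C
      obtain ⟨b, -, hb⟩ := Finset.exists_le_card_fiber_of_mul_le_card_of_maps_to
        (s := A) (t := (Finset.univ : Finset C)) (f := col) (n := m)
        (fun a _ => Finset.mem_univ _) Finset.univ_nonempty
        (by rw [Finset.card_univ, ← Nat.card_eq_fintype_card, hAc])
      exact ⟨b, hb⟩
    obtain ⟨b, hb⟩ := hpig
    obtain ⟨B, hB, hBc⟩ := Finset.exists_subset_card_eq hb
    have hBA : B ⊆ A := hB.trans (Finset.filter_subset _ _)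
    refine ⟨B, hBA.trans hA, hBc, b, ?_⟩
    intro e he hec
    have hne : e.Nonempty := by
      rw [← Finset.card_pos]; omega
    set x := e.min' hne with hx
    have hxe : x ∈ e := e.min'_mem hne
    have h1 : insert x (e.erase x) = e := Finset.insert_erase hxe
    rw [← h1]
    rw [hcol x (hBA (he hxe)) (e.erase x) ((Finset.erase_subset _ _).trans (he.trans hBA))]
    · have := hB (he hxe)
      exact (Finset.mem_filter.1 this).2
    · rw [Finset.card_erase_of_mem hxe, hec]; rfl
    · intro y hy
      have hye := Finset.mem_of_mem_erase hy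
      have h2 : x ≤ y := e.min'_le y hye
      exact lt_of_le_of_ne h2 (fun h => (Finset.notMem_erase x e) (by rw [h] at hy ⊢; exact hy))

/-- Finite Ramsey theorem for all subsets with fewer than `M` elements simultaneously. -/
theorem ramsey_lt (C : Type) [Finite C] [Nonempty C] (M : ℕ) : ∀ m : ℕ, ∃ t : ℕ,
    ∀ {α : Type} [LinearOrder α] (S : Finset α) (c : Finset α → C), t ≤ S.card →
    ∃ A : Finset α, A ⊆ S ∧ A.card = m ∧ ∃ col : ℕ → C, ∀ e ⊆ A, e.card < M →
      c e = col e.card := by
  induction M with
  | zero =>
    intro m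
    refine ⟨m, ?_⟩
    intro α _ S c hS
    obtain ⟨A, hA, hc⟩ := Finset.exists_subset_card_eq hS
    exact ⟨A, hA, hc, fun _ => Classical.arbitrary C, fun e _ he => absurd he (Nat.not_lt_zero _)⟩
  | succ M ih =>
    intro m
    obtain ⟨t1, h1⟩ := ih m
    obtain ⟨t2, h2⟩ := ramsey_r C M t1
    refine ⟨t2, ?_⟩
    intro α _ S c hS
    obtain ⟨A, hA, hAc, col, hcol⟩ := h2 S c hS
    obtain ⟨A', hA', hAc', col', hcol'⟩ := h1 A c hAc.ge
    refine ⟨A', hA'.trans hA, hAc', Function.update col' M col, ?_⟩
    intro e he hec
    rcases Nat.lt_succ_iff_lt_or_eq.1 hec with h | h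
    · rw [Function.update_of_ne h.ne]
      exact hcol' e he h
    · rw [h, Function.update_self]
      exact hcol e (he.trans hA') h

/-- Finite Ramsey theorem for all subsets with at most `M` elements of `Fin m` simultaneously,
with the homogeneous set given as the image of an order embedding. -/
theorem ramsey_emb (C : Type) [Finite C] [Nonempty C] (M n : ℕ) : ∃ t : ℕ, ∀ m : ℕ, t ≤ m →
    ∀ c : Finset (Fin m) → C, ∃ ι : Fin n ↪o Fin m, ∀ S S' : Finset (Fin n),
      S.card = S'.card → S.card ≤ M → c (S.map ι.toEmbedding) = c (S'.map ι.toEmbedding) := by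
  obtain ⟨t, ht⟩ := ramsey_lt C (M + 1) n
  refine ⟨t, ?_⟩
  intro m hm c
  obtain ⟨A, hA, hAc, col, hcol⟩ := ht (Finset.univ : Finset (Fin m)) c
    (by rw [Finset.card_univ, Fintype.card_fin]; exact hm)
  refine ⟨A.orderEmbOfFin hAc, ?_⟩
  have key : ∀ S : Finset (Fin n), S.card ≤ M →
      c (S.map (A.orderEmbOfFin hAc).toEmbedding) = col S.card := by
    intro S hS
    have h1 : (S.map (A.orderEmbOfFin hAc).toEmbedding).card = S.card := Finset.card_map _
    rw [hcol _ _ (by rw [h1]; omega), h1]
    intro x hx
    obtain ⟨y, -, rfl⟩ := Finset.mem_map.1 hx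
    exact Finset.orderEmbOfFin_mem A hAc y
  intro S S' hSS hS
  rw [key S hS, key S' (hSS ▸ hS), hSS]

end Pool.Agent.H55
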