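import Pool.Agent.H55.FinRamsey

/-!
Endgame of the superpolylogarithmic bound for the digit changes of `√2` (section 4 of
`proof_MP_0308e6_superpolylog_helper71.md`), in abstract form: the data, and the reduction to
homogeneous data.
-/

set_option autoImplicit false

namespace Pool.Agent.H55.Gen

open Finset

/-- the data at the end of the argument -/
structure EndData (K P : Type) [Field K] [Inhabited P] (m q0 : ℕ) where
  /-- the ambient set (positions of the visible clusters) -/
  V : Finset ℕ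
  /-- the masses -/
  F : ℕ → K
  /-- the resolution `r_1` -/
  r : ℕ
  /-- `WW T` -/
  WW : Finset (Fin m) → Set ℕ
  /-- the code of an element, one letter for each source -/
  code : ℕ → Fin m → P
  F_ne : ∀ v ∈ V, F v ≠ 0
  WW_sub : ∀ T, ∀ w ∈ WW T, w ∈ V
  WW_mono : ∀ T T', T ⊆ T' → WW T ⊆ WW T'
  supp_sub : ∀ T, ∀ w ∈ WW T, ∀ j, code w j ≠ default → j ∈ T
  code_inj : ∀ w ∈ WW univ, ∀ w' ∈ WW univ, code w = code w' → w = w'
  supp_card : ∀ w ∈ WW univ, ∀ s : Finset (Fin m), (∀ j ∈ s, code w j ≠ default) → s.card ≤ q0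
  sep : ∀ w ∈ WW univ, ∀ u ∈ V, u ≠ w → (2 * r : ℤ) < |(u : ℤ) - w|
  closed : ∀ T T', Disjoint T T' → ∀ w ∈ WW T, ∀ w' ∈ WW T', ∀ u ∈ V, ∀ u' ∈ V,
    |(u : ℤ) + u' - (w + w')| ≤ r → u ∈ WW (T ∪ T') ∧ u' ∈ WW (T ∪ T')
  vs : Fin m → ℕ
  src : ∀ j, vs j ∈ WW {j}
  src_inj : Function.Injective vs
  arith : ∀ w ∈ WW univ, ∀ w' ∈ WW univ, w ≠ w' → ∃ α β : ℤ,
    (w : ℤ) + w' - r ≤ α ∧ α ≤ w + w' ∧ (w : ℤ) + w' ≤ β ∧ β ≤ w + w' + r ∧
    ∑ x ∈ (V ×ˢ V).filter (fun x => α ≤ (x.1 : ℤ) + x.2 ∧ (x.1 : ℤ) + x.2 ≤ β),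
      F x.1 * F x.2 = 0

namespace EndData

/-- near coincidence of two sums -/
def Rel {K P : Type} [Field K] [Inhabited P] {n q0 : ℕ} (D : EndData K P n q0) (a b c d : ℕ) : Prop :=
  |(a : ℤ) + b - (c + d)| ≤ D.r

/-- homogeneity for the subsets with at most `M` elements -/
def Hom {K P : Type} [Field K] [Inhabited P] {n q0 : ℕ} (D : EndData K P n q0) (M : ℕ) : Prop :=
  ∀ S : Finset (Fin n), S.card ≤ M → ∀ ψ : Fin n → Fin n, StrictMonoOn ψ (S : Set (Fin n)) →
  ∀ w : Fin 4 → ℕ, (∀ i, w i ∈ D.WW S) → D.Rel (w 0) (w 1) (w 2) (w 3) →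
   ∃ w' : Fin 4 → ℕ, (∀ i, w' i ∈ D.WW (S.image ψ)) ∧
     (∀ i, ∀ x ∈ S, D.code (w' i) (ψ x) = D.code (w i) x) ∧
     D.Rel (w' 0) (w' 1) (w' 2) (w' 3)

/-- restriction of the data to a subset of the sources -/
def pull {K P : Type} [Field K] [Inhabited P] {m n q0 : ℕ} (D : EndData K P m q0) (ι : Fin n ↪o Fin m) :
    EndData K P n q0 where
  V := D.V
  F := D.F
  r := D.r
  WW T := D.WW (T.map ι.toEmbedding)
  code w j := D.code w (ι j)
  F_ne := D.F_ne
  WW_sub T w hw := D.WW_sub _ w hw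
  WW_mono T T' h := D.WW_mono _ _ (Finset.map_subset_map.2 h)
  supp_sub T w hw j hj := by
    have := D.supp_sub _ w hw _ hj
    simpa using this
  code_inj w hw w' hw' h := by
    apply D.code_inj w (D.WW_mono _ _ (Finset.subset_univ _) hw) w'
      (D.WW_mono _ _ (Finset.subset_univ _) hw')
    funext j
    by_cases hj : j ∈ (Finset.univ : Finset (Fin n)).map ι.toEmbedding
    · obtain ⟨i, -, rfl⟩ := Finset.mem_map.1 hj
      exact congrFun h i
    · have h1 : D.code w j = default := by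
        by_contra h1
        exact hj (D.supp_sub _ w hw j h1)
      have h2 : D.code w' j = default := by
        by_contra h2
        exact hj (D.supp_sub _ w' hw' j h2)
      rw [h1, h2]
  supp_card w hw s hs := by
    rw [← Finset.card_map ι.toEmbedding]
    apply D.supp_card w (D.WW_mono _ _ (Finset.subset_univ _) hw)
    intro x hx
    obtain ⟨y, hy, rfl⟩ := Finset.mem_map.1 hx
    exact hs y hy
  sep w hw u hu huw := D.sep w (D.WW_mono _ _ (Finset.subset_univ _) hw) u hu huw
  closed T T' h w hw w' hw' u hu u' hu' hr := by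
    have := D.closed (T.map ι.toEmbedding) (T'.map ι.toEmbedding)
      ((Finset.disjoint_map _).2 h) w hw w' hw' u hu u' hu' hr
    rw [Finset.map_union]
    exact this
  vs j := D.vs (ι j)
  src j := by
    rw [Finset.map_singleton]
    exact D.src (ι j)
  src_inj := D.src_inj.comp ι.injective
  arith w hw w' hw' hne := D.arith w (D.WW_mono _ _ (Finset.subset_univ _) hw) w'
      (D.WW_mono _ _ (Finset.subset_univ _) hw') hne

end EndData

/-- sorting the image under a strictly monotone map -/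
theorem sort_image {α β : Type*} [LinearOrder α] [LinearOrder β] (S : Finset α) (ψ : α → β)
    (h : StrictMonoOn ψ (S : Set α)) : (S.image ψ).sort = (S.sort).map ψ := by
  have hnd : ((S.sort).map ψ).Nodup := by
    apply List.Nodup.map_on _ (Finset.sort_nodup S _)
    intro x hx y hy hxy
    rw [Finset.mem_sort] at hx hy
    exact h.injOn hx hy hxy
  have h1 := (List.toFinset_sort (r := (· ≤ ·)) hnd).2 ?_
  · rw [← h1]
    congr 1
    ext x
    simp
  · rw [List.pairwise_map]
    have h2 := Finset.pairwise_sort S (· ≤ ·)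
    refine List.Pairwise.imp_of_mem ?_ h2
    intro a b ha hb hab
    rw [Finset.mem_sort] at ha hb
    exact h.monotoneOn ha hb hab

/-- the colour of a set of sources -/
def color {K P : Type} [Field K] [Inhabited P] {m q0 : ℕ} (D : EndData K P m q0) (M : ℕ) (S : Finset (Fin m)) :
    Set (Fin 4 → {l : List P // l.length ≤ M}) :=
  {c | ∃ w : Fin 4 → ℕ, (∀ i, w i ∈ D.WW S ∧ (S.sort).map (D.code (w i)) = (c i).1) ∧
    D.Rel (w 0) (w 1) (w 2) (w 3)}

theorem hom_pull {K P : Type} [Field K] [Inhabited P] {m n q0 : ℕ} (D : EndData K P m q0) (ι : Fin n ↪o Fin m) (M : ℕ)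
    (h : ∀ S S' : Finset (Fin n), S.card = S'.card → S.card ≤ M →
      color D M (S.map ι.toEmbedding) = color D M (S'.map ι.toEmbedding)) :
    (D.pull ι).Hom M := by
  intro S hS ψ hψ w hw hr
  have hc : S.card = (S.image ψ).card := (Finset.card_image_of_injOn hψ.injOn).symm
  have hcol := h S (S.image ψ) hc hS
  have e1 : (S.map ι.toEmbedding).sort = (S.sort).map ι := by
    rw [Finset.map_eq_image]
    exact sort_image S _ (ι.strictMono.strictMonoOn _)
  have e2 : ((S.image ψ).map ι.toEmbedding).sort = (S.sort).map (fun x => ι (ψ x)) := by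
    rw [Finset.map_eq_image, Finset.image_image]
    exact sort_image S _ (fun x hx y hy hxy => ι.strictMono (hψ hx hy hxy))
  have hmem : (fun i => (⟨((S.map ι.toEmbedding).sort).map (D.code (w i)), by
      rw [List.length_map, Finset.length_sort, Finset.card_map]; exact hS⟩ :
      {l : List P // l.length ≤ M})) ∈ color D M (S.map ι.toEmbedding) :=
    ⟨w, fun i => ⟨hw i, rfl⟩, hr⟩
  rw [hcol] at hmem
  obtain ⟨w', hw', hr'⟩ := hmem
  refine ⟨w', fun i => (hw' i).1, ?_, hr'⟩
  intro i x hx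
  have h3 := (hw' i).2
  simp only at h3
  rw [e1, e2, List.map_map, List.map_map] at h3
  have h4 := (List.map_inj_left.1 h3) x ((Finset.mem_sort _).2 hx)
  exact h4

/-- reduction to homogeneous data -/
theorem exists_hom (K P : Type) [Field K] [Inhabited P] [Finite P] (q0 M n : ℕ) :
    ∃ m : ℕ, ∀ m', m ≤ m' → ∀ D : EndData K P m' q0, ∃ D' : EndData K P n q0, D'.Hom M := by
  have hfin : Finite {l : List P // l.length ≤ M} :=
    (List.finite_length_le _ M).to_subtype
  obtain ⟨t, ht⟩ := ramsey_emb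
    (Set (Fin 4 → {l : List P // l.length ≤ M})) M n
  refine ⟨t, ?_⟩
  intro m' hm' D
  obtain ⟨ι, hι⟩ := ht m' hm' (color D M)
  exact ⟨D.pull ι, hom_pull D ι M hι⟩

end Pool.Agent.H55.Gen
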