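import Mathlib

set_option autoImplicit false
set_option linter.all false
universe u

/-!
# Definability calculus

Predicates and functions on contexts `ι → M` that are first-order definable (with parameters) in a fixed
structure on `M`. Definability is a class, so that it is found by instance resolution.
-/

namespace Pool.Agent.H55.ZFU

open FirstOrder FirstOrder.Language

/-- A type with a first-order structure and a set `A` of parameters: definability is meant with respect to it,
with parameters from `A`. -/
class DSys (M : Type u) where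
  L : FirstOrder.Language.{0, 0}
  str : L.Structure M
  A : Set M

attribute [reducible, instance] DSys.str

variable {M : Type u} [DSys M]

/-- Definable predicates in a context `ι → M` (parameters allowed). -/
class Dfn {ι : Type} (φ : (ι → M) → Prop) : Prop where
  out : Set.Definable (DSys.A : Set M) (DSys.L M) {v | φ v}

/-- `c` may be used as a parameter. -/
class Par (c : M) : Prop where
  out : c ∈ (DSys.A : Set M)

theorem Dfn.congr {ι : Type} {φ ψ : (ι → M) → Prop} (h : Dfn φ) (hh : ∀ v, ψ v ↔ φ v) : Dfn ψ := by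
  have : φ = ψ := by funext v; exact propext (hh v).symm
  subst this; exact h

instance Dfn.and {ι : Type} (φ ψ : (ι → M) → Prop) [hφ : Dfn φ] [hψ : Dfn ψ] :
    Dfn (fun v => φ v ∧ ψ v) := ⟨hφ.out.inter hψ.out⟩

instance Dfn.or {ι : Type} (φ ψ : (ι → M) → Prop) [hφ : Dfn φ] [hψ : Dfn ψ] :
    Dfn (fun v => φ v ∨ ψ v) := ⟨hφ.out.union hψ.out⟩

instance Dfn.not {ι : Type} (φ : (ι → M) → Prop) [hφ : Dfn φ] :
    Dfn (fun v => ¬ φ v) := ⟨hφ.out.compl⟩

instance Dfn.imp {ι : Type} (φ ψ : (ι → M) → Prop) [hφ : Dfn φ] [hψ : Dfn ψ] :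
    Dfn (fun v => φ v → ψ v) :=
  Dfn.congr (φ := fun v => ¬ φ v ∨ ψ v) inferInstance (fun v => imp_iff_not_or)

instance Dfn.iff {ι : Type} (φ ψ : (ι → M) → Prop) [hφ : Dfn φ] [hψ : Dfn ψ] :
    Dfn (fun v => φ v ↔ ψ v) :=
  Dfn.congr (φ := fun v => (φ v → ψ v) ∧ (ψ v → φ v)) inferInstance (fun v => iff_iff_implies_and_implies)

instance Dfn.const {ι : Type} (P : Prop) : Dfn (fun _ : ι → M => P) := by
  by_cases h : P
  · refine ⟨?_⟩
    have : {v : ι → M | P} = Set.univ := by ext; simp [h]
    rw [this]; exact Set.definable_univ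
  · refine ⟨?_⟩
    have : {v : ι → M | P} = ∅ := by ext; simp [h]
    rw [this]; exact Set.definable_empty

/-- Renaming of variables. -/
theorem Dfn.rename {ι κ : Type} (f : ι → κ) {φ : (ι → M) → Prop} (h : Dfn φ) :
    Dfn (fun v : κ → M => φ (fun i => v (f i))) := ⟨h.out.preimage_comp f⟩

/-- Existential quantification. -/
instance Dfn.ex {ι : Type} (φ : (ι → M) → M → Prop)
    [h : Dfn (fun v : Option ι → M => φ (fun i => v (some i)) (v none))] :
    Dfn (fun v => ∃ x, φ v x) := by
  have h1 := h.out.preimage_comp (β := ι ⊕ Fin 1) (fun o : Option ι => o.elim (Sum.inr 0) Sum.inl)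
  have h2 := h1.image_comp_sumInl_fin 1
  refine ⟨?_⟩
  convert h2 using 1
  ext v
  simp only [Set.mem_ofPred_eq, Set.mem_image, Set.mem_preimage]
  constructor
  · rintro ⟨x, hx⟩
    refine ⟨Sum.elim v (fun _ => x), ?_, ?_⟩
    · simpa using hx
    · ext i; simp
  · rintro ⟨w, hw, rfl⟩
    exact ⟨w (Sum.inr 0), hw⟩

instance Dfn.all {ι : Type} (φ : (ι → M) → M → Prop)
    [h : Dfn (fun v : Option ι → M => φ (fun i => v (some i)) (v none))] :
    Dfn (fun v => ∀ x, φ v x) :=
  Dfn.congr (φ := fun v => ¬ ∃ x, ¬ φ v x) inferInstance (fun v => by push Not; rfl)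

theorem Dfn.eq_var {ι : Type} (i j : ι) : Dfn (fun v : ι → M => v i = v j) := by
  refine ⟨((DSys.L M).lhomWithConstants (DSys.A : Set M)).onFormula
    (Term.equal (Term.var i) (Term.var j)), ?_⟩
  ext v
  simp only [Set.mem_ofPred_eq]
  rw [LHom.realize_onFormula]
  rw [Formula.realize_equal]
  simp

theorem Dfn.eq_const {ι : Type} (i : ι) (c : M) [hc : Par c] : Dfn (fun v : ι → M => v i = c) := by
  refine ⟨Term.equal (Term.var i)
    (Constants.term ((DSys.L M).con (⟨c, hc.out⟩ : (DSys.A : Set M)))), ?_⟩
  ext v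
  simp only [Set.mem_ofPred_eq]
  rw [Formula.realize_equal]
  simp [Term.realize_constants]

/-- Definable functions on a context. -/
class DFun {ι : Type} (t : (ι → M) → M) : Prop where
  out : Dfn (fun v : Option ι → M => v none = t (fun i => v (some i)))

instance DFun.var {ι : Type} (i : ι) : DFun (fun v : ι → M => v i) := ⟨Dfn.eq_var _ _⟩

instance (priority := 900) DFun.const {ι : Type} (c : M) [Par c] : DFun (fun _ : ι → M => c) := ⟨Dfn.eq_const _ _⟩

theorem DFun.rename {ι κ : Type} (f : ι → κ) {t : (ι → M) → M} (h : DFun t) :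
    DFun (fun v : κ → M => t (fun i => v (f i))) := by
  refine ⟨?_⟩
  exact Dfn.rename (fun o : Option ι => o.map f) h.out

/-- Substitution of a definable function for the last variable. -/
theorem Dfn.subst {ι : Type} (ψ : (ι → M) → M → Prop)
    (h : Dfn (fun v : Option ι → M => ψ (fun i => v (some i)) (v none))) (t : (ι → M) → M) [ht : DFun t] :
    Dfn (fun v => ψ v (t v)) := by
  have := ht.out
  refine Dfn.congr (φ := fun v => ∃ x, x = t v ∧ ψ v x) inferInstance ?_
  intro v; simp

theorem Dfn.comp1 {P : M → Prop} (h : Dfn (fun v : Fin 1 → M => P (v 0))) {ι : Type} (t : (ι → M) → M)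
    [DFun t] : Dfn (fun v => P (t v)) := by
  refine Dfn.subst (fun _ x => P x) ?_ t
  exact Dfn.rename (fun _ : Fin 1 => (none : Option ι)) h

theorem Dfn.comp2 {P : M → M → Prop} (h : Dfn (fun v : Fin 2 → M => P (v 0) (v 1))) {ι : Type}
    (t s : (ι → M) → M) [DFun t] [hs : DFun s] : Dfn (fun v => P (t v) (s v)) := by
  refine Dfn.subst (fun v x => P x (s v)) ?_ t
  have := DFun.rename (κ := Option ι) some hs
  refine Dfn.subst (fun (v : Option ι → M) x => P (v none) x) ?_ (fun v : Option ι → M => s (fun i => v (some i)))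
  exact Dfn.rename (fun j : Fin 2 => if j = 0 then some none else (none : Option (Option ι))) h

theorem Dfn.comp3 {P : M → M → M → Prop} (h : Dfn (fun v : Fin 3 → M => P (v 0) (v 1) (v 2))) {ι : Type}
    (t s r : (ι → M) → M) [DFun t] [hs : DFun s] [hr : DFun r] : Dfn (fun v => P (t v) (s v) (r v)) := by
  refine Dfn.subst (fun v x => P x (s v) (r v)) ?_ t
  have := DFun.rename (κ := Option ι) some hs
  refine Dfn.subst (fun (v : Option ι → M) x => P (v none) x (r (fun i => v (some i)))) ?_
    (fun v : Option ι → M => s (fun i => v (some i)))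
  have := DFun.rename (κ := Option (Option ι)) (fun i => some (some i)) hr
  refine Dfn.subst (fun (v : Option (Option ι) → M) x => P (v (some none)) (v none) x) ?_
    (fun v : Option (Option ι) → M => r (fun i => v (some (some i))))
  exact Dfn.rename (fun j : Fin 3 => if j = 0 then some (some none) else if j = 1 then some none
    else (none : Option (Option (Option ι)))) h

theorem Dfn.comp4 {P : M → M → M → M → Prop}
    (h : Dfn (fun v : Fin 4 → M => P (v 0) (v 1) (v 2) (v 3))) {ι : Type}
    (t s r q : (ι → M) → M) [DFun t] [hs : DFun s] [hr : DFun r] [hq : DFun q] :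
    Dfn (fun v => P (t v) (s v) (r v) (q v)) := by
  refine Dfn.subst (fun v x => P x (s v) (r v) (q v)) ?_ t
  have := DFun.rename (κ := Option ι) some hs
  have := DFun.rename (κ := Option ι) some hr
  have := DFun.rename (κ := Option ι) some hq
  refine Dfn.subst (fun (v : Option ι → M) x => P (v none) x (r (fun i => v (some i))) (q (fun i => v (some i)))) ?_
    (fun v : Option ι → M => s (fun i => v (some i)))
  have := DFun.rename (κ := Option (Option ι)) (fun i => some (some i)) hr
  refine Dfn.subst (fun (v : Option (Option ι) → M) x => P (v (some none)) (v none) x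
    (q (fun i => v (some (some i))))) ?_
    (fun v : Option (Option ι) → M => r (fun i => v (some (some i))))
  have := DFun.rename (κ := Option (Option (Option ι))) (fun i => some (some (some i))) hq
  refine Dfn.subst (fun (v : Option (Option (Option ι)) → M) x => P (v (some (some none))) (v (some none)) (v none) x) ?_
    (fun v : Option (Option (Option ι)) → M => q (fun i => v (some (some (some i)))))
  exact Dfn.rename (fun j : Fin 4 => if j = 0 then some (some (some none)) else if j = 1 then some (some none)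
    else if j = 2 then some none else (none : Option (Option (Option (Option ι))))) h

instance Dfn.eq {ι : Type} (t s : (ι → M) → M) [DFun t] [DFun s] : Dfn (fun v => t v = s v) :=
  Dfn.comp2 (P := fun x y => x = y) (Dfn.eq_var 0 1) t s

theorem DFun.of_iff {ι : Type} {t : (ι → M) → M} (Φ : (ι → M) → M → Prop)
    (h : Dfn (fun v : Option ι → M => Φ (fun i => v (some i)) (v none)))
    (hh : ∀ v y, y = t v ↔ Φ v y) : DFun t :=
  ⟨Dfn.congr h (fun v => hh _ _)⟩

theorem DFun.comp1 {F : M → M} (h : DFun (fun v : Fin 1 → M => F (v 0))) {ι : Type} (t : (ι → M) → M)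
    [ht : DFun t] : DFun (fun v => F (t v)) := by
  have := DFun.rename (κ := Option ι) some ht
  have h' : Dfn (fun v : Fin 2 → M => v 0 = F (v 1)) :=
    Dfn.rename (fun o : Option (Fin 1) => o.elim 0 (fun _ => 1)) h.out
  exact ⟨Dfn.comp2 (P := fun y x => y = F x) h' (fun v => v none) (fun v => t (fun i => v (some i)))⟩

theorem DFun.comp2 {F : M → M → M} (h : DFun (fun v : Fin 2 → M => F (v 0) (v 1))) {ι : Type}
    (t s : (ι → M) → M) [ht : DFun t] [hs : DFun s] : DFun (fun v => F (t v) (s v)) := by
  have := DFun.rename (κ := Option ι) some ht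
  have := DFun.rename (κ := Option ι) some hs
  have h' : Dfn (fun v : Fin 3 → M => v 0 = F (v 1) (v 2)) :=
    Dfn.rename (fun o : Option (Fin 2) => o.elim 0 (fun j => if j = 0 then 1 else 2)) h.out
  exact ⟨Dfn.comp3 (P := fun y x z => y = F x z) h' (fun v => v none) (fun v => t (fun i => v (some i)))
    (fun v => s (fun i => v (some i)))⟩

theorem DFun.comp3 {F : M → M → M → M} (h : DFun (fun v : Fin 3 → M => F (v 0) (v 1) (v 2))) {ι : Type}
    (t s r : (ι → M) → M) [ht : DFun t] [hs : DFun s] [hr : DFun r] :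
    DFun (fun v => F (t v) (s v) (r v)) := by
  have := DFun.rename (κ := Option ι) some ht
  have := DFun.rename (κ := Option ι) some hs
  have := DFun.rename (κ := Option ι) some hr
  have h' : Dfn (fun v : Fin 4 → M => v 0 = F (v 1) (v 2) (v 3)) :=
    Dfn.rename (fun o : Option (Fin 3) => o.elim 0 (fun j => if j = 0 then 1 else if j = 1 then 2 else 3)) h.out
  exact ⟨Dfn.comp4 (P := fun y x z w => y = F x z w) h' (fun v => v none) (fun v => t (fun i => v (some i)))
    (fun v => s (fun i => v (some i))) (fun v => r (fun i => v (some i)))⟩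

/-- Substituting parameters for variables. -/
theorem Dfn.inst {κ ι : Type} {φ : ((κ ⊕ ι) → M) → Prop} (h : Dfn φ) (c : κ → M) (hc : ∀ k, Par (c k)) :
    Dfn (fun v : ι → M => φ (Sum.elim c v)) := by
  have h1 := h.out
  rw [Set.definable_iff_exists_formula_sum] at h1
  obtain ⟨χ, hχ⟩ := h1
  refine ⟨?_⟩
  rw [Set.definable_iff_exists_formula_sum]
  refine ⟨χ.relabel (fun p => p.elim (fun a => Sum.inl a) (fun s => s.elim (fun k => Sum.inl ⟨c k, (hc k).out⟩) Sum.inr)), ?_⟩
  ext v
  have h4 : (Sum.elim c v) ∈ {w : (κ ⊕ ι) → M | φ w} ↔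
      (Sum.elim c v) ∈ {w | χ.Realize (Sum.elim Subtype.val w)} := by rw [hχ]
  simp only [Set.mem_ofPred_eq] at h4 ⊢
  rw [FirstOrder.Language.Formula.realize_relabel]
  refine h4.trans ?_
  apply iff_of_eq
  congr 1
  ext p
  rcases p with a | s
  · simp
  · rcases s with k | i <;> simp

end Pool.Agent.H55.ZFU
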