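import Mathlib
import Pool.Agent.H55.Def

set_option autoImplicit false
set_option linter.all false
universe u

/-!
# Basic set theory with urelements inside a model
-/

namespace Pool.Agent.H55.ZFU

/-- Unary definable predicates. -/
abbrev Dfn1 {M : Type u} [DSys M] (φ : M → Prop) : Prop := Dfn (fun v : Fin 1 → M => φ (v 0))
/-- Binary definable predicates. -/
abbrev Dfn2 {M : Type u} [DSys M] (φ : M → M → Prop) : Prop := Dfn (fun v : Fin 2 → M => φ (v 0) (v 1))
/-- Unary definable functions. -/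
abbrev Fn1 {M : Type u} [DSys M] (f : M → M) : Prop := DFun (fun v : Fin 1 → M => f (v 0))
/-- Binary definable functions. -/
abbrev Fn2 {M : Type u} [DSys M] (f : M → M → M) : Prop := DFun (fun v : Fin 2 → M => f (v 0) (v 1))
/-- Ternary definable functions. -/
abbrev Fn3 {M : Type u} [DSys M] (f : M → M → M → M) : Prop :=
  DFun (fun v : Fin 3 → M => f (v 0) (v 1) (v 2))

/-- Models of set theory with urelements and replacement (no choice), with schemes for the definable classes. -/
class Model (M : Type u) extends DSys M where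
  par : ∀ c : M, c ∈ A
  E : M → M → Prop
  Ur : M → Prop
  E_def : Dfn2 E
  Ur_def : Dfn1 Ur
  ext' : ∀ a b, ¬ Ur a → ¬ Ur b → (∀ x, E x a ↔ E x b) → a = b
  ur' : ∀ a x, Ur a → ¬ E x a
  found' : ∀ a, (∃ x, E x a) → ∃ x, E x a ∧ ∀ y, E y x → ¬ E y a
  pair' : ∀ a b, ∃ c, ∀ x, E x c ↔ x = a ∨ x = b
  union' : ∀ a, ∃ c, ¬ Ur c ∧ ∀ x, E x c ↔ ∃ y, E y a ∧ E x y
  pow' : ∀ a, ∃ c, ∀ x, E x c ↔ ¬ Ur x ∧ ∀ y, E y x → E y a
  inf' : ∃ w, (∃ e, E e w ∧ ¬ Ur e ∧ ∀ x, ¬ E x e) ∧
    ∀ x, E x w → ∃ y, E y w ∧ ∀ z, E z y ↔ E z x ∨ z = x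
  sep' : ∀ (φ : M → Prop), Dfn1 φ → ∀ a, ∃ c, ¬ Ur c ∧ ∀ x, E x c ↔ E x a ∧ φ x
  repl' : ∀ (R : M → M → Prop), Dfn2 R → ∀ a, (∀ x, E x a → ∃! y, R x y) →
    ∃ c, ¬ Ur c ∧ ∀ y, E y c ↔ ∃ x, E x a ∧ R x y

section
variable {M : Type u} [Model M]

instance (c : M) : Par c := ⟨Model.par c⟩

instance : Membership M M := ⟨fun a x => Model.E x a⟩
instance : HasSubset M := ⟨fun a b => ∀ x : M, x ∈ a → x ∈ b⟩

/-- Being an urelement. -/
def Ur (a : M) : Prop := Model.Ur a

/-- Being a set (not an urelement). -/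
class IsSet (a : M) : Prop where
  out : ¬ Ur a

instance mem_dfn {ι : Type} (t s : (ι → M) → M) [DFun t] [DFun s] : Dfn (fun v => t v ∈ s v) :=
  Dfn.comp2 (P := fun x y : M => x ∈ y) Model.E_def t s

instance ur_dfn {ι : Type} (t : (ι → M) → M) [DFun t] : Dfn (fun v => Ur (t v)) :=
  Dfn.comp1 (P := fun x : M => Ur x) Model.Ur_def t

instance isSet_dfn {ι : Type} (t : (ι → M) → M) [DFun t] : Dfn (fun v => IsSet (t v)) :=
  Dfn.congr (φ := fun v => ¬ Ur (t v)) inferInstance (fun v => ⟨fun h => h.out, fun h => ⟨h⟩⟩)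

instance sub_dfn {ι : Type} (t s : (ι → M) → M) [DFun t] [DFun s] : Dfn (fun v => t v ⊆ s v) :=
  Dfn.comp2 (P := fun x y : M => x ⊆ y)
    (show Dfn (fun v : Fin 2 → M => ∀ x : M, x ∈ v 0 → x ∈ v 1) from inferInstance) t s

theorem sub_def {a b : M} : a ⊆ b ↔ ∀ x, x ∈ a → x ∈ b := Iff.rfl

theorem Sub.refl (a : M) : a ⊆ a := fun _ h => h
theorem Sub.trans {a b c : M} (h : a ⊆ b) (h' : b ⊆ c) : a ⊆ c := fun x hx => h' x (h x hx)

theorem ext {a b : M} [ha : IsSet a] [hb : IsSet b] (h : ∀ x, x ∈ a ↔ x ∈ b) : a = b :=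
  Model.ext' a b ha.out hb.out h

theorem ur_not_mem {a : M} (h : Ur a) (x : M) : x ∉ a := Model.ur' a x h

theorem isSet_of_mem {a x : M} (h : x ∈ a) : IsSet a := ⟨fun hu => ur_not_mem hu x h⟩

theorem isSet_or_ur (a : M) : IsSet a ∨ Ur a := by
  by_cases h : Ur a
  · exact Or.inr h
  · exact Or.inl ⟨h⟩

theorem isSet_iff {a : M} : IsSet a ↔ ¬ Ur a := ⟨fun h => h.out, fun h => ⟨h⟩⟩

theorem foundation {a x : M} (h : x ∈ a) : ∃ x ∈ a, ∀ y, y ∈ x → y ∉ a :=
  Model.found' a ⟨x, h⟩

/-! ### Separation -/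

theorem exists_sep (φ : M → Prop) [h : Dfn1 φ] (a : M) : ∃ c : M, IsSet c ∧ ∀ x, x ∈ c ↔ x ∈ a ∧ φ x := by
  obtain ⟨c, hc, h'⟩ := Model.sep' φ h a
  exact ⟨c, ⟨hc⟩, h'⟩

theorem exists_empty : ∃ c : M, IsSet c ∧ ∀ x, x ∉ c := by
  obtain ⟨w, ⟨e, _, he, h⟩, _⟩ := Model.inf' (M := M)
  exact ⟨e, ⟨he⟩, h⟩

noncomputable instance : EmptyCollection M := ⟨Classical.choose (exists_empty (M := M))⟩

instance : IsSet (∅ : M) := (Classical.choose_spec (exists_empty (M := M))).1

@[simp] theorem not_mem_empty (x : M) : x ∉ (∅ : M) := (Classical.choose_spec (exists_empty (M := M))).2 x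

theorem eq_empty_iff {a : M} [IsSet a] : a = ∅ ↔ ∀ x, x ∉ a :=
  ⟨fun h x => by rw [h]; simp, fun h => ext (fun x => by simp [h x])⟩

theorem ne_empty_iff {a : M} [IsSet a] : a ≠ ∅ ↔ ∃ x, x ∈ a := by
  rw [Ne, eq_empty_iff]; push Not; rfl

open Classical in
/-- `{x ∈ a | φ x}` -/
noncomputable def sep (a : M) (φ : M → Prop) : M :=
  if h : ∃ c, IsSet c ∧ ∀ x, x ∈ c ↔ x ∈ a ∧ φ x then Classical.choose h else ∅

instance (a : M) (φ : M → Prop) : IsSet (sep a φ) := by
  unfold sep
  split_ifs with h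
  · exact (Classical.choose_spec h).1
  · infer_instance

@[simp] theorem mem_sep {a : M} {φ : M → Prop} [Dfn1 φ] {x : M} : x ∈ sep a φ ↔ x ∈ a ∧ φ x := by
  have h := exists_sep φ a
  have : sep a φ = Classical.choose h := by unfold sep; exact dif_pos h
  rw [this]
  exact (Classical.choose_spec h).2 x

theorem Dfn.fix {ι : Type} {φ : (ι → M) → M → Prop}
    (h : Dfn (fun w : Option ι → M => φ (fun i => w (some i)) (w none))) (v : ι → M) : Dfn1 (φ v) := by
  have h2 : Dfn (fun w : (ι ⊕ Fin 1) → M => φ (fun i => w (Sum.inl i)) (w (Sum.inr 0))) :=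
    Dfn.rename (fun o : Option ι => o.elim (Sum.inr 0) Sum.inl) h
  exact Dfn.inst h2 v (fun i => inferInstance)

theorem DFun.fix {ι : Type} {f : (ι → M) → M → M}
    (h : DFun (fun w : Option ι → M => f (fun i => w (some i)) (w none))) (v : ι → M) : Fn1 (f v) := by
  have h2 : Dfn (fun w : (ι ⊕ Option (Fin 1)) → M => w (Sum.inr none) =
      f (fun i => w (Sum.inl i)) (w (Sum.inr (some 0)))) :=
    Dfn.rename (fun o : Option (Option ι) => o.elim (Sum.inr none) (fun o' => o'.elim (Sum.inr (some 0)) Sum.inl)) h.out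
  exact ⟨Dfn.inst h2 v (fun i => inferInstance)⟩

instance sep_dfun {ι : Type} (t : (ι → M) → M) (φ : (ι → M) → M → Prop) [ht : DFun t]
    [h : Dfn (fun w : Option ι → M => φ (fun i => w (some i)) (w none))] :
    DFun (fun v => sep (t v) (φ v)) := by
  have h1 := DFun.rename (κ := Option ι) some ht
  have h1' := DFun.rename (κ := Option (Option ι)) (fun i => some (some i)) ht
  have h2 : Dfn (fun w : Option (Option ι) → M => φ (fun i => w (some (some i))) (w none)) :=
    Dfn.rename (fun o : Option ι => o.elim none (fun i => some (some i))) h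
  refine DFun.of_iff (fun v y => IsSet y ∧ ∀ x, x ∈ y ↔ x ∈ t v ∧ φ v x) inferInstance ?_
  intro v y
  have := Dfn.fix h v
  constructor
  · rintro rfl
    exact ⟨inferInstance, fun x => mem_sep⟩
  · rintro ⟨hy, hy'⟩
    exact ext (fun x => by rw [hy', mem_sep])

/-! ### Pairs, unions, powers -/

/-- unordered pair -/
noncomputable def upair (a b : M) : M := Classical.choose (Model.pair' a b)

@[simp] theorem mem_upair {a b x : M} : x ∈ upair a b ↔ x = a ∨ x = b :=
  Classical.choose_spec (Model.pair' a b) x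

instance (a b : M) : IsSet (upair a b) := isSet_of_mem (x := a) (by simp)

instance upair_dfun {ι : Type} (t s : (ι → M) → M) [DFun t] [DFun s] : DFun (fun v => upair (t v) (s v)) := by
  refine DFun.comp2 (F := fun a b : M => upair a b) ?_ t s
  refine DFun.of_iff (fun v y => IsSet y ∧ ∀ x, x ∈ y ↔ x = v 0 ∨ x = v 1) inferInstance ?_
  intro v y
  constructor
  · rintro rfl
    exact ⟨inferInstance, fun x => mem_upair⟩
  · rintro ⟨hy, hy'⟩
    exact ext (fun x => by rw [hy', mem_upair])

/-- singleton -/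
noncomputable def sing (a : M) : M := upair a a

@[simp] theorem mem_sing {a x : M} : x ∈ sing a ↔ x = a := by simp [sing]

instance (a : M) : IsSet (sing a) := by unfold sing; infer_instance

instance sing_dfun {ι : Type} (t : (ι → M) → M) [DFun t] : DFun (fun v => sing (t v)) := by
  unfold sing; infer_instance

/-- Kuratowski pair -/
noncomputable def opair (a b : M) : M := upair (sing a) (upair a b)

instance (a b : M) : IsSet (opair a b) := by unfold opair; infer_instance

instance opair_dfun {ι : Type} (t s : (ι → M) → M) [DFun t] [DFun s] : DFun (fun v => opair (t v) (s v)) := by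
  unfold opair; infer_instance

theorem sing_inj {a b : M} : sing a = sing b ↔ a = b := by
  constructor
  · intro h
    have : a ∈ sing b := by rw [← h]; simp
    simpa using this
  · rintro rfl; rfl

theorem sing_eq_upair {a b c : M} : sing a = upair b c ↔ a = b ∧ a = c := by
  constructor
  · intro h
    have h1 : b ∈ sing a := by rw [h]; simp
    have h2 : c ∈ sing a := by rw [h]; simp
    simp at h1 h2
    exact ⟨h1.symm, h2.symm⟩
  · rintro ⟨rfl, rfl⟩; rfl

@[simp] theorem opair_inj {a b c d : M} : opair a b = opair c d ↔ a = c ∧ b = d := by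
  constructor
  · intro h
    have hac : a = c := by
      have h1 : sing a ∈ opair c d := by rw [← h]; simp [opair]
      simp only [opair, mem_upair] at h1
      rcases h1 with h1 | h1
      · exact sing_inj.1 h1
      · exact (sing_eq_upair.1 h1).1
    subst hac
    refine ⟨rfl, ?_⟩
    have h1 : upair a b ∈ opair a d := by rw [← h]; simp [opair]
    have h2 : upair a d ∈ opair a b := by rw [h]; simp [opair]
    simp only [opair, mem_upair] at h1 h2
    have hb : b ∈ upair a b := by simp
    have hd : d ∈ upair a d := by simp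
    rcases h1 with h1 | h1
    · rw [h1] at hb
      simp at hb
      subst hb
      rcases h2 with h2 | h2
      · rw [h2] at hd; simp at hd; exact hd.symm
      · rw [h2] at hd; simp at hd; exact hd.symm
    · rw [h1] at hb
      simp at hb
      rcases hb with hb | hb
      · subst hb
        rcases h2 with h2 | h2
        · rw [h2] at hd; simp at hd; exact hd.symm
        · rw [h2] at hd; simp at hd; exact hd.symm
      · exact hb
  · rintro ⟨rfl, rfl⟩; rfl

/-- union of a set -/
noncomputable def bigU (a : M) : M := Classical.choose (Model.union' a)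

instance (a : M) : IsSet (bigU a) := ⟨(Classical.choose_spec (Model.union' a)).1⟩

@[simp] theorem mem_bigU {a x : M} : x ∈ bigU a ↔ ∃ y, y ∈ a ∧ x ∈ y :=
  (Classical.choose_spec (Model.union' a)).2 x

instance bigU_dfun {ι : Type} (t : (ι → M) → M) [DFun t] : DFun (fun v => bigU (t v)) := by
  refine DFun.comp1 (F := fun a : M => bigU a) ?_ t
  refine DFun.of_iff (fun v y => IsSet y ∧ ∀ x, x ∈ y ↔ ∃ z, z ∈ v 0 ∧ x ∈ z) inferInstance ?_
  intro v y
  constructor
  · rintro rfl
    exact ⟨inferInstance, fun x => mem_bigU⟩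
  · rintro ⟨hy, hy'⟩
    exact ext (fun x => by rw [hy', mem_bigU])

/-- power set -/
noncomputable def pow (a : M) : M := Classical.choose (Model.pow' a)

theorem mem_pow {a x : M} : x ∈ pow a ↔ IsSet x ∧ x ⊆ a := by
  rw [isSet_iff]; exact Classical.choose_spec (Model.pow' a) x

@[simp] theorem mem_pow' {a x : M} [IsSet x] : x ∈ pow a ↔ x ⊆ a := by
  rw [mem_pow]; simp [*]

instance (a : M) : IsSet (pow a) := isSet_of_mem (x := ∅) (by rw [mem_pow']; intro x hx; simp at hx)

instance pow_dfun {ι : Type} (t : (ι → M) → M) [DFun t] : DFun (fun v => pow (t v)) := by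
  refine DFun.comp1 (F := fun a : M => pow a) ?_ t
  refine DFun.of_iff (fun v y => IsSet y ∧ ∀ x, x ∈ y ↔ IsSet x ∧ x ⊆ v 0) inferInstance ?_
  intro v y
  constructor
  · rintro rfl
    exact ⟨inferInstance, fun x => mem_pow⟩
  · rintro ⟨hy, hy'⟩
    exact ext (fun x => by rw [hy', mem_pow])

/-- binary union -/
noncomputable def un (a b : M) : M := bigU (upair a b)

@[simp] theorem mem_un {a b x : M} : x ∈ un a b ↔ x ∈ a ∨ x ∈ b := by simp [un]

instance (a b : M) : IsSet (un a b) := by unfold un; infer_instance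

instance un_dfun {ι : Type} (t s : (ι → M) → M) [DFun t] [DFun s] : DFun (fun v => un (t v) (s v)) := by
  unfold un; infer_instance

/-- binary intersection -/
noncomputable def inter (a b : M) : M := sep a (fun x => x ∈ b)

@[simp] theorem mem_inter {a b x : M} : x ∈ inter a b ↔ x ∈ a ∧ x ∈ b := by
  simp [inter]

instance (a b : M) : IsSet (inter a b) := by unfold inter; infer_instance

instance inter_dfun {ι : Type} (t s : (ι → M) → M) [DFun t] [hs : DFun s] :
    DFun (fun v => inter (t v) (s v)) := by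
  have := DFun.rename (κ := Option ι) some hs
  unfold inter; infer_instance

/-- difference -/
noncomputable def diff (a b : M) : M := sep a (fun x => x ∉ b)

@[simp] theorem mem_diff {a b x : M} : x ∈ diff a b ↔ x ∈ a ∧ x ∉ b := by
  simp [diff]

instance (a b : M) : IsSet (diff a b) := by unfold diff; infer_instance

instance diff_dfun {ι : Type} (t s : (ι → M) → M) [DFun t] [hs : DFun s] :
    DFun (fun v => diff (t v) (s v)) := by
  have := DFun.rename (κ := Option ι) some hs
  unfold diff; infer_instance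

/-- successor -/
noncomputable def suc (a : M) : M := un a (sing a)

@[simp] theorem mem_suc {a x : M} : x ∈ suc a ↔ x ∈ a ∨ x = a := by simp [suc]

instance (a : M) : IsSet (suc a) := by unfold suc; infer_instance

instance suc_dfun {ι : Type} (t : (ι → M) → M) [DFun t] : DFun (fun v => suc (t v)) := by
  unfold suc; infer_instance

/-! ### Replacement -/

theorem exists_repl (R : M → M → Prop) [h : Dfn2 R] (a : M) (hR : ∀ x, x ∈ a → ∃! y, R x y) :
    ∃ c : M, IsSet c ∧ ∀ y, y ∈ c ↔ ∃ x, x ∈ a ∧ R x y := by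
  obtain ⟨c, hc, h'⟩ := Model.repl' R h a hR
  exact ⟨c, ⟨hc⟩, h'⟩

open Classical in
/-- `{f x | x ∈ a}` -/
noncomputable def img (a : M) (f : M → M) : M :=
  if h : ∃ c, IsSet c ∧ ∀ y, y ∈ c ↔ ∃ x, x ∈ a ∧ y = f x then Classical.choose h else ∅

instance (a : M) (f : M → M) : IsSet (img a f) := by
  unfold img
  split_ifs with h
  · exact (Classical.choose_spec h).1
  · infer_instance

@[simp] theorem mem_img {a : M} {f : M → M} [hf : Fn1 f] {y : M} : y ∈ img a f ↔ ∃ x, x ∈ a ∧ y = f x := by
  have hR : Dfn2 (fun x y : M => y = f x) := by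
    have : DFun (fun v : Fin 2 → M => f (v 0)) := DFun.comp1 (F := f) hf (fun v => v 0)
    infer_instance
  have h : ∃ c : M, IsSet c ∧ ∀ y, y ∈ c ↔ ∃ x, x ∈ a ∧ y = f x :=
    exists_repl (fun x y => y = f x) a (fun x _ => ⟨f x, rfl, fun y hy => hy⟩)
  have : img a f = Classical.choose h := by unfold img; exact dif_pos h
  rw [this]
  exact (Classical.choose_spec h).2 y

instance img_dfun {ι : Type} (t : (ι → M) → M) (f : (ι → M) → M → M) [ht : DFun t]
    [h : DFun (fun w : Option ι → M => f (fun i => w (some i)) (w none))] :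
    DFun (fun v => img (t v) (f v)) := by
  have h1 := DFun.rename (κ := Option ι) some ht
  have h1' := DFun.rename (κ := Option (Option ι)) (fun i => some (some i)) ht
  have h2 : DFun (fun w : Option (Option (Option ι)) → M => f (fun i => w (some (some (some i)))) (w none)) :=
    DFun.rename (fun o : Option ι => o.elim none (fun i => some (some (some i)))) h
  have h3 := DFun.rename (κ := Option (Option (Option ι))) (fun i => some (some (some i))) ht
  refine DFun.of_iff (fun v y => IsSet y ∧ ∀ z, z ∈ y ↔ ∃ x, x ∈ t v ∧ z = f v x) inferInstance ?_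
  intro v y
  have := DFun.fix h v
  constructor
  · rintro rfl
    exact ⟨inferInstance, fun x => mem_img⟩
  · rintro ⟨hy, hy'⟩
    exact ext (fun x => by rw [hy', mem_img])

/-- cartesian product -/
noncomputable def prod (a b : M) : M := bigU (img a (fun x => img b (fun y => opair x y)))

instance (a b : M) : IsSet (prod a b) := by unfold prod; infer_instance

theorem mem_prod {a b z : M} : z ∈ prod a b ↔ ∃ x, x ∈ a ∧ ∃ y, y ∈ b ∧ z = opair x y := by
  simp only [prod, mem_bigU, mem_img]
  constructor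
  · rintro ⟨y, ⟨x, hx, rfl⟩, hz⟩
    rw [mem_img] at hz
    exact ⟨x, hx, hz⟩
  · rintro ⟨x, hx, hz⟩
    exact ⟨_, ⟨x, hx, rfl⟩, by rw [mem_img]; exact hz⟩

@[simp] theorem opair_mem_prod {a b x y : M} : opair x y ∈ prod a b ↔ x ∈ a ∧ y ∈ b := by
  rw [mem_prod]; constructor
  · rintro ⟨x', hx', y', hy', h⟩
    simp at h; obtain ⟨rfl, rfl⟩ := h; exact ⟨hx', hy'⟩
  · rintro ⟨hx, hy⟩; exact ⟨x, hx, y, hy, rfl⟩

instance prod_dfun {ι : Type} (t s : (ι → M) → M) [DFun t] [hs : DFun s] :
    DFun (fun v => prod (t v) (s v)) := by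
  have := DFun.rename (κ := Option ι) some hs
  unfold prod; infer_instance

end

end Pool.Agent.H55.ZFU
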