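import Pool.Agent.H55.SCDefs

set_option autoImplicit false

/-!
# Models of ZFC; splitting numbers and club-splitting sequences inside a model

All notions are relativized to a structure `(M, E)`: all quantifiers range over `M` and `E` is the membership
relation of the model.
-/

namespace Pool.Agent.H55.CS

open Pool.Agent.H55.SC

universe u

variable {M : Type u} (E : M → M → Prop)

/-- `(M, E)` is a model of `ZFC`: it satisfies `ZF` and every set of pairwise disjoint nonempty sets has a
choice set. -/
structure ZFC : Prop where
  zf : ZF E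
  choice : ∀ a, (∀ x, E x a → ∃ z, E z x) → (∀ x y z, E x a → E y a → E z x → E z y → x = y) →
    ∃ c, ∀ x, E x a → ∃! z, E z x ∧ E z c

/-- In the model, `a` is a subset of `b`. -/
def Sub (a b : M) : Prop := ∀ x, E x a → E x b

/-- In the model, `f` is a function from `a` to `b`. -/
def IsFun (f a b : M) : Prop :=
  (∀ p, E p f → ∃ x y, E x a ∧ E y b ∧ IsPair E p x y) ∧ ∀ x, E x a → ∃! y, Rel E f x y

/-- In the model, `f` is a function from `a` onto `b`. -/
def IsSurj (f a b : M) : Prop := IsFun E f a b ∧ ∀ y, E y b → ∃ x, E x a ∧ Rel E f x y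

/-- In the model, `a` is countable (empty or an image of the set `w` of natural numbers). -/
def IsCountable (w a : M) : Prop := (∀ x, ¬ E x a) ∨ ∃ f, IsSurj E f w a

/-- In the model, `a` is a transitive set. -/
def IsTrans (a : M) : Prop := ∀ x, E x a → Sub E x a

/-- In the model, `a` is an ordinal (a transitive set of transitive sets). -/
def IsOrdinal (a : M) : Prop := IsTrans E a ∧ ∀ x, E x a → IsTrans E x

/-- In the model, `κ` is the cardinal `ω₁`: the least uncountable ordinal. -/
def IsOmega1 (w κ : M) : Prop := IsOrdinal E κ ∧ ¬ IsCountable E w κ ∧ ∀ α, E α κ → IsCountable E w α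

/-- In the model, `a` is an infinite subset of the set `w` of natural numbers. For natural numbers, `E` is the
order. -/
def IsInf (w a : M) : Prop := Sub E a w ∧ ∀ n, E n w → ∃ m, E m a ∧ E n m

/-- In the model, `x` splits `a`: the sets `x ∩ a` and `a \ x` are infinite. -/
def Splits (w x a : M) : Prop :=
  (∀ n, E n w → ∃ m, E m a ∧ E m x ∧ E n m) ∧ ∀ n, E n w → ∃ m, E m a ∧ ¬ E m x ∧ E n m

/-- In the model, `F` is a family of subsets of `ω` such that every infinite subset of `ω` is split by a member
of `F`. -/
def IsSplitting (w F : M) : Prop := (∀ x, E x F → Sub E x w) ∧ ∀ a, IsInf E w a → ∃ x, E x F ∧ Splits E w x a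

/-- In the model, `F` is a family of subsets of `ω` such that for every sequence `u` of infinite subsets of `ω`,
of length `ω`, a single member of `F` splits all members of the sequence. -/
def IsOmegaSplitting (w F : M) : Prop := (∀ x, E x F → Sub E x w) ∧
  ∀ u, (∀ n, E n w → ∃! a, Rel E u n a) → (∀ n a, E n w → Rel E u n a → IsInf E w a) →
    ∃ x, E x F ∧ ∀ n a, E n w → Rel E u n a → Splits E w x a

/-- In the model, the least size of a family with the property `φ` is `ℵ₁`: there is such a family which is an
image of `κ = ω₁`, and no such family is countable. -/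
def LeastAleph1 (w κ : M) (φ : M → Prop) : Prop :=
  (∃ F, φ F ∧ ∃ f, IsSurj E f κ F) ∧ ∀ F, φ F → ¬ IsCountable E w F

/-- In the model, `C` is a closed unbounded subset of the ordinal `κ`. -/
def IsClub (κ C : M) : Prop := Sub E C κ ∧ (∀ α, E α κ → ∃ β, E β C ∧ E α β) ∧
  ∀ δ, E δ κ → (∃ α, E α δ) → (∀ α, E α δ → ∃ β, E β C ∧ E α β ∧ E β δ) → E δ C

/-- In the model, `A` is a club-splitting sequence of length `κ`: it assigns to each `α < κ` an infinite subset
`A α` of `ω`, and for every infinite subset `b` of `ω` the set of all `α < κ` such that `A α` splits `b` contains a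
closed unbounded subset of `κ`. -/
def IsClubSplitting (w κ A : M) : Prop := (∀ α, E α κ → ∃! a, Rel E A α a) ∧
  (∀ α a, E α κ → Rel E A α a → IsInf E w a) ∧
  ∀ b, IsInf E w b → ∃ C, IsClub E κ C ∧ ∀ α a, E α C → Rel E A α a → Splits E w a b

end Pool.Agent.H55.CS
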