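import Mathlib
import Pool.Agent.H55.Basic

set_option autoImplicit false
set_option linter.all false
universe u

/-!
# Functions, natural numbers and recursion inside a model
-/

namespace Pool.Agent.H55.ZFU

variable {M : Type u} [Model M]

open Classical in
/-- value of a function -/
noncomputable def app (f x : M) : M := if h : ∃! y, opair x y ∈ f then Classical.choose h.exists else ∅

theorem app_eq {f x y : M} (h : ∃! y, opair x y ∈ f) (hy : opair x y ∈ f) : app f x = y := by
  have : app f x = Classical.choose h.exists := by unfold app; exact dif_pos h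
  rw [this]
  exact h.unique (Classical.choose_spec h.exists) hy

theorem opair_app {f x : M} (h : ∃! y, opair x y ∈ f) : opair x (app f x) ∈ f := by
  have : app f x = Classical.choose h.exists := by unfold app; exact dif_pos h
  rw [this]
  exact Classical.choose_spec h.exists

instance app_dfun {ι : Type} (t s : (ι → M) → M) [DFun t] [DFun s] : DFun (fun v => app (t v) (s v)) := by
  refine DFun.comp2 (F := fun a b : M => app a b) ?_ t s
  refine DFun.of_iff (fun v y => (opair (v 1) y ∈ v 0 ∧ ∀ z, opair (v 1) z ∈ v 0 → z = y) ∨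
    (¬ (∃ y, opair (v 1) y ∈ v 0 ∧ ∀ z, opair (v 1) z ∈ v 0 → z = y) ∧ y = ∅)) inferInstance ?_
  intro v y
  by_cases h : ∃! y, opair (v 1) y ∈ v 0
  · have h' : ∃ y, opair (v 1) y ∈ v 0 ∧ ∀ z, opair (v 1) z ∈ v 0 → z = y := h
    constructor
    · rintro rfl
      exact Or.inl ⟨opair_app h, fun z hz => h.unique hz (opair_app h)⟩
    · rintro (⟨h1, h2⟩ | ⟨h1, h2⟩)
      · exact (app_eq h h1).symm
      · exact absurd h' h1
  · have h' : ¬ ∃ y, opair (v 1) y ∈ v 0 ∧ ∀ z, opair (v 1) z ∈ v 0 → z = y := h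
    have h2 : app (v 0) (v 1) = ∅ := by unfold app; exact dif_neg h
    constructor
    · rintro rfl
      exact Or.inr ⟨h', h2⟩
    · rintro (⟨h1, h3⟩ | ⟨h1, h3⟩)
      · exact absurd ⟨y, h1, h3⟩ h'
      · rw [h3, h2]

/-- `f` is a function with domain `a` -/
def FnOn (f a : M) : Prop :=
  IsSet f ∧ (∀ p, p ∈ f → ∃ x, x ∈ a ∧ ∃ y, p = opair x y) ∧ ∀ x, x ∈ a → ∃ y, opair x y ∈ f ∧ ∀ z, opair x z ∈ f → z = y

instance fnOn_dfn {ι : Type} (t s : (ι → M) → M) [DFun t] [DFun s] : Dfn (fun v => FnOn (t v) (s v)) := by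
  refine Dfn.comp2 (P := fun f a : M => FnOn f a) ?_ t s
  unfold FnOn; infer_instance

theorem FnOn.isSet {f a : M} (h : FnOn f a) : IsSet f := h.1

theorem FnOn.exu {f a x : M} (h : FnOn f a) (hx : x ∈ a) : ∃! y, opair x y ∈ f := h.2.2 x hx

theorem FnOn.mem {f a x : M} (h : FnOn f a) (hx : x ∈ a) : opair x (app f x) ∈ f := opair_app (h.exu hx)

theorem FnOn.dom {f a x y : M} (h : FnOn f a) (hx : opair x y ∈ f) : x ∈ a := by
  obtain ⟨x', hx', y', he⟩ := h.2.1 _ hx
  simp at he; rw [he.1]; exact hx'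

theorem FnOn.app_eq {f a x y : M} (h : FnOn f a) (hx : opair x y ∈ f) : app f x = y :=
  ZFU.app_eq (h.exu (h.dom hx)) hx

theorem FnOn.mem_iff {f a p : M} (h : FnOn f a) : p ∈ f ↔ ∃ x, x ∈ a ∧ p = opair x (app f x) := by
  constructor
  · intro hp
    obtain ⟨x, hx, y, rfl⟩ := h.2.1 _ hp
    exact ⟨x, hx, by rw [h.app_eq hp]⟩
  · rintro ⟨x, hx, rfl⟩
    exact h.mem hx

theorem FnOn.ext {f g a : M} (hf : FnOn f a) (hg : FnOn g a) (h : ∀ x, x ∈ a → app f x = app g x) : f = g := by
  have := hf.isSet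
  have := hg.isSet
  apply ZFU.ext
  intro p
  rw [hf.mem_iff, hg.mem_iff]
  constructor
  · rintro ⟨x, hx, rfl⟩; exact ⟨x, hx, by rw [h x hx]⟩
  · rintro ⟨x, hx, rfl⟩; exact ⟨x, hx, by rw [h x hx]⟩

/-- the function `x ∈ a ↦ F x` -/
noncomputable def lam (a : M) (F : M → M) : M := img a (fun x => opair x (F x))

instance (a : M) (F : M → M) : IsSet (lam a F) := by unfold lam; infer_instance

theorem Fn1.comp {F : M → M} (h : Fn1 F) {ι : Type} (t : (ι → M) → M) [DFun t] :
    DFun (fun v => F (t v)) := DFun.comp1 h t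

theorem mem_lam {a : M} {F : M → M} [hF : Fn1 F] {p : M} : p ∈ lam a F ↔ ∃ x, x ∈ a ∧ p = opair x (F x) := by
  simp [lam]

theorem lam_fnOn (a : M) (F : M → M) [hF : Fn1 F] : FnOn (lam a F) a := by
  refine ⟨inferInstance, ?_, ?_⟩
  · intro p hp
    rw [mem_lam] at hp
    obtain ⟨x, hx, rfl⟩ := hp
    exact ⟨x, hx, _, rfl⟩
  · intro x hx
    refine ⟨F x, by rw [mem_lam]; exact ⟨x, hx, rfl⟩, ?_⟩
    intro z hz
    rw [mem_lam] at hz
    obtain ⟨x', _, h⟩ := hz
    simp at h
    rw [h.2, h.1]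

@[simp] theorem app_lam {a : M} {F : M → M} [hF : Fn1 F] {x : M} (hx : x ∈ a) : app (lam a F) x = F x :=
  (lam_fnOn a F).app_eq (by rw [mem_lam]; exact ⟨x, hx, rfl⟩)

instance lam_dfun {ι : Type} (t : (ι → M) → M) (f : (ι → M) → M → M) [ht : DFun t]
    [h : DFun (fun w : Option ι → M => f (fun i => w (some i)) (w none))] :
    DFun (fun v => lam (t v) (f v)) := by
  unfold lam; infer_instance

/-- existence of functions from definable functional relations -/
theorem exists_fn (R : M → M → Prop) [Dfn2 R] (a : M) (h : ∀ x, x ∈ a → ∃! y, R x y) :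
    ∃ f, FnOn f a ∧ ∀ x, x ∈ a → R x (app f x) := by
  have hR : Dfn2 R := inferInstance
  have : Dfn2 (fun x p => ∃ y, p = opair x y ∧ R x y) := by
    have : Dfn (fun v : Option (Fin 2) → M => R (v (some 0)) (v none)) :=
      Dfn.comp2 hR (fun v => v (some 0)) (fun v => v none)
    infer_instance
  obtain ⟨f, hf, hf'⟩ := exists_repl (fun x p => ∃ y, p = opair x y ∧ R x y) a (by
    intro x hx
    obtain ⟨y, hy, hy'⟩ := h x hx
    refine ⟨opair x y, ⟨y, rfl, hy⟩, ?_⟩
    rintro p ⟨z, rfl, hz⟩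
    rw [hy' z hz])
  have hfn : FnOn f a := by
    refine ⟨hf, ?_, ?_⟩
    · intro p hp
      obtain ⟨x, hx, y, hy, _⟩ := (hf' p).1 hp
      exact ⟨x, hx, y, hy⟩
    · intro x hx
      obtain ⟨y, hy, hy'⟩ := h x hx
      refine ⟨y, (hf' _).2 ⟨x, hx, y, rfl, hy⟩, ?_⟩
      intro z hz
      obtain ⟨x', _, z', he, hz'⟩ := (hf' _).1 hz
      simp at he
      obtain ⟨rfl, rfl⟩ := he
      exact hy' _ hz'
  refine ⟨f, hfn, ?_⟩
  intro x hx
  have := hfn.mem hx
  obtain ⟨x', _, z', he, hz'⟩ := (hf' _).1 this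
  simp at he
  obtain ⟨rfl, rfl⟩ := he
  exact hz'

/-- restriction -/
noncomputable def restr (f a : M) : M := sep f (fun p => ∃ x, x ∈ a ∧ ∃ y, p = opair x y)

instance (f a : M) : IsSet (restr f a) := by unfold restr; infer_instance

instance restr_dfun {ι : Type} (t s : (ι → M) → M) [DFun t] [DFun s] : DFun (fun v => restr (t v) (s v)) := by
  refine DFun.comp2 (F := fun a b : M => restr a b) ?_ t s
  unfold restr; infer_instance

@[simp] theorem mem_restr {f a p : M} : p ∈ restr f a ↔ p ∈ f ∧ ∃ x, x ∈ a ∧ ∃ y, p = opair x y := by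
  simp [restr]

theorem opair_mem_restr {f a x y : M} : opair x y ∈ restr f a ↔ opair x y ∈ f ∧ x ∈ a := by
  rw [mem_restr]
  constructor
  · rintro ⟨h, x', hx', y', he⟩
    simp at he
    obtain ⟨rfl, rfl⟩ := he
    exact ⟨h, hx'⟩
  · rintro ⟨h, hx⟩; exact ⟨h, x, hx, y, rfl⟩

theorem restr_fnOn {f a b : M} (h : FnOn f a) (hb : b ⊆ a) : FnOn (restr f b) b := by
  refine ⟨inferInstance, ?_, ?_⟩
  · intro p hp
    rw [mem_restr] at hp
    exact hp.2
  · intro x hx
    refine ⟨app f x, opair_mem_restr.2 ⟨h.mem (hb x hx), hx⟩, ?_⟩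
    intro z hz
    exact (h.app_eq (opair_mem_restr.1 hz).1).symm

theorem app_restr {f a b x : M} (h : FnOn f a) (hb : b ⊆ a) (hx : x ∈ b) : app (restr f b) x = app f x :=
  (restr_fnOn h hb).app_eq (opair_mem_restr.2 ⟨h.mem (hb x hx), hx⟩)

/-- the set of functions from `a` to `b` -/
noncomputable def funs (a b : M) : M := sep (pow (prod a b)) (fun f => FnOn f a)

instance (a b : M) : IsSet (funs a b) := by unfold funs; infer_instance

instance funs_dfun {ι : Type} (t s : (ι → M) → M) [DFun t] [DFun s] : DFun (fun v => funs (t v) (s v)) := by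
  refine DFun.comp2 (F := fun a b : M => funs a b) ?_ t s
  unfold funs; infer_instance

theorem mem_funs {a b f : M} : f ∈ funs a b ↔ FnOn f a ∧ ∀ x, x ∈ a → app f x ∈ b := by
  rw [funs, mem_sep, mem_pow]
  constructor
  · rintro ⟨⟨h1, h2⟩, h3⟩
    refine ⟨h3, fun x hx => ?_⟩
    exact (opair_mem_prod.1 (h2 _ (h3.mem hx))).2
  · rintro ⟨h1, h2⟩
    refine ⟨⟨h1.isSet, fun p hp => ?_⟩, h1⟩
    obtain ⟨x, hx, rfl⟩ := h1.mem_iff.1 hp
    simp [hx, h2 x hx]

/-! ### Natural numbers -/

/-- inductive sets -/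
def Inductive' (I : M) : Prop := ∅ ∈ I ∧ ∀ x, x ∈ I → suc x ∈ I

instance inductive_dfn {ι : Type} (t : (ι → M) → M) [DFun t] : Dfn (fun v => Inductive' (t v)) := by
  refine Dfn.comp1 (P := fun f : M => Inductive' f) ?_ t
  unfold Inductive'; infer_instance

theorem exists_inductive : ∃ I : M, Inductive' I := by
  obtain ⟨w, ⟨e, he, hu, hne⟩, hs⟩ := Model.inf' (M := M)
  refine ⟨w, ?_, ?_⟩
  · have : e = ∅ := by
      have : IsSet e := ⟨hu⟩
      exact eq_empty_iff.2 hne
    rw [← this]; exact he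
  · intro x hx
    obtain ⟨y, hy, hy'⟩ := hs x hx
    have : suc x = y := by
      have : IsSet y := isSet_of_mem (x := x) ((hy' x).2 (Or.inr rfl))
      apply ext
      intro z
      rw [mem_suc]
      exact (hy' z).symm
    rw [this]; exact hy

/-- the natural numbers -/
noncomputable def omega : M := sep (Classical.choose (exists_inductive (M := M))) (fun x => ∀ I : M, Inductive' I → x ∈ I)

instance : IsSet (omega : M) := by unfold omega; infer_instance

theorem mem_omega {x : M} : x ∈ (omega : M) ↔ ∀ I : M, Inductive' I → x ∈ I := by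
  rw [omega, mem_sep]
  constructor
  · exact fun h => h.2
  · exact fun h => ⟨h _ (Classical.choose_spec (exists_inductive (M := M))), h⟩

@[simp] theorem empty_mem_omega : (∅ : M) ∈ (omega : M) := mem_omega.2 (fun I hI => hI.1)

@[simp] theorem suc_mem_omega {n : M} (h : n ∈ (omega : M)) : suc n ∈ (omega : M) :=
  mem_omega.2 (fun I hI => hI.2 _ (mem_omega.1 h I hI))

theorem omega_induction (P : M → Prop) [Dfn1 P] (h0 : P ∅) (hs : ∀ n, n ∈ (omega : M) → P n → P (suc n)) :
    ∀ n, n ∈ (omega : M) → P n := by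
  intro n hn
  have h : Inductive' (sep (omega : M) P) := by
    refine ⟨by simp [h0], ?_⟩
    intro x hx
    simp only [mem_sep] at hx ⊢
    exact ⟨suc_mem_omega hx.1, hs x hx.1 hx.2⟩
  have := mem_omega.1 hn _ h
  simp only [mem_sep] at this
  exact this.2

theorem omega_cases {n : M} (hn : n ∈ (omega : M)) : n = ∅ ∨ ∃ m, m ∈ (omega : M) ∧ n = suc m := by
  refine omega_induction (fun n : M => n = ∅ ∨ ∃ m, m ∈ (omega : M) ∧ n = suc m) (Or.inl rfl) ?_ n hn
  intro n hn _
  exact Or.inr ⟨n, hn, rfl⟩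

/-- transitive sets -/
def Trans (a : M) : Prop := ∀ x, x ∈ a → ∀ y, y ∈ x → y ∈ a

instance trans_dfn {ι : Type} (t : (ι → M) → M) [DFun t] : Dfn (fun v => Trans (t v)) := by
  refine Dfn.comp1 (P := fun f : M => Trans f) ?_ t
  unfold Trans; infer_instance

theorem nat_trans {n : M} (hn : n ∈ (omega : M)) : Trans n := by
  refine omega_induction (fun n : M => Trans n) ?_ ?_ n hn
  · intro x hx; simp at hx
  · intro n hn ih x hx y hy
    simp only [mem_suc] at hx ⊢
    rcases hx with hx | rfl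
    · exact Or.inl (ih x hx y hy)
    · exact Or.inl hy

theorem omega_trans : Trans (omega : M) := by
  intro n hn
  refine omega_induction (fun n : M => ∀ y, y ∈ n → y ∈ (omega : M)) ?_ ?_ n hn
  · intro y hy; simp at hy
  · intro n hn ih y hy
    simp only [mem_suc] at hy
    rcases hy with hy | rfl
    · exact ih y hy
    · exact hn

theorem not_mem_self (x : M) : x ∉ x := by
  intro h
  obtain ⟨y, hy, hy'⟩ := foundation (a := sing x) (x := x) (by simp)
  simp at hy
  subst hy
  exact hy' _ h (by simp)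

theorem not_mem_mem {x y : M} (h : x ∈ y) (h' : y ∈ x) : False := by
  obtain ⟨z, hz, hz'⟩ := foundation (a := upair x y) (x := x) (by simp)
  simp at hz
  rcases hz with rfl | rfl
  · exact hz' _ h' (by simp)
  · exact hz' _ h (by simp)

theorem nat_isSet {n : M} (hn : n ∈ (omega : M)) : IsSet n := by
  rcases omega_cases hn with rfl | ⟨m, _, rfl⟩ <;> infer_instance

theorem suc_inj {m n : M} [IsSet m] [IsSet n] (h : suc m = suc n) : m = n := by
  have h1 : m ∈ suc n := by rw [← h]; simp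
  have h2 : n ∈ suc m := by rw [h]; simp
  simp at h1 h2
  rcases h1 with h1 | h1
  · rcases h2 with h2 | h2
    · exact (not_mem_mem h1 h2).elim
    · exact h2.symm
  · exact h1

theorem suc_ne_empty (n : M) : suc n ≠ ∅ := by
  rw [ne_empty_iff]; exact ⟨n, by simp⟩

end Pool.Agent.H55.ZFU
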