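import Mathlib
import Pool.Agent.H55.Func

set_option autoImplicit false
set_option linter.all false
universe u

/-!
# Recursion inside a model
-/

namespace Pool.Agent.H55.ZFU

variable {M : Type u} [Model M]

open Classical in
/-- conditional -/
noncomputable def iteM (p : Prop) (x y : M) : M := if p then x else y

@[simp] theorem iteM_pos {p : Prop} (h : p) (x y : M) : iteM p x y = x := by simp [iteM, h]
@[simp] theorem iteM_neg {p : Prop} (h : ¬ p) (x y : M) : iteM p x y = y := by simp [iteM, h]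

instance iteM_dfun {ι : Type} (φ : (ι → M) → Prop) (t s : (ι → M) → M) [hφ : Dfn φ] [ht : DFun t] [hs : DFun s] :
    DFun (fun v => iteM (φ v) (t v) (s v)) := by
  have h1 := DFun.rename (κ := Option ι) some ht
  have h2 := DFun.rename (κ := Option ι) some hs
  have h3 := Dfn.rename (κ := Option ι) some hφ
  refine DFun.of_iff (fun v y => (φ v ∧ y = t v) ∨ (¬ φ v ∧ y = s v)) inferInstance ?_
  intro v y
  by_cases h : φ v <;> simp [h]

/-! ### Recursion on the natural numbers -/

theorem suc_mem_suc_imp {k n : M} (hn : n ∈ (omega : M)) (h : suc k ∈ suc n) : k ∈ n := by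
  simp only [mem_suc] at h
  rcases h with h | h
  · exact nat_trans hn _ h _ (by simp)
  · rw [← h]; simp

section nat
variable (a0 : M) (H : M → M → M) [hH : Fn2 H]

/-- attempts at recursion up to `n` -/
def Att (n g : M) : Prop := FnOn g (suc n) ∧ app g ∅ = a0 ∧ ∀ k, k ∈ n → app g (suc k) = H k (app g k)

theorem att_dfn : Dfn2 (fun n g => Att a0 H n g) := by
  unfold Att
  have : ∀ {ι : Type} (t s : (ι → M) → M) [DFun t] [DFun s], DFun (fun v => H (t v) (s v)) :=
    fun t s => DFun.comp2 hH t s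
  infer_instance

theorem att_unique {n g g' : M} (hn : n ∈ (omega : M)) (h : Att a0 H n g) (h' : Att a0 H n g') :
    g = g' := by
  apply FnOn.ext h.1 h'.1
  have : ∀ k, k ∈ (omega : M) → (k ∈ suc n → app g k = app g' k) := by
    refine omega_induction (fun k => (k ∈ suc n → app g k = app g' k)) ?_ ?_
    · intro _; rw [h.2.1, h'.2.1]
    · intro k hk ih hk'
      have hkn := suc_mem_suc_imp hn hk'
      rw [h.2.2 k hkn, h'.2.2 k hkn, ih (by simp [hkn])]
  intro x hx
  exact this x (omega_trans _ (suc_mem_omega hn) x hx) hx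

theorem empty_mem_suc {n : M} (hn : n ∈ (omega : M)) : ∅ ∈ suc n := by
  refine omega_induction (fun n : M => ∅ ∈ suc n) (by simp) ?_ n hn
  intro n hn ih
  rw [mem_suc]; exact Or.inl ih

theorem suc_mem_suc {k n : M} (hn : n ∈ (omega : M)) (h : k ∈ n) : suc k ∈ suc n := by
  revert h
  refine omega_induction (fun n : M => k ∈ n → suc k ∈ suc n) (by intro h; simp at h) ?_ n hn
  intro n hn ih h
  rw [mem_suc] at h
  rw [mem_suc]
  rcases h with h | h
  · exact Or.inl (ih h)
  · right; rw [h]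

theorem att_exists {n : M} (hn : n ∈ (omega : M)) : ∃ g, Att a0 H n g := by
  have hd := att_dfn a0 H
  have : Dfn1 (fun n => ∃ g, Att a0 H n g) := by
    have : Dfn (fun v : Option (Fin 1) → M => Att a0 H (v (some 0)) (v none)) := 
      Dfn.comp2 hd (fun v => v (some 0)) (fun v => v none)
    infer_instance
  refine omega_induction (fun n => ∃ g, Att a0 H n g) ?_ ?_ n hn
  · refine ⟨lam (suc ∅) (fun _ => a0), lam_fnOn _ _, app_lam (by simp), ?_⟩
    intro k hk; simp at hk
  · rintro n hn ⟨g, h1, h2, h3⟩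
    have h4 : ∀ k, k ∈ suc n → app (lam (suc (suc n)) (fun k => iteM (k ∈ suc n) (app g k) (H n (app g n)))) k = app g k := by
      intro k hk
      rw [app_lam (by rw [mem_suc]; exact Or.inl hk), iteM_pos hk]
    have h5 : app (lam (suc (suc n)) (fun k => iteM (k ∈ suc n) (app g k) (H n (app g n)))) (suc n) = H n (app g n) := by
      rw [app_lam (by simp), iteM_neg (not_mem_self _)]
    refine ⟨lam (suc (suc n)) (fun k => iteM (k ∈ suc n) (app g k) (H n (app g n))), lam_fnOn _ _, ?_, ?_⟩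
    · rw [h4 _ (empty_mem_suc hn), h2]
    · intro k hk
      rw [h4 k hk]
      rw [mem_suc] at hk
      rcases hk with hk | rfl
      · rw [h4 _ (suc_mem_suc hn hk), h3 k hk]
      · rw [h5]

/-- recursion on the natural numbers -/
theorem omega_rec : ∃ f, FnOn f (omega : M) ∧ app f ∅ = a0 ∧
    ∀ n, n ∈ (omega : M) → app f (suc n) = H n (app f n) := by
  have hd := att_dfn a0 H
  have : Dfn2 (fun n y => ∃ g, Att a0 H n g ∧ y = app g n) := by
    have : Dfn (fun v : Option (Fin 2) → M => Att a0 H (v (some 0)) (v none)) := 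
      Dfn.comp2 hd (fun v => v (some 0)) (fun v => v none)
    infer_instance
  obtain ⟨f, hf, hf'⟩ := exists_fn (fun n y => ∃ g, Att a0 H n g ∧ y = app g n) (omega : M) (by
    intro n hn
    obtain ⟨g, hg⟩ := att_exists a0 H hn
    refine ⟨app g n, ⟨g, hg, rfl⟩, ?_⟩
    rintro y ⟨g', hg', rfl⟩
    rw [att_unique a0 H hn hg hg'])
  refine ⟨f, hf, ?_, ?_⟩
  · obtain ⟨g, hg, h⟩ := hf' ∅ (by simp)
    rw [h, hg.2.1]
  · intro n hn
    obtain ⟨g, hg, h⟩ := hf' _ (suc_mem_omega hn)
    have hsub : suc n ⊆ suc (suc n) := by intro x hx; rw [mem_suc]; exact Or.inl hx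
    have hr : Att a0 H n (restr g (suc n)) := by
      refine ⟨restr_fnOn hg.1 hsub, ?_, ?_⟩
      · rw [app_restr hg.1 hsub (empty_mem_suc hn), hg.2.1]
      · intro k hk
        rw [app_restr hg.1 hsub (suc_mem_suc hn hk), app_restr hg.1 hsub (by simp [hk]),
          hg.2.2 k (by simp [hk])]
    obtain ⟨g', hg', h'⟩ := hf' _ hn
    rw [h, h', att_unique a0 H hn hg' hr, app_restr hg.1 hsub (by simp), hg.2.2 n (by simp)]

end nat

/-! ### Transitive closure, induction -/

theorem exists_trans (x : M) : ∃ t : M, IsSet t ∧ Trans t ∧ x ∈ t := by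
  obtain ⟨f, hf, hf0, hfs⟩ := omega_rec (sing x) (fun _ y => bigU y)
  refine ⟨bigU (img omega (fun n => app f n)), inferInstance, ?_, ?_⟩
  · intro y hy z hz
    simp only [mem_bigU, mem_img] at hy ⊢
    obtain ⟨w, ⟨n, hn, rfl⟩, hy⟩ := hy
    refine ⟨app f (suc n), ⟨suc n, suc_mem_omega hn, rfl⟩, ?_⟩
    rw [hfs n hn, mem_bigU]
    exact ⟨y, hy, hz⟩
  · simp only [mem_bigU, mem_img]
    exact ⟨app f ∅, ⟨∅, by simp, rfl⟩, by rw [hf0]; simp⟩

/-- `∈`-induction -/
theorem mem_induction (P : M → Prop) [hP : Dfn1 P] (h : ∀ x, (∀ y, y ∈ x → P y) → P x) : ∀ x, P x := by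
  intro x
  by_contra hx
  obtain ⟨t, _, ht, hxt⟩ := exists_trans x
  obtain ⟨y, hy, hy'⟩ := foundation (a := sep t (fun x => ¬ P x)) (x := x) (by simp [hxt, hx])
  simp only [mem_sep] at hy
  apply hy.2
  apply h
  intro z hz
  by_contra hPz
  apply hy' z hz
  simp only [mem_sep]
  exact ⟨ht _ hy.1 _ hz, hPz⟩

section recur
variable (H : M → M → M → M) [hH : Fn3 H]

/-- attempts at `∈`-recursion -/
def AttE (p t f : M) : Prop := Trans t ∧ FnOn f t ∧ ∀ x, x ∈ t → app f x = H p x (restr f x)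

theorem attE_dfn {ι : Type} (p t f : (ι → M) → M) [DFun p] [DFun t] [DFun f] :
    Dfn (fun v => AttE H (p v) (t v) (f v)) := by
  refine Dfn.comp3 (P := fun p t f : M => AttE H p t f) ?_ p t f
  unfold AttE
  have : ∀ {ι : Type} (t s r : (ι → M) → M) [DFun t] [DFun s] [DFun r], DFun (fun v => H (t v) (s v) (r v)) :=
    fun t s r => DFun.comp3 hH t s r
  infer_instance

theorem restr_congr {f f' t t' x : M} (hf : FnOn f t) (hf' : FnOn f' t') (hx : x ⊆ t) (hx' : x ⊆ t')
    (h : ∀ y, y ∈ x → app f y = app f' y) : restr f x = restr f' x := by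
  apply FnOn.ext (restr_fnOn hf hx) (restr_fnOn hf' hx')
  intro y hy
  rw [app_restr hf hx hy, app_restr hf' hx' hy, h y hy]

theorem attE_unique {p t t' f f' : M} (h : AttE H p t f) (h' : AttE H p t' f') :
    ∀ x, x ∈ t → x ∈ t' → app f x = app f' x := by
  refine mem_induction (fun x => x ∈ t → x ∈ t' → app f x = app f' x) ?_
  intro x ih hx hx'
  rw [h.2.2 x hx, h'.2.2 x hx']
  have hs : x ⊆ t := fun y hy => h.1 x hx y hy
  have hs' : x ⊆ t' := fun y hy => h'.1 x hx' y hy
  rw [restr_congr h.2.1 h'.2.1 hs hs' (fun y hy => ih y hy (hs y hy) (hs' y hy))]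

/-- `x` is in the domain of an attempt -/
def HasAtt (p x : M) : Prop := ∃ t f, AttE H p t f ∧ x ∈ t

theorem hasAtt_dfn {ι : Type} (p x : (ι → M) → M) [DFun p] [DFun x] : Dfn (fun v => HasAtt H (p v) (x v)) := by
  refine Dfn.comp2 (P := fun p x : M => HasAtt H p x) ?_ p x
  unfold HasAtt
  have := @attE_dfn M _ H hH
  infer_instance

theorem hasAtt_step {p x : M} (hx : ∀ y, y ∈ x → HasAtt H p y) : HasAtt H p x := by
  have i1 := @attE_dfn M _ H hH
  have i2 := @hasAtt_dfn M _ H hH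
  have i3 : ∀ {ι : Type} (t s r : (ι → M) → M) [DFun t] [DFun s] [DFun r], DFun (fun v => H (t v) (s v) (r v)) :=
    fun t s r => DFun.comp3 hH t s r
  obtain ⟨T, _, hT, hxT⟩ := exists_trans x
  -- the set of elements with attempts
  let A := sep T (fun y => HasAtt H p y)
  have hA : ∀ y, y ∈ A ↔ y ∈ T ∧ HasAtt H p y := fun y => mem_sep
  have hAt : Trans A := by
    intro y hy z hz
    rw [hA] at hy ⊢
    obtain ⟨h1, t, f, h2, h3⟩ := hy
    exact ⟨hT _ h1 _ hz, t, f, h2, h2.1 _ h3 _ hz⟩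
  obtain ⟨g, hg, hg'⟩ := exists_fn (fun y v => ∃ t f, AttE H p t f ∧ y ∈ t ∧ v = app f y) A (by
    intro y hy
    obtain ⟨_, t, f, h2, h3⟩ := (hA y).1 hy
    refine ⟨app f y, ⟨t, f, h2, h3, rfl⟩, ?_⟩
    rintro v ⟨t', f', h2', h3', rfl⟩
    exact attE_unique H h2' h2 y h3' h3)
  have hgatt : AttE H p A g := by
    refine ⟨hAt, hg, ?_⟩
    intro y hy
    obtain ⟨t, f, h2, h3, h4⟩ := hg' y hy
    rw [h4, h2.2.2 y h3]
    have hs : y ⊆ t := fun z hz => h2.1 y h3 z hz
    have hs' : y ⊆ A := fun z hz => hAt y hy z hz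
    rw [restr_congr h2.2.1 hg hs hs' (fun z hz => ?_)]
    obtain ⟨t', f', h2', h3', h4'⟩ := hg' z (hs' z hz)
    rw [h4']
    exact attE_unique H h2 h2' z (hs z hz) h3'
  by_cases hxA : x ∈ A
  · exact ((hA x).1 hxA).2
  -- extend
  have hxs : x ⊆ A := by
    intro y hy
    rw [hA]
    exact ⟨hT _ hxT _ hy, hx y hy⟩
  let g' := lam (un A (sing x)) (fun y => iteM (y ∈ A) (app g y) (H p x (restr g x)))
  have hg'on : FnOn g' (un A (sing x)) := lam_fnOn _ _
  have e1 : ∀ y, y ∈ A → app g' y = app g y := by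
    intro y hy
    show app (lam _ _) y = _
    rw [app_lam (by simp [hy]), iteM_pos hy]
  have e2 : app g' x = H p x (restr g x) := by
    show app (lam _ _) x = _
    rw [app_lam (by simp), iteM_neg hxA]
  refine ⟨un A (sing x), g', ⟨?_, hg'on, ?_⟩, by simp⟩
  · intro y hy z hz
    simp only [mem_un, mem_sing] at hy ⊢
    left
    rcases hy with hy | rfl
    · exact hAt y hy z hz
    · exact hxs z hz
  · intro y hy
    simp only [mem_un, mem_sing] at hy
    rcases hy with hy | rfl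
    · rw [e1 y hy, hgatt.2.2 y hy]
      have hs' : y ⊆ A := fun z hz => hAt y hy z hz
      rw [restr_congr hg hg'on hs' (fun z hz => by simp [hs' z hz]) (fun z hz => (e1 z (hs' z hz)).symm)]
    · rw [e2]
      rw [restr_congr hg hg'on hxs (fun z hz => by simp [hxs z hz]) (fun z hz => (e1 z (hxs z hz)).symm)]

theorem hasAtt_all (p x : M) : HasAtt H p x := by
  have i2 := @hasAtt_dfn M _ H hH
  exact mem_induction (fun x => HasAtt H p x) (fun x hx => hasAtt_step H hx) x

theorem lam_congr {a : M} {F G : M → M} [Fn1 F] [Fn1 G] (h : ∀ x, x ∈ a → F x = G x) : lam a F = lam a G := by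
  apply FnOn.ext (lam_fnOn _ _) (lam_fnOn _ _)
  intro x hx
  rw [app_lam hx, app_lam hx, h x hx]

theorem img_congr {a : M} {F G : M → M} [Fn1 F] [Fn1 G] (h : ∀ x, x ∈ a → F x = G x) : img a F = img a G := by
  apply ext
  intro y
  rw [mem_img, mem_img]
  constructor
  · rintro ⟨x, hx, rfl⟩; exact ⟨x, hx, h x hx⟩
  · rintro ⟨x, hx, rfl⟩; exact ⟨x, hx, (h x hx).symm⟩

/-- `∈`-recursion with a parameter -/
theorem exists_rec : ∃ F : M → M → M, Fn2 F ∧ ∀ p x, F p x = H p x (lam x (fun y => F p y)) := by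
  have i1 := @attE_dfn M _ H hH
  have hex : ∀ p x, ∃ y, ∃ t f, AttE H p t f ∧ x ∈ t ∧ y = app f x := by
    intro p x
    obtain ⟨t, f, h, hx⟩ := hasAtt_all H p x
    exact ⟨_, t, f, h, hx, rfl⟩
  choose F hF using hex
  have hFn : Fn2 F := by
    refine DFun.of_iff (fun v y => ∃ t f, AttE H (v 0) t f ∧ v 1 ∈ t ∧ y = app f (v 1)) inferInstance ?_
    intro v y
    constructor
    · rintro rfl; exact hF _ _
    · rintro ⟨t, f, h, hx, rfl⟩
      obtain ⟨t', f', h', hx', he⟩ := hF (v 0) (v 1)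
      rw [he]
      exact attE_unique H h h' _ hx hx'
  refine ⟨F, hFn, ?_⟩
  intro p x
  obtain ⟨t, f, h, hx, he⟩ := hF p x
  rw [he, h.2.2 x hx]
  have hs : x ⊆ t := fun y hy => h.1 x hx y hy
  have i4 : Fn1 (fun y => F p y) := DFun.comp2 hFn (fun _ => p) (fun v => v 0)
  have : restr f x = lam x (fun y => F p y) := by
    apply FnOn.ext (restr_fnOn h.2.1 hs) (lam_fnOn _ _)
    intro y hy
    rw [app_restr h.2.1 hs hy, app_lam hy]
    obtain ⟨t', f', h', hx', he'⟩ := hF p y
    rw [he']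
    exact attE_unique H h h' _ (hs y hy) hx'
  rw [this]

end recur

end Pool.Agent.H55.ZFU
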