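import Mathlib
import Pool.Agent.H55.Rec

set_option autoImplicit false
set_option linter.all false
universe u

/-!
# Ordinals, rank, kernel, wellordering inside a model
-/

namespace Pool.Agent.H55.ZFU

variable {M : Type u} [Model M]

/-- ordinals -/
def IsOrd (a : M) : Prop := IsSet a ∧ Trans a ∧ ∀ b, b ∈ a → IsSet b ∧ Trans b

instance isOrd_dfn {ι : Type} (t : (ι → M) → M) [DFun t] : Dfn (fun v => IsOrd (t v)) := by
  refine Dfn.comp1 (P := fun a : M => IsOrd a) ?_ t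
  unfold IsOrd; infer_instance

theorem IsOrd.mem {a b : M} (ha : IsOrd a) (hb : b ∈ a) : IsOrd b :=
  ⟨(ha.2.2 b hb).1, (ha.2.2 b hb).2, fun c hc => ha.2.2 c (ha.2.1 b hb c hc)⟩

theorem IsOrd.sub {a b : M} (ha : IsOrd a) (hb : b ∈ a) : b ⊆ a := fun c hc => ha.2.1 b hb c hc

theorem ord_empty : IsOrd (∅ : M) := ⟨inferInstance, fun x hx => by simp at hx, fun x hx => by simp at hx⟩

theorem ord_suc {a : M} (ha : IsOrd a) : IsOrd (suc a) := by
  refine ⟨inferInstance, ?_, ?_⟩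
  · intro x hx y hy
    simp only [mem_suc] at hx ⊢
    rcases hx with hx | rfl
    · exact Or.inl (ha.2.1 x hx y hy)
    · exact Or.inl hy
  · intro b hb
    simp only [mem_suc] at hb
    rcases hb with hb | rfl
    · exact ha.2.2 b hb
    · exact ⟨ha.1, ha.2.1⟩

theorem ord_bigU {s : M} (hs : ∀ a, a ∈ s → IsOrd a) : IsOrd (bigU s) := by
  refine ⟨inferInstance, ?_, ?_⟩
  · intro x hx y hy
    simp only [mem_bigU] at hx ⊢
    obtain ⟨a, ha, hx⟩ := hx
    exact ⟨a, ha, (hs a ha).2.1 x hx y hy⟩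
  · intro b hb
    simp only [mem_bigU] at hb
    obtain ⟨a, ha, hx⟩ := hb
    exact (hs a ha).2.2 b hx

theorem ord_tri : ∀ a : M, IsOrd a → ∀ b, IsOrd b → a ∈ b ∨ a = b ∨ b ∈ a := by
  refine mem_induction (fun a : M => IsOrd a → ∀ b, IsOrd b → a ∈ b ∨ a = b ∨ b ∈ a) ?_
  intro a iha ha
  refine mem_induction (fun b : M => IsOrd b → a ∈ b ∨ a = b ∨ b ∈ a) ?_
  intro b ihb hb
  by_cases h1 : a ⊆ b
  · by_cases h2 : b ⊆ a
    · have := ha.1
      have := hb.1
      exact Or.inr (Or.inl (ext fun x => ⟨h1 x, h2 x⟩))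
    · rw [sub_def] at h2
      push Not at h2
      obtain ⟨c, hc, hca⟩ := h2
      rcases ihb c hc (hb.mem hc) with h | h | h
      · exact Or.inl (hb.2.1 c hc a h)
      · subst h; exact Or.inl hc
      · exact absurd h hca
  · rw [sub_def] at h1
    push Not at h1
    obtain ⟨c, hc, hcb⟩ := h1
    rcases iha c hc (ha.mem hc) b hb with h | h | h
    · exact absurd h hcb
    · subst h; exact Or.inr (Or.inr hc)
    · exact Or.inr (Or.inr (ha.2.1 c hc b h))

theorem ord_sub_iff {a b : M} (ha : IsOrd a) (hb : IsOrd b) : a ⊆ b ↔ a ∈ b ∨ a = b := by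
  constructor
  · intro h
    rcases ord_tri a ha b hb with h' | h' | h'
    · exact Or.inl h'
    · exact Or.inr h'
    · exact (not_mem_self b (h b h')).elim
  · rintro (h | rfl)
    · exact hb.sub h
    · exact Sub.refl _

theorem ord_not_mem {a b : M} (ha : IsOrd a) (hb : IsOrd b) (h : a ∉ b) : b ⊆ a := by
  rw [ord_sub_iff hb ha]
  rcases ord_tri a ha b hb with h' | h' | h'
  · exact absurd h' h
  · exact Or.inr h'.symm
  · exact Or.inl h'

/-- no set contains all ordinals -/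
theorem exists_ord_not_mem (s : M) : ∃ a, IsOrd a ∧ a ∉ s := by
  by_contra hcon
  push Not at hcon
  have h : IsOrd (sep s (fun a => IsOrd a)) := by
    refine ⟨inferInstance, ?_, ?_⟩
    · intro x hx y hy
      simp only [mem_sep] at hx ⊢
      exact ⟨hcon y (hx.2.mem hy), hx.2.mem hy⟩
    · intro b hb
      simp only [mem_sep] at hb
      exact ⟨hb.2.1, hb.2.2.1⟩
  apply not_mem_self (sep s (fun a => IsOrd a))
  simp only [mem_sep]
  exact ⟨hcon _ h, h⟩

theorem least_ord (P : M → Prop) [hP : Dfn1 P] (h : ∃ a, IsOrd a ∧ P a) :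
    ∃ a, IsOrd a ∧ P a ∧ ∀ b, IsOrd b → P b → a ⊆ b := by
  obtain ⟨a, ha, hPa⟩ := h
  obtain ⟨c, hc, hc'⟩ := foundation (a := sep (suc a) P) (x := a) (by simp [hPa])
  simp only [mem_sep] at hc
  have hco : IsOrd c := by
    rcases mem_suc.1 hc.1 with h | h
    · exact ha.mem h
    · rw [h]; exact ha
  refine ⟨c, hco, hc.2, ?_⟩
  intro b hb hPb
  apply ord_not_mem hb hco
  intro hbc
  apply hc' b hbc
  simp only [mem_sep]
  exact ⟨(ord_suc ha).sub hc.1 b hbc, hPb⟩

/-- ordinal induction -/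
theorem ord_induction (P : M → Prop) [hP : Dfn1 P] (h : ∀ a, IsOrd a → (∀ b, b ∈ a → P b) → P a) :
    ∀ a, IsOrd a → P a := by
  have : Dfn1 (fun a => IsOrd a → P a) := by
    have : Dfn (fun v : Fin 1 → M => P (v 0)) := hP
    infer_instance
  refine mem_induction (fun a => IsOrd a → P a) ?_
  intro a ih ha
  exact h a ha (fun b hb => ih b hb (ha.mem hb))

/-! ### Rank -/

theorem exists_rk : ∃ r : M → M, Fn1 r ∧ ∀ x, r x = bigU (img x (fun y => suc (r y))) := by
  obtain ⟨F, hF, h⟩ := exists_rec (M := M) (fun p x g => bigU (img x (fun y => suc (app g y))))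
  have h1 : Fn1 (fun y => F ∅ y) := DFun.comp2 hF (fun _ => ∅) (fun v => v 0)
  refine ⟨fun x => F ∅ x, h1, fun x => ?_⟩
  have h2 : Fn1 (fun y => suc (F ∅ y)) := by
    have : DFun (fun v : Fin 1 → M => F ∅ (v 0)) := h1
    infer_instance
  show F ∅ x = _
  rw [h]
  congr 1
  apply img_congr
  intro y hy
  rw [app_lam hy]

/-- rank -/
noncomputable def rk (x : M) : M := Classical.choose (exists_rk (M := M)) x

instance rk_dfun {ι : Type} (t : (ι → M) → M) [DFun t] : DFun (fun v => rk (t v)) := by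
  refine DFun.comp1 (F := fun a : M => rk a) ?_ t
  exact (Classical.choose_spec (exists_rk (M := M))).1

theorem rk_eq (x : M) : rk x = bigU (img x (fun y => suc (rk y))) :=
  (Classical.choose_spec (exists_rk (M := M))).2 x

theorem rk_lt {x y : M} (h : y ∈ x) : rk y ∈ rk x := by
  rw [rk_eq x]
  simp only [mem_bigU, mem_img]
  exact ⟨suc (rk y), ⟨y, h, rfl⟩, by simp⟩

theorem rk_ord : ∀ x : M, IsOrd (rk x) := by
  refine mem_induction (fun x : M => IsOrd (rk x)) ?_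
  intro x ih
  rw [rk_eq x]
  apply ord_bigU
  intro a ha
  rw [mem_img] at ha
  obtain ⟨y, hy, rfl⟩ := ha
  exact ord_suc (ih y hy)

/-! ### Kernel -/

theorem exists_ker : ∃ r : M → M, Fn1 r ∧ ∀ x, r x = iteM (Ur x) (sing x) (bigU (img x (fun y => r y))) := by
  obtain ⟨F, hF, h⟩ := exists_rec (M := M) (fun p x g => iteM (Ur x) (sing x) (bigU (img x (fun y => app g y))))
  have h1 : Fn1 (fun y => F ∅ y) := DFun.comp2 hF (fun _ => ∅) (fun v => v 0)
  refine ⟨fun x => F ∅ x, h1, fun x => ?_⟩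
  show F ∅ x = _
  rw [h]
  congr 2
  apply img_congr
  intro y hy
  rw [app_lam hy]

/-- kernel: the set of urelements in the transitive closure of the singleton -/
noncomputable def ker (x : M) : M := Classical.choose (exists_ker (M := M)) x

instance ker_dfun {ι : Type} (t : (ι → M) → M) [DFun t] : DFun (fun v => ker (t v)) := by
  refine DFun.comp1 (F := fun a : M => ker a) ?_ t
  exact (Classical.choose_spec (exists_ker (M := M))).1

theorem ker_eq (x : M) : ker x = iteM (Ur x) (sing x) (bigU (img x (fun y => ker y))) :=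
  (Classical.choose_spec (exists_ker (M := M))).2 x

theorem ker_ur {x : M} (h : Ur x) : ker x = sing x := by rw [ker_eq, iteM_pos h]

theorem mem_ker {x u : M} (h : ¬ Ur x) : u ∈ ker x ↔ ∃ y, y ∈ x ∧ u ∈ ker y := by
  rw [ker_eq, iteM_neg h]
  simp only [mem_bigU, mem_img]
  constructor
  · rintro ⟨_, ⟨y, hy, rfl⟩, hu⟩; exact ⟨y, hy, hu⟩
  · rintro ⟨y, hy, hu⟩; exact ⟨_, ⟨y, hy, rfl⟩, hu⟩

instance (x : M) : IsSet (ker x) := by
  by_cases h : Ur x
  · rw [ker_eq, iteM_pos h]; infer_instance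
  · rw [ker_eq, iteM_neg h]; infer_instance

theorem ker_mem {x y : M} (h : y ∈ x) : ker y ⊆ ker x := by
  intro u hu
  rw [mem_ker (fun hu => ur_not_mem hu y h)]
  exact ⟨y, h, hu⟩

theorem ker_is_ur : ∀ x : M, ∀ u, u ∈ ker x → Ur u := by
  refine mem_induction (fun x : M => ∀ u, u ∈ ker x → Ur u) ?_
  intro x ih u hu
  by_cases h : Ur x
  · rw [ker_ur h] at hu; simp at hu; rw [hu]; exact h
  · rw [mem_ker h] at hu
    obtain ⟨y, hy, hu⟩ := hu
    exact ih y hy u hu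

/-- The set of elements with kernel inside `k` and rank in `a`. -/
theorem exists_W (k : M) : ∀ a : M, ∃ w : M, IsSet w ∧ ∀ x, x ∈ w ↔ ker x ⊆ k ∧ rk x ∈ a := by
  have key : ∀ a : M, IsOrd a → ∃ w : M, IsSet w ∧ ∀ x, x ∈ w ↔ ker x ⊆ k ∧ rk x ∈ a := by
    refine ord_induction (fun a : M => ∃ w : M, IsSet w ∧ ∀ x, x ∈ w ↔ ker x ⊆ k ∧ rk x ∈ a) ?_
    intro a ha ih
    obtain ⟨f, hf, hf'⟩ := exists_fn (fun b w : M => IsSet w ∧ ∀ x, x ∈ w ↔ ker x ⊆ k ∧ rk x ∈ b) a (by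
      intro b hb
      obtain ⟨w, hw, hw'⟩ := ih b hb
      refine ⟨w, ⟨hw, hw'⟩, ?_⟩
      rintro w' ⟨h1, h2⟩
      exact ext (fun x => by rw [h2, hw']))
    refine ⟨sep (un k (bigU (img a (fun b => pow (app f b))))) (fun x => ker x ⊆ k ∧ rk x ∈ a), inferInstance, ?_⟩
    intro x
    simp only [mem_sep]
    constructor
    · exact fun h => h.2
    · rintro ⟨h1, h2⟩
      refine ⟨?_, h1, h2⟩
      rw [mem_un]
      by_cases hx : Ur x
      · left
        rw [ker_ur hx] at h1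
        exact h1 x (by simp)
      · right
        simp only [mem_bigU, mem_img]
        refine ⟨_, ⟨rk x, h2, rfl⟩, ?_⟩
        rw [mem_pow]
        refine ⟨⟨hx⟩, ?_⟩
        intro y hy
        rw [(hf' _ h2).2]
        exact ⟨Sub.trans (ker_mem hy) h1, rk_lt hy⟩
  intro a
  have hb : IsOrd (suc (bigU (sep a (fun b => IsOrd b)))) := ord_suc (ord_bigU (fun b hb => (mem_sep.1 hb).2))
  obtain ⟨w, hw, hw'⟩ := key _ hb
  refine ⟨sep w (fun x => rk x ∈ a), inferInstance, ?_⟩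
  intro x
  rw [mem_sep, hw']
  constructor
  · rintro ⟨⟨h1, _⟩, h2⟩; exact ⟨h1, h2⟩
  · rintro ⟨h1, h2⟩
    refine ⟨⟨h1, ?_⟩, h2⟩
    rw [mem_suc]
    apply (ord_sub_iff (rk_ord x) (ord_bigU (fun b hb => (mem_sep.1 hb).2))).1
    intro z hz
    rw [mem_bigU]
    exact ⟨rk x, by rw [mem_sep]; exact ⟨h2, rk_ord x⟩, hz⟩

/-- `W k a = {x : ker x ⊆ k, rk x ∈ a}` -/
noncomputable def W (k a : M) : M := Classical.choose (exists_W k a)

instance (k a : M) : IsSet (W k a) := (Classical.choose_spec (exists_W k a)).1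

@[simp] theorem mem_W {k a x : M} : x ∈ W k a ↔ ker x ⊆ k ∧ rk x ∈ a :=
  (Classical.choose_spec (exists_W k a)).2 x

instance W_dfun {ι : Type} (t s : (ι → M) → M) [DFun t] [DFun s] : DFun (fun v => W (t v) (s v)) := by
  refine DFun.comp2 (F := fun a b : M => W a b) ?_ t s
  refine DFun.of_iff (fun v y => IsSet y ∧ ∀ x, x ∈ y ↔ ker x ⊆ v 0 ∧ rk x ∈ v 1) inferInstance ?_
  intro v y
  constructor
  · rintro rfl
    exact ⟨inferInstance, fun x => mem_W⟩
  · rintro ⟨hy, hy'⟩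
    exact ext (fun x => by rw [hy', mem_W])

/-! ### Choice -/

/-- A model with choice: every set has a choice function. -/
class Choice (M : Type u) [Model M] : Prop where
  ac : ∀ a : M, ∃ c : M, ∀ x, x ∈ a → (∃ y, y ∈ x) → app c x ∈ x

theorem wellorder [Choice M] (a : M) : ∃ θ f : M, IsOrd θ ∧ FnOn f θ ∧ (∀ i, i ∈ θ → app f i ∈ a) ∧
    (∀ i j, i ∈ θ → j ∈ θ → app f i = app f j → i = j) ∧ ∀ x, x ∈ a → ∃ i, i ∈ θ ∧ app f i = x := by
  obtain ⟨c, hc⟩ := Choice.ac (pow a)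
  obtain ⟨F0, hF0, hF0'⟩ := exists_rec (M := M) (fun p x g => app c (diff a (img x (fun y => app g y))))
  have h1 : Fn1 (fun y => F0 ∅ y) := DFun.comp2 hF0 (fun _ => ∅) (fun v => v 0)
  obtain ⟨F, hF⟩ : ∃ F : M → M, F = fun y => F0 ∅ y := ⟨_, rfl⟩
  have iF : Fn1 F := by rw [hF]; exact h1
  have iF' : ∀ {ι : Type} (t : (ι → M) → M) [DFun t], DFun (fun v => F (t v)) := fun t => DFun.comp1 iF t
  have hFeq : ∀ x, F x = app c (diff a (img x F)) := by
    intro x
    rw [hF]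
    show F0 ∅ x = _
    rw [hF0']
    congr 2
    apply img_congr
    intro y hy
    rw [app_lam hy]
  have hFmem : ∀ x, (∃ y, y ∈ diff a (img x F)) → F x ∈ a ∧ ∀ y, y ∈ x → F y ≠ F x := by
    intro x hx
    have h2 : F x ∈ diff a (img x F) := by
      rw [hFeq x]
      apply hc _ _ hx
      rw [mem_pow']
      intro z hz
      exact (mem_diff.1 hz).1
    rw [mem_diff, mem_img] at h2
    refine ⟨h2.1, fun y hy he => h2.2 ⟨y, hy, he.symm⟩⟩
  have hex : ∃ α, IsOrd α ∧ ∀ y, y ∈ a → y ∈ img α F := by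
    by_contra hcon
    push Not at hcon
    have h3 : ∀ α, IsOrd α → ∃ y, y ∈ diff a (img α F) := by
      intro α hα
      obtain ⟨y, hy, hy'⟩ := hcon α hα
      exact ⟨y, mem_diff.2 ⟨hy, hy'⟩⟩
    have h4 : ∀ α β, IsOrd α → IsOrd β → F α = F β → α = β := by
      intro α β hα hβ he
      rcases ord_tri α hα β hβ with h | h | h
      · exact ((hFmem β (h3 β hβ)).2 α h he).elim
      · exact h
      · exact ((hFmem α (h3 α hα)).2 β h he.symm).elim
    have t3 : Dfn2 (fun y α : M => (IsOrd α ∧ F α = y) ∨ ((¬ ∃ α, IsOrd α ∧ F α = y) ∧ α = ∅)) := inferInstance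
    obtain ⟨s, hs, hs'⟩ := exists_repl (fun y α : M => (IsOrd α ∧ F α = y) ∨ ((¬ ∃ α, IsOrd α ∧ F α = y) ∧ α = ∅)) a (by
      intro y hy
      by_cases h : ∃ α, IsOrd α ∧ F α = y
      · obtain ⟨α, hα, he⟩ := h
        refine ⟨α, Or.inl ⟨hα, he⟩, ?_⟩
        rintro β (⟨hβ, hb⟩ | ⟨hβ, _⟩)
        · exact h4 β α hβ hα (hb.trans he.symm)
        · exact (hβ ⟨α, hα, he⟩).elim
      · refine ⟨∅, Or.inr ⟨h, rfl⟩, ?_⟩
        rintro β (⟨hβ, hb⟩ | ⟨_, hβ⟩)
        · exact (h ⟨β, hβ, hb⟩).elim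
        · exact hβ)
    obtain ⟨α, hα, hα'⟩ := exists_ord_not_mem s
    apply hα'
    rw [hs']
    exact ⟨F α, (hFmem α (h3 α hα)).1, Or.inl ⟨hα, rfl⟩⟩
  obtain ⟨θ, hθ, hθ', hmin⟩ := least_ord (fun α => ∀ y, y ∈ a → y ∈ img α F) hex
  have h5 : ∀ i, i ∈ θ → ∃ y, y ∈ diff a (img i F) := by
    intro i hi
    by_contra hcon
    push Not at hcon
    have : θ ⊆ i := hmin i (hθ.mem hi) (by
      intro y hy
      by_contra hy'
      exact hcon y (mem_diff.2 ⟨hy, hy'⟩))
    exact not_mem_self i (this i hi)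
  refine ⟨θ, lam θ F, hθ, lam_fnOn _ _, ?_, ?_, ?_⟩
  · intro i hi
    rw [app_lam hi]
    exact (hFmem i (h5 i hi)).1
  · intro i j hi hj he
    rw [app_lam hi, app_lam hj] at he
    rcases ord_tri i (hθ.mem hi) j (hθ.mem hj) with h | h | h
    · exact ((hFmem j (h5 j hj)).2 i h he).elim
    · exact h
    · exact ((hFmem i (h5 i hi)).2 j h he.symm).elim
  · intro x hx
    have := hθ' x hx
    rw [mem_img] at this
    obtain ⟨i, hi, he⟩ := this
    exact ⟨i, hi, by rw [app_lam hi, he]⟩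

end Pool.Agent.H55.ZFU
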