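import Mathlib
import Pool.Agent.H55.Ord

set_option autoImplicit false
set_option linter.all false
universe u

/-!
# Finite sequences, definable least ordinals, recursion with a parameter, wellorderable sets
-/

namespace Pool.Agent.H55.ZFU

variable {M : Type u} [Model M]

/-- models without urelements -/
class Pure (M : Type u) [Model M] : Prop where
  pure : ∀ x : M, IsSet x

instance (priority := 50) pure_isSet [Pure M] (x : M) : IsSet x := Pure.pure x

/-! ### Least ordinals -/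

open Classical in
/-- the least ordinal with property `P` -/
noncomputable def mu (P : M → Prop) : M :=
  if h : ∃ a, IsOrd a ∧ P a ∧ ∀ b, IsOrd b → P b → a ⊆ b then Classical.choose h else ∅

theorem mu_spec (P : M → Prop) [Dfn1 P] (h : ∃ a, IsOrd a ∧ P a) :
    IsOrd (mu P) ∧ P (mu P) ∧ ∀ b, IsOrd b → P b → mu P ⊆ b := by
  have h1 := least_ord P h
  have : mu P = Classical.choose h1 := by unfold mu; exact dif_pos h1
  rw [this]
  exact Classical.choose_spec h1

theorem mu_eq {P : M → Prop} {a : M} (h : IsOrd a ∧ P a ∧ ∀ b, IsOrd b → P b → a ⊆ b) : mu P = a := by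
  have h1 : ∃ a, IsOrd a ∧ P a ∧ ∀ b, IsOrd b → P b → a ⊆ b := ⟨a, h⟩
  have h2 : mu P = Classical.choose h1 := by unfold mu; exact dif_pos h1
  have h3 := Classical.choose_spec h1
  rw [← h2] at h3
  have := h.1.1
  have := h3.1.1
  exact ext (fun x => ⟨fun hx => h3.2.2 a h.1 h.2.1 x hx, fun hx => h.2.2 _ h3.1 h3.2.1 x hx⟩)

instance mu_dfun {ι : Type} (φ : (ι → M) → M → Prop)
    [h : Dfn (fun w : Option ι → M => φ (fun i => w (some i)) (w none))] : DFun (fun v => mu (φ v)) := by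
  have h2 : Dfn (fun w : Option (Option ι) → M => φ (fun i => w (some (some i))) (w none)) :=
    Dfn.rename (fun o : Option ι => o.elim none (fun i => some (some i))) h
  have h3 : Dfn (fun w : Option (Option (Option ι)) → M => φ (fun i => w (some (some (some i)))) (w none)) :=
    Dfn.rename (fun o : Option ι => o.elim none (fun i => some (some (some i)))) h
  refine DFun.of_iff (fun v y => (IsOrd y ∧ φ v y ∧ ∀ b : M, IsOrd b → φ v b → y ⊆ b) ∨
    ((¬ ∃ a : M, IsOrd a ∧ φ v a ∧ ∀ b : M, IsOrd b → φ v b → a ⊆ b) ∧ y = ∅)) inferInstance ?_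
  intro v y
  by_cases hex : ∃ a, IsOrd a ∧ φ v a ∧ ∀ b, IsOrd b → φ v b → a ⊆ b
  · obtain ⟨a, ha⟩ := hex
    rw [mu_eq ha]
    constructor
    · rintro rfl; exact Or.inl ha
    · rintro (hy | hy)
      · exact (mu_eq hy).symm.trans (mu_eq ha)
      · exact absurd ⟨a, ha⟩ hy.1
  · have h4 : mu (φ v) = ∅ := by unfold mu; exact dif_neg hex
    rw [h4]
    constructor
    · rintro rfl; exact Or.inr ⟨hex, rfl⟩
    · rintro (hy | hy)
      · exact absurd ⟨y, hy⟩ hex
      · exact hy.2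

/-! ### Projections -/

open Classical in
/-- first component -/
noncomputable def fst (p : M) : M := if h : ∃ x y, p = opair x y then Classical.choose h else ∅

open Classical in
/-- second component -/
noncomputable def snd (p : M) : M := if h : ∃ y x, p = opair x y then Classical.choose h else ∅

@[simp] theorem fst_opair (x y : M) : fst (opair x y) = x := by
  have h : ∃ x' y', opair x y = opair x' y' := ⟨x, y, rfl⟩
  have h1 : fst (opair x y) = Classical.choose h := by unfold fst; exact dif_pos h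
  obtain ⟨z, hz⟩ := Classical.choose_spec h
  rw [h1]; exact (opair_inj.1 hz).1.symm

@[simp] theorem snd_opair (x y : M) : snd (opair x y) = y := by
  have h : ∃ y' x', opair x y = opair x' y' := ⟨y, x, rfl⟩
  have h1 : snd (opair x y) = Classical.choose h := by unfold snd; exact dif_pos h
  obtain ⟨z, hz⟩ := Classical.choose_spec h
  rw [h1]; exact (opair_inj.1 hz).2.symm

instance fst_dfun {ι : Type} (t : (ι → M) → M) [DFun t] : DFun (fun v => fst (t v)) := by
  refine DFun.comp1 (F := fun a : M => fst a) ?_ t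
  refine DFun.of_iff (fun v x => (∃ y, v 0 = opair x y) ∨ ((¬ ∃ x y, v 0 = opair x y) ∧ x = ∅)) inferInstance ?_
  intro v z
  by_cases hex : ∃ x y, v 0 = opair x y
  · obtain ⟨x, y, hxy⟩ := hex
    rw [hxy, fst_opair]
    constructor
    · rintro rfl; exact Or.inl ⟨y, rfl⟩
    · rintro (⟨y', hy'⟩ | ⟨h, _⟩)
      · exact (opair_inj.1 hy').1.symm
      · exact absurd ⟨x, y, rfl⟩ h
  · have h4 : fst (v 0) = ∅ := by unfold fst; exact dif_neg hex
    rw [h4]
    constructor
    · rintro rfl; exact Or.inr ⟨hex, rfl⟩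
    · rintro (⟨y, hy⟩ | hy)
      · exact absurd ⟨z, y, hy⟩ hex
      · exact hy.2

instance snd_dfun {ι : Type} (t : (ι → M) → M) [DFun t] : DFun (fun v => snd (t v)) := by
  refine DFun.comp1 (F := fun a : M => snd a) ?_ t
  refine DFun.of_iff (fun v y => (∃ x, v 0 = opair x y) ∨ ((¬ ∃ y x, v 0 = opair x y) ∧ y = ∅)) inferInstance ?_
  intro v z
  by_cases hex : ∃ y x, v 0 = opair x y
  · obtain ⟨y, x, hxy⟩ := hex
    rw [hxy, snd_opair]
    constructor
    · rintro rfl; exact Or.inl ⟨x, rfl⟩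
    · rintro (⟨y', hy'⟩ | ⟨h, _⟩)
      · exact (opair_inj.1 hy').2.symm
      · exact absurd ⟨y, x, rfl⟩ h
  · have h4 : snd (v 0) = ∅ := by unfold snd; exact dif_neg hex
    rw [h4]
    constructor
    · rintro rfl; exact Or.inr ⟨hex, rfl⟩
    · rintro (⟨x, hx⟩ | hy)
      · exact absurd ⟨z, x, hx⟩ hex
      · exact hy.2

/-! ### Natural numbers -/

theorem bigU_suc {n : M} [IsSet n] (hn : Trans n) : bigU (suc n) = n := by
  apply ext
  intro x
  rw [mem_bigU]
  constructor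
  · rintro ⟨y, hy, hx⟩
    rcases mem_suc.1 hy with hy | rfl
    · exact hn y hy x hx
    · exact hx
  · intro hx; exact ⟨n, by simp, hx⟩

theorem nat_ord {n : M} (hn : n ∈ (omega : M)) : IsOrd n := by
  refine omega_induction (fun n : M => IsOrd n) ord_empty ?_ n hn
  intro n _ ih; exact ord_suc ih

theorem omega_ord : IsOrd (omega : M) :=
  ⟨inferInstance, omega_trans, fun b hb => ⟨nat_isSet hb, nat_trans hb⟩⟩

theorem nat_tri {m n : M} (hm : m ∈ (omega : M)) (hn : n ∈ (omega : M)) : m ∈ n ∨ m = n ∨ n ∈ m :=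
  ord_tri m (nat_ord hm) n (nat_ord hn)

theorem nat_mem_omega {m n : M} (hn : n ∈ (omega : M)) (hm : m ∈ n) : m ∈ (omega : M) := omega_trans n hn m hm

/-- recursion on the natural numbers with a parameter, as a definable function -/
theorem exists_nrec (a0 : M → M) (H : M → M → M → M) [h0 : Fn1 a0] [hH : Fn3 H] :
    ∃ F : M → M → M, Fn2 F ∧ (∀ p, F p ∅ = a0 p) ∧ ∀ p n, n ∈ (omega : M) → F p (suc n) = H p n (F p n) := by
  have i0 : ∀ {ι : Type} (t : (ι → M) → M) [DFun t], DFun (fun v => a0 (t v)) := fun t => DFun.comp1 h0 t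
  have iH : ∀ {ι : Type} (t s r : (ι → M) → M) [DFun t] [DFun s] [DFun r], DFun (fun v => H (t v) (s v) (r v)) :=
    fun t s r => DFun.comp3 hH t s r
  obtain ⟨F, hF, h⟩ := exists_rec (M := M) (fun p x g => iteM (x = ∅) (a0 p) (H p (bigU x) (app g (bigU x))))
  refine ⟨F, hF, fun p => ?_, fun p n hn => ?_⟩
  · rw [h, iteM_pos rfl]
  · have := nat_isSet hn
    have i1 : Fn1 (fun y => F p y) := DFun.comp2 hF (fun _ => p) (fun v => v 0)
    rw [h, iteM_neg (suc_ne_empty n), bigU_suc (nat_trans hn), app_lam (by simp)]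

/-! ### Finite sequences -/

/-- domain of a function -/
noncomputable def dom (s : M) : M := sep (bigU (bigU s)) (fun x => ∃ y, opair x y ∈ s)

instance (s : M) : IsSet (dom s) := by unfold dom; infer_instance

instance dom_dfun {ι : Type} (t : (ι → M) → M) [DFun t] : DFun (fun v => dom (t v)) := by
  refine DFun.comp1 (F := fun a : M => dom a) ?_ t
  unfold dom; infer_instance

theorem mem_dom {s x : M} : x ∈ dom s ↔ ∃ y, opair x y ∈ s := by
  rw [dom, mem_sep]
  constructor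
  · exact fun h => h.2
  · rintro ⟨y, hy⟩
    refine ⟨?_, y, hy⟩
    rw [mem_bigU]
    refine ⟨sing x, ?_, by simp⟩
    rw [mem_bigU]
    exact ⟨_, hy, by simp [opair]⟩

theorem FnOn.dom_eq {s n : M} [IsSet n] (h : FnOn s n) : ZFU.dom s = n := by
  apply ZFU.ext
  intro x
  rw [mem_dom]
  exact ⟨fun ⟨y, hy⟩ => h.dom hy, fun hx => ⟨_, h.mem hx⟩⟩

/-- extension of a sequence by one value -/
noncomputable def ext1 (s n y : M) : M := un s (sing (opair n y))

instance (s n y : M) : IsSet (ext1 s n y) := by unfold ext1; infer_instance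

instance ext1_dfun {ι : Type} (t s r : (ι → M) → M) [DFun t] [DFun s] [DFun r] :
    DFun (fun v => ext1 (t v) (s v) (r v)) := by
  unfold ext1; infer_instance

theorem mem_ext1 {s n y p : M} : p ∈ ext1 s n y ↔ p ∈ s ∨ p = opair n y := by
  rw [ext1, mem_un, mem_sing]

theorem ext1_fnOn {s n y : M} (h : FnOn s n) : FnOn (ext1 s n y) (suc n) := by
  refine ⟨inferInstance, ?_, ?_⟩
  · intro p hp
    rcases mem_ext1.1 hp with hp | rfl
    · obtain ⟨x, hx, z, rfl⟩ := h.2.1 p hp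
      exact ⟨x, by rw [mem_suc]; exact Or.inl hx, z, rfl⟩
    · exact ⟨n, by simp, y, rfl⟩
  · intro x hx
    rcases mem_suc.1 hx with hx | rfl
    · refine ⟨app s x, mem_ext1.2 (Or.inl (h.mem hx)), ?_⟩
      intro z hz
      rcases mem_ext1.1 hz with hz | hz
      · exact (h.app_eq hz).symm
      · rw [opair_inj] at hz
        rw [hz.1] at hx
        exact (not_mem_self _ hx).elim
    · refine ⟨y, mem_ext1.2 (Or.inr rfl), ?_⟩
      intro z hz
      rcases mem_ext1.1 hz with hz | hz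
      · exact (not_mem_self _ (h.dom hz)).elim
      · exact (opair_inj.1 hz).2

theorem app_ext1_of_mem {s n y k : M} (h : FnOn s n) (hk : k ∈ n) : app (ext1 s n y) k = app s k :=
  (ext1_fnOn h).app_eq (mem_ext1.2 (Or.inl (h.mem hk)))

theorem app_ext1_self {s n y : M} (h : FnOn s n) : app (ext1 s n y) n = y :=
  (ext1_fnOn h).app_eq (mem_ext1.2 (Or.inr rfl))

theorem empty_fnOn : FnOn (∅ : M) ∅ :=
  ⟨inferInstance, fun p hp => (not_mem_empty p hp).elim, fun p hp => (not_mem_empty p hp).elim⟩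

/-- the set of finite sequences of elements of `Q` -/
noncomputable def fs (Q : M) : M := sep (pow (prod omega Q)) (fun s => ∃ n, n ∈ (omega : M) ∧ FnOn s n)

instance (Q : M) : IsSet (fs Q) := by unfold fs; infer_instance

instance fs_dfun {ι : Type} (t : (ι → M) → M) [DFun t] : DFun (fun v => fs (t v)) := by
  refine DFun.comp1 (F := fun a : M => fs a) ?_ t
  unfold fs; infer_instance

theorem mem_fs {Q s : M} : s ∈ fs Q ↔ ∃ n, n ∈ (omega : M) ∧ FnOn s n ∧ ∀ k, k ∈ n → app s k ∈ Q := by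
  rw [fs, mem_sep, mem_pow]
  constructor
  · rintro ⟨⟨h1, h2⟩, n, hn, h3⟩
    exact ⟨n, hn, h3, fun k hk => (opair_mem_prod.1 (h2 _ (h3.mem hk))).2⟩
  · rintro ⟨n, hn, h1, h2⟩
    refine ⟨⟨h1.isSet, ?_⟩, n, hn, h1⟩
    intro p hp
    obtain ⟨x, hx, rfl⟩ := h1.mem_iff.1 hp
    exact opair_mem_prod.2 ⟨nat_mem_omega hn hx, h2 x hx⟩

theorem fs_spec {Q s : M} (hs : s ∈ fs Q) : dom s ∈ (omega : M) ∧ FnOn s (dom s) ∧ ∀ k, k ∈ dom s → app s k ∈ Q := by
  obtain ⟨n, hn, h1, h2⟩ := mem_fs.1 hs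
  have := nat_isSet hn
  rw [h1.dom_eq]
  exact ⟨hn, h1, h2⟩

theorem empty_mem_fs (Q : M) : (∅ : M) ∈ fs Q :=
  mem_fs.2 ⟨∅, by simp, empty_fnOn, fun k hk => (not_mem_empty k hk).elim⟩

theorem dom_empty : dom (∅ : M) = ∅ := empty_fnOn.dom_eq

theorem ext1_mem_fs {Q s y : M} (hs : s ∈ fs Q) (hy : y ∈ Q) : ext1 s (dom s) y ∈ fs Q := by
  obtain ⟨h1, h2, h3⟩ := fs_spec hs
  refine mem_fs.2 ⟨suc (dom s), suc_mem_omega h1, ext1_fnOn h2, ?_⟩
  intro k hk
  rcases mem_suc.1 hk with hk | rfl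
  · rw [app_ext1_of_mem h2 hk]; exact h3 k hk
  · rw [app_ext1_self h2]; exact hy

theorem dom_ext1 {Q s y : M} (hs : s ∈ fs Q) : dom (ext1 s (dom s) y) = suc (dom s) :=
  (ext1_fnOn (fs_spec hs).2.1).dom_eq

/-- a function included in another one -/
theorem app_eq_of_sub {s s' n n' k : M} (h : FnOn s n) (h' : FnOn s' n') (hss : s ⊆ s') (hk : k ∈ n) :
    app s k = app s' k := (h'.app_eq (hss _ (h.mem hk))).symm

/-! ### Wellorderable sets -/

/-- `a` is covered by a function defined on an ordinal -/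
def WOb (a : M) : Prop := ∃ θ f : M, IsOrd θ ∧ ∀ x, x ∈ a → ∃ i, i ∈ θ ∧ app f i = x

/-- a definable choice of an element -/
noncomputable def pick (θ f : M) (P : M → Prop) : M := app f (mu (fun i => i ∈ θ ∧ P (app f i)))

instance pick_dfun {ι : Type} (t s : (ι → M) → M) (φ : (ι → M) → M → Prop) [ht : DFun t] [hs : DFun s]
    [h : Dfn (fun w : Option ι → M => φ (fun i => w (some i)) (w none))] :
    DFun (fun v => pick (t v) (s v) (φ v)) := by
  unfold pick
  have h1 := DFun.rename (κ := Option ι) some ht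
  have h2 := DFun.rename (κ := Option ι) some hs
  have h3 : Dfn (fun w : Option (Option ι) → M => φ (fun i => w (some (some i))) (w none)) :=
    Dfn.rename (fun o : Option ι => o.elim none (fun i => some (some i))) h
  have h4 : Dfn (fun w : Option ι → M => φ (fun i => w (some i)) (app (s (fun i => w (some i))) (w none))) :=
    Dfn.subst (fun (w : Option ι → M) x => φ (fun i => w (some i)) x) h3
      (fun w => app (s (fun i => w (some i))) (w none))
  infer_instance

theorem pick_spec {θ f : M} (hθ : IsOrd θ) (P : M → Prop) [hP : Dfn1 P] (h : ∃ i, i ∈ θ ∧ P (app f i)) :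
    P (pick θ f P) := by
  have iP : ∀ {ι : Type} (t : (ι → M) → M) [DFun t], Dfn (fun v => P (t v)) := fun t => Dfn.comp1 hP t
  obtain ⟨i, hi, hPi⟩ := h
  exact (mu_spec (fun i => i ∈ θ ∧ P (app f i)) ⟨i, hθ.mem hi, hi, hPi⟩).2.1.2

/-- a set with a choice function is wellorderable -/
theorem wellorder_of_cf (a c : M) (hc : ∀ x, x ∈ pow a → (∃ y, y ∈ x) → app c x ∈ x) :
    ∃ θ f : M, IsOrd θ ∧ FnOn f θ ∧ (∀ i, i ∈ θ → app f i ∈ a) ∧
    (∀ i j, i ∈ θ → j ∈ θ → app f i = app f j → i = j) ∧ ∀ x, x ∈ a → ∃ i, i ∈ θ ∧ app f i = x := by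
  obtain ⟨F0, hF0, hF0'⟩ := exists_rec (M := M) (fun p x g => app c (diff a (img x (fun y => app g y))))
  have h1 : Fn1 (fun y => F0 ∅ y) := DFun.comp2 hF0 (fun _ => ∅) (fun v => v 0)
  obtain ⟨F, hF⟩ : ∃ F : M → M, F = fun y => F0 ∅ y := ⟨_, rfl⟩
  have iF : Fn1 F := by rw [hF]; exact h1
  have iF' : ∀ {ι : Type} (t : (ι → M) → M) [DFun t], DFun (fun v => F (t v)) := fun t => DFun.comp1 iF t
  have hFeq : ∀ x, F x = app c (diff a (img x F)) := by
    intro x
    rw [hF]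
    show F0 ∅ x = _
    rw [hF0']
    congr 2
    apply img_congr
    intro y hy
    rw [app_lam hy]
  have hFmem : ∀ x, (∃ y, y ∈ diff a (img x F)) → F x ∈ a ∧ ∀ y, y ∈ x → F y ≠ F x := by
    intro x hx
    have h2 : F x ∈ diff a (img x F) := by
      rw [hFeq x]
      apply hc _ _ hx
      rw [mem_pow']
      intro z hz
      exact (mem_diff.1 hz).1
    rw [mem_diff, mem_img] at h2
    refine ⟨h2.1, fun y hy he => h2.2 ⟨y, hy, he.symm⟩⟩
  have hex : ∃ α, IsOrd α ∧ ∀ y, y ∈ a → y ∈ img α F := by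
    by_contra hcon
    push Not at hcon
    have h3 : ∀ α, IsOrd α → ∃ y, y ∈ diff a (img α F) := by
      intro α hα
      obtain ⟨y, hy, hy'⟩ := hcon α hα
      exact ⟨y, mem_diff.2 ⟨hy, hy'⟩⟩
    have h4 : ∀ α β, IsOrd α → IsOrd β → F α = F β → α = β := by
      intro α β hα hβ he
      rcases ord_tri α hα β hβ with h | h | h
      · exact ((hFmem β (h3 β hβ)).2 α h he).elim
      · exact h
      · exact ((hFmem α (h3 α hα)).2 β h he.symm).elim
    have t3 : Dfn2 (fun y α : M => (IsOrd α ∧ F α = y) ∨ ((¬ ∃ α, IsOrd α ∧ F α = y) ∧ α = ∅)) := inferInstance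
    obtain ⟨s, hs, hs'⟩ := exists_repl (fun y α : M => (IsOrd α ∧ F α = y) ∨ ((¬ ∃ α, IsOrd α ∧ F α = y) ∧ α = ∅)) a (by
      intro y hy
      by_cases h : ∃ α, IsOrd α ∧ F α = y
      · obtain ⟨α, hα, he⟩ := h
        refine ⟨α, Or.inl ⟨hα, he⟩, ?_⟩
        rintro β (⟨hβ, hb⟩ | ⟨hβ, _⟩)
        · exact h4 β α hβ hα (hb.trans he.symm)
        · exact (hβ ⟨α, hα, he⟩).elim
      · refine ⟨∅, Or.inr ⟨h, rfl⟩, ?_⟩
        rintro β (⟨hβ, hb⟩ | ⟨_, hβ⟩)
        · exact (h ⟨β, hβ, hb⟩).elim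
        · exact hβ)
    obtain ⟨α, hα, hα'⟩ := exists_ord_not_mem s
    apply hα'
    rw [hs']
    exact ⟨F α, (hFmem α (h3 α hα)).1, Or.inl ⟨hα, rfl⟩⟩
  obtain ⟨θ, hθ, hθ', hmin⟩ := least_ord (fun α => ∀ y, y ∈ a → y ∈ img α F) hex
  have h5 : ∀ i, i ∈ θ → ∃ y, y ∈ diff a (img i F) := by
    intro i hi
    by_contra hcon
    push Not at hcon
    have : θ ⊆ i := hmin i (hθ.mem hi) (by
      intro y hy
      by_contra hy'
      exact hcon y (mem_diff.2 ⟨hy, hy'⟩))
    exact not_mem_self i (this i hi)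
  refine ⟨θ, lam θ F, hθ, lam_fnOn _ _, ?_, ?_, ?_⟩
  · intro i hi
    rw [app_lam hi]
    exact (hFmem i (h5 i hi)).1
  · intro i j hi hj he
    rw [app_lam hi, app_lam hj] at he
    rcases ord_tri i (hθ.mem hi) j (hθ.mem hj) with h | h | h
    · exact ((hFmem j (h5 j hj)).2 i h he).elim
    · exact h
    · exact ((hFmem i (h5 i hi)).2 j h he.symm).elim
  · intro x hx
    have := hθ' x hx
    rw [mem_img] at this
    obtain ⟨i, hi, he⟩ := this
    exact ⟨i, hi, by rw [app_lam hi, he]⟩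

theorem WOb.mono {a b : M} (h : WOb b) (hab : a ⊆ b) : WOb a := by
  obtain ⟨θ, f, h1, h2⟩ := h
  exact ⟨θ, f, h1, fun x hx => h2 x (hab x hx)⟩

/-- sets of ordinals are wellorderable -/
theorem WOb_ord {a : M} (ha : ∀ x, x ∈ a → IsOrd x) : WOb a := by
  obtain ⟨α, hα, hα'⟩ := exists_ord_not_mem (suc (bigU a))
  refine ⟨suc (bigU a), lam (suc (bigU a)) (fun x => x), ord_suc (ord_bigU ha), ?_⟩
  intro x hx
  have h1 : x ∈ suc (bigU a) := by
    rw [mem_suc]
    apply (ord_sub_iff (ha x hx) (ord_bigU ha)).1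
    intro y hy
    exact mem_bigU.2 ⟨x, hx, hy⟩
  exact ⟨x, h1, app_lam h1⟩

/-- images of wellorderable sets -/
theorem WOb.img {a : M} (h : WOb a) (F : M → M) [hF : Fn1 F] : WOb (img a F) := by
  have iF : ∀ {ι : Type} (t : (ι → M) → M) [DFun t], DFun (fun v => F (t v)) := fun t => DFun.comp1 hF t
  obtain ⟨θ, f, h1, h2⟩ := h
  refine ⟨θ, lam θ (fun i => F (app f i)), h1, ?_⟩
  intro y hy
  rw [mem_img] at hy
  obtain ⟨x, hx, rfl⟩ := hy
  obtain ⟨i, hi, rfl⟩ := h2 x hx
  exact ⟨i, hi, app_lam hi⟩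

/-- finite sequences of elements of a wellorderable set -/
theorem WOb_fs {Q : M} (hQ : WOb Q) : WOb (fs Q) := by
  obtain ⟨θ, f, hθ, hf⟩ := hQ
  -- the least length
  let nn : M → M := fun S => mu (fun n : M => n ∈ (omega : M) ∧ ∃ s : M, s ∈ S ∧ FnOn s n)
  have inn : Fn1 nn := (inferInstance : DFun (fun v : Fin 1 → M => mu (fun n : M => n ∈ (omega : M) ∧ ∃ s : M, s ∈ v 0 ∧ FnOn s n)))
  have inn' : ∀ {ι : Type} (t : (ι → M) → M) [DFun t], DFun (fun v => nn (t v)) := fun t => DFun.comp1 inn t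
  obtain ⟨F, hF, hF0, hFs⟩ := exists_nrec (M := M) (fun _ => ∅)
    (fun S k g => ext1 g k (pick θ f (fun y : M => ∃ s : M, s ∈ S ∧ FnOn s (nn S) ∧ ext1 g k y ⊆ s)))
  have iF : ∀ {ι : Type} (t s : (ι → M) → M) [DFun t] [DFun s], DFun (fun v => F (t v) (s v)) :=
    fun t s => DFun.comp2 hF t s
  have key : ∀ S, S ∈ pow (fs Q) → (∃ y, y ∈ S) → F S (nn S) ∈ S := by
    intro S hS hne
    have hSs := mem_pow.1 hS
    have hnn := mu_spec (fun n : M => n ∈ (omega : M) ∧ ∃ s : M, s ∈ S ∧ FnOn s n) (by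
      obtain ⟨y, hy⟩ := hne
      obtain ⟨n, hn, h1, _⟩ := mem_fs.1 (hSs.2 y hy)
      exact ⟨n, nat_ord hn, hn, y, hy, h1⟩)
    have hnω : nn S ∈ (omega : M) := hnn.2.1.1
    obtain ⟨s0, hs0, hs0'⟩ := hnn.2.1.2
    have hcl : ∀ k, k ∈ (omega : M) → (k ⊆ nn S → FnOn (F S k) k ∧ ∃ s : M, s ∈ S ∧ FnOn s (nn S) ∧ F S k ⊆ s) := by
      refine omega_induction (fun k : M => (k ⊆ nn S → FnOn (F S k) k ∧ ∃ s : M, s ∈ S ∧ FnOn s (nn S) ∧ F S k ⊆ s)) ?_ ?_
      · intro _
        rw [hF0]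
        exact ⟨empty_fnOn, s0, hs0, hs0', fun x hx => (not_mem_empty x hx).elim⟩
      · intro k hk ih hks
        have hkn : k ∈ nn S := hks k (by simp)
        obtain ⟨h1, s, hs, hs', hsub⟩ := ih (fun x hx => hks x (by simp [hx]))
        rw [hFs S k hk]
        have hp := pick_spec hθ (f := f) (fun y : M => ∃ s : M, s ∈ S ∧ FnOn s (nn S) ∧ ext1 (F S k) k y ⊆ s) (by
          have hsQ := fs_spec (hSs.2 s hs)
          have : IsSet (nn S) := nat_isSet hnω
          rw [hs'.dom_eq] at hsQ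
          obtain ⟨i, hi, hi'⟩ := hf _ (hsQ.2.2 k hkn)
          refine ⟨i, hi, s, hs, hs', ?_⟩
          intro p hp
          rcases mem_ext1.1 hp with hp | rfl
          · exact hsub p hp
          · rw [hi']; exact hs'.mem hkn)
        exact ⟨ext1_fnOn h1, hp⟩
    obtain ⟨h1, s, hs, hs', hsub⟩ := hcl _ hnω (Sub.refl _)
    have : F S (nn S) = s := FnOn.ext h1 hs' (fun x hx => app_eq_of_sub h1 hs' hsub hx)
    rw [this]; exact hs
  have iG : Fn1 (fun S => F S (nn S)) := inferInstance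
  obtain ⟨θ', f', h1, h2, h3, h4, h5⟩ := wellorder_of_cf (fs Q) (lam (pow (fs Q)) (fun S => F S (nn S))) (by
    intro S hS hne
    rw [app_lam hS]
    exact key S hS hne)
  exact ⟨θ', f', h1, h5⟩

/-- products of wellorderable sets -/
theorem WOb_prod {a b : M} (ha : WOb a) (hb : WOb b) : WOb (prod a b) := by
  obtain ⟨θ, f, hθ, hf⟩ := ha
  obtain ⟨η, g, hη, hg⟩ := hb
  have i1 : Fn1 (fun S : M => pick θ f (fun x : M => ∃ y : M, opair x y ∈ S)) :=
    (inferInstance : DFun (fun v : Fin 1 → M => pick θ f (fun x : M => ∃ y : M, opair x y ∈ v 0)))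
  have i1' : ∀ {ι : Type} (t : (ι → M) → M) [DFun t], DFun (fun v => pick θ f (fun x : M => ∃ y : M, opair x y ∈ t v)) :=
    fun t => DFun.comp1 (F := fun S : M => pick θ f (fun x : M => ∃ y : M, opair x y ∈ S)) i1 t
  have key : ∀ S, S ∈ pow (prod a b) → (∃ y, y ∈ S) → opair (pick θ f (fun x : M => ∃ y : M, opair x y ∈ S))
      (pick η g (fun y : M => opair (pick θ f (fun x : M => ∃ y : M, opair x y ∈ S)) y ∈ S)) ∈ S := by
    intro S hS hne
    have hSs := (mem_pow.1 hS).2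
    have h1 := pick_spec hθ (f := f) (fun x : M => ∃ y : M, opair x y ∈ S) (by
      obtain ⟨p, hp⟩ := hne
      obtain ⟨x, hx, y, hy, rfl⟩ := mem_prod.1 (hSs p hp)
      obtain ⟨i, hi, hi'⟩ := hf x hx
      exact ⟨i, hi, y, by rw [hi']; exact hp⟩)
    refine pick_spec hη (f := g) (fun y : M => opair (pick θ f (fun x : M => ∃ y : M, opair x y ∈ S)) y ∈ S) ?_
    obtain ⟨y, hy⟩ := h1
    obtain ⟨i, hi, hi'⟩ := hg y (opair_mem_prod.1 (hSs _ hy)).2
    exact ⟨i, hi, by rw [hi']; exact hy⟩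
  obtain ⟨θ', f', h1, h2, h3, h4, h5⟩ := wellorder_of_cf (prod a b) (lam (pow (prod a b)) (fun S =>
    opair (pick θ f (fun x : M => ∃ y : M, opair x y ∈ S))
      (pick η g (fun y : M => opair (pick θ f (fun x : M => ∃ y : M, opair x y ∈ S)) y ∈ S)))) (by
    intro S hS hne
    rw [app_lam hS]
    exact key S hS hne)
  exact ⟨θ', f', h1, h5⟩

end Pool.Agent.H55.ZFU
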