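import Mathlib
import Pool.Agent.H55.Seq

set_option autoImplicit false
set_option linter.all false
universe u

/-!
# Complete separable spaces inside a model, formal balls
-/

namespace Pool.Agent.H55.ZFU

variable {M : Type u} [Model M]

/-! ### Order of the natural numbers -/

/-- `a ≤ b` for natural numbers or ordinals -/
def Le (a b : M) : Prop := a ∈ b ∨ a = b

instance le_dfn {ι : Type} (t s : (ι → M) → M) [DFun t] [DFun s] : Dfn (fun v => Le (t v) (s v)) := by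
  unfold Le; infer_instance

theorem Le.refl (a : M) : Le a a := Or.inr rfl

theorem Le.of_mem {a b : M} (h : a ∈ b) : Le a b := Or.inl h

theorem lt_of_le_of_lt' {a b c : M} (hc : c ∈ (omega : M)) (h : Le a b) (h' : b ∈ c) : a ∈ c := by
  rcases h with h | rfl
  · exact nat_trans hc b h' a h
  · exact h'

theorem lt_of_lt_of_le' {a b c : M} (hc : c ∈ (omega : M)) (h : a ∈ b) (h' : Le b c) : a ∈ c := by
  rcases h' with h' | rfl
  · exact nat_trans hc b h' a h
  · exact h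

theorem Le.trans {a b c : M} (hc : c ∈ (omega : M)) (h : Le a b) (h' : Le b c) : Le a c := by
  rcases h with h | rfl
  · exact Or.inl (lt_of_lt_of_le' hc h h')
  · exact h'

theorem le_suc (a : M) : Le a (suc a) := Or.inl (by simp)

theorem mem_suc_iff_le {a b : M} : a ∈ suc b ↔ Le a b := mem_suc

theorem empty_le {n : M} (hn : n ∈ (omega : M)) : Le ∅ n := mem_suc.1 (empty_mem_suc hn)

theorem suc_le_of_mem {a b : M} (hb : b ∈ (omega : M)) (h : a ∈ b) : Le (suc a) b := by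
  have := suc_mem_suc hb h
  exact mem_suc.1 this

/-- a natural number above two given ones -/
theorem nat_bd {m n : M} (hm : m ∈ (omega : M)) (hn : n ∈ (omega : M)) :
    ∃ p, p ∈ (omega : M) ∧ m ∈ p ∧ n ∈ p := by
  rcases nat_tri hm hn with h | h | h
  · exact ⟨suc n, suc_mem_omega hn, by simp [h], by simp⟩
  · exact ⟨suc n, suc_mem_omega hn, by simp [h], by simp⟩
  · exact ⟨suc m, suc_mem_omega hm, by simp, by simp [h]⟩

theorem nat_bd3 {m n k : M} (hm : m ∈ (omega : M)) (hn : n ∈ (omega : M)) (hk : k ∈ (omega : M)) :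
    ∃ p, p ∈ (omega : M) ∧ m ∈ p ∧ n ∈ p ∧ k ∈ p := by
  obtain ⟨p, hp, h1, h2⟩ := nat_bd hm hn
  obtain ⟨q, hq, h3, h4⟩ := nat_bd hp hk
  exact ⟨q, hq, nat_trans hq p h3 m h1, nat_trans hq p h3 n h2, h4⟩

theorem nat_cases_suc {k n : M} (hn : n ∈ (omega : M)) (h : k ∈ n) : ∃ m, m ∈ (omega : M) ∧ n = suc m ∧ Le k m := by
  rcases omega_cases hn with rfl | ⟨m, hm, rfl⟩
  · simp at h
  · exact ⟨m, hm, rfl, mem_suc.1 h⟩

/-! ### Spaces -/

/-- `d(x, y) < 2 ^ (- k)` -/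
def Nb (N x y k : M) : Prop := opair k (opair x y) ∈ N

instance nb_dfn {ι : Type} (N x y k : (ι → M) → M) [DFun N] [DFun x] [DFun y] [DFun k] :
    Dfn (fun v => Nb (N v) (x v) (y v) (k v)) := by
  unfold Nb; infer_instance

/-- complete separable space `X` with dense sequence `u` and entourages `N` -/
structure UPol (X u N : M) : Prop where
  mem : ∀ x y k : M, Nb N x y k → x ∈ X ∧ y ∈ X
  refl : ∀ x k : M, x ∈ X → k ∈ (omega : M) → Nb N x x k
  symm : ∀ x y k : M, Nb N x y k → Nb N y x k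
  comp : ∀ x y z k : M, k ∈ (omega : M) → Nb N x y (suc k) → Nb N y z (suc k) → Nb N x z k
  sep : ∀ x y : M, x ∈ X → y ∈ X → (∀ k : M, k ∈ (omega : M) → Nb N x y k) → x = y
  opn : ∀ x y k : M, k ∈ (omega : M) → Nb N x y k → ∃ l : M, l ∈ (omega : M) ∧ ∀ z : M, Nb N y z l → Nb N x z k
  dense : ∀ x k : M, x ∈ X → k ∈ (omega : M) → ∃ n : M, n ∈ (omega : M) ∧ Nb N x (app u n) k
  complete : ∀ v : M, FnOn v omega → (∀ n : M, n ∈ (omega : M) → app v n ∈ X) →
    (∀ k : M, k ∈ (omega : M) → ∃ n : M, n ∈ (omega : M) ∧ ∀ m m' : M, m ∈ (omega : M) → m' ∈ (omega : M) →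
      n ∈ m → n ∈ m' → Nb N (app v m) (app v m') k) →
    ∃ x : M, x ∈ X ∧ ∀ k : M, k ∈ (omega : M) → ∃ n : M, n ∈ (omega : M) ∧ ∀ m : M, m ∈ (omega : M) → n ∈ m →
      Nb N x (app v m) k

section
variable {X u N : M} (h : UPol X u N)
include h

theorem UPol.step {x y k : M} (hk : k ∈ (omega : M)) (hN : Nb N x y (suc k)) : Nb N x y k :=
  h.comp x y y k hk hN (h.refl y (suc k) (h.mem _ _ _ hN).2 (suc_mem_omega hk))

theorem UPol.mono {x y l k : M} (hk : k ∈ (omega : M)) (hl : Le l k) (hN : Nb N x y k) : Nb N x y l := by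
  have key : ∀ k : M, k ∈ (omega : M) → ∀ l x y : M, Le l k → Nb N x y k → Nb N x y l := by
    refine omega_induction (fun k : M => ∀ l x y : M, Le l k → Nb N x y k → Nb N x y l) ?_ ?_
    · intro l x y hl hN
      rcases hl with hl | rfl
      · simp at hl
      · exact hN
    · intro k hk ih l x y hl hN
      rcases hl with hl | rfl
      · exact ih l x y (mem_suc.1 hl) (h.step hk hN)
      · exact hN
  exact key k hk l x y hl hN

/-- small ball with center `u a` -/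
def Bl (u N a n y : M) : Prop := Nb N (app u a) y (suc n)

/-- formal inclusion of balls -/
def Lt (X u N a' n' a n : M) : Prop :=
  n ∈ n' ∧ app u a' ∈ X ∧ ∀ y : M, Nb N (app u a') y n' → Nb N (app u a) y (suc n)

omit h in
instance bl_dfn {ι : Type} (u N a n y : (ι → M) → M) [DFun u] [DFun N] [DFun a] [DFun n] [DFun y] :
    Dfn (fun v => Bl (u v) (N v) (a v) (n v) (y v)) := by
  unfold Bl; infer_instance

omit h in
instance lt_dfn {ι : Type} (X u N a' n' a n : (ι → M) → M) [hX : DFun X] [hu : DFun u] [hN : DFun N] [ha' : DFun a']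
    [hn' : DFun n'] [ha : DFun a] [hn : DFun n] :
    Dfn (fun v => Lt (X v) (u v) (N v) (a' v) (n' v) (a v) (n v)) := by
  unfold Lt
  have i1 := DFun.rename (κ := Option ι) some hX
  have i2 := DFun.rename (κ := Option ι) some hu
  have i3 := DFun.rename (κ := Option ι) some hN
  have i4 := DFun.rename (κ := Option ι) some ha'
  have i5 := DFun.rename (κ := Option ι) some hn'
  have i6 := DFun.rename (κ := Option ι) some ha
  have i7 := DFun.rename (κ := Option ι) some hn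
  infer_instance

theorem UPol.exists_ball {y n : M} (hy : y ∈ X) (hn : n ∈ (omega : M)) : ∃ a : M, a ∈ (omega : M) ∧ Bl u N a n y := by
  obtain ⟨a, ha, h1⟩ := h.dense y (suc n) hy (suc_mem_omega hn)
  exact ⟨a, ha, h.symm _ _ _ h1⟩

theorem UPol.small {a n y l : M} (hl : l ∈ (omega : M)) (hn : n ∈ (omega : M)) (hln : l ∈ n) (hB : Bl u N a n y) :
    ∀ z : M, Nb N (app u a) z n → Nb N y z l := by
  intro z hz
  obtain ⟨m, hm, rfl, hlm⟩ := nat_cases_suc hn hln
  have h1 : Nb N y (app u a) (suc m) := h.symm _ _ _ (h.step hn hB)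
  exact h.mono hm hlm (h.comp _ _ _ m hm h1 hz)

theorem UPol.exists_lt {a n y : M} (hn : n ∈ (omega : M)) (hB : Bl u N a n y) :
    ∃ n0 : M, n0 ∈ (omega : M) ∧ ∀ n' : M, n' ∈ (omega : M) → n0 ∈ n' → ∀ a' : M, Bl u N a' n' y → Lt X u N a' n' a n := by
  obtain ⟨l, hl, h1⟩ := h.opn _ _ _ (suc_mem_omega hn) hB
  obtain ⟨n0, hn0, h2, h3⟩ := nat_bd hl hn
  refine ⟨n0, hn0, ?_⟩
  intro n' hn' hn0' a' hB'
  refine ⟨nat_trans hn' n0 hn0' n h3, (h.mem _ _ _ hB').1, ?_⟩
  intro z hz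
  exact h1 z (h.small hl hn' (nat_trans hn' n0 hn0' l h2) hB' z hz)

theorem UPol.bl_of_lt {a' n' a n y : M} (hn' : n' ∈ (omega : M)) (hlt : Lt X u N a' n' a n) (hB : Bl u N a' n' y) :
    Bl u N a n y := hlt.2.2 y (h.step hn' hB)

/-- limits of chains of formal balls -/
theorem UPol.limit (A B : M → M) [hA : Fn1 A] [hB : Fn1 B] {k0 : M} (hk0 : k0 ∈ (omega : M))
    (hBω : ∀ k : M, k ∈ (omega : M) → Le k0 k → B k ∈ (omega : M))
    (hlt : ∀ k : M, k ∈ (omega : M) → Le k0 k → Lt X u N (A (suc k)) (B (suc k)) (A k) (B k)) :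
    ∃ y : M, y ∈ X ∧ ∀ k : M, k ∈ (omega : M) → Le k0 k → Bl u N (A k) (B k) y := by
  have iA : ∀ {ι : Type} (t : (ι → M) → M) [DFun t], DFun (fun v => A (t v)) := fun t => DFun.comp1 hA t
  have iB : ∀ {ι : Type} (t : (ι → M) → M) [DFun t], DFun (fun v => B (t v)) := fun t => DFun.comp1 hB t
  -- nested balls
  have nest : ∀ m : M, m ∈ (omega : M) → ∀ k : M, Le k0 k → k ∈ m → ∀ y : M, Nb N (app u (A m)) y (B m) →
      Nb N (app u (A k)) y (suc (B k)) := by
    refine omega_induction (fun m : M => ∀ k : M, Le k0 k → k ∈ m → ∀ y : M, Nb N (app u (A m)) y (B m) →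
      Nb N (app u (A k)) y (suc (B k))) (fun k _ hk => by simp at hk) ?_
    intro m hm ih k hk0k hkm y hy
    rcases mem_suc.1 hkm with hkm | rfl
    · have hkω := nat_mem_omega hm hkm
      have hmk0 : Le k0 m := Le.trans hm hk0k (Or.inl hkm)
      exact ih k hk0k hkm y (h.step (hBω m hm hmk0) ((hlt m hm hmk0).2.2 y hy))
    · exact (hlt k hm hk0k).2.2 y hy
  -- the radii tend to zero
  have unb : ∀ l : M, l ∈ (omega : M) → ∃ k : M, k ∈ (omega : M) ∧ Le k0 k ∧ l ∈ B k := by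
    refine omega_induction (fun l : M => ∃ k : M, k ∈ (omega : M) ∧ Le k0 k ∧ l ∈ B k) ?_ ?_
    · refine ⟨suc k0, suc_mem_omega hk0, le_suc _, ?_⟩
      have h1 := (hlt k0 hk0 (Le.refl _)).1
      exact lt_of_le_of_lt' (hBω _ (suc_mem_omega hk0) (le_suc _)) (empty_le (hBω k0 hk0 (Le.refl _))) h1
    · rintro l hl ⟨k, hk, hk0k, hlk⟩
      refine ⟨suc k, suc_mem_omega hk, Le.trans (suc_mem_omega hk) hk0k (le_suc _), ?_⟩
      exact lt_of_le_of_lt' (hBω _ (suc_mem_omega hk) (Le.trans (suc_mem_omega hk) hk0k (le_suc _)))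
        (suc_le_of_mem (hBω k hk hk0k) hlk) (hlt k hk hk0k).1
  have hcen : ∀ k : M, k ∈ (omega : M) → k0 ∈ k → app u (A k) ∈ X := by
    intro k hk hk0k
    obtain ⟨m, hm, rfl, hlm⟩ := nat_cases_suc hk hk0k
    exact (hlt m hm hlm).2.1
  obtain ⟨v, hv⟩ : ∃ v : M, v = lam omega (fun k : M => iteM (k0 ∈ k) (app u (A k)) (app u (A (suc k0)))) := ⟨_, rfl⟩
  have hvapp : ∀ k : M, k ∈ (omega : M) → k0 ∈ k → app v k = app u (A k) := by
    intro k hk hk0k
    rw [hv, app_lam hk, iteM_pos hk0k]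
  have hvX : ∀ k : M, k ∈ (omega : M) → app v k ∈ X := by
    intro k hk
    by_cases hk0k : k0 ∈ k
    · rw [hvapp k hk hk0k]; exact hcen k hk hk0k
    · rw [hv, app_lam hk, iteM_neg hk0k]; exact hcen _ (suc_mem_omega hk0) (by simp)
  have hnest' : ∀ k m : M, k ∈ (omega : M) → m ∈ (omega : M) → Le k0 k → k ∈ m →
      Nb N (app u (A k)) (app u (A m)) (suc (B k)) := by
    intro k m hk hm hk0k hkm
    have hk0m : k0 ∈ m := lt_of_le_of_lt' hm hk0k hkm
    exact nest m hm k hk0k hkm _ (h.refl _ _ (hcen m hm hk0m) (hBω m hm (Or.inl hk0m)))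
  obtain ⟨y, hy, hy'⟩ := h.complete v (by rw [hv]; exact lam_fnOn _ _) hvX (by
    intro l hl
    obtain ⟨k, hk, hk0k, hlk⟩ := unb l hl
    refine ⟨k, hk, ?_⟩
    intro m m' hm hm' hkm hkm'
    have hk0m : k0 ∈ m := lt_of_le_of_lt' hm hk0k hkm
    have hk0m' : k0 ∈ m' := lt_of_le_of_lt' hm' hk0k hkm'
    rw [hvapp m hm hk0m, hvapp m' hm' hk0m']
    have h1 := hnest' k m hk hm hk0k hkm
    have h2 := hnest' k m' hk hm' hk0k hkm'
    exact h.mono (hBω k hk hk0k) (Or.inl hlk) (h.comp _ _ _ _ (hBω k hk hk0k) (h.symm _ _ _ h1) h2))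
  refine ⟨y, hy, ?_⟩
  intro k hk hk0k
  have hk1 := suc_mem_omega hk
  have hk0k1 : Le k0 (suc k) := Le.trans hk1 hk0k (le_suc _)
  have hB1 := hBω _ hk1 hk0k1
  obtain ⟨n, hn, hn'⟩ := hy' (suc (B (suc k))) (suc_mem_omega hB1)
  obtain ⟨m, hm, h1, h2⟩ := nat_bd hn hk1
  have hk0m : k0 ∈ m := lt_of_le_of_lt' hm hk0k1 h2
  have h3 := hn' m hm h1
  rw [hvapp m hm hk0m] at h3
  have h4 := hnest' (suc k) m hk1 hm hk0k1 h2
  exact (hlt k hk hk0k).2.2 y (h.comp _ _ _ _ hB1 h4 (h.symm _ _ _ h3))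

end

end Pool.Agent.H55.ZFU
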