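import Mathlib
import Pool.Agent.H55.Pol

set_option autoImplicit false
set_option linter.all false
universe u

/-!
# The topology generated by a Suslin representation
-/

namespace Pool.Agent.H55.ZFU

/-- A Polish group `G` acting on a Polish space `X`, an invariant set `P` and a Suslin representation `C` of it. -/
structure SusData (M : Type u) where
  (G X uG NG uX NX mG aX one P K C : M)

variable {M : Type u} [Model M]

/-- the hypotheses on the data -/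
structure Sus (D : SusData M) : Prop where
  hG : UPol D.G D.uG D.NG
  hX : UPol D.X D.uX D.NX
  one_mem : D.one ∈ D.G
  act_mem : ∀ g x : M, g ∈ D.G → x ∈ D.X → app D.aX (opair g x) ∈ D.X
  mul_mem : ∀ g h : M, g ∈ D.G → h ∈ D.G → app D.mG (opair g h) ∈ D.G
  act_one : ∀ x : M, x ∈ D.X → app D.aX (opair D.one x) = x
  act_mul : ∀ g h x : M, g ∈ D.G → h ∈ D.G → x ∈ D.X →
    app D.aX (opair (app D.mG (opair g h)) x) = app D.aX (opair g (app D.aX (opair h x)))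
  act_inj : ∀ g x y : M, g ∈ D.G → x ∈ D.X → y ∈ D.X → app D.aX (opair g x) = app D.aX (opair g y) → x = y
  div : ∀ g g' : M, g ∈ D.G → g' ∈ D.G → ∃ h : M, h ∈ D.G ∧ app D.mG (opair g h) = g'
  cont_act : ∀ g x k : M, g ∈ D.G → x ∈ D.X → k ∈ (omega : M) → ∃ l : M, l ∈ (omega : M) ∧ ∀ g' x' : M,
    Nb D.NG g g' l → Nb D.NX x x' l → Nb D.NX (app D.aX (opair g x)) (app D.aX (opair g' x')) k
  cont_mul : ∀ g h k : M, g ∈ D.G → h ∈ D.G → k ∈ (omega : M) → ∃ l : M, l ∈ (omega : M) ∧ ∀ g' h' : M,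
    Nb D.NG g g' l → Nb D.NG h h' l → Nb D.NG (app D.mG (opair g h)) (app D.mG (opair g' h')) k
  PX : ∀ x : M, x ∈ D.P → x ∈ D.X
  inv : ∀ g x : M, g ∈ D.G → x ∈ D.P → app D.aX (opair g x) ∈ D.P
  K_wo : WOb D.K
  C_sub : ∀ x h : M, opair x h ∈ D.C → x ∈ D.P ∧ h ∈ funs omega D.K
  C_sur : ∀ x : M, x ∈ D.P → ∃ h : M, opair x h ∈ D.C
  C_closed : ∀ x h : M, x ∈ D.X → h ∈ funs omega D.K → (∀ k : M, k ∈ (omega : M) → ∃ x' h' : M, opair x' h' ∈ D.C ∧
    Nb D.NX x x' k ∧ ∀ j : M, j ∈ k → app h' j = app h j) → opair x h ∈ D.C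

variable (D : SusData M)

/-- the codes -/
noncomputable def SusData.Q : M := prod omega (prod omega (fs D.K))

/-- the basic open set with code `q` contains `(g, x, h)` -/
def OO (q g x h : M) : Prop :=
  Bl D.uG D.NG (fst q) (dom (snd (snd q))) g ∧ Bl D.uX D.NX (fst (snd q)) (dom (snd (snd q))) x ∧
    ∀ j : M, j ∈ dom (snd (snd q)) → app h j = app (snd (snd q)) j

/-- the image in `P` of the basic open set with code `q` -/
def AA (q p : M) : Prop := ∃ g x h : M, opair x h ∈ D.C ∧ OO D q g x h ∧ p = app D.aX (opair g x)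

/-- the finite intersection of such images with code `L` -/
def AL (L p : M) : Prop := p ∈ D.P ∧ ∀ i : M, i ∈ dom L → AA D (app L i) p

/-- refinement of codes -/
def LtQ (q' q : M) : Prop :=
  Lt D.G D.uG D.NG (fst q') (dom (snd (snd q'))) (fst q) (dom (snd (snd q))) ∧
  Lt D.X D.uX D.NX (fst (snd q')) (dom (snd (snd q'))) (fst (snd q)) (dom (snd (snd q))) ∧
  ∀ j : M, j ∈ dom (snd (snd q)) → app (snd (snd q')) j = app (snd (snd q)) j

instance OO_dfn {ι : Type} (q g x h : (ι → M) → M) [DFun q] [DFun g] [DFun x] [DFun h] :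
    Dfn (fun v => OO D (q v) (g v) (x v) (h v)) := by
  refine Dfn.comp4 (P := fun q g x h : M => OO D q g x h) ?_ q g x h
  unfold OO; infer_instance

instance AA_dfn {ι : Type} (q p : (ι → M) → M) [DFun q] [DFun p] : Dfn (fun v => AA D (q v) (p v)) := by
  refine Dfn.comp2 (P := fun q p : M => AA D q p) ?_ q p
  unfold AA; infer_instance

instance AL_dfn {ι : Type} (q p : (ι → M) → M) [DFun q] [DFun p] : Dfn (fun v => AL D (q v) (p v)) := by
  refine Dfn.comp2 (P := fun q p : M => AL D q p) ?_ q p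
  unfold AL; infer_instance

instance LtQ_dfn {ι : Type} (q p : (ι → M) → M) [DFun q] [DFun p] : Dfn (fun v => LtQ D (q v) (p v)) := by
  refine Dfn.comp2 (P := fun q p : M => LtQ D q p) ?_ q p
  unfold LtQ; infer_instance

variable {D}

theorem mem_Q {q : M} : q ∈ D.Q ↔ ∃ a b s : M, a ∈ (omega : M) ∧ b ∈ (omega : M) ∧ s ∈ fs D.K ∧ q = opair a (opair b s) := by
  unfold SusData.Q
  rw [mem_prod]
  constructor
  · rintro ⟨a, ha, y, hy, rfl⟩
    obtain ⟨b, hb, s, hs, rfl⟩ := mem_prod.1 hy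
    exact ⟨a, b, s, ha, hb, hs, rfl⟩
  · rintro ⟨a, b, s, ha, hb, hs, rfl⟩
    exact ⟨a, ha, _, opair_mem_prod.2 ⟨hb, hs⟩, rfl⟩

theorem dom_Q {q : M} (hq : q ∈ D.Q) : dom (snd (snd q)) ∈ (omega : M) := by
  obtain ⟨a, b, s, ha, hb, hs, rfl⟩ := mem_Q.1 hq
  simp only [snd_opair]
  exact (fs_spec hs).1

variable (S : Sus D)
include S

theorem Q_wo : WOb D.Q := WOb_prod (WOb_ord (fun x hx => nat_ord hx)) (WOb_prod (WOb_ord (fun x hx => nat_ord hx)) (WOb_fs S.K_wo))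

theorem AA_P {q p : M} (h : AA D q p) : p ∈ D.P := by
  obtain ⟨g, x, h, h1, h2, rfl⟩ := h
  exact S.inv g x (S.hG.mem _ _ _ h2.1).2 (S.C_sub _ _ h1).1

/-- codes of small neighbourhoods of `(g, x, h)` -/
theorem exists_code {g x h n : M} (hg : g ∈ D.G) (hx : opair x h ∈ D.C) (hn : n ∈ (omega : M)) :
    ∃ q : M, q ∈ D.Q ∧ dom (snd (snd q)) = n ∧ OO D q g x h := by
  obtain ⟨h1, h2⟩ := S.C_sub _ _ hx
  rw [mem_funs] at h2
  obtain ⟨a, ha, ha'⟩ := S.hG.exists_ball hg hn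
  obtain ⟨b, hb, hb'⟩ := S.hX.exists_ball (S.PX x h1) hn
  have hsub : n ⊆ (omega : M) := fun k hk => nat_mem_omega hn hk
  have hr := restr_fnOn h2.1 hsub
  have : IsSet n := nat_isSet hn
  have hd : dom (restr h n) = n := hr.dom_eq
  refine ⟨opair a (opair b (restr h n)), ?_, ?_, ?_⟩
  · refine mem_Q.2 ⟨a, b, _, ha, hb, mem_fs.2 ⟨n, hn, hr, ?_⟩, rfl⟩
    intro k hk
    rw [app_restr h2.1 hsub hk]
    exact h2.2 k (hsub k hk)
  · simp only [snd_opair]; exact hd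
  · unfold OO
    simp only [snd_opair, fst_opair]
    rw [hd]
    refine ⟨ha', hb', fun j hj => ?_⟩
    rw [app_restr h2.1 hsub hj]

theorem AA_refine {q p : M} (hq : q ∈ D.Q) (h : AA D q p) : ∃ q' : M, q' ∈ D.Q ∧ LtQ D q' q ∧ AA D q' p := by
  obtain ⟨g, x, h, h1, h2, rfl⟩ := h
  have hn := dom_Q hq
  obtain ⟨n1, hn1, h3⟩ := S.hG.exists_lt hn h2.1
  obtain ⟨n2, hn2, h4⟩ := S.hX.exists_lt hn h2.2.1
  obtain ⟨n', hn', h5, h6⟩ := nat_bd hn1 hn2
  have hg : g ∈ D.G := (S.hG.mem _ _ _ h2.1).2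
  obtain ⟨q', hq', hd, hO⟩ := exists_code S hg h1 hn'
  have hO' := hO
  unfold OO at hO'
  rw [hd] at hO'
  have hlt1 := h3 n' hn' h5 _ hO'.1
  have hlt2 := h4 n' hn' h6 _ hO'.2.1
  refine ⟨q', hq', ?_, g, x, h, h1, hO, rfl⟩
  unfold LtQ
  rw [hd]
  refine ⟨hlt1, hlt2, ?_⟩
  intro j hj
  rw [← hO'.2.2 j (nat_trans hn' _ hlt1.1 j hj), h2.2.2 j hj]

theorem AA_of_lt {q' q p : M} (hq' : q' ∈ D.Q) (hlt : LtQ D q' q) (h : AA D q' p) : AA D q p := by
  obtain ⟨g, x, h, h1, h2, rfl⟩ := h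
  have hn := dom_Q hq'
  refine ⟨g, x, h, h1, ⟨S.hG.bl_of_lt hn hlt.1 h2.1, S.hX.bl_of_lt hn hlt.2.1 h2.2.1, ?_⟩, rfl⟩
  intro j hj
  rw [← hlt.2.2 j hj]
  exact h2.2.2 j (nat_trans hn _ hlt.1.1 j hj)

/-- `P` has small sets `A q` at each point -/
theorem AA_small {p k : M} (hp : p ∈ D.P) (hk : k ∈ (omega : M)) :
    ∃ q : M, q ∈ D.Q ∧ AA D q p ∧ ∀ z : M, AA D q z → Nb D.NX p z k := by
  obtain ⟨h, hh⟩ := S.C_sur p hp
  have hpX := S.PX p hp
  obtain ⟨l, hl, hl'⟩ := S.cont_act D.one p k S.one_mem hpX hk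
  obtain ⟨q, hq, hd, hO⟩ := exists_code S S.one_mem hh (suc_mem_omega hl)
  refine ⟨q, hq, ⟨D.one, p, h, hh, hO, (S.act_one p hpX).symm⟩, ?_⟩
  rintro z ⟨g, x, h', h1, h2, rfl⟩
  unfold OO at hO h2
  rw [hd] at hO h2
  have h3 := S.hG.small hl (suc_mem_omega hl) (by simp) hO.1 g (S.hG.step (suc_mem_omega hl) h2.1)
  have h4 := S.hX.small hl (suc_mem_omega hl) (by simp) hO.2.1 x (S.hX.step (suc_mem_omega hl) h2.2.1)
  have := hl' g x h3 h4
  rwa [S.act_one p hpX] at this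

theorem AL_empty {p : M} (hp : p ∈ D.P) : AL D ∅ p :=
  ⟨hp, fun i hi => by rw [dom_empty] at hi; simp at hi⟩

theorem AL_ext1 {L q p : M} (hL : L ∈ fs D.Q) : AL D (ext1 L (dom L) q) p ↔ AL D L p ∧ AA D q p := by
  have hs := fs_spec hL
  unfold AL
  rw [dom_ext1 hL]
  constructor
  · rintro ⟨h1, h2⟩
    refine ⟨⟨h1, fun i hi => ?_⟩, ?_⟩
    · have := h2 i (by simp [hi])
      rwa [app_ext1_of_mem hs.2.1 hi] at this
    · have := h2 (dom L) (by simp)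
      rwa [app_ext1_self hs.2.1] at this
  · rintro ⟨⟨h1, h2⟩, h3⟩
    refine ⟨h1, fun i hi => ?_⟩
    rcases mem_suc.1 hi with hi | rfl
    · rw [app_ext1_of_mem hs.2.1 hi]; exact h2 i hi
    · rw [app_ext1_self hs.2.1]; exact h3

theorem merge {p : M} : ∀ n : M, n ∈ (omega : M) → ∀ L' : M, L' ∈ fs D.Q → dom L' = n → ∀ L : M, L ∈ fs D.Q → AL D L p → AL D L' p →
    ∃ L'' : M, L'' ∈ fs D.Q ∧ (∀ i : M, i ∈ dom L → i ∈ dom L'' ∧ app L'' i = app L i) ∧ AL D L'' p ∧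
      ∀ z : M, AL D L'' z → AL D L' z := by
  refine omega_induction (fun n : M => ∀ L' : M, L' ∈ fs D.Q → dom L' = n → ∀ L : M, L ∈ fs D.Q → AL D L p → AL D L' p →
    ∃ L'' : M, L'' ∈ fs D.Q ∧ (∀ i : M, i ∈ dom L → i ∈ dom L'' ∧ app L'' i = app L i) ∧ AL D L'' p ∧
      ∀ z : M, AL D L'' z → AL D L' z) ?_ ?_
  · intro L' hL' hd L hL h1 h2
    refine ⟨L, hL, fun i hi => ⟨hi, rfl⟩, h1, ?_⟩
    intro z hz
    refine ⟨hz.1, fun i hi => ?_⟩
    rw [hd] at hi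
    simp at hi
  · intro n hn ih L' hL' hd L hL h1 h2
    have hs := fs_spec hL'
    rw [hd] at hs
    have hsub : n ⊆ suc n := fun x hx => by simp [hx]
    have hr := restr_fnOn hs.2.1 hsub
    have : IsSet n := nat_isSet hn
    have hdr : dom (restr L' n) = n := hr.dom_eq
    have hrfs : restr L' n ∈ fs D.Q := mem_fs.2 ⟨n, hn, hr, fun k hk => by
      rw [app_restr hs.2.1 hsub hk]; exact hs.2.2 k (hsub k hk)⟩
    have happ : ∀ k : M, k ∈ n → app (restr L' n) k = app L' k := fun k hk => app_restr hs.2.1 hsub hk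
    obtain ⟨L2, hL2, h3, h4, h5⟩ := ih (restr L' n) hrfs hdr L hL h1 (by
      refine ⟨h2.1, fun i hi => ?_⟩
      rw [hdr] at hi
      rw [happ i hi]
      exact h2.2 i (by rw [hd]; exact hsub i hi))
    have hq : app L' n ∈ D.Q := hs.2.2 n (by simp)
    have hs2 := fs_spec hL2
    refine ⟨ext1 L2 (dom L2) (app L' n), ext1_mem_fs hL2 hq, ?_, ?_, ?_⟩
    · intro i hi
      obtain ⟨h6, h7⟩ := h3 i hi
      rw [dom_ext1 hL2]
      refine ⟨by simp [h6], ?_⟩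
      rw [app_ext1_of_mem hs2.2.1 h6]; exact h7
    · rw [AL_ext1 S hL2]
      exact ⟨h4, h2.2 n (by rw [hd]; simp)⟩
    · intro z hz
      rw [AL_ext1 S hL2] at hz
      have h8 := h5 z hz.1
      refine ⟨h8.1, fun i hi => ?_⟩
      rw [hd] at hi
      rcases mem_suc.1 hi with hi | rfl
      · have := h8.2 i (by rw [hdr]; exact hi)
        rwa [happ i hi] at this
      · exact hz.2

theorem merge' {p L L' : M} (hL : L ∈ fs D.Q) (hL' : L' ∈ fs D.Q) (h : AL D L p) (h' : AL D L' p) :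
    ∃ L'' : M, L'' ∈ fs D.Q ∧ (∀ i : M, i ∈ dom L → i ∈ dom L'' ∧ app L'' i = app L i) ∧ AL D L'' p ∧
      ∀ z : M, AL D L'' z → AL D L' z :=
  merge S (dom L') (fs_spec hL').1 L' hL' rfl L hL h h'

theorem AL_mono {L L'' : M} (h1 : ∀ i : M, i ∈ dom L → i ∈ dom L'' ∧ app L'' i = app L i) {z : M} (hz : AL D L'' z) :
    AL D L z := by
  refine ⟨hz.1, fun i hi => ?_⟩
  have := hz.2 i (h1 i hi).1
  rwa [(h1 i hi).2] at this

theorem refine_list {L p : M} (hL : L ∈ fs D.Q) (h : AL D L p) :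
    ∃ L' : M, L' ∈ fs D.Q ∧ dom L' = dom L ∧ (∀ i : M, i ∈ dom L → LtQ D (app L' i) (app L i)) ∧ AL D L' p := by
  obtain ⟨θ, f, hθ, hf⟩ := Q_wo S
  have hs := fs_spec hL
  have key : ∀ i : M, i ∈ dom L → (fun q : M => q ∈ D.Q ∧ LtQ D q (app L i) ∧ AA D q p)
      (pick θ f (fun q : M => q ∈ D.Q ∧ LtQ D q (app L i) ∧ AA D q p)) := by
    intro i hi
    refine pick_spec hθ (f := f) (fun q : M => q ∈ D.Q ∧ LtQ D q (app L i) ∧ AA D q p) ?_
    obtain ⟨q', h1, h2, h3⟩ := AA_refine S (hs.2.2 i hi) (h.2 i hi)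
    obtain ⟨j, hj, hj'⟩ := hf q' h1
    refine ⟨j, hj, ?_⟩
    rw [hj']; exact ⟨h1, h2, h3⟩
  have hlam := lam_fnOn (dom L) (fun i : M => pick θ f (fun q : M => q ∈ D.Q ∧ LtQ D q (app L i) ∧ AA D q p))
  have hd : dom (lam (dom L) (fun i : M => pick θ f (fun q : M => q ∈ D.Q ∧ LtQ D q (app L i) ∧ AA D q p))) = dom L :=
    hlam.dom_eq
  refine ⟨lam (dom L) (fun i : M => pick θ f (fun q : M => q ∈ D.Q ∧ LtQ D q (app L i) ∧ AA D q p)), ?_, hd, ?_, h.1, ?_⟩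
  · refine mem_fs.2 ⟨dom L, hs.1, hlam, ?_⟩
    intro k hk
    rw [app_lam hk]
    exact (key k hk).1
  · intro i hi
    rw [app_lam hi]
    exact (key i hi).2.1
  · intro i hi
    rw [hd] at hi
    rw [app_lam hi]
    exact (key i hi).2.2

omit S in
/-- one step of the strategy -/
def Stp (D : SusData M) (L x U L' : M) : Prop :=
  L' ∈ fs D.Q ∧ ∅ ∈ dom L' ∧ (∀ i : M, i ∈ dom L → i ∈ dom L' ∧ LtQ D (app L' i) (app L i)) ∧ AL D L' x ∧
    ∀ z : M, AL D L' z → z ∈ U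

omit S in
instance Stp_dfn (D : SusData M) {ι : Type} (L x U L' : (ι → M) → M) [DFun L] [DFun x] [DFun U] [DFun L'] :
    Dfn (fun v => Stp D (L v) (x v) (U v) (L' v)) := by
  refine Dfn.comp4 (P := fun q g x h : M => Stp D q g x h) ?_ L x U L'
  unfold Stp; infer_instance

theorem exists_Stp {L x U L2 : M} (hL : L ∈ fs D.Q) (hx : AL D L x) (hL2 : L2 ∈ fs D.Q) (h2 : AL D L2 x)
    (hU : ∀ z : M, AL D L2 z → z ∈ U) : ∃ L' : M, Stp D L x U L' := by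
  obtain ⟨L1, h3, h4, h5, h6⟩ := refine_list S hL hx
  obtain ⟨q, hq, hqx, _⟩ := AA_small S hx.1 (empty_mem_omega)
  have h7 : ext1 L1 (dom L1) q ∈ fs D.Q := ext1_mem_fs h3 hq
  have h8 : AL D (ext1 L1 (dom L1) q) x := (AL_ext1 S h3).2 ⟨h6, hqx⟩
  obtain ⟨L', h9, h10, h11, h12⟩ := merge' S h7 hL2 h8 h2
  have hs1 := fs_spec h3
  refine ⟨L', h9, ?_, ?_, h11, fun z hz => hU z (h12 z hz)⟩
  · refine (h10 ∅ ?_).1
    rw [dom_ext1 h3]
    exact empty_mem_suc hs1.1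
  · intro i hi
    rw [← h4] at hi
    obtain ⟨h13, h14⟩ := h10 i (by rw [dom_ext1 h3]; simp [hi])
    refine ⟨h13, ?_⟩
    rw [h14, app_ext1_of_mem hs1.2.1 hi]
    rw [h4] at hi
    exact h5 i hi

end Pool.Agent.H55.ZFU
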