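import Mathlib
import Pool.Agent.H55.Choq

set_option autoImplicit false
set_option linter.all false
universe u

/-!
# The topology: finer, continuous action, wellorderable basis, strong Choquet
-/

namespace Pool.Agent.H55.ZFU

variable {M : Type u} [Model M]

/-! ### Increasing sequences of natural numbers -/

section chain
variable (B : M → M) [hB : Fn1 B] {k0 : M} (hk0 : k0 ∈ (omega : M))
  (hBω : ∀ k : M, k ∈ (omega : M) → Le k0 k → B k ∈ (omega : M))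
  (hinc : ∀ k : M, k ∈ (omega : M) → Le k0 k → B k ∈ B (suc k))
include hB hk0 hBω hinc

theorem chain_unb : ∀ l : M, l ∈ (omega : M) → ∃ k : M, k ∈ (omega : M) ∧ Le k0 k ∧ l ∈ B k := by
  have iB : ∀ {ι : Type} (t : (ι → M) → M) [DFun t], DFun (fun v => B (t v)) := fun t => DFun.comp1 hB t
  refine omega_induction (fun l : M => ∃ k : M, k ∈ (omega : M) ∧ Le k0 k ∧ l ∈ B k) ?_ ?_
  · refine ⟨suc k0, suc_mem_omega hk0, le_suc _, ?_⟩
    have h1 := hinc k0 hk0 (Le.refl _)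
    exact lt_of_le_of_lt' (hBω _ (suc_mem_omega hk0) (le_suc _)) (empty_le (hBω k0 hk0 (Le.refl _))) h1
  · rintro l hl ⟨k, hk, hk0k, hlk⟩
    refine ⟨suc k, suc_mem_omega hk, Le.trans (suc_mem_omega hk) hk0k (le_suc _), ?_⟩
    exact lt_of_le_of_lt' (hBω _ (suc_mem_omega hk) (Le.trans (suc_mem_omega hk) hk0k (le_suc _)))
      (suc_le_of_mem (hBω k hk hk0k) hlk) (hinc k hk hk0k)

theorem chain_mono : ∀ m : M, m ∈ (omega : M) → ∀ k : M, Le k0 k → Le k m → Le (B k) (B m) := by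
  have iB : ∀ {ι : Type} (t : (ι → M) → M) [DFun t], DFun (fun v => B (t v)) := fun t => DFun.comp1 hB t
  refine omega_induction (fun m : M => ∀ k : M, Le k0 k → Le k m → Le (B k) (B m)) ?_ ?_
  · intro k _ h
    rcases h with h | rfl
    · simp at h
    · exact Le.refl _
  · intro m hm ih k h0 h
    rcases h with h | rfl
    · have h1 := mem_suc.1 h
      have h2 : Le k0 m := Le.trans hm h0 h1
      have h3 := ih k h0 h1
      exact Le.trans (hBω _ (suc_mem_omega hm) (Le.trans (suc_mem_omega hm) h2 (le_suc _))) h3 (Or.inl (hinc m hm h2))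
    · exact Le.refl _

end chain

/-! ### The topology -/

variable (D : SusData M)

/-- the topology -/
noncomputable def topo : M :=
  sep (pow D.P) (fun O : M => ∀ p : M, p ∈ O → ∃ L : M, L ∈ fs D.Q ∧ AL D L p ∧ ∀ z : M, AL D L z → z ∈ O)

/-- basic open sets -/
noncomputable def AS (L : M) : M := sep D.P (fun z : M => AL D L z)

instance AS_dfun {ι : Type} (t : (ι → M) → M) [DFun t] : DFun (fun v => AS D (t v)) := by
  refine DFun.comp1 (F := fun a : M => AS D a) ?_ t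
  unfold AS; infer_instance

variable {D}

theorem mem_topo [Pure M] {O : M} : O ∈ topo D ↔ O ⊆ D.P ∧
    ∀ p : M, p ∈ O → ∃ L : M, L ∈ fs D.Q ∧ AL D L p ∧ ∀ z : M, AL D L z → z ∈ O := by
  rw [topo, mem_sep, mem_pow']

theorem mem_AS {L z : M} : z ∈ AS D L ↔ AL D L z := by
  rw [AS, mem_sep]
  exact ⟨fun h => h.2, fun h => ⟨h.1, h⟩⟩

variable (S : Sus D) [Pure M]
include S

theorem AS_mem_topo {L : M} (hL : L ∈ fs D.Q) : AS D L ∈ topo D := by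
  rw [mem_topo]
  refine ⟨fun z hz => (mem_AS.1 hz).1, fun p hp => ⟨L, hL, mem_AS.1 hp, fun z hz => mem_AS.2 hz⟩⟩

theorem P_mem_topo : D.P ∈ topo D := by
  rw [mem_topo]
  exact ⟨Sub.refl _, fun p hp => ⟨∅, empty_mem_fs _, AL_empty S hp, fun z hz => hz.1⟩⟩

theorem inter_mem_topo {O O' : M} (h : O ∈ topo D) (h' : O' ∈ topo D) : inter O O' ∈ topo D := by
  rw [mem_topo] at h h' ⊢
  refine ⟨fun z hz => h.1 z (mem_inter.1 hz).1, fun p hp => ?_⟩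
  rw [mem_inter] at hp
  obtain ⟨L, hL, h1, h2⟩ := h.2 p hp.1
  obtain ⟨L', hL', h1', h2'⟩ := h'.2 p hp.2
  obtain ⟨L'', hL'', h3, h4, h5⟩ := merge' S hL hL' h1 h1'
  exact ⟨L'', hL'', h4, fun z hz => mem_inter.2 ⟨h2 z (AL_mono S h3 hz), h2' z (h5 z hz)⟩⟩

theorem union_mem_topo {s : M} (h : s ⊆ topo D) : bigU s ∈ topo D := by
  rw [mem_topo]
  refine ⟨fun z hz => ?_, fun p hp => ?_⟩
  · obtain ⟨O, hO, hz⟩ := mem_bigU.1 hz
    exact (mem_topo.1 (h O hO)).1 z hz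
  · obtain ⟨O, hO, hp⟩ := mem_bigU.1 hp
    obtain ⟨L, hL, h1, h2⟩ := (mem_topo.1 (h O hO)).2 p hp
    exact ⟨L, hL, h1, fun z hz => mem_bigU.2 ⟨O, hO, h2 z hz⟩⟩

theorem finer {c : M} (hc : c ⊆ D.P) (h : ∀ p : M, p ∈ c → ∃ k : M, k ∈ (omega : M) ∧ ∀ z : M, z ∈ D.P → Nb D.NX p z k → z ∈ c) :
    c ∈ topo D := by
  rw [mem_topo]
  refine ⟨hc, fun p hp => ?_⟩
  obtain ⟨k, hk, h1⟩ := h p hp
  obtain ⟨q, hq, h2, h3⟩ := AA_small S (hc p hp) hk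
  have h4 : ∀ z : M, AL D (ext1 ∅ (dom ∅) q) z ↔ AL D ∅ z ∧ AA D q z := fun z => AL_ext1 S (empty_mem_fs _)
  refine ⟨ext1 ∅ (dom ∅) q, ext1_mem_fs (empty_mem_fs _) hq, (h4 p).2 ⟨AL_empty S (hc p hp), h2⟩, ?_⟩
  intro z hz
  have h5 := (h4 z).1 hz
  exact h1 z h5.1.1 (h3 z h5.2)

/-! ### Continuity of the action -/

theorem cont_code {q g0 p0 : M} (hq : q ∈ D.Q) (hg0 : g0 ∈ D.G) (hp0 : p0 ∈ D.P) (h : AA D q (app D.aX (opair g0 p0))) :
    ∃ l : M, l ∈ (omega : M) ∧ ∃ q' : M, q' ∈ D.Q ∧ AA D q' p0 ∧ ∀ g p : M, Nb D.NG g0 g l → AA D q' p →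
      AA D q (app D.aX (opair g p)) := by
  obtain ⟨g1, x1, h1, hC, hO, he⟩ := h
  have hn := dom_Q hq
  have hg1 : g1 ∈ D.G := (S.hG.mem _ _ _ hO.1).2
  have hx1 : x1 ∈ D.X := (S.hX.mem _ _ _ hO.2.1).2
  obtain ⟨g', hg', hmul⟩ := S.div g0 g1 hg0 hg1
  have hx1' : app D.aX (opair g' x1) = p0 := by
    apply S.act_inj g0 _ _ hg0 (S.act_mem _ _ hg' hx1) (S.PX _ hp0)
    rw [← S.act_mul g0 g' x1 hg0 hg' hx1, hmul, he]
  obtain ⟨l1, hl1, h2⟩ := S.hG.opn _ _ _ (suc_mem_omega hn) hO.1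
  obtain ⟨l2, hl2, h3⟩ := S.hX.opn _ _ _ (suc_mem_omega hn) hO.2.1
  obtain ⟨l3, hl3, h4⟩ := S.cont_mul g0 g' l1 hg0 hg' hl1
  obtain ⟨n', hn', h5, h6, h7⟩ := nat_bd3 hl2 hl3 hn
  obtain ⟨q', hq', hd, hO'⟩ := exists_code S hg' hC hn'
  refine ⟨l3, hl3, q', hq', ⟨g', x1, h1, hC, hO', hx1'.symm⟩, ?_⟩
  rintro g p hg ⟨g2, x2, h2', hC2, hO2, rfl⟩
  have hgG : g ∈ D.G := (S.hG.mem _ _ _ hg).2
  have hg2 : g2 ∈ D.G := (S.hG.mem _ _ _ hO2.1).2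
  have hx2 : x2 ∈ D.X := (S.hX.mem _ _ _ hO2.2.1).2
  unfold OO at hO' hO2
  rw [hd] at hO' hO2
  refine ⟨app D.mG (opair g g2), x2, h2', hC2, ⟨?_, ?_, ?_⟩, (S.act_mul g g2 x2 hgG hg2 hx2).symm⟩
  · have h8 := S.hG.small hl3 hn' h6 hO'.1 g2 (S.hG.step hn' hO2.1)
    have h9 := h4 g g2 hg h8
    rw [hmul] at h9
    exact h2 _ h9
  · have h8 := S.hX.small hl2 hn' h5 hO'.2.1 x2 (S.hX.step hn' hO2.2.1)
    exact h3 _ h8
  · intro j hj
    have hj' := nat_trans hn' _ h7 j hj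
    rw [hO2.2.2 j hj', ← hO'.2.2 j hj', hO.2.2 j hj]

omit S [Pure M] in
theorem restr_list {L n : M} (hn : n ∈ (omega : M)) (hL : L ∈ fs D.Q) (hd : dom L = suc n) :
    restr L n ∈ fs D.Q ∧ dom (restr L n) = n ∧ app L n ∈ D.Q ∧
      ∀ z : M, AL D L z ↔ AL D (restr L n) z ∧ AA D (app L n) z := by
  have hs := fs_spec hL
  rw [hd] at hs
  have hsub : n ⊆ suc n := fun x hx => by simp [hx]
  have hr := restr_fnOn hs.2.1 hsub
  have : IsSet n := nat_isSet hn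
  have hdr : dom (restr L n) = n := hr.dom_eq
  have hrfs : restr L n ∈ fs D.Q := mem_fs.2 ⟨n, hn, hr, fun k hk => by
    rw [app_restr hs.2.1 hsub hk]; exact hs.2.2 k (hsub k hk)⟩
  have happ : ∀ k : M, k ∈ n → app (restr L n) k = app L k := fun k hk => app_restr hs.2.1 hsub hk
  refine ⟨hrfs, hdr, hs.2.2 n (by simp), fun z => ?_⟩
  unfold AL
  rw [hd, hdr]
  constructor
  · rintro ⟨h1, h2⟩
    exact ⟨⟨h1, fun i hi => by rw [happ i hi]; exact h2 i (hsub i hi)⟩, h2 n (by simp)⟩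
  · rintro ⟨⟨h1, h2⟩, h3⟩
    refine ⟨h1, fun i hi => ?_⟩
    rcases mem_suc.1 hi with hi | rfl
    · rw [← happ i hi]; exact h2 i hi
    · exact h3

theorem cont_list {g0 p0 : M} (hg0 : g0 ∈ D.G) (hp0 : p0 ∈ D.P) : ∀ n : M, n ∈ (omega : M) → ∀ L : M, L ∈ fs D.Q → dom L = n →
    AL D L (app D.aX (opair g0 p0)) →
    ∃ l : M, l ∈ (omega : M) ∧ ∃ L' : M, L' ∈ fs D.Q ∧ AL D L' p0 ∧ ∀ g p : M, Nb D.NG g0 g l → AL D L' p →
      AL D L (app D.aX (opair g p)) := by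
  refine omega_induction (fun n : M => ∀ L : M, L ∈ fs D.Q → dom L = n →
    AL D L (app D.aX (opair g0 p0)) →
    ∃ l : M, l ∈ (omega : M) ∧ ∃ L' : M, L' ∈ fs D.Q ∧ AL D L' p0 ∧ ∀ g p : M, Nb D.NG g0 g l → AL D L' p →
      AL D L (app D.aX (opair g p))) ?_ ?_
  · intro L hL hd h
    refine ⟨∅, by simp, ∅, empty_mem_fs _, AL_empty S hp0, ?_⟩
    intro g p hg hp
    exact ⟨S.inv g p (S.hG.mem _ _ _ hg).2 hp.1, fun i hi => by rw [hd] at hi; simp at hi⟩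
  · intro n hn ih L hL hd h
    obtain ⟨h1, h2, h3, h4⟩ := restr_list hn hL hd
    obtain ⟨h5, h6⟩ := (h4 _).1 h
    obtain ⟨l1, hl1, L1, hL1, h7, h8⟩ := ih _ h1 h2 h5
    obtain ⟨l2, hl2, q', hq', h9, h10⟩ := cont_code S h3 hg0 hp0 h6
    obtain ⟨l, hl, h11, h12⟩ := nat_bd hl1 hl2
    refine ⟨l, hl, ext1 L1 (dom L1) q', ext1_mem_fs hL1 hq', (AL_ext1 S hL1).2 ⟨h7, h9⟩, ?_⟩
    intro g p hg hp
    obtain ⟨h13, h14⟩ := (AL_ext1 S hL1).1 hp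
    exact (h4 _).2 ⟨h8 g p (S.hG.mono hl (Or.inl h11) hg) h13, h10 g p (S.hG.mono hl (Or.inl h12) hg) h14⟩

theorem cont_topo {g0 p0 O : M} (hg0 : g0 ∈ D.G) (hp0 : p0 ∈ D.P) (hO : O ∈ topo D) (h : app D.aX (opair g0 p0) ∈ O) :
    ∃ l : M, l ∈ (omega : M) ∧ ∃ W : M, W ∈ topo D ∧ p0 ∈ W ∧ ∀ g p : M, Nb D.NG g0 g l → p ∈ W →
      app D.aX (opair g p) ∈ O := by
  obtain ⟨L, hL, h1, h2⟩ := (mem_topo.1 hO).2 _ h
  obtain ⟨l, hl, L', hL', h3, h4⟩ := cont_list S hg0 hp0 (dom L) (fs_spec hL).1 L hL rfl h1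
  exact ⟨l, hl, AS D L', AS_mem_topo S hL', mem_AS.2 h3, fun g p hg hp => h2 _ (h4 g p hg (mem_AS.1 hp))⟩

/-! ### Wellordered basis -/

theorem wo_basis : ∃ B r : M, (∀ b : M, b ∈ B → b ∈ topo D) ∧
    (∀ O p : M, O ∈ topo D → p ∈ O → ∃ b : M, b ∈ B ∧ p ∈ b ∧ b ⊆ O) ∧
    (∀ b : M, b ∈ B → opair b b ∉ r) ∧
    (∀ b c d : M, b ∈ B → c ∈ B → d ∈ B → opair b c ∈ r → opair c d ∈ r → opair b d ∈ r) ∧
    (∀ s : M, s ⊆ B → (∃ b : M, b ∈ s) → ∃ b : M, b ∈ s ∧ ∀ c : M, c ∈ s → b = c ∨ opair b c ∈ r) := by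
  obtain ⟨θ, f, hθ, hf⟩ := WOb_fs (Q_wo S)
  let idx : M → M := fun b => mu (fun i : M => i ∈ θ ∧ app f i ∈ fs D.Q ∧ b = AS D (app f i))
  have iidx : Fn1 idx := (inferInstance : DFun (fun v : Fin 1 → M => mu (fun i : M => i ∈ θ ∧ app f i ∈ fs D.Q ∧ v 0 = AS D (app f i))))
  have iidx' : ∀ {ι : Type} (t : (ι → M) → M) [DFun t], DFun (fun v => idx (t v)) := fun t => DFun.comp1 iidx t
  obtain ⟨B, hB⟩ : ∃ B : M, B = img (fs D.Q) (fun L => AS D L) := ⟨_, rfl⟩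
  have hBm : ∀ b : M, b ∈ B ↔ ∃ L : M, L ∈ fs D.Q ∧ b = AS D L := fun b => by rw [hB, mem_img]
  have hidx : ∀ b : M, b ∈ B → IsOrd (idx b) ∧ (idx b ∈ θ ∧ app f (idx b) ∈ fs D.Q ∧ b = AS D (app f (idx b))) := by
    intro b hb
    obtain ⟨L, hL, rfl⟩ := (hBm b).1 hb
    obtain ⟨i, hi, hi'⟩ := hf L hL
    have := mu_spec (fun i : M => i ∈ θ ∧ app f i ∈ fs D.Q ∧ AS D L = AS D (app f i))
      ⟨i, hθ.mem hi, hi, by rw [hi']; exact hL, by rw [hi']⟩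
    exact ⟨this.1, this.2.1⟩
  obtain ⟨r, hr⟩ : ∃ r : M, r = sep (prod B B) (fun p : M => idx (fst p) ∈ idx (snd p)) := ⟨_, rfl⟩
  have hrm : ∀ b c : M, opair b c ∈ r ↔ (b ∈ B ∧ c ∈ B) ∧ idx b ∈ idx c := by
    intro b c
    rw [hr, mem_sep, opair_mem_prod, fst_opair, snd_opair]
  refine ⟨B, r, ?_, ?_, ?_, ?_, ?_⟩
  · intro b hb
    obtain ⟨L, hL, rfl⟩ := (hBm b).1 hb
    exact AS_mem_topo S hL
  · intro O p hO hp
    obtain ⟨L, hL, h1, h2⟩ := (mem_topo.1 hO).2 p hp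
    exact ⟨AS D L, (hBm _).2 ⟨L, hL, rfl⟩, mem_AS.2 h1, fun z hz => h2 z (mem_AS.1 hz)⟩
  · intro b hb h
    exact not_mem_self _ ((hrm b b).1 h).2
  · intro b c d hb hc hd h1 h2
    rw [hrm] at h1 h2 ⊢
    exact ⟨⟨hb, hd⟩, (hidx d hd).1.2.1 _ h2.2 _ h1.2⟩
  · intro s hs hne
    obtain ⟨i, hi, ⟨b, hb, rfl⟩, hmin⟩ := least_ord (fun i : M => ∃ b : M, b ∈ s ∧ i = idx b) (by
      obtain ⟨b, hb⟩ := hne
      exact ⟨idx b, (hidx b (hs b hb)).1, b, hb, rfl⟩)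
    refine ⟨b, hb, fun c hc => ?_⟩
    have h1 := hidx b (hs b hb)
    have h2 := hidx c (hs c hc)
    rcases (ord_sub_iff h1.1 h2.1).1 (hmin (idx c) h2.1 ⟨c, hc, rfl⟩) with h3 | h3
    · exact Or.inr ((hrm b c).2 ⟨⟨hs b hb, hs c hc⟩, h3⟩)
    · left
      rw [h1.2.2.2, h3, ← h2.2.2.2]

/-! ### Limits of plays -/

section play
variable (LL xx : M → M) [hLL : Fn1 LL] [hxx : Fn1 xx]
  (h1 : ∀ k : M, k ∈ (omega : M) → LL k ∈ fs D.Q ∧ AL D (LL k) (xx k))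
  (h2 : ∀ k : M, k ∈ (omega : M) → ∀ i : M, i ∈ dom (LL k) → i ∈ dom (LL (suc k)) ∧
    LtQ D (app (LL (suc k)) i) (app (LL k) i))
include hLL hxx h1 h2

theorem limit_point {i k0 : M} (hk0 : k0 ∈ (omega : M)) (hi : i ∈ dom (LL k0)) :
    ∃ p : M, p ∈ D.X ∧ (∀ k : M, k ∈ (omega : M) → Le k0 k → AA D (app (LL k) i) p) ∧
      ∀ l : M, l ∈ (omega : M) → ∃ n : M, n ∈ (omega : M) ∧ ∀ m : M, m ∈ (omega : M) → n ∈ m → Nb D.NX p (xx m) l := by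
  have iL : ∀ {ι : Type} (t : (ι → M) → M) [DFun t], DFun (fun v => LL (t v)) := fun t => DFun.comp1 hLL t
  have ix : ∀ {ι : Type} (t : (ι → M) → M) [DFun t], DFun (fun v => xx (t v)) := fun t => DFun.comp1 hxx t
  have hik : ∀ k : M, k ∈ (omega : M) → (Le k0 k → i ∈ dom (LL k)) := by
    refine omega_induction (fun k : M => (Le k0 k → i ∈ dom (LL k))) ?_ ?_
    · intro h
      rcases h with h | rfl
      · simp at h
      · exact hi
    · intro k hk ih h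
      rcases h with h | rfl
      · exact (h2 k hk i (ih (mem_suc.1 h))).1
      · exact hi
  have hQ : ∀ k : M, k ∈ (omega : M) → Le k0 k → app (LL k) i ∈ D.Q := fun k hk h =>
    (fs_spec (h1 k hk).1).2.2 i (hik k hk h)
  have hlt : ∀ k : M, k ∈ (omega : M) → Le k0 k → LtQ D (app (LL (suc k)) i) (app (LL k) i) := fun k hk h =>
    (h2 k hk i (hik k hk h)).2
  have hBω : ∀ k : M, k ∈ (omega : M) → Le k0 k → dom (snd (snd (app (LL k) i))) ∈ (omega : M) := fun k hk h =>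
    dom_Q (hQ k hk h)
  have hBinc : ∀ k : M, k ∈ (omega : M) → Le k0 k → dom (snd (snd (app (LL k) i))) ∈ dom (snd (snd (app (LL (suc k)) i))) :=
    fun k hk h => (hlt k hk h).1.1
  obtain ⟨g, hg, hg'⟩ := S.hG.limit (fun k : M => fst (app (LL k) i)) (fun k : M => dom (snd (snd (app (LL k) i))))
    hk0 hBω (fun k hk h => (hlt k hk h).1)
  obtain ⟨x, hx, hx'⟩ := S.hX.limit (fun k : M => fst (snd (app (LL k) i))) (fun k : M => dom (snd (snd (app (LL k) i))))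
    hk0 hBω (fun k hk h => (hlt k hk h).2.1)
  have unb := chain_unb (fun k : M => dom (snd (snd (app (LL k) i)))) hk0 hBω hBinc
  have bmono := chain_mono (fun k : M => dom (snd (snd (app (LL k) i)))) hk0 hBω hBinc
  -- coherence
  have coh : ∀ m : M, m ∈ (omega : M) → ∀ k : M, Le k0 k → Le k m → ∀ j : M, j ∈ dom (snd (snd (app (LL k) i))) →
      app (snd (snd (app (LL m) i))) j = app (snd (snd (app (LL k) i))) j := by
    refine omega_induction (fun m : M => ∀ k : M, Le k0 k → Le k m → ∀ j : M, j ∈ dom (snd (snd (app (LL k) i))) →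
      app (snd (snd (app (LL m) i))) j = app (snd (snd (app (LL k) i))) j) ?_ ?_
    · intro k _ h j _
      rcases h with h | rfl
      · simp at h
      · rfl
    · intro m hm ih k h0 h j hj
      rcases h with h | rfl
      · have h3 := mem_suc.1 h
        have h4 : Le k0 m := Le.trans hm h0 h3
        rw [← ih k h0 h3 j hj]
        exact (hlt m hm h4).2.2 j (lt_of_lt_of_le' (hBω m hm h4) hj (bmono m hm k h0 h3))
      · rfl
  obtain ⟨κ, hκ⟩ : ∃ κ : M → M, κ = fun j : M => mu (fun k : M => k ∈ (omega : M) ∧ Le k0 k ∧ j ∈ dom (snd (snd (app (LL k) i)))) := ⟨_, rfl⟩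
  have iκ0 : Fn1 κ := by
    rw [hκ]
    exact (inferInstance : DFun (fun v : Fin 1 → M => mu (fun k : M => k ∈ (omega : M) ∧ Le k0 k ∧ v 0 ∈ dom (snd (snd (app (LL k) i))))))
  have iκ : ∀ {ι : Type} (t : (ι → M) → M) [DFun t], DFun (fun v => κ (t v)) := fun t => DFun.comp1 iκ0 t
  have hκs : ∀ j : M, j ∈ (omega : M) → (κ j ∈ (omega : M) ∧ Le k0 (κ j) ∧ j ∈ dom (snd (snd (app (LL (κ j)) i)))) ∧
      ∀ k : M, k ∈ (omega : M) → Le k0 k → j ∈ dom (snd (snd (app (LL k) i))) → Le (κ j) k := by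
    intro j hj
    obtain ⟨k, hk, h3, h4⟩ := unb j hj
    have h5 := mu_spec (fun k : M => k ∈ (omega : M) ∧ Le k0 k ∧ j ∈ dom (snd (snd (app (LL k) i)))) ⟨k, nat_ord hk, hk, h3, h4⟩
    rw [hκ]
    refine ⟨h5.2.1, ?_⟩
    intro k hk h3 h4
    exact (ord_sub_iff h5.1 (nat_ord hk)).1 (h5.2.2 k (nat_ord hk) ⟨hk, h3, h4⟩)
  obtain ⟨h, hh⟩ : ∃ h : M, h = lam omega (fun j : M => app (snd (snd (app (LL (κ j)) i))) j) := ⟨_, rfl⟩
  have hhapp : ∀ k : M, k ∈ (omega : M) → Le k0 k → ∀ j : M, j ∈ dom (snd (snd (app (LL k) i))) →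
      app h j = app (snd (snd (app (LL k) i))) j := by
    intro k hk h3 j hj
    have hjω := nat_mem_omega (hBω k hk h3) hj
    obtain ⟨⟨h4, h5, h6⟩, h7⟩ := hκs j hjω
    rw [hh, app_lam hjω]
    exact (coh k hk (κ j) h5 (h7 k hk h3 hj) j h6).symm
  have hhK : h ∈ funs omega D.K := by
    rw [mem_funs]
    refine ⟨by rw [hh]; exact lam_fnOn _ _, ?_⟩
    intro j hj
    obtain ⟨⟨h4, h5, h6⟩, h7⟩ := hκs j hj
    rw [hh, app_lam hj]
    obtain ⟨a, b, s, ha, hb, hs, he⟩ := mem_Q.1 (hQ _ h4 h5)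
    rw [he] at h6 ⊢
    simp only [snd_opair] at h6 ⊢
    exact (fs_spec hs).2.2 j h6
  have hC : opair x h ∈ D.C := by
    apply S.C_closed x h hx hhK
    intro k hk
    obtain ⟨m, hm, h3, h4⟩ := unb k hk
    obtain ⟨g', x', h', h5, h6, h7⟩ := (h1 m hm).2.2 i (hik m hm h3)
    refine ⟨x', h', h5, ?_, ?_⟩
    · exact S.hX.small hk (hBω m hm h3) h4 (hx' m hm h3) x' (S.hX.step (hBω m hm h3) h6.2.1)
    · intro j hj
      have h8 := nat_trans (hBω m hm h3) k h4 j hj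
      rw [h6.2.2 j h8, hhapp m hm h3 j h8]
  refine ⟨app D.aX (opair g x), S.act_mem _ _ hg hx, ?_, ?_⟩
  · intro k hk h3
    exact ⟨g, x, h, hC, ⟨hg' k hk h3, hx' k hk h3, hhapp k hk h3⟩, rfl⟩
  · intro l hl
    obtain ⟨l', hl', h3⟩ := S.cont_act g x l hg hx hl
    obtain ⟨n, hn, h4, h5⟩ := unb l' hl'
    refine ⟨n, hn, fun m hm hnm => ?_⟩
    have h0m : Le k0 m := Or.inl (lt_of_le_of_lt' hm h4 hnm)
    obtain ⟨g', x', h', h6, h7, h8⟩ := (h1 m hm).2.2 i (hik m hm h0m)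
    have h9 : l' ∈ dom (snd (snd (app (LL m) i))) := lt_of_lt_of_le' (hBω m hm h0m) h5 (bmono m hm n h4 (Or.inl hnm))
    rw [h8]
    apply h3
    · exact S.hG.small hl' (hBω m hm h0m) h9 (hg' m hm h0m) g' (S.hG.step (hBω m hm h0m) h7.1)
    · exact S.hX.small hl' (hBω m hm h0m) h9 (hx' m hm h0m) x' (S.hX.step (hBω m hm h0m) h7.2.1)

theorem limit_play (h0 : ∀ k : M, k ∈ (omega : M) → ∅ ∈ dom (LL k)) :
    ∃ p : M, ∀ k : M, k ∈ (omega : M) → AL D (LL k) p := by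
  obtain ⟨p, hp, h3, h4⟩ := limit_point S LL xx h1 h2 (empty_mem_omega) (h0 ∅ empty_mem_omega)
  refine ⟨p, fun k hk => ⟨AA_P S (h3 ∅ empty_mem_omega (Le.refl _)), fun i hi => ?_⟩⟩
  obtain ⟨p', hp', h5, h6⟩ := limit_point S LL xx h1 h2 hk hi
  have : p = p' := by
    apply S.hX.sep p p' hp hp'
    intro l hl
    obtain ⟨n, hn, h7⟩ := h4 (suc l) (suc_mem_omega hl)
    obtain ⟨n', hn', h8⟩ := h6 (suc l) (suc_mem_omega hl)
    obtain ⟨m, hm, h9, h10⟩ := nat_bd hn hn'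
    exact S.hX.comp _ _ _ l hl (h7 m hm h9) (S.hX.symm _ _ _ (h8 m hm h10))
  rw [this]
  exact h5 k hk (Le.refl _)

end play

end Pool.Agent.H55.ZFU
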