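import Mathlib
import Pool.Agent.H55.Topo

set_option autoImplicit false
set_option linter.all false
universe u

/-!
# Suslin representations of coanalytic sets
-/

namespace Pool.Agent.H55.ZFU

variable {M : Type u} [Model M]

/-! ### Enumeration of pairs of natural numbers -/

/-- the next pair -/
noncomputable def nxt (p : M) : M :=
  iteM (fst p ∈ snd p) (opair (suc (fst p)) (snd p)) (iteM (snd p = ∅) (opair ∅ (suc (fst p))) (opair (fst p) (bigU (snd p))))

instance nxt_dfun {ι : Type} (t : (ι → M) → M) [DFun t] : DFun (fun v => nxt (t v)) := by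
  refine DFun.comp1 (F := fun a : M => nxt a) ?_ t
  unfold nxt; infer_instance

theorem exists_enum : ∃ c : M, FnOn c omega ∧ (∀ m : M, m ∈ (omega : M) → app c m ∈ prod omega (omega : M)) ∧
    ∀ a b : M, a ∈ (omega : M) → b ∈ (omega : M) → ∃ m : M, m ∈ (omega : M) ∧ app c m = opair a b := by
  obtain ⟨c, hc, hc0, hcs⟩ := omega_rec (M := M) (opair ∅ ∅) (fun _ y => nxt y)
  have reach_nxt : ∀ p : M, (∃ m : M, m ∈ (omega : M) ∧ app c m = p) → ∃ m : M, m ∈ (omega : M) ∧ app c m = nxt p := by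
    rintro p ⟨m, hm, rfl⟩
    exact ⟨suc m, suc_mem_omega hm, hcs m hm⟩
  have n1 : ∀ i j : M, i ∈ j → nxt (opair i j) = opair (suc i) j := by
    intro i j h
    unfold nxt
    rw [fst_opair, snd_opair, iteM_pos h]
  have n2 : ∀ i : M, nxt (opair i ∅) = opair ∅ (suc i) := by
    intro i
    unfold nxt
    rw [fst_opair, snd_opair, iteM_neg (not_mem_empty _), iteM_pos rfl]
  have n3 : ∀ i j : M, j ∈ (omega : M) → i ∉ suc j → nxt (opair i (suc j)) = opair i j := by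
    intro i j hj h
    have := nat_isSet hj
    unfold nxt
    rw [fst_opair, snd_opair, iteM_neg h, iteM_neg (suc_ne_empty j), bigU_suc (nat_trans hj)]
  -- second claim
  have c2 : ∀ n : M, n ∈ (omega : M) → (∃ m : M, m ∈ (omega : M) ∧ app c m = opair ∅ n) → ∀ i : M, i ∈ (omega : M) → (Le i n →
      ∃ m : M, m ∈ (omega : M) ∧ app c m = opair i n) := by
    intro n hn h
    refine omega_induction (fun i : M => (Le i n → ∃ m : M, m ∈ (omega : M) ∧ app c m = opair i n)) (fun _ => h) ?_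
    intro i hi ih hin
    have h1 : i ∈ n := lt_of_lt_of_le' hn (by simp) hin
    have := reach_nxt _ (ih (Or.inl h1))
    rwa [n1 i n h1] at this
  have c3 : ∀ n : M, n ∈ (omega : M) → (∃ m : M, m ∈ (omega : M) ∧ app c m = opair ∅ n) → ∀ j : M, j ∈ (omega : M) → Le j n →
      ∃ m : M, m ∈ (omega : M) ∧ app c m = opair n j := by
    intro n hn h j hj hjn
    have hnn := c2 n hn h n hn (Le.refl _)
    by_contra hcon
    have hjn' : j ∈ n := by
      rcases hjn with h1 | rfl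
      · exact h1
      · exact absurd hnn hcon
    obtain ⟨m, hm, ⟨h1, h2, h3⟩, h4⟩ := least_ord (fun m : M => j ∈ m ∧ Le m n ∧ ∃ k : M, k ∈ (omega : M) ∧ app c k = opair n m)
      ⟨n, nat_ord hn, hjn', Le.refl _, hnn⟩
    have hmω : m ∈ (omega : M) := by
      rcases h2 with h2 | rfl
      · exact nat_mem_omega hn h2
      · exact hn
    obtain ⟨l, hl, rfl, hjl⟩ := nat_cases_suc hmω h1
    have h5 : n ∉ suc l := fun h5 => not_mem_self _ (lt_of_lt_of_le' hn h5 h2)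
    have h6 := reach_nxt _ h3
    rw [n3 n l hl h5] at h6
    rcases hjl with hjl | rfl
    · have h7 := h4 l (nat_ord hl) ⟨hjl, Le.trans hn (le_suc _) h2, h6⟩
      exact not_mem_self _ (h7 l (by simp))
    · exact hcon h6
  have c1 : ∀ n : M, n ∈ (omega : M) → ∃ m : M, m ∈ (omega : M) ∧ app c m = opair ∅ n := by
    refine omega_induction (fun n : M => ∃ m : M, m ∈ (omega : M) ∧ app c m = opair ∅ n) ⟨∅, by simp, hc0⟩ ?_
    intro n hn ih
    have := reach_nxt _ (c3 n hn ih ∅ (by simp) (empty_le hn))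
    rwa [n2 n] at this
  refine ⟨c, hc, ?_, ?_⟩
  · refine omega_induction (fun m : M => app c m ∈ prod omega (omega : M)) ?_ ?_
    · rw [hc0, opair_mem_prod]; simp
    · intro m hm ih
      rw [hcs m hm]
      obtain ⟨i, hi, j, hj, he⟩ := mem_prod.1 ih
      rw [he]
      by_cases h1 : i ∈ j
      · rw [n1 i j h1, opair_mem_prod]; exact ⟨suc_mem_omega hi, hj⟩
      · rcases omega_cases hj with rfl | ⟨l, hl, rfl⟩
        · rw [n2, opair_mem_prod]; exact ⟨by simp, suc_mem_omega hi⟩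
        · rw [n3 i l hl h1, opair_mem_prod]; exact ⟨hi, hl⟩
  · intro a b ha hb
    rcases nat_tri ha hb with h | h | h
    · exact c2 b hb (c1 b hb) a ha (Or.inl h)
    · exact c2 b hb (c1 b hb) a ha (Or.inr h)
    · exact c3 a ha (c1 a ha) b hb (Or.inl h)

/-! ### The representation -/

section rep
variable {X uX NX Y uY NY F P : M} (hX : UPol X uX NX) (hY : UPol Y uY NY)
  (hF : ∀ y : M, y ∈ Y → app F y ∈ X)
  (hFc : ∀ y k : M, y ∈ Y → k ∈ (omega : M) → ∃ l : M, l ∈ (omega : M) ∧ ∀ y' : M, Nb NY y y' l → Nb NX (app F y) (app F y') k)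
  (hP : ∀ x : M, x ∈ P ↔ x ∈ X ∧ ∀ y : M, y ∈ Y → app F y ≠ x)

/-- `x` has distance at least `2 ^ (- k)` from the image of the ball with number `m` -/
def Far (NX Y uY NY F c x m k : M) : Prop :=
  ∀ y : M, y ∈ Y → Bl uY NY (fst (app c m)) (snd (app c m)) y → ¬ Nb NX x (app F y) k

/-- the ball with number `m'` is formally included in the ball with number `m` -/
def Ch (Y uY NY c m m' : M) : Prop :=
  Lt Y uY NY (fst (app c m')) (snd (app c m')) (fst (app c m)) (snd (app c m))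

variable (NX Y uY NY F) (c : M)

instance far_dfn {ι : Type} (x m k : (ι → M) → M) [DFun x] [DFun m] [DFun k] :
    Dfn (fun v => Far NX Y uY NY F c (x v) (m v) (k v)) := by
  refine Dfn.comp3 (P := fun x m k : M => Far NX Y uY NY F c x m k) ?_ x m k
  unfold Far; infer_instance

instance ch_dfn {ι : Type} (x m : (ι → M) → M) [DFun x] [DFun m] :
    Dfn (fun v => Ch Y uY NY c (x v) (m v)) := by
  refine Dfn.comp2 (P := fun x m : M => Ch Y uY NY c x m) ?_ x m
  unfold Ch; infer_instance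

/-- one step of the derivative -/
noncomputable def Phi (x T : M) : M :=
  sep omega (fun m : M => (∃ k : M, k ∈ (omega : M) ∧ Far NX Y uY NY F c x m k) ∨
    ∀ m' : M, m' ∈ (omega : M) → Ch Y uY NY c m m' → m' ∈ T)

instance phi_dfun {ι : Type} (x T : (ι → M) → M) [DFun x] [DFun T] :
    DFun (fun v => Phi NX Y uY NY F c (x v) (T v)) := by
  refine DFun.comp2 (F := fun x m : M => Phi NX Y uY NY F c x m) ?_ x T
  unfold Phi; infer_instance

theorem mem_Phi {x T m : M} : m ∈ Phi NX Y uY NY F c x T ↔ m ∈ (omega : M) ∧ ((∃ k : M, k ∈ (omega : M) ∧ Far NX Y uY NY F c x m k) ∨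
    ∀ m' : M, m' ∈ (omega : M) → Ch Y uY NY c m m' → m' ∈ T) := by
  unfold Phi; rw [mem_sep]

variable {NX Y uY NY F c}

include hX hY hF hFc hP in
theorem exists_rep : ∃ K C : M, WOb K ∧ (∀ x h : M, opair x h ∈ C → x ∈ P ∧ h ∈ funs omega K) ∧
    (∀ x : M, x ∈ P → ∃ h : M, opair x h ∈ C) ∧
    (∀ x h : M, x ∈ X → h ∈ funs omega K → (∀ k : M, k ∈ (omega : M) → ∃ x' h' : M, opair x' h' ∈ C ∧
      Nb NX x x' k ∧ ∀ j : M, j ∈ k → app h' j = app h j) → opair x h ∈ C) := by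
  obtain ⟨c, hc, hcω, hcs⟩ := exists_enum (M := M)
  have hnω : ∀ m : M, m ∈ (omega : M) → snd (app c m) ∈ (omega : M) := by
    intro m hm
    obtain ⟨i, hi, j, hj, he⟩ := mem_prod.1 (hcω m hm)
    rw [he, snd_opair]; exact hj
  -- the stages
  obtain ⟨R, hR, hRe⟩ := exists_rec (M := M) (fun x a g => bigU (img (diff a omega) (fun b : M => Phi NX Y uY NY F c x (app g b))))
  have iR : ∀ {ι : Type} (t s : (ι → M) → M) [DFun t] [DFun s], DFun (fun v => R (t v) (s v)) :=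
    fun t s => DFun.comp2 hR t s
  have memR : ∀ x a m : M, m ∈ R x a ↔ ∃ b : M, b ∈ a ∧ b ∉ (omega : M) ∧ m ∈ Phi NX Y uY NY F c x (R x b) := by
    intro x a m
    rw [hRe, mem_bigU]
    constructor
    · rintro ⟨y, hy, hm⟩
      rw [mem_img] at hy
      obtain ⟨b, hb, rfl⟩ := hy
      obtain ⟨hb1, hb2⟩ := mem_diff.1 hb
      rw [app_lam hb1] at hm
      exact ⟨b, hb1, hb2, hm⟩
    · rintro ⟨b, hb1, hb2, hm⟩
      refine ⟨Phi NX Y uY NY F c x (app (lam a (fun y : M => R x y)) b), ?_, ?_⟩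
      · rw [mem_img]
        exact ⟨b, mem_diff.2 ⟨hb1, hb2⟩, rfl⟩
      · rw [app_lam hb1]; exact hm
  -- ranks
  obtain ⟨hh, hhe⟩ : ∃ hh : M → M → M, hh = fun x m : M => iteM (∃ k : M, k ∈ (omega : M) ∧ Far NX Y uY NY F c x m k)
    (mu (fun k : M => k ∈ (omega : M) ∧ Far NX Y uY NY F c x m k))
    (mu (fun α : M => α ∉ (omega : M) ∧ m ∈ Phi NX Y uY NY F c x (R x α))) := ⟨_, rfl⟩
  have ihh0 : Fn2 hh := by
    rw [hhe]
    exact (inferInstance : DFun (fun v : Fin 2 → M => iteM (∃ k : M, k ∈ (omega : M) ∧ Far NX Y uY NY F c (v 0) (v 1) k)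
      (mu (fun k : M => k ∈ (omega : M) ∧ Far NX Y uY NY F c (v 0) (v 1) k))
      (mu (fun α : M => α ∉ (omega : M) ∧ v 1 ∈ Phi NX Y uY NY F c (v 0) (R (v 0) α)))))
  have ihh : ∀ {ι : Type} (t s : (ι → M) → M) [DFun t] [DFun s], DFun (fun v => hh (t v) (s v)) :=
    fun t s => DFun.comp2 ihh0 t s
  have hhpos : ∀ x m : M, (∃ k : M, k ∈ (omega : M) ∧ Far NX Y uY NY F c x m k) →
      hh x m ∈ (omega : M) ∧ Far NX Y uY NY F c x m (hh x m) := by
    intro x m h
    rw [hhe]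
    show iteM _ _ _ ∈ _ ∧ Far NX Y uY NY F c x m (iteM _ _ _)
    rw [iteM_pos h]
    obtain ⟨k, hk, hk'⟩ := h
    exact (mu_spec (fun k : M => k ∈ (omega : M) ∧ Far NX Y uY NY F c x m k) ⟨k, nat_ord hk, hk, hk'⟩).2.1
  have hhneg : ∀ x m : M, ¬ (∃ k : M, k ∈ (omega : M) ∧ Far NX Y uY NY F c x m k) →
      hh x m = mu (fun α : M => α ∉ (omega : M) ∧ m ∈ Phi NX Y uY NY F c x (R x α)) := by
    intro x m h
    rw [hhe]
    exact iteM_neg h _ _
  -- claim A
  have claimA : ∀ x m : M, x ∈ P → m ∈ (omega : M) → ∃ α : M, IsOrd α ∧ α ∉ (omega : M) ∧ m ∈ Phi NX Y uY NY F c x (R x α) := by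
    intro x m0 hx hm0
    by_contra hcon
    obtain ⟨A, hA⟩ : ∃ A : M, A = sep omega (fun m : M => ∀ α : M, IsOrd α → α ∉ (omega : M) → m ∉ Phi NX Y uY NY F c x (R x α)) := ⟨_, rfl⟩
    have hAm : ∀ m : M, m ∈ A ↔ m ∈ (omega : M) ∧ ∀ α : M, IsOrd α → α ∉ (omega : M) → m ∉ Phi NX Y uY NY F c x (R x α) := by
      intro m; rw [hA, mem_sep]
    have hm0A : m0 ∈ A := (hAm m0).2 ⟨hm0, fun α h1 h2 h3 => hcon ⟨α, h1, h2, h3⟩⟩
    have hω : IsOrd (omega : M) := omega_ord
    have hnf : ∀ m : M, m ∈ A → ¬ ∃ k : M, k ∈ (omega : M) ∧ Far NX Y uY NY F c x m k := by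
      intro m hm h
      obtain ⟨hm1, hm2⟩ := (hAm m).1 hm
      exact hm2 omega hω (not_mem_self _) ((mem_Phi NX Y uY NY F c).2 ⟨hm1, Or.inl h⟩)
    have hch : ∀ m : M, m ∈ A → ∃ m' : M, m' ∈ A ∧ Ch Y uY NY c m m' := by
      intro m hm
      by_contra hno
      obtain ⟨hm1, hm2⟩ := (hAm m).1 hm
      let al : M → M := fun m' => mu (fun α : M => α ∉ (omega : M) ∧ m' ∈ Phi NX Y uY NY F c x (R x α))
      have ial : Fn1 al := (inferInstance : DFun (fun v : Fin 1 → M => mu (fun α : M => α ∉ (omega : M) ∧ v 0 ∈ Phi NX Y uY NY F c x (R x α))))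
      have hal : ∀ m' : M, m' ∈ (omega : M) → Ch Y uY NY c m m' → IsOrd (al m') ∧ (al m' ∉ (omega : M) ∧ m' ∈ Phi NX Y uY NY F c x (R x (al m'))) := by
        intro m' h1 h2
        have h3 : m' ∉ A := fun h3 => hno ⟨m', h3, h2⟩
        rw [hAm] at h3
        push Not at h3
        obtain ⟨α, h4, h5, h6⟩ := h3 h1
        have := mu_spec (fun α : M => α ∉ (omega : M) ∧ m' ∈ Phi NX Y uY NY F c x (R x α)) ⟨α, h4, h5, h6⟩
        exact ⟨this.1, this.2.1⟩
      obtain ⟨s, hs⟩ : ∃ s : M, s = un (sing omega) (img (sep omega (fun m' : M => Ch Y uY NY c m m')) al) := ⟨_, rfl⟩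
      have hsm : ∀ a : M, a ∈ s ↔ a = omega ∨ ∃ m' : M, (m' ∈ (omega : M) ∧ Ch Y uY NY c m m') ∧ a = al m' := by
        intro a
        rw [hs, mem_un, mem_sing, mem_img]
        simp only [mem_sep]
      have hso : ∀ a : M, a ∈ s → IsOrd a := by
        intro a ha
        rcases (hsm a).1 ha with rfl | ⟨m', ⟨h1, h2⟩, rfl⟩
        · exact hω
        · exact (hal m' h1 h2).1
      have hU := ord_bigU hso
      have hmemU : ∀ a : M, a ∈ s → a ∈ suc (bigU s) := by
        intro a ha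
        rw [mem_suc]
        apply (ord_sub_iff (hso a ha) hU).1
        intro z hz
        exact mem_bigU.2 ⟨a, ha, hz⟩
      have hωs := hmemU omega ((hsm _).2 (Or.inl rfl))
      refine hm2 (suc (bigU s)) (ord_suc hU) ?_ ((mem_Phi NX Y uY NY F c).2 ⟨hm1, Or.inr ?_⟩)
      · intro h
        exact not_mem_self _ (nat_mem_omega h hωs)
      · intro m' h1 h2
        rw [memR]
        have h3 := hal m' h1 h2
        exact ⟨al m', hmemU _ ((hsm _).2 (Or.inr ⟨m', ⟨h1, h2⟩, rfl⟩)), h3.2.1, h3.2.2⟩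
    -- the branch
    obtain ⟨g, hg, hg0, hgs⟩ := omega_rec (M := M) m0 (fun _ y => mu (fun m' : M => m' ∈ A ∧ Ch Y uY NY c y m'))
    have hgA : ∀ n : M, n ∈ (omega : M) → app g n ∈ A := by
      refine omega_induction (fun n : M => app g n ∈ A) (by rw [hg0]; exact hm0A) ?_
      intro n hn ih
      rw [hgs n hn]
      obtain ⟨m', h1, h2⟩ := hch _ ih
      exact (mu_spec (fun m' : M => m' ∈ A ∧ Ch Y uY NY c (app g n) m') ⟨m', nat_ord ((hAm m').1 h1).1, h1, h2⟩).2.1.1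
    have hgC : ∀ n : M, n ∈ (omega : M) → Ch Y uY NY c (app g n) (app g (suc n)) := by
      intro n hn
      rw [hgs n hn]
      obtain ⟨m', h1, h2⟩ := hch _ (hgA n hn)
      exact (mu_spec (fun m' : M => m' ∈ A ∧ Ch Y uY NY c (app g n) m') ⟨m', nat_ord ((hAm m').1 h1).1, h1, h2⟩).2.1.2
    have hgω : ∀ n : M, n ∈ (omega : M) → app g n ∈ (omega : M) := fun n hn => ((hAm _).1 (hgA n hn)).1
    have hBω : ∀ k : M, k ∈ (omega : M) → Le ∅ k → snd (app c (app g k)) ∈ (omega : M) := fun k hk _ => hnω _ (hgω k hk)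
    obtain ⟨y, hy, hy'⟩ := hY.limit (fun n : M => fst (app c (app g n))) (fun n : M => snd (app c (app g n)))
      (k0 := ∅) (by simp) hBω (fun k hk _ => hgC k hk)
    have unb := chain_unb (fun n : M => snd (app c (app g n))) (k0 := ∅) (by simp) hBω (fun k hk _ => (hgC k hk).1)
    have hxX := ((hP x).1 hx).1
    have : app F y = x := by
      apply hX.sep _ _ (hF y hy) hxX
      intro k hk
      obtain ⟨l, hl, h1⟩ := hFc y (suc k) hy (suc_mem_omega hk)
      obtain ⟨j, hj, h0j, hlj⟩ := unb l hl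
      have h2 := hnf _ (hgA j hj)
      have h3 : ¬ Far NX Y uY NY F c x (app g j) (suc k) := fun h => h2 ⟨suc k, suc_mem_omega hk, h⟩
      unfold Far at h3
      push Not at h3
      obtain ⟨y', hy1, hy2, hy3⟩ := h3
      have h4 := hY.small hl (hnω _ (hgω j hj)) hlj (hy' j hj h0j) y' (hY.step (hnω _ (hgω j hj)) hy2)
      exact hX.comp _ _ _ k hk (h1 y' h4) (hX.symm _ _ _ hy3)
    exact ((hP x).1 hx).2 y hy this
  -- ordinals
  have hho : ∀ x m : M, x ∈ P → m ∈ (omega : M) → IsOrd (hh x m) := by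
    intro x m hx hm
    by_cases h : ∃ k : M, k ∈ (omega : M) ∧ Far NX Y uY NY F c x m k
    · exact nat_ord (hhpos x m h).1
    · rw [hhneg x m h]
      obtain ⟨α, h1, h2, h3⟩ := claimA x m hx hm
      exact (mu_spec (fun α : M => α ∉ (omega : M) ∧ m ∈ Phi NX Y uY NY F c x (R x α)) ⟨α, h1, h2, h3⟩).1
  obtain ⟨K, hK⟩ : ∃ K : M, K = img (prod P omega) (fun p : M => hh (fst p) (snd p)) := ⟨_, rfl⟩
  have hKo : ∀ a : M, a ∈ K → IsOrd a := by
    intro a ha
    rw [hK, mem_img] at ha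
    obtain ⟨p, hp, rfl⟩ := ha
    obtain ⟨x, hx, m, hm, rfl⟩ := mem_prod.1 hp
    rw [fst_opair, snd_opair]
    exact hho x m hx hm
  obtain ⟨C, hC⟩ : ∃ C : M, C = sep (prod X (funs omega K)) (fun p : M => ∀ m : M, m ∈ (omega : M) →
    (app (snd p) m ∈ (omega : M) → Far NX Y uY NY F c (fst p) m (app (snd p) m)) ∧
    (app (snd p) m ∉ (omega : M) → ∀ m' : M, m' ∈ (omega : M) → Ch Y uY NY c m m' → app (snd p) m' ∈ app (snd p) m)) := ⟨_, rfl⟩
  have hCm : ∀ x h : M, opair x h ∈ C ↔ (x ∈ X ∧ h ∈ funs omega K) ∧ ∀ m : M, m ∈ (omega : M) →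
    (app h m ∈ (omega : M) → Far NX Y uY NY F c x m (app h m)) ∧
    (app h m ∉ (omega : M) → ∀ m' : M, m' ∈ (omega : M) → Ch Y uY NY c m m' → app h m' ∈ app h m) := by
    intro x h
    rw [hC, mem_sep, opair_mem_prod, fst_opair, snd_opair]
  refine ⟨K, C, WOb_ord hKo, ?_, ?_, ?_⟩
  · intro x h hxh
    obtain ⟨⟨hx, hh1⟩, h1⟩ := (hCm x h).1 hxh
    refine ⟨(hP x).2 ⟨hx, ?_⟩, hh1⟩
    rintro y hy rfl
    have hK' : ∀ m : M, m ∈ (omega : M) → IsOrd (app h m) := fun m hm => hKo _ ((mem_funs.1 hh1).2 m hm)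
    obtain ⟨α, hα, ⟨m, hm, hmy, rfl⟩, hmin⟩ := least_ord (fun α : M => ∃ m : M, m ∈ (omega : M) ∧
      Bl uY NY (fst (app c m)) (snd (app c m)) y ∧ α = app h m) (by
        obtain ⟨a, ha, ha'⟩ := hY.exists_ball hy (empty_mem_omega)
        obtain ⟨m, hm, hm'⟩ := hcs a ∅ ha (by simp)
        exact ⟨app h m, hK' m hm, m, hm, by rw [hm', fst_opair, snd_opair]; exact ha', rfl⟩)
    by_cases h2 : app h m ∈ (omega : M)
    · exact (h1 m hm).1 h2 y hy hmy (hX.refl _ _ hx h2)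
    · obtain ⟨n0, hn0, h3⟩ := hY.exists_lt (hnω m hm) hmy
      obtain ⟨a, ha, ha'⟩ := hY.exists_ball hy (suc_mem_omega hn0)
      obtain ⟨m', hm', hcm'⟩ := hcs a (suc n0) ha (suc_mem_omega hn0)
      have h4 := h3 (suc n0) (suc_mem_omega hn0) (by simp) a ha'
      have h5 : Ch Y uY NY c m m' := by
        unfold Ch
        rw [hcm', fst_opair, snd_opair]; exact h4
      have h6 := (h1 m hm).2 h2 m' hm' h5
      have h7 := hmin _ (hK' m' hm') ⟨m', hm', by rw [hcm', fst_opair, snd_opair]; exact ha', rfl⟩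
      exact not_mem_self _ (h7 _ h6)
  · intro x hx
    have hl := lam_fnOn (omega : M) (fun m : M => hh x m)
    refine ⟨lam omega (fun m : M => hh x m), (hCm _ _).2 ⟨⟨((hP x).1 hx).1, mem_funs.2 ⟨hl, ?_⟩⟩, ?_⟩⟩
    · intro m hm
      rw [app_lam hm, hK, mem_img]
      exact ⟨opair x m, opair_mem_prod.2 ⟨hx, hm⟩, by rw [fst_opair, snd_opair]⟩
    · intro m hm
      rw [app_lam hm]
      by_cases h : ∃ k : M, k ∈ (omega : M) ∧ Far NX Y uY NY F c x m k
      · obtain ⟨h1, h2⟩ := hhpos x m h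
        exact ⟨fun _ => h2, fun h3 => absurd h1 h3⟩
      · obtain ⟨α, h1, h2, h3⟩ := claimA x m hx hm
        have h4 := mu_spec (fun α : M => α ∉ (omega : M) ∧ m ∈ Phi NX Y uY NY F c x (R x α)) ⟨α, h1, h2, h3⟩
        rw [← hhneg x m h] at h4
        refine ⟨fun h5 => absurd h5 h4.2.1.1, fun _ m' hm' hch => ?_⟩
        rw [app_lam hm']
        have h5 := ((mem_Phi NX Y uY NY F c).1 h4.2.1.2).2
        rcases h5 with h5 | h5
        · exact absurd h5 h
        · obtain ⟨b, hb, hbω, hb'⟩ := (memR _ _ _).1 (h5 m' hm' hch)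
          have hsub : (omega : M) ⊆ hh x m := ord_not_mem h4.1 omega_ord h4.2.1.1
          by_cases h' : ∃ k : M, k ∈ (omega : M) ∧ Far NX Y uY NY F c x m' k
          · exact hsub _ (hhpos x m' h').1
          · have hbo : IsOrd b := h4.1.mem hb
            have h6 := mu_spec (fun α : M => α ∉ (omega : M) ∧ m' ∈ Phi NX Y uY NY F c x (R x α)) ⟨b, hbo, hbω, hb'⟩
            rw [← hhneg x m' h'] at h6
            rcases (ord_sub_iff h6.1 hbo).1 (h6.2.2 b hbo ⟨hbω, hb'⟩) with h7 | h7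
            · exact h4.1.2.1 b hb _ h7
            · rw [h7]; exact hb
  · intro x h hx hh1 hcl
    refine (hCm _ _).2 ⟨⟨hx, hh1⟩, fun m hm => ⟨fun h1 => ?_, fun h1 m' hm' hch => ?_⟩⟩
    · intro y hy hB hN
      obtain ⟨l, hl, h2⟩ := hX.opn _ _ _ h1 (hX.symm _ _ _ hN)
      obtain ⟨k, hk, h3, h4⟩ := nat_bd hl hm
      obtain ⟨x', h', h5, h6, h7⟩ := hcl k hk
      have h8 := h2 x' (hX.mono hk (Or.inl h3) h6)
      have h9 := (((hCm _ _).1 h5).2 m hm).1
      rw [h7 m h4] at h9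
      exact h9 h1 y hy hB (hX.symm _ _ _ h8)
    · obtain ⟨k, hk, h3, h4⟩ := nat_bd hm hm'
      obtain ⟨x', h', h5, h6, h7⟩ := hcl k hk
      have h9 := (((hCm _ _).1 h5).2 m hm).2
      rw [h7 m h3] at h9
      have := h9 h1 m' hm' hch
      rwa [h7 m' h4] at this

end rep

end Pool.Agent.H55.ZFU
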