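import Mathlib
import Pool.Agent.H55.Ord

set_option autoImplicit false
set_option linter.all false
universe u

/-!
# Involutions of a model induced by involutions of a set of urelements
-/

namespace Pool.Agent.H55.ZFU

variable {M : Type u} [Model M]

/-- `g` is an involution of the set `D` of urelements. -/
def IsInv (g D : M) : Prop := ∀ u, u ∈ D → Ur u ∧ app g u ∈ D ∧ app g (app g u) = u

instance isInv_dfn {ι : Type} (t s : (ι → M) → M) [DFun t] [DFun s] : Dfn (fun v => IsInv (t v) (s v)) := by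
  refine Dfn.comp2 (P := fun f a : M => IsInv f a) ?_ t s
  unfold IsInv; infer_instance

theorem exists_sw (g D : M) : ∃ r : M → M, Fn1 r ∧
    ∀ x, r x = iteM (Ur x) (iteM (x ∈ D) (app g x) x) (img x (fun y => r y)) := by
  obtain ⟨F, hF, h⟩ := exists_rec (M := M)
    (fun p x f => iteM (Ur x) (iteM (x ∈ D) (app g x) x) (img x (fun y => app f y)))
  have h1 : Fn1 (fun y => F ∅ y) := DFun.comp2 hF (fun _ => ∅) (fun v => v 0)
  refine ⟨fun x => F ∅ x, h1, fun x => ?_⟩
  show F ∅ x = _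
  rw [h]
  congr 1
  apply img_congr
  intro y hy
  rw [app_lam hy]

/-- the map of the model induced by `g` on `D` -/
noncomputable def sw (g D : M) (x : M) : M := Classical.choose (exists_sw g D) x

variable {g D : M}

theorem sw_fn1 (g D : M) : Fn1 (sw g D) := (Classical.choose_spec (exists_sw g D)).1

instance sw_dfun (g D : M) {ι : Type} (t : (ι → M) → M) [DFun t] : DFun (fun v => sw g D (t v)) :=
  DFun.comp1 (sw_fn1 g D) t

theorem sw_eq (x : M) : sw g D x = iteM (Ur x) (iteM (x ∈ D) (app g x) x) (img x (fun y => sw g D y)) :=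
  (Classical.choose_spec (exists_sw g D)).2 x

theorem sw_ur_mem {x : M} (h : Ur x) (hx : x ∈ D) : sw g D x = app g x := by
  rw [sw_eq, iteM_pos h, iteM_pos hx]

theorem sw_ur_not_mem {x : M} (h : Ur x) (hx : x ∉ D) : sw g D x = x := by
  rw [sw_eq, iteM_pos h, iteM_neg hx]

theorem sw_set {x : M} (h : ¬ Ur x) : sw g D x = img x (fun y => sw g D y) := by
  rw [sw_eq, iteM_neg h]

theorem mem_sw_set {x y : M} (h : ¬ Ur x) : y ∈ sw g D x ↔ ∃ z, z ∈ x ∧ y = sw g D z := by
  rw [sw_set h, mem_img]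

theorem sw_isSet {x : M} (h : ¬ Ur x) : ¬ Ur (sw g D x) := by
  rw [sw_set h]; exact isSet_iff.1 inferInstance

theorem sw_is_ur (hg : IsInv g D) {x : M} (h : Ur x) : Ur (sw g D x) := by
  by_cases hx : x ∈ D
  · rw [sw_ur_mem h hx]
    exact (hg _ (hg x hx).2.1).1
  · rw [sw_ur_not_mem h hx]; exact h

theorem ur_sw (hg : IsInv g D) {x : M} : Ur (sw g D x) ↔ Ur x :=
  ⟨fun h => by by_contra h'; exact sw_isSet h' h, sw_is_ur hg⟩

theorem sw_sw (hg : IsInv g D) : ∀ x : M, sw g D (sw g D x) = x := by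
  refine mem_induction (fun x : M => sw g D (sw g D x) = x) ?_
  intro x ih
  by_cases h : Ur x
  · by_cases hx : x ∈ D
    · rw [sw_ur_mem h hx]
      have h1 := hg x hx
      rw [sw_ur_mem (hg _ h1.2.1).1 h1.2.1, h1.2.2]
    · rw [sw_ur_not_mem h hx, sw_ur_not_mem h hx]
  · have h' : ¬ Ur (sw g D x) := sw_isSet h
    have : IsSet x := ⟨h⟩
    have : IsSet (sw g D (sw g D x)) := ⟨sw_isSet h'⟩
    apply ext
    intro y
    rw [mem_sw_set h']
    constructor
    · rintro ⟨z, hz, rfl⟩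
      rw [mem_sw_set h] at hz
      obtain ⟨w, hw, rfl⟩ := hz
      rw [ih w hw]; exact hw
    · intro hy
      exact ⟨sw g D y, (mem_sw_set h).2 ⟨y, hy, rfl⟩, (ih y hy).symm⟩

theorem sw_inj (hg : IsInv g D) {x y : M} : sw g D x = sw g D y ↔ x = y :=
  ⟨fun h => by rw [← sw_sw hg x, h, sw_sw hg], fun h => by rw [h]⟩

theorem sw_mem (hg : IsInv g D) {x y : M} : sw g D x ∈ sw g D y ↔ x ∈ y := by
  by_cases h : Ur y
  · have h1 : sw g D x ∉ sw g D y := ur_not_mem (sw_is_ur hg h) _
    have h2 : x ∉ y := ur_not_mem h _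
    simp [h1, h2]
  · rw [mem_sw_set h]
    constructor
    · rintro ⟨z, hz, he⟩
      rw [sw_inj hg] at he
      rw [he]; exact hz
    · intro hx; exact ⟨x, hx, rfl⟩

theorem mem_sw (hg : IsInv g D) {x y : M} : x ∈ sw g D y ↔ sw g D x ∈ y := by
  conv_lhs => rw [← sw_sw hg x]
  rw [sw_mem hg]

theorem sw_sub (hg : IsInv g D) {x y : M} : sw g D x ⊆ sw g D y ↔ x ⊆ y := by
  constructor
  · intro h z hz
    rw [← sw_mem hg]
    exact h _ ((sw_mem hg).2 hz)
  · intro h z hz
    rw [mem_sw hg] at hz ⊢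
    exact h _ hz

theorem sw_upair (hg : IsInv g D) {x y : M} : sw g D (upair x y) = upair (sw g D x) (sw g D y) := by
  have : IsSet (sw g D (upair x y)) := ⟨sw_isSet (isSet_iff.1 inferInstance)⟩
  apply ext
  intro z
  rw [mem_sw hg, mem_upair, mem_upair]
  constructor
  · rintro (h | h)
    · left; rw [← h, sw_sw hg]
    · right; rw [← h, sw_sw hg]
  · rintro (h | h)
    · left; rw [h, sw_sw hg]
    · right; rw [h, sw_sw hg]

theorem sw_opair (hg : IsInv g D) {x y : M} : sw g D (opair x y) = opair (sw g D x) (sw g D y) := by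
  unfold opair sing
  rw [sw_upair hg, sw_upair hg, sw_upair hg]

theorem opair_mem_sw (hg : IsInv g D) {x y z : M} : opair x y ∈ sw g D z ↔ opair (sw g D x) (sw g D y) ∈ z := by
  rw [mem_sw hg, sw_opair hg]

/-- elements whose kernel is disjoint from `D` are fixed -/
theorem sw_fix : ∀ x : M, (∀ u, u ∈ ker x → u ∉ D) → sw g D x = x := by
  refine mem_induction (fun x : M => (∀ u, u ∈ ker x → u ∉ D) → sw g D x = x) ?_
  intro x ih hx
  by_cases h : Ur x
  · exact sw_ur_not_mem h (hx x (by rw [ker_ur h]; simp))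
  · have : IsSet x := ⟨h⟩
    have : IsSet (sw g D x) := ⟨sw_isSet h⟩
    apply ext
    intro y
    rw [mem_sw_set h]
    constructor
    · rintro ⟨z, hz, rfl⟩
      rw [ih z hz (fun u hu => hx u (ker_mem hz u hu))]; exact hz
    · intro hy
      exact ⟨y, hy, (ih y hy (fun u hu => hx u (ker_mem hy u hu))).symm⟩

theorem ker_sw_imp (hg : IsInv g D) : ∀ x : M, ∀ u, u ∈ ker x → sw g D u ∈ ker (sw g D x) := by
  refine mem_induction (fun x : M => ∀ u, u ∈ ker x → sw g D u ∈ ker (sw g D x)) ?_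
  intro x ih u hu
  by_cases h : Ur x
  · rw [ker_ur h] at hu
    simp at hu
    subst hu
    rw [ker_ur (sw_is_ur hg h)]; simp
  · rw [mem_ker h] at hu
    obtain ⟨y, hy, hu⟩ := hu
    rw [mem_ker (sw_isSet h)]
    exact ⟨sw g D y, (sw_mem hg).2 hy, ih y hy u hu⟩

theorem mem_ker_sw (hg : IsInv g D) {x u : M} : u ∈ ker (sw g D x) ↔ sw g D u ∈ ker x := by
  constructor
  · intro h
    have := ker_sw_imp hg _ u h
    rwa [sw_sw hg] at this
  · intro h
    have := ker_sw_imp hg _ _ h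
    rwa [sw_sw hg] at this

end Pool.Agent.H55.ZFU
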