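import Mathlib
import Pool.Agent.H55.Swap

set_option autoImplicit false
set_option linter.all false
universe u

/-!
# Conditions (choice functions) and the key lemma
-/

namespace Pool.Agent.H55.ZFU

variable {M : Type u} [Model M]

open Classical in
/-- least ordinal with a property (or `∅`) -/
noncomputable def lst (P : M → Prop) : M :=
  if h : ∃ a, IsOrd a ∧ P a ∧ ∀ b, IsOrd b → P b → a ⊆ b then Classical.choose h else ∅

theorem lst_spec {P : M → Prop} [hP : Dfn1 P] (h : ∃ a, IsOrd a ∧ P a) :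
    IsOrd (lst P) ∧ P (lst P) ∧ ∀ b, IsOrd b → P b → lst P ⊆ b := by
  have h' := least_ord P h
  have : lst P = Classical.choose h' := by unfold lst; exact dif_pos h'
  rw [this]
  exact Classical.choose_spec h'

theorem least_unique {P : M → Prop} {a b : M} (ha : IsOrd a ∧ P a ∧ ∀ b, IsOrd b → P b → a ⊆ b)
    (hb : IsOrd b ∧ P b ∧ ∀ c, IsOrd c → P c → b ⊆ c) : a = b := by
  have := ha.1.1
  have := hb.1.1
  exact ext fun x => ⟨ha.2.2 b hb.1 hb.2.1 x, hb.2.2 a ha.1 ha.2.1 x⟩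

instance lst_dfun {ι : Type} (φ : (ι → M) → M → Prop)
    [h : Dfn (fun w : Option ι → M => φ (fun i => w (some i)) (w none))] :
    DFun (fun v => lst (φ v)) := by
  have h2 : Dfn (fun w : Option (Option ι) → M => φ (fun i => w (some (some i))) (w none)) :=
    Dfn.rename (fun o : Option ι => o.elim none (fun i => some (some i))) h
  have h3 : Dfn (fun w : Option (Option (Option ι)) → M => φ (fun i => w (some (some (some i)))) (w none)) :=
    Dfn.rename (fun o : Option ι => o.elim none (fun i => some (some (some i)))) h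
  have h4 : Dfn (fun w : Option (Option (Option ι)) → M => φ (fun i => w (some (some (some i)))) (w (some none))) :=
    Dfn.rename (fun o : Option ι => o.elim (some none) (fun i => some (some (some i)))) h
  refine DFun.of_iff (fun v y => (IsOrd y ∧ φ v y ∧ ∀ b : M, IsOrd b → φ v b → y ⊆ b) ∨
    ((¬ ∃ a : M, IsOrd a ∧ φ v a ∧ ∀ b : M, IsOrd b → φ v b → a ⊆ b) ∧ y = ∅)) inferInstance ?_
  intro v y
  by_cases hex : ∃ a : M, IsOrd a ∧ φ v a ∧ ∀ b : M, IsOrd b → φ v b → a ⊆ b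
  · have h1 : lst (φ v) = Classical.choose hex := by unfold lst; exact dif_pos hex
    rw [h1]
    have hs := Classical.choose_spec hex
    constructor
    · rintro rfl; exact Or.inl hs
    · rintro (h | ⟨h, _⟩)
      · exact least_unique h hs
      · exact absurd hex h
  · have h1 : lst (φ v) = ∅ := by unfold lst; exact dif_neg hex
    rw [h1]
    constructor
    · rintro rfl; exact Or.inr ⟨hex, rfl⟩
    · rintro (h | ⟨_, h⟩)
      · exact absurd ⟨y, h⟩ hex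
      · exact h

/-- conditions: sets of pairs `(x,y)`, `y ∈ x`, functional -/
def Cond (q : M) : Prop := IsSet q ∧ (∀ p, p ∈ q → ∃ x y, p = opair x y ∧ y ∈ x) ∧
  ∀ x y z, opair x y ∈ q → opair x z ∈ q → y = z

instance cond_dfn {ι : Type} (t : (ι → M) → M) [DFun t] : Dfn (fun v => Cond (t v)) := by
  refine Dfn.comp1 (P := fun a : M => Cond a) ?_ t
  unfold Cond; infer_instance

/-- restriction of a condition to `V(k)` -/
noncomputable def res (q k : M) : M := sep q (fun p => ∃ x y, p = opair x y ∧ ker x ⊆ k)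

theorem mem_res {q k p : M} : p ∈ res q k ↔ p ∈ q ∧ ∃ x y, p = opair x y ∧ ker x ⊆ k := by
  simp [res]

instance (q k : M) : IsSet (res q k) := by unfold res; infer_instance

theorem opair_mem_res {q k x y : M} : opair x y ∈ res q k ↔ opair x y ∈ q ∧ ker x ⊆ k := by
  rw [mem_res]
  constructor
  · rintro ⟨h, x', y', he, hk⟩
    simp at he
    rw [← he.1] at hk
    exact ⟨h, hk⟩
  · rintro ⟨h, hk⟩; exact ⟨h, x, y, rfl, hk⟩

theorem Cond.res {q : M} (hq : Cond q) (k : M) : Cond (res q k) :=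
  ⟨inferInstance, fun p hp => hq.2.1 p (mem_res.1 hp).1, fun x y z h h' =>
    hq.2.2 x y z (opair_mem_res.1 h).1 (opair_mem_res.1 h').1⟩

theorem res_sub (q k : M) : res q k ⊆ q := fun p hp => (mem_res.1 hp).1

theorem ker_opair {x y u : M} : u ∈ ker (opair x y) ↔ u ∈ ker x ∨ u ∈ ker y := by
  have h1 : ∀ a b : M, ¬ Ur (upair a b) := fun a b => isSet_iff.1 inferInstance
  unfold opair sing
  rw [mem_ker (h1 _ _)]
  constructor
  · rintro ⟨z, hz, hu⟩
    rw [mem_upair] at hz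
    rcases hz with rfl | rfl
    · rw [mem_ker (h1 _ _)] at hu
      obtain ⟨w, hw, hu⟩ := hu
      rw [mem_upair] at hw
      rcases hw with rfl | rfl <;> exact Or.inl hu
    · rw [mem_ker (h1 _ _)] at hu
      obtain ⟨w, hw, hu⟩ := hu
      rw [mem_upair] at hw
      rcases hw with rfl | rfl
      · exact Or.inl hu
      · exact Or.inr hu
  · rintro (hu | hu)
    · refine ⟨upair x x, by simp, ?_⟩
      rw [mem_ker (h1 _ _)]
      exact ⟨x, by simp, hu⟩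
    · refine ⟨upair x y, by simp, ?_⟩
      rw [mem_ker (h1 _ _)]
      exact ⟨y, by simp, hu⟩

theorem ker_sub_of {x k : M} (hx : ¬ Ur x) (h : ∀ y, y ∈ x → ker y ⊆ k) : ker x ⊆ k := by
  intro u hu
  rw [mem_ker hx] at hu
  obtain ⟨y, hy, hu⟩ := hu
  exact h y hy u hu

theorem ker_res {q : M} (hq : Cond q) (k : M) : ker (res q k) ⊆ k := by
  refine ker_sub_of (isSet_iff.1 inferInstance) ?_
  intro p hp
  obtain ⟨hp1, x, y, rfl, hk⟩ := mem_res.1 hp
  intro u hu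
  rw [ker_opair] at hu
  rcases hu with hu | hu
  · exact hk u hu
  · obtain ⟨x', y', he, hy⟩ := hq.2.1 _ hp1
    simp at he
    obtain ⟨rfl, rfl⟩ := he
    exact hk u (ker_mem hy u hu)

theorem cond_sw {g D q : M} (hg : IsInv g D) (hq : Cond q) : Cond (sw g D q) := by
  refine ⟨⟨sw_isSet hq.1.out⟩, ?_, ?_⟩
  · intro p hp
    rw [mem_sw hg] at hp
    obtain ⟨x, y, he, hy⟩ := hq.2.1 _ hp
    refine ⟨sw g D x, sw g D y, ?_, (sw_mem hg).2 hy⟩
    rw [← sw_opair hg, ← he, sw_sw hg]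
  · intro x y z h h'
    rw [opair_mem_sw hg] at h h'
    have := hq.2.2 _ _ _ h h'
    rwa [sw_inj hg] at this

/-- the compatibility lemma -/
theorem cond_compat {g D k w q r : M} (hg : IsInv g D) (hD : ∀ u, u ∈ D → u ∉ k)
    (hw : ∀ u, u ∈ w → u ∈ D ∧ app g u ∉ w) (hq : Cond q) (hr : Cond r)
    (hqk : ∀ u, u ∈ ker q → u ∈ k ∨ u ∈ w) (hrk : ∀ u, u ∈ ker r → u ∈ k ∨ u ∈ w)
    (hres : ∀ x y z, ker x ⊆ k → opair x y ∈ q → opair x z ∈ r → y = z) :
    Cond (un q (sw g D r)) := by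
  have hs := cond_sw hg hr
  have key : ∀ x y z, opair x y ∈ q → opair x z ∈ sw g D r → y = z := by
    intro x y z h h'
    rw [opair_mem_sw hg] at h'
    have hkx : ker x ⊆ k := by
      intro u hu
      rcases hqk u (ker_mem h u (ker_opair.2 (Or.inl hu))) with hk | huw
      · exact hk
      · exfalso
        have h1 := ker_sw_imp hg x u hu
        have h2 := hrk _ (ker_mem h' _ (ker_opair.2 (Or.inl h1)))
        have h3 := hw u huw
        have h4 : sw g D u = app g u := sw_ur_mem (hg u h3.1).1 h3.1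
        rw [h4] at h2
        rcases h2 with h2 | h2
        · exact hD _ (hg u h3.1).2.1 h2
        · exact h3.2 h2
    have hfx : ∀ v, ker v ⊆ k → sw g D v = v := fun v hv =>
      sw_fix v (fun u hu hu' => hD u hu' (hv u hu))
    rw [hfx x hkx] at h'
    have hz : sw g D z ∈ x := by
      obtain ⟨x', y', he, hy⟩ := hr.2.1 _ h'
      simp at he
      obtain ⟨rfl, rfl⟩ := he
      exact hy
    have hz' : sw g D (sw g D z) = sw g D z := hfx _ (Sub.trans (ker_mem hz) hkx)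
    rw [sw_sw hg] at hz'
    rw [← hz'] at h'
    exact hres x y z hkx h h'
  refine ⟨inferInstance, ?_, ?_⟩
  · intro p hp
    rw [mem_un] at hp
    rcases hp with hp | hp
    · exact hq.2.1 p hp
    · exact hs.2.1 p hp
  · intro x y z h h'
    rw [mem_un] at h h'
    rcases h with h | h <;> rcases h' with h' | h'
    · exact hq.2.2 _ _ _ h h'
    · exact key _ _ _ h h'
    · exact (key _ _ _ h' h).symm
    · exact hs.2.2 _ _ _ h h'

/-- Ternary definable predicates. -/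
abbrev Dfn3 (φ : M → M → M → Prop) : Prop := Dfn (fun v : Fin 3 → M => φ (v 0) (v 1) (v 2))

/-- `k` is a homogeneous set of urelements: sets of urelements off `k` can be moved off themselves. -/
def Hom (k : M) : Prop := ∀ w : M, IsSet w → (∀ u : M, u ∈ w → Ur u ∧ u ∉ k) →
  ∃ g D : M, IsInv g D ∧ (∀ u : M, u ∈ D → u ∉ k) ∧ ∀ u : M, u ∈ w → u ∈ D ∧ app g u ∉ w

section key
variable (Φ : M → M → M → Prop) {a k p0 : M}

/-- hypotheses of the key lemma -/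
structure Hyp (a k p0 : M) : Prop where
  dfn : Dfn3 Φ
  hom : Hom k
  mono : ∀ x y q r, Cond q → Cond r → q ⊆ r → Φ x y q → Φ x y r
  stable : ∀ x y q, Cond q → (∀ r, Cond r → q ⊆ r → ∃ s, Cond s ∧ r ⊆ s ∧ Φ x y s) → Φ x y q
  inv : ∀ g D, IsInv g D → (∀ u, u ∈ D → u ∉ k) → ∀ x y q, Φ x y q → Φ (sw g D x) (sw g D y) (sw g D q)
  ha : ker a ⊆ k
  hp0 : Cond p0
  hp0k : ker p0 ⊆ k
  tot : ∀ x, x ∈ a → ∀ q, Cond q → p0 ⊆ q → ∃ r, Cond r ∧ q ⊆ r ∧ ∃ y, Φ x y r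
  uni : ∀ x, x ∈ a → ∀ q, Cond q → p0 ⊆ q → ∀ y y', Φ x y q → Φ x y' q → y = y'

variable {Φ}

theorem Hyp.ker_val (h : Hyp Φ a k p0) {x y q : M} (hx : x ∈ a) (hq : Cond q) (hpq : p0 ⊆ q)
    (hΦ : Φ x y q) : ker y ⊆ k := by
  obtain ⟨g, D, hg, hD, hw⟩ := h.hom (diff (un (ker q) (ker y)) k) inferInstance (by
    intro u hu
    rw [mem_diff, mem_un] at hu
    refine ⟨?_, hu.2⟩
    rcases hu.1 with h1 | h1
    · exact ker_is_ur _ _ h1
    · exact ker_is_ur _ _ h1)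
  have hqk : ∀ u, u ∈ ker q → u ∈ k ∨ u ∈ diff (un (ker q) (ker y)) k := by
    intro u hu
    by_cases hk : u ∈ k
    · exact Or.inl hk
    · right; rw [mem_diff, mem_un]; exact ⟨Or.inl hu, hk⟩
  have hs : Cond (un q (sw g D q)) := cond_compat hg hD hw hq hq hqk hqk
    (fun x y z _ h1 h2 => hq.2.2 _ _ _ h1 h2)
  have hqs : q ⊆ un q (sw g D q) := fun p hp => mem_un.2 (Or.inl hp)
  have hqs' : sw g D q ⊆ un q (sw g D q) := fun p hp => mem_un.2 (Or.inr hp)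
  have h1 := h.mono _ _ _ _ hq hs hqs hΦ
  have h2 := h.mono _ _ _ _ (cond_sw hg hq) hs hqs' (h.inv g D hg hD _ _ _ hΦ)
  have hsx : sw g D x = x := sw_fix x (fun u hu hu' => hD u hu' (h.ha u (ker_mem hx u hu)))
  rw [hsx] at h2
  have he := h.uni x hx _ hs (Sub.trans hpq hqs) _ _ h1 h2
  intro u hu
  by_contra huk
  have huw : u ∈ diff (un (ker q) (ker y)) k := by rw [mem_diff, mem_un]; exact ⟨Or.inr hu, huk⟩
  obtain ⟨huD, hgu⟩ := hw u huw
  apply hgu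
  have h3 := ker_sw_imp hg y u hu
  rw [← he, sw_ur_mem (hg u huD).1 huD] at h3
  rw [mem_diff, mem_un]
  exact ⟨Or.inr h3, hD _ (hg u huD).2.1⟩

theorem Hyp.res (h : Hyp Φ a k p0) {x y q : M} (hx : x ∈ a) (hq : Cond q) (hpq : p0 ⊆ q)
    (hΦ : Φ x y q) : Φ x y (res q k) := by
  have hy := h.ker_val hx hq hpq hΦ
  refine h.stable _ _ _ (hq.res k) ?_
  intro r hr hqr
  obtain ⟨g, D, hg, hD, hw⟩ := h.hom (diff (un (ker q) (ker r)) k) inferInstance (by
    intro u hu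
    rw [mem_diff, mem_un] at hu
    refine ⟨?_, hu.2⟩
    rcases hu.1 with h1 | h1
    · exact ker_is_ur _ _ h1
    · exact ker_is_ur _ _ h1)
  have hqk : ∀ u, u ∈ ker q → u ∈ k ∨ u ∈ diff (un (ker q) (ker r)) k := by
    intro u hu
    by_cases hk : u ∈ k
    · exact Or.inl hk
    · right; rw [mem_diff, mem_un]; exact ⟨Or.inl hu, hk⟩
  have hrk : ∀ u, u ∈ ker r → u ∈ k ∨ u ∈ diff (un (ker q) (ker r)) k := by
    intro u hu
    by_cases hk : u ∈ k
    · exact Or.inl hk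
    · right; rw [mem_diff, mem_un]; exact ⟨Or.inr hu, hk⟩
  have hs : Cond (un r (sw g D q)) := cond_compat hg hD hw hr hq hrk hqk (by
    intro x y z hkx h1 h2
    exact hr.2.2 _ _ _ h1 (hqr _ (opair_mem_res.2 ⟨h2, hkx⟩)))
  refine ⟨_, hs, fun p hp => mem_un.2 (Or.inl hp), ?_⟩
  have h2 := h.mono _ _ _ _ (cond_sw hg hq) hs (fun p hp => mem_un.2 (Or.inr hp)) (h.inv g D hg hD _ _ _ hΦ)
  have hsx : sw g D x = x := sw_fix x (fun u hu hu' => hD u hu' (h.ha u (ker_mem hx u hu)))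
  have hsy : sw g D y = y := sw_fix y (fun u hu hu' => hD u hu' (hy u hu))
  rwa [hsx, hsy] at h2

theorem Hyp.dens (h : Hyp Φ a k p0) {x q : M} (hx : x ∈ a) (hq : Cond q) (hpq : p0 ⊆ q) (hqk : ker q ⊆ k) :
    ∃ r, Cond r ∧ ker r ⊆ k ∧ q ⊆ r ∧ ∃ y, Φ x y r := by
  obtain ⟨r, hr, hqr, y, hy⟩ := h.tot x hx q hq hpq
  refine ⟨ZFU.res r k, hr.res k, ker_res hr k, ?_, y, h.res hx hr (Sub.trans hpq hqr) hy⟩
  intro p hp
  rw [mem_res]
  obtain ⟨x', y', rfl, _⟩ := hq.2.1 p hp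
  refine ⟨hqr _ hp, x', y', rfl, ?_⟩
  intro u hu
  exact hqk u (ker_mem hp u (ker_opair.2 (Or.inl hu)))

/-- one step of the construction -/
def Step (Φ : M → M → M → Prop) (a k p0 α β : M) : Prop :=
  ∀ q, Cond q → q ⊆ W k α → p0 ⊆ q → ∀ x, x ∈ a → ∃ r, Cond r ∧ q ⊆ r ∧ r ⊆ W k β ∧ ∃ y, Φ x y r

theorem step_dfn {ι : Type} (hΦ : Dfn3 Φ) (t s : (ι → M) → M) [DFun t] [DFun s] :
    Dfn (fun v => Step Φ a k p0 (t v) (s v)) := by
  refine Dfn.comp2 (P := fun x y : M => Step Φ a k p0 x y) ?_ t s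
  unfold Step
  have : ∀ {ι : Type} (t s r : (ι → M) → M) [DFun t] [DFun s] [DFun r], Dfn (fun v => Φ (t v) (s v) (r v)) :=
    fun t s r => Dfn.comp3 hΦ t s r
  infer_instance

theorem W_mono {k a b : M} (h : a ⊆ b) : W k a ⊆ W k b := by
  intro x hx
  rw [mem_W] at hx ⊢
  exact ⟨hx.1, h _ hx.2⟩

theorem Step.mono {α β γ : M} (h : Step Φ a k p0 α β) (hβ : β ⊆ γ) : Step Φ a k p0 α γ := by
  intro q hq hqW hpq x hx
  obtain ⟨r, hr, hqr, hrW, hy⟩ := h q hq hqW hpq x hx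
  exact ⟨r, hr, hqr, Sub.trans hrW (W_mono hβ), hy⟩

theorem sub_W_rk {r k : M} (h : ker r ⊆ k) : r ⊆ W k (rk r) := by
  intro p hp
  rw [mem_W]
  exact ⟨Sub.trans (ker_mem hp) h, rk_lt hp⟩

theorem ker_of_sub_W {r k α : M} (hr : ¬ Ur r) (h : r ⊆ W k α) : ker r ⊆ k :=
  ker_sub_of hr (fun y hy => (mem_W.1 (h y hy)).1)

theorem Hyp.exists_step (h : Hyp Φ a k p0) (α : M) : ∃ β, IsOrd β ∧ Step Φ a k p0 α β := by
  have hΦ : ∀ {ι : Type} (t s r : (ι → M) → M) [DFun t] [DFun s] [DFun r], Dfn (fun v => Φ (t v) (s v) (r v)) :=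
    fun t s r => Dfn.comp3 h.dfn t s r
  -- the least rank needed
  let F : M → M := fun z => lst (fun β => ∃ q x r, z = opair q x ∧ Cond r ∧ q ⊆ r ∧ r ⊆ W k β ∧ ∃ y, Φ x y r)
  have hF : Fn1 F := by
    show DFun (fun v : Fin 1 → M => lst (fun β => ∃ q x r, v 0 = opair q x ∧ Cond r ∧ q ⊆ r ∧ r ⊆ W k β ∧ ∃ y, Φ x y r))
    infer_instance
  let P := prod (sep (pow (W k α)) (fun q => Cond q ∧ p0 ⊆ q)) a
  have hP : ∀ q x, opair q x ∈ P ↔ ((IsSet q ∧ q ⊆ W k α) ∧ Cond q ∧ p0 ⊆ q) ∧ x ∈ a := by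
    intro q x
    show opair q x ∈ prod _ _ ↔ _
    rw [opair_mem_prod, mem_sep, mem_pow]
  have hspec : ∀ q x, opair q x ∈ P → IsOrd (F (opair q x)) ∧
      ∃ r, Cond r ∧ q ⊆ r ∧ r ⊆ W k (F (opair q x)) ∧ ∃ y, Φ x y r := by
    intro q x hqx
    rw [hP] at hqx
    obtain ⟨⟨⟨hqs, hqW⟩, hqc, hpq⟩, hx⟩ := hqx
    obtain ⟨r, hr, hrk, hqr, y, hy⟩ := h.dens hx hqc hpq (ker_of_sub_W hqc.1.out hqW)
    have hex : ∃ β, IsOrd β ∧ ∃ q' x' r, opair q x = opair q' x' ∧ Cond r ∧ q' ⊆ r ∧ r ⊆ W k β ∧ ∃ y, Φ x' y r :=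
      ⟨rk r, rk_ord r, q, x, r, rfl, hr, hqr, sub_W_rk hrk, y, hy⟩
    obtain ⟨h1, ⟨q', x', r', he, h2⟩, _⟩ := lst_spec (P := fun β => ∃ q' x' r, opair q x = opair q' x' ∧ Cond r ∧ q' ⊆ r ∧ r ⊆ W k β ∧ ∃ y, Φ x' y r) hex
    simp only [opair_inj] at he
    obtain ⟨rfl, rfl⟩ := he
    exact ⟨h1, r', h2⟩
  refine ⟨bigU (img P F), ?_, ?_⟩
  · apply ord_bigU
    intro b hb
    rw [mem_img] at hb
    obtain ⟨z, hz, rfl⟩ := hb
    obtain ⟨q, hq, x, hx, rfl⟩ := mem_prod.1 hz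
    exact (hspec q x hz).1
  · intro q hq hqW hpq x hx
    have hqx : opair q x ∈ P := (hP q x).2 ⟨⟨⟨hq.1, hqW⟩, hq, hpq⟩, hx⟩
    obtain ⟨h1, r, hr, hqr, hrW, hy⟩ := hspec q x hqx
    refine ⟨r, hr, hqr, Sub.trans hrW (W_mono ?_), hy⟩
    intro c hc
    rw [mem_bigU]
    exact ⟨F (opair q x), mem_img.2 ⟨_, hqx, rfl⟩, hc⟩

/-- the sequence of levels -/
theorem Hyp.exists_levels (h : Hyp Φ a k p0) : ∃ A : M → M, Fn1 A ∧ ∀ i, IsOrd i →
    IsOrd (A i) ∧ rk p0 ⊆ A i ∧ ∀ j, j ∈ i → A j ⊆ A i ∧ Step Φ a k p0 (A j) (A i) := by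
  have hst := @step_dfn M _ Φ a k p0
  have hst : ∀ {ι : Type} (t s : (ι → M) → M) [DFun t] [DFun s],
    Dfn (fun v => Step Φ a k p0 (t v) (s v)) := fun t s => hst h.dfn t s
  obtain ⟨F, hF, hFeq⟩ := exists_rec (M := M)
    (fun p i g => lst (fun β : M => rk p0 ⊆ β ∧ ∀ j : M, j ∈ i → app g j ⊆ β ∧ Step Φ a k p0 (app g j) β))
  have h1 : Fn1 (fun y => F ∅ y) := DFun.comp2 hF (fun _ => ∅) (fun v => v 0)
  obtain ⟨A, hA⟩ : ∃ A : M → M, A = fun y => F ∅ y := ⟨_, rfl⟩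
  have iA : Fn1 A := by rw [hA]; exact h1
  have iA' : ∀ {ι : Type} (t : (ι → M) → M) [DFun t], DFun (fun v => A (t v)) := fun t => DFun.comp1 iA t
  have hAeq : ∀ i, A i = lst (fun β => rk p0 ⊆ β ∧ ∀ j, j ∈ i → A j ⊆ β ∧ Step Φ a k p0 (A j) β) := by
    intro i
    rw [hA]
    show F ∅ i = _
    rw [hFeq]
    congr 1
    funext β
    apply propext
    constructor
    · rintro ⟨h1, h2⟩
      refine ⟨h1, fun j hj => ?_⟩
      have := h2 j hj
      rwa [app_lam hj] at this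
    · rintro ⟨h1, h2⟩
      refine ⟨h1, fun j hj => ?_⟩
      rw [app_lam hj]
      exact h2 j hj
  refine ⟨A, iA, ?_⟩
  have hstep : ∀ i, ∃ β, IsOrd β ∧ Step Φ a k p0 (A i) β := fun i => h.exists_step (A i)
  have key : ∀ i, IsOrd i → (IsOrd (A i) ∧ rk p0 ⊆ A i ∧ ∀ j, j ∈ i → A j ⊆ A i ∧ Step Φ a k p0 (A j) (A i)) := by
    refine ord_induction (fun i : M => IsOrd (A i) ∧ rk p0 ⊆ A i ∧ ∀ j : M, j ∈ i → A j ⊆ A i ∧ Step Φ a k p0 (A j) (A i)) ?_
    intro i hi ih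
    -- bound
    let B : M → M := fun j => lst (fun β => Step Φ a k p0 (A j) β)
    have hB : Fn1 B := by
      show DFun (fun v : Fin 1 → M => lst (fun β => Step Φ a k p0 (A (v 0)) β))
      infer_instance
    have hBspec : ∀ j, IsOrd (B j) ∧ Step Φ a k p0 (A j) (B j) := by
      intro j
      obtain ⟨h1, h2, _⟩ := lst_spec (P := fun β => Step Φ a k p0 (A j) β) (hstep j)
      exact ⟨h1, h2⟩
    have hex : ∃ β, IsOrd β ∧ (rk p0 ⊆ β ∧ ∀ j, j ∈ i → A j ⊆ β ∧ Step Φ a k p0 (A j) β) := by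
      refine ⟨bigU (un (sing (rk p0)) (un (img i A) (img i B))), ?_, ?_, ?_⟩
      · apply ord_bigU
        intro b hb
        simp only [mem_un, mem_sing, mem_img] at hb
        rcases hb with rfl | ⟨j, hj, rfl⟩ | ⟨j, hj, rfl⟩
        · exact rk_ord _
        · exact (ih j hj).1
        · exact (hBspec j).1
      · intro x hx
        rw [mem_bigU]
        exact ⟨rk p0, by simp, hx⟩
      · intro j hj
        refine ⟨?_, (hBspec j).2.mono ?_⟩
        · intro x hx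
          rw [mem_bigU]
          refine ⟨A j, ?_, hx⟩
          simp only [mem_un, mem_sing, mem_img]
          exact Or.inr (Or.inl ⟨j, hj, rfl⟩)
        · intro x hx
          rw [mem_bigU]
          refine ⟨B j, ?_, hx⟩
          simp only [mem_un, mem_sing, mem_img]
          exact Or.inr (Or.inr ⟨j, hj, rfl⟩)
    obtain ⟨h1, h2, _⟩ := lst_spec (P := fun β : M => rk p0 ⊆ β ∧ ∀ j : M, j ∈ i → A j ⊆ β ∧ Step Φ a k p0 (A j) β) hex
    rw [← hAeq] at h1 h2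
    exact ⟨h1, h2⟩
  exact key

/-- the key lemma -/
theorem Hyp.main [Choice M] (h : Hyp Φ a k p0) :
    ∃ q, Cond q ∧ p0 ⊆ q ∧ ∃ f, FnOn f a ∧ ∀ x, x ∈ a → Φ x (app f x) q := by
  have hΦ : ∀ {ι : Type} (t s r : (ι → M) → M) [DFun t] [DFun s] [DFun r], Dfn (fun v => Φ (t v) (s v) (r v)) :=
    fun t s r => Dfn.comp3 h.dfn t s r
  obtain ⟨θ, e, hθ, he, _, _, hsurj⟩ := wellorder a
  obtain ⟨A, iA, hA⟩ := h.exists_levels
  have iA' : ∀ {ι : Type} (t : (ι → M) → M) [DFun t], DFun (fun v => A (t v)) := fun t => DFun.comp1 iA t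
  let S := sep (pow (W k (A θ))) (fun q => Cond q ∧ p0 ⊆ q)
  have hS : ∀ q, q ∈ S ↔ (IsSet q ∧ q ⊆ W k (A θ)) ∧ Cond q ∧ p0 ⊆ q := by
    intro q
    show q ∈ sep _ _ ↔ _
    rw [mem_sep, mem_pow]
  obtain ⟨c, hc⟩ := Choice.ac (pow S)
  obtain ⟨F0, hF0, hF0eq⟩ := exists_rec (M := M)
    (fun p i g => app c (sep S (fun r : M => r ⊆ W k (A i) ∧ ∀ j : M, j ∈ i → app g j ⊆ r ∧ ∃ y : M, Φ (app e j) y r)))
  have h1 : Fn1 (fun y => F0 ∅ y) := DFun.comp2 hF0 (fun _ => ∅) (fun v => v 0)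
  obtain ⟨F, hF⟩ : ∃ F : M → M, F = fun y => F0 ∅ y := ⟨_, rfl⟩
  have iF : Fn1 F := by rw [hF]; exact h1
  have iF' : ∀ {ι : Type} (t : (ι → M) → M) [DFun t], DFun (fun v => F (t v)) := fun t => DFun.comp1 iF t
  have hFeq : ∀ i, F i = app c (sep S (fun r => r ⊆ W k (A i) ∧ ∀ j, j ∈ i → F j ⊆ r ∧ ∃ y, Φ (app e j) y r)) := by
    intro i
    rw [hF]
    show F0 ∅ i = _
    rw [hF0eq]
    congr 2
    funext r
    apply propext
    constructor
    · rintro ⟨h1, h2⟩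
      refine ⟨h1, fun j hj => ?_⟩
      have := h2 j hj
      rwa [app_lam hj] at this
    · rintro ⟨h1, h2⟩
      refine ⟨h1, fun j hj => ?_⟩
      rw [app_lam hj]
      exact h2 j hj
  have key : ∀ i, IsOrd i → (i ⊆ θ → F i ∈ S ∧ F i ⊆ W k (A i) ∧ ∀ j, j ∈ i → F j ⊆ F i ∧ ∃ y, Φ (app e j) y (F i)) := by
    refine ord_induction (fun i : M => (i ⊆ θ → F i ∈ S ∧ F i ⊆ W k (A i) ∧ ∀ j : M, j ∈ i → F j ⊆ F i ∧ ∃ y : M, Φ (app e j) y (F i))) ?_
    intro i hi ih hiθ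
    have ih' : ∀ j, j ∈ i → F j ∈ S ∧ F j ⊆ W k (A j) ∧ ∀ l, l ∈ j → F l ⊆ F j ∧ ∃ y, Φ (app e l) y (F j) :=
      fun j hj => ih j hj (Sub.trans (hi.sub hj) hiθ)
    have hAiθ : A i ⊆ A θ := by
      rcases (ord_sub_iff hi hθ).1 hiθ with h' | h'
      · exact ((hA θ hθ).2.2 i h').1
      · rw [h']; exact Sub.refl _
    -- the union
    have hp0W : p0 ⊆ W k (A i) := Sub.trans (sub_W_rk h.hp0k) (W_mono (hA i hi).2.1)
    have hU : Cond (un p0 (bigU (img i F))) := by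
      refine ⟨inferInstance, ?_, ?_⟩
      · intro p hp
        simp only [mem_un, mem_bigU, mem_img] at hp
        rcases hp with hp | ⟨_, ⟨j, hj, rfl⟩, hp⟩
        · exact h.hp0.2.1 p hp
        · exact ((hS _).1 (ih' j hj).1).2.1.2.1 p hp
      · intro x y z hy hz
        -- everything lies in a common condition
        have hcom : ∀ p p' : M, p ∈ un p0 (bigU (img i F)) → p' ∈ un p0 (bigU (img i F)) →
            ∃ q : M, Cond q ∧ p ∈ q ∧ p' ∈ q := by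
          intro p p' hp hp'
          simp only [mem_un, mem_bigU, mem_img] at hp hp'
          rcases hp with hp | ⟨_, ⟨j, hj, rfl⟩, hp⟩ <;> rcases hp' with hp' | ⟨_, ⟨j', hj', rfl⟩, hp'⟩
          · exact ⟨p0, h.hp0, hp, hp'⟩
          · have := (hS _).1 (ih' j' hj').1
            exact ⟨F j', this.2.1, this.2.2 _ hp, hp'⟩
          · have := (hS _).1 (ih' j hj).1
            exact ⟨F j, this.2.1, hp, this.2.2 _ hp'⟩
          · rcases ord_tri j (hi.mem hj) j' (hi.mem hj') with h' | h' | h'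
            · exact ⟨F j', ((hS _).1 (ih' j' hj').1).2.1, ((ih' j' hj').2.2 j h').1 _ hp, hp'⟩
            · subst h'
              exact ⟨F j, ((hS _).1 (ih' j hj).1).2.1, hp, hp'⟩
            · exact ⟨F j, ((hS _).1 (ih' j hj).1).2.1, hp, ((ih' j hj).2.2 j' h').1 _ hp'⟩
        obtain ⟨q, hq, h1, h2⟩ := hcom _ _ hy hz
        exact hq.2.2 _ _ _ h1 h2
    have hUW : un p0 (bigU (img i F)) ⊆ W k (A i) := by
      intro p hp
      simp only [mem_un, mem_bigU, mem_img] at hp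
      rcases hp with hp | ⟨_, ⟨j, hj, rfl⟩, hp⟩
      · exact hp0W p hp
      · exact W_mono ((hA i hi).2.2 j hj).1 _ ((ih' j hj).2.1 p hp)
    have hFU : ∀ j, j ∈ i → F j ⊆ un p0 (bigU (img i F)) := by
      intro j hj p hp
      simp only [mem_un, mem_bigU, mem_img]
      exact Or.inr ⟨_, ⟨j, hj, rfl⟩, hp⟩
    -- the next condition exists
    have hex : ∃ r, r ∈ sep S (fun r : M => r ⊆ W k (A i) ∧ ∀ j : M, j ∈ i → F j ⊆ r ∧ ∃ y : M, Φ (app e j) y r) := by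
      simp only [mem_sep]
      by_cases hlim : ∀ j, j ∈ i → suc j ∈ i
      · refine ⟨un p0 (bigU (img i F)), (hS _).2 ⟨⟨inferInstance, Sub.trans hUW (W_mono hAiθ)⟩, hU,
          fun p hp => mem_un.2 (Or.inl hp)⟩, hUW, ?_⟩
        intro j hj
        refine ⟨hFU j hj, ?_⟩
        obtain ⟨y, hy⟩ := ((ih' (suc j) (hlim j hj)).2.2 j (by simp)).2
        exact ⟨y, h.mono _ _ _ _ ((hS _).1 (ih' (suc j) (hlim j hj)).1).2.1 hU (hFU _ (hlim j hj)) hy⟩
      · push Not at hlim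
        obtain ⟨j, hj, hj'⟩ := hlim
        have hij : i = suc j := by
          have hsj : suc j ⊆ i := by
            intro x hx
            rw [mem_suc] at hx
            rcases hx with hx | rfl
            · exact hi.2.1 _ hj _ hx
            · exact hj
          rcases (ord_sub_iff (ord_suc (hi.mem hj)) hi).1 hsj with h' | h'
          · exact absurd h' hj'
          · exact h'.symm
        obtain ⟨h2, h3, h4⟩ := ih' j hj
        have h5 := (hS _).1 h2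
        obtain ⟨r, hr, hqr, hrW, y, hy⟩ := ((hA i hi).2.2 j hj).2 (F j) h5.2.1 h3 h5.2.2 (app e j) (by
          have hjθ : j ∈ θ := hiθ j hj
          exact ‹∀ i, i ∈ θ → app e i ∈ a› j hjθ)
        refine ⟨r, (hS _).2 ⟨⟨hr.1, Sub.trans hrW (W_mono hAiθ)⟩, hr, Sub.trans h5.2.2 hqr⟩, hrW, ?_⟩
        intro l hl
        rw [hij, mem_suc] at hl
        rcases hl with hl | rfl
        · refine ⟨Sub.trans (h4 l hl).1 hqr, ?_⟩
          obtain ⟨y', hy'⟩ := (h4 l hl).2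
          exact ⟨y', h.mono _ _ _ _ h5.2.1 hr hqr hy'⟩
        · exact ⟨hqr, y, hy⟩
    have hmem := hc (sep S (fun r : M => r ⊆ W k (A i) ∧ ∀ j : M, j ∈ i → F j ⊆ r ∧ ∃ y : M, Φ (app e j) y r)) (by
      rw [mem_pow']; intro x hx; exact (mem_sep.1 hx).1) hex
    rw [← hFeq, mem_sep] at hmem
    exact hmem
  obtain ⟨h2, h3, h4⟩ := key θ hθ (Sub.refl _)
  have h5 := (hS _).1 h2
  refine ⟨F θ, h5.2.1, h5.2.2, ?_⟩
  have h6 : ∀ x, x ∈ a → ∃ y, Φ x y (F θ) := by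
    intro x hx
    obtain ⟨i, hi, rfl⟩ := hsurj x hx
    exact (h4 i hi).2
  have i1 : Dfn2 (fun x y => Φ x y (F θ)) := inferInstance
  obtain ⟨f, hf, hf'⟩ := exists_fn (fun x y => Φ x y (F θ)) a (by
    intro x hx
    obtain ⟨y, hy⟩ := h6 x hx
    exact ⟨y, hy, fun z hz => h.uni x hx _ h5.2.1 h5.2.2 _ _ hz hy⟩)
  exact ⟨f, hf, hf'⟩

end key

end Pool.Agent.H55.ZFU
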