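import Mathlib

set_option autoImplicit false

/-!
# Set theory with urelements and its Gödel-Bernays counterpart: models
-/

namespace Pool.Agent.H55.GB

open FirstOrder

/-- Relation symbols: a binary one for membership, a unary one for the predicate of urelements, and a unary
one for each element of `C` (the class parameters; there are none if `C` is empty). -/
inductive RSym (C : Type) : ℕ → Type
  | mem : RSym C 2
  | ur : RSym C 1
  | cls : C → RSym C 1

/-- The first-order language with these relation symbols and no function symbols. -/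
def Lang (C : Type) : Language := ⟨fun _ => Empty, RSym C⟩

/-- The structure on `M` with membership `E`, urelements `A` and classes `X c`. -/
@[reducible] def str {M : Type} (E : M → M → Prop) (A : M → Prop) {C : Type} (X : C → Set M) : (Lang C).Structure M where
  funMap := fun f => f.elim
  RelMap := fun R v => match R with
    | .mem => E (v 0) (v 1)
    | .ur => A (v 0)
    | .cls c => v 0 ∈ X c

variable {M : Type} (E : M → M → Prop) (A : M → Prop)

/-- `p` is the Kuratowski pair `{{x}, {x, y}}`. -/
def IsPair (p x y : M) : Prop :=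
  ∀ z, E z p ↔ (∀ w, E w z ↔ w = x) ∨ (∀ w, E w z ↔ w = x ∨ w = y)

/-- The axioms of set theory with urelements other than the schemes. Elements satisfying `A` are the urelements,
all others are the sets. -/
structure Base : Prop where
  ext : ∀ a b, ¬ A a → ¬ A b → (∀ x, E x a ↔ E x b) → a = b
  urelement : ∀ a x, A a → ¬ E x a
  foundation : ∀ a, (∃ x, E x a) → ∃ x, E x a ∧ ∀ y, E y x → ¬ E y a
  pairing : ∀ a b, ∃ c, ∀ x, E x c ↔ x = a ∨ x = b
  union : ∀ a, ∃ c, ¬ A c ∧ ∀ x, E x c ↔ ∃ y, E y a ∧ E x y
  power : ∀ a, ∃ c, ∀ x, E x c ↔ ¬ A x ∧ ∀ y, E y x → E y a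
  infinity : ∃ w, (∃ e, E e w ∧ ¬ A e ∧ ∀ x, ¬ E x e) ∧
    ∀ x, E x w → ∃ y, E y w ∧ ∀ z, E z y ↔ E z x ∨ z = x
  choice : ∀ a, (∀ x, E x a → ∃ y, E y x) → (∀ x y z, E x a → E y a → E z x → E z y → x = y) →
    ∃ c, ∀ x, E x a → ∃! y, E y x ∧ E y c

/-- Models of `ZFCU_R`: the axioms above and the schemes of Separation and Replacement for all classes and
relations that are first-order definable, with parameters, from `E` and `A`. -/
structure ZFCU : Prop extends Base E A where
  separation : ∀ S : Set M, (letI := str E A (Empty.elim : Empty → Set M); Set.univ.Definable₁ (Lang Empty) S) →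
    ∀ a, ∃ c, ¬ A c ∧ ∀ x, E x c ↔ E x a ∧ x ∈ S
  replacement : ∀ R : Set (M × M),
    (letI := str E A (Empty.elim : Empty → Set M); Set.univ.Definable₂ (Lang Empty) R) →
    ∀ a, (∀ x, E x a → ∃! y, (x, y) ∈ R) → ∃ c, ¬ A c ∧ ∀ y, E y c ↔ ∃ x, E x a ∧ (x, y) ∈ R

/-- Models of `GBU_R` + Global Choice: the sets and urelements form `M`, the classes form `C`, and `X c` is the
set of members of the class `c`. Comprehension is for formulas without class quantifiers, with set parameters
and class parameters. -/
structure GBUGC {C : Type} (X : C → Set M) : Prop extends Base E A where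
  class_ext : ∀ c d, (∀ x, x ∈ X c ↔ x ∈ X d) → c = d
  comprehension : ∀ S : Set M, (letI := str E A X; Set.univ.Definable₁ (Lang C) S) → ∃ c, X c = S
  class_separation : ∀ c a, ∃ b, ¬ A b ∧ ∀ x, E x b ↔ E x a ∧ x ∈ X c
  class_replacement : ∀ F, (∀ x y z p q, IsPair E p x y → IsPair E q x z → p ∈ X F → q ∈ X F → y = z) →
    ∀ a, ∃ b, ¬ A b ∧ ∀ y, E y b ↔ ∃ x p, E x a ∧ IsPair E p x y ∧ p ∈ X F
  global_choice : ∃ G, (∀ x y z p q, IsPair E p x y → IsPair E q x z → p ∈ X G → q ∈ X G → y = z) ∧
    ∀ x, (∃ y, E y x) → ∃ y p, E y x ∧ IsPair E p x y ∧ p ∈ X G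

/-- The first-order sentence `φ` of the language with membership and urelements holds in `(M, E, A)`. -/
def Holds (φ : (Lang Empty).Sentence) : Prop :=
  letI := str E A (Empty.elim : Empty → Set M); φ.Realize M

end Pool.Agent.H55.GB
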