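import Mathlib
import Pool.Agent.H55.Cond

set_option autoImplicit false
set_option linter.all false
universe u

/-!
# Existence of homogeneous sets of urelements
-/

namespace Pool.Agent.H55.ZFU

variable {M : Type u} [Model M]

/-- `α` injects into the urelements off `k` -/
def Inj (α k : M) : Prop := ∃ f : M, FnOn f α ∧ (∀ i : M, i ∈ α → Ur (app f i) ∧ app f i ∉ k) ∧
  ∀ i j : M, i ∈ α → j ∈ α → app f i = app f j → i = j

instance inj_dfn {ι : Type} (t s : (ι → M) → M) [DFun t] [DFun s] : Dfn (fun v => Inj (t v) (s v)) := by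
  refine Dfn.comp2 (P := fun f a : M => Inj f a) ?_ t s
  unfold Inj; infer_instance

theorem Inj.mono {α β k : M} (h : Inj α k) (hb : β ⊆ α) : Inj β k := by
  obtain ⟨f, hf, h1, h2⟩ := h
  refine ⟨restr f β, restr_fnOn hf hb, ?_, ?_⟩
  · intro i hi
    rw [app_restr hf hb hi]
    exact h1 i (hb i hi)
  · intro i j hi hj
    rw [app_restr hf hb hi, app_restr hf hb hj]
    exact h2 i j (hb i hi) (hb j hj)

theorem hom_of_inj [Choice M] {k : M} (hk : ∀ w : M, IsSet w → (∀ u, u ∈ w → Ur u ∧ u ∉ k) →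
    ∀ θ e : M, IsOrd θ → FnOn e θ → (∀ i, i ∈ θ → app e i ∈ w) →
    (∀ i j, i ∈ θ → j ∈ θ → app e i = app e j → i = j) → Inj θ (un k w)) : Hom k := by
  intro w hws hw
  obtain ⟨θ, e, hθ, he, hew, heinj, hesurj⟩ := wellorder w
  obtain ⟨f, hf, hf1, hf2⟩ := hk w hws hw θ e hθ he hew heinj
  have hfw : ∀ i, i ∈ θ → app f i ∉ w := fun i hi h => (hf1 i hi).2 (mem_un.2 (Or.inr h))
  have hfk : ∀ i, i ∈ θ → app f i ∉ k := fun i hi h => (hf1 i hi).2 (mem_un.2 (Or.inl h))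
  let ei : M → M := fun u => lst (fun i => i ∈ θ ∧ app e i = u)
  let fi : M → M := fun u => lst (fun i => i ∈ θ ∧ app f i = u)
  have iei : ∀ {ι : Type} (t : (ι → M) → M) [DFun t], DFun (fun v => ei (t v)) := by
    intro ι t _
    refine DFun.comp1 (F := ei) ?_ t
    show DFun (fun v : Fin 1 → M => lst (fun i => i ∈ θ ∧ app e i = v 0))
    infer_instance
  have ifi : ∀ {ι : Type} (t : (ι → M) → M) [DFun t], DFun (fun v => fi (t v)) := by
    intro ι t _
    refine DFun.comp1 (F := fi) ?_ t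
    show DFun (fun v : Fin 1 → M => lst (fun i => i ∈ θ ∧ app f i = v 0))
    infer_instance
  have hei : ∀ i, i ∈ θ → ei (app e i) = i := by
    intro i hi
    obtain ⟨_, h2, _⟩ := lst_spec (P := fun j => j ∈ θ ∧ app e j = app e i) ⟨i, hθ.mem hi, hi, rfl⟩
    exact heinj _ _ h2.1 hi h2.2
  have hfi : ∀ i, i ∈ θ → fi (app f i) = i := by
    intro i hi
    obtain ⟨_, h2, _⟩ := lst_spec (P := fun j => j ∈ θ ∧ app f j = app f i) ⟨i, hθ.mem hi, hi, rfl⟩
    exact hf2 _ _ h2.1 hi h2.2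
  let D := un w (img θ (fun i => app f i))
  have hD : ∀ u, u ∈ D ↔ u ∈ w ∨ ∃ i, i ∈ θ ∧ u = app f i := by
    intro u
    show u ∈ un _ _ ↔ _
    rw [mem_un, mem_img]
  let g := lam D (fun u => iteM (u ∈ w) (app f (ei u)) (app e (fi u)))
  have hg1 : ∀ i, i ∈ θ → app g (app e i) = app f i := by
    intro i hi
    show app (lam _ _) _ = _
    rw [app_lam ((hD _).2 (Or.inl (hew i hi))), iteM_pos (hew i hi), hei i hi]
  have hg2 : ∀ i, i ∈ θ → app g (app f i) = app e i := by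
    intro i hi
    show app (lam _ _) _ = _
    rw [app_lam ((hD _).2 (Or.inr ⟨i, hi, rfl⟩)), iteM_neg (hfw i hi), hfi i hi]
  refine ⟨g, D, ?_, ?_, ?_⟩
  · intro u hu
    rw [hD] at hu
    rcases hu with hu | ⟨i, hi, rfl⟩
    · obtain ⟨i, hi, rfl⟩ := hesurj u hu
      refine ⟨(hw _ hu).1, ?_, ?_⟩
      · rw [hg1 i hi, hD]; exact Or.inr ⟨i, hi, rfl⟩
      · rw [hg1 i hi, hg2 i hi]
    · refine ⟨(hf1 i hi).1, ?_, ?_⟩
      · rw [hg2 i hi, hD]; exact Or.inl (hew i hi)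
      · rw [hg2 i hi, hg1 i hi]
  · intro u hu
    rw [hD] at hu
    rcases hu with hu | ⟨i, hi, rfl⟩
    · exact (hw u hu).2
    · exact hfk i hi
  · intro u hu
    refine ⟨(hD u).2 (Or.inl hu), ?_⟩
    obtain ⟨i, hi, rfl⟩ := hesurj u hu
    rw [hg1 i hi]
    exact hfw i hi

theorem exists_hom [Choice M] : ∃ k0 : M, IsSet k0 ∧ (∀ u, u ∈ k0 → Ur u) ∧
    ∀ k, IsSet k → (∀ u, u ∈ k → Ur u) → k0 ⊆ k → Hom k := by
  by_cases hall : ∀ k α : M, IsSet k → (∀ u, u ∈ k → Ur u) → IsOrd α → Inj α k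
  · refine ⟨∅, inferInstance, by intro u hu; simp at hu, ?_⟩
    intro k hk hku _
    apply hom_of_inj
    intro w hw hwu θ e hθ _ _ _
    apply hall _ _ inferInstance _ hθ
    intro u hu
    rw [mem_un] at hu
    rcases hu with hu | hu
    · exact hku u hu
    · exact (hwu u hu).1
  · push Not at hall
    obtain ⟨k1, α1, hk1, hk1u, hα1, hn1⟩ := hall
    obtain ⟨α0, hα0, ⟨k0, hk0, hk0u, hn0⟩, hmin⟩ := least_ord
      (fun α : M => ∃ k : M, IsSet k ∧ (∀ u : M, u ∈ k → Ur u) ∧ ¬ Inj α k) ⟨α1, hα1, k1, hk1, hk1u, hn1⟩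
    refine ⟨k0, hk0, hk0u, ?_⟩
    intro k hk hku hk0k
    apply hom_of_inj
    intro w hw hwu θ e hθ he hew heinj
    -- `θ` injects off `k0`, so `θ ∈ α0`
    have h1 : Inj θ k0 := ⟨e, he, fun i hi => ⟨(hwu _ (hew i hi)).1, fun h => (hwu _ (hew i hi)).2 (hk0k _ h)⟩, heinj⟩
    have h2 : θ ∈ α0 := by
      rcases ord_tri θ hθ α0 hα0 with h | h | h
      · exact h
      · subst h; exact absurd h1 hn0
      · exact absurd (h1.mono (hθ.sub h)) hn0
    by_contra hcon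
    have h3 := hmin θ hθ ⟨un k w, inferInstance, by
      intro u hu
      rw [mem_un] at hu
      rcases hu with hu | hu
      · exact hku u hu
      · exact (hwu u hu).1, hcon⟩
    exact not_mem_self θ (h3 θ h2)

end Pool.Agent.H55.ZFU
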