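import Mathlib
import Pool.Agent.H55.Homog
import Pool.Agent.H55.GBDefs

set_option autoImplicit false
set_option linter.all false
universe u

/-!
# The forcing relation for adding a generic global choice function
-/

namespace Pool.Agent.H55.ZFU

open FirstOrder FirstOrder.Language
open Pool.Agent.H55.GB (RSym Lang)

variable {M : Type u} [Model M]

/-- value of a term of a relational language -/
def tval {C : Type} {γ : Type*} {N : Type*} : (Lang C).Term γ → (γ → N) → N
  | .var x, w => w x
  | .func f _, _ => f.elim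

/-- forcing of atomic relations -/
def relF : ∀ {l : ℕ}, RSym Unit l → (Fin l → M) → M → Prop
  | _, .mem, w, _ => w 0 ∈ w 1
  | _, .ur, w, _ => Ur (w 0)
  | _, .cls _, w, p => ∀ q, Cond q → p ⊆ q → ∃ r, Cond r ∧ q ⊆ r ∧ w 0 ∈ r

/-- the forcing relation -/
def Forces {α : Type*} (v : α → M) : ∀ {n : ℕ}, (Lang Unit).BoundedFormula α n → (Fin n → M) → M → Prop
  | _, .falsum, _, _ => False
  | _, .equal t1 t2, xs, _ => tval t1 (Sum.elim v xs) = tval t2 (Sum.elim v xs)
  | _, .rel R ts, xs, p => relF R (fun i => tval (ts i) (Sum.elim v xs)) p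
  | _, .imp φ ψ, xs, p => ∀ q, Cond q → p ⊆ q → Forces v φ xs q → Forces v ψ xs q
  | _, .all φ, xs, p => ∀ x, Forces v φ (Fin.snoc xs x) p

theorem tval_dfun {α : Type*} (v : α → M) {n : ℕ} (t : (Lang Unit).Term (α ⊕ Fin n)) {ι : Type} (f : Fin n → ι) :
    DFun (fun w : ι → M => tval t (Sum.elim v (fun i => w (f i)))) := by
  cases t with
  | var x =>
    rcases x with a | i
    · exact (inferInstance : DFun (fun w : ι → M => v a))
    · exact (inferInstance : DFun (fun w : ι → M => w (f i)))
  | func g _ => exact Empty.elim g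

theorem relF_dfn {l : ℕ} (R : RSym Unit l) {ι : Type} (t : Fin l → (ι → M) → M) (s : (ι → M) → M)
    (ht : ∀ i, DFun (t i)) [hs : DFun s] : Dfn (fun w => relF R (fun i => t i w) (s w)) := by
  cases R with
  | mem =>
    have := ht 0
    have := ht 1
    exact (inferInstance : Dfn (fun w => t 0 w ∈ t 1 w))
  | ur =>
    have := ht 0
    exact (inferInstance : Dfn (fun w => Ur (t 0 w)))
  | cls c =>
    have := ht 0
    refine Dfn.comp2 (P := fun z p : M => ∀ q, Cond q → p ⊆ q → ∃ r, Cond r ∧ q ⊆ r ∧ z ∈ r) ?_ (t 0) s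
    infer_instance

theorem forces_dfn {α : Type*} (v : α → M) {n : ℕ} (φ : (Lang Unit).BoundedFormula α n) :
    Dfn (fun w : Option (Fin n) → M => Forces v φ (fun i => w (some i)) (w none)) := by
  induction φ with
  | falsum => exact (inferInstance : Dfn (fun w : Option (Fin _) → M => False))
  | equal t1 t2 =>
    have h1 := tval_dfun v t1 (fun i => (some i : Option (Fin _)))
    have h2 := tval_dfun v t2 (fun i => (some i : Option (Fin _)))
    exact Dfn.eq _ _
  | rel R ts =>
    exact relF_dfn R (fun i w => tval (ts i) (Sum.elim v (fun i => w (some i)))) (fun w => w none)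
      (fun i => tval_dfun v (ts i) (fun i => (some i : Option (Fin _))))
  | @imp n φ ψ ih1 ih2 =>
    have h1 : Dfn (fun w : Option (Option (Fin n)) → M => Forces v φ (fun i => w (some (some i))) (w none)) :=
      Dfn.rename (fun o : Option (Fin n) => o.elim none (fun i => some (some i))) ih1
    have h2 : Dfn (fun w : Option (Option (Fin n)) → M => Forces v ψ (fun i => w (some (some i))) (w none)) :=
      Dfn.rename (fun o : Option (Fin n) => o.elim none (fun i => some (some i))) ih2
    show Dfn (fun w : Option (Fin n) → M => ∀ q : M, Cond q → w none ⊆ q →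
      Forces v φ (fun i => w (some i)) q → Forces v ψ (fun i => w (some i)) q)
    infer_instance
  | @all n φ ih =>
    have h1 : Dfn (fun w : Option (Option (Fin n)) → M =>
        Forces v φ (Fin.snoc (fun i => w (some (some i))) (w none)) (w (some none))) := by
      have h2 := Dfn.rename (fun o : Option (Fin (n + 1)) =>
        o.elim (some none : Option (Option (Fin n))) (Fin.snoc (α := fun _ => Option (Option (Fin n)))
          (fun i => some (some i)) none)) ih
      refine Dfn.congr h2 ?_
      intro w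
      apply iff_of_eq
      congr 1
      funext i
      refine Fin.lastCases ?_ (fun i => ?_) i <;> simp
    show Dfn (fun w : Option (Fin n) → M => ∀ x : M, Forces v φ (Fin.snoc (fun i => w (some i)) x) (w none))
    infer_instance

/-- the empty condition -/
theorem cond_empty : Cond (∅ : M) := ⟨inferInstance, fun p hp => by simp at hp, fun x y z h => by simp at h⟩

theorem forces_mono {α : Type*} (v : α → M) {n : ℕ} (φ : (Lang Unit).BoundedFormula α n) :
    ∀ (xs : Fin n → M) (p q : M), Cond p → Cond q → p ⊆ q → Forces v φ xs p → Forces v φ xs q := by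
  induction φ with
  | falsum => intro xs p q _ _ _ h; exact h
  | equal t1 t2 => intro xs p q _ _ _ h; exact h
  | rel R ts =>
    intro xs p q hp hq hpq h
    cases R with
    | mem => exact h
    | ur => exact h
    | cls c => intro r hr hqr; exact h r hr (Sub.trans hpq hqr)
  | imp φ ψ ih1 ih2 =>
    intro xs p q hp hq hpq h r hr hqr h1
    exact h r hr (Sub.trans hpq hqr) h1
  | all φ ih =>
    intro xs p q hp hq hpq h x
    exact ih _ p q hp hq hpq (h x)

theorem forces_stable {α : Type*} (v : α → M) {n : ℕ} (φ : (Lang Unit).BoundedFormula α n) :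
    ∀ (xs : Fin n → M) (p : M), Cond p → (∀ q, Cond q → p ⊆ q → ∃ r, Cond r ∧ q ⊆ r ∧ Forces v φ xs r) →
      Forces v φ xs p := by
  induction φ with
  | falsum =>
    intro xs p hp h
    obtain ⟨r, _, _, h⟩ := h p hp (Sub.refl p)
    exact h
  | equal t1 t2 =>
    intro xs p hp h
    obtain ⟨r, _, _, h⟩ := h p hp (Sub.refl p)
    exact h
  | rel R ts =>
    intro xs p hp h
    cases R with
    | mem =>
      obtain ⟨r, _, _, h⟩ := h p hp (Sub.refl p)
      exact h
    | ur =>
      obtain ⟨r, _, _, h⟩ := h p hp (Sub.refl p)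
      exact h
    | cls c =>
      intro q hq hpq
      obtain ⟨r, hr, hqr, h⟩ := h q hq hpq
      obtain ⟨s, hs, hrs, h⟩ := h r hr (Sub.refl r)
      exact ⟨s, hs, Sub.trans hqr hrs, h⟩
  | imp φ ψ ih1 ih2 =>
    intro xs p hp h q hq hpq h1
    apply ih2 _ q hq
    intro q' hq' hqq'
    obtain ⟨r, hr, hqr, h⟩ := h q' hq' (Sub.trans hpq hqq')
    refine ⟨r, hr, hqr, h r hr (Sub.refl r) ?_⟩
    exact forces_mono v φ _ _ _ hq hr (Sub.trans hqq' hqr) h1
  | all φ ih =>
    intro xs p hp h x
    apply ih _ p hp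
    intro q hq hpq
    obtain ⟨r, hr, hqr, h⟩ := h q hq hpq
    exact ⟨r, hr, hqr, h x⟩

theorem tval_map {C : Type} {γ : Type*} {N N' : Type*} (t : (Lang C).Term γ) (w : γ → N) (f : N → N') :
    tval t (fun i => f (w i)) = f (tval t w) := by
  cases t with
  | var x => rfl
  | func g _ => exact Empty.elim g

theorem forces_sw {g D : M} (hg : IsInv g D) {α : Type*} (v : α → M) {n : ℕ}
    (φ : (Lang Unit).BoundedFormula α n) : ∀ (xs : Fin n → M) (p : M),
      Forces (fun a => sw g D (v a)) φ (fun i => sw g D (xs i)) (sw g D p) ↔ Forces v φ xs p := by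
  have hel : ∀ {n : ℕ} (xs : Fin n → M) (t : (Lang Unit).Term (α ⊕ Fin n)),
      tval t (Sum.elim (fun a => sw g D (v a)) (fun i => sw g D (xs i))) = sw g D (tval t (Sum.elim v xs)) := by
    intro n xs t
    rw [← tval_map t (Sum.elim v xs) (sw g D)]
    congr 1
    funext i
    rcases i with i | i <;> rfl
  induction φ with
  | falsum => intro xs p; exact Iff.rfl
  | equal t1 t2 =>
    intro xs p
    show tval t1 _ = tval t2 _ ↔ tval t1 _ = tval t2 _
    rw [hel, hel, sw_inj hg]
  | rel R ts =>
    intro xs p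
    cases R with
    | mem =>
      show tval (ts 0) _ ∈ tval (ts 1) _ ↔ tval (ts 0) _ ∈ tval (ts 1) _
      rw [hel, hel, sw_mem hg]
    | ur =>
      show Ur (tval (ts 0) _) ↔ Ur (tval (ts 0) _)
      rw [hel, ur_sw hg]
    | cls c =>
      show (∀ q, Cond q → sw g D p ⊆ q → ∃ r, Cond r ∧ q ⊆ r ∧ tval (ts 0) _ ∈ r) ↔
        (∀ q, Cond q → p ⊆ q → ∃ r, Cond r ∧ q ⊆ r ∧ tval (ts 0) _ ∈ r)
      rw [hel]
      constructor
      · intro h q hq hpq
        obtain ⟨r, hr, hqr, hmem⟩ := h (sw g D q) (cond_sw hg hq) ((sw_sub hg).2 hpq)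
        refine ⟨sw g D r, cond_sw hg hr, ?_, ?_⟩
        · rw [← sw_sub hg, sw_sw hg]; exact hqr
        · rw [mem_sw hg]; exact hmem
      · intro h q hq hpq
        obtain ⟨r, hr, hqr, hmem⟩ := h (sw g D q) (cond_sw hg hq) (by
          rw [← sw_sub hg, sw_sw hg]; exact hpq)
        refine ⟨sw g D r, cond_sw hg hr, ?_, ?_⟩
        · rw [← sw_sub hg, sw_sw hg]; exact hqr
        · rw [sw_mem hg]; exact hmem
  | imp φ ψ ih1 ih2 =>
    intro xs p
    constructor
    · intro h q hq hpq h1
      rw [← ih2]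
      apply h (sw g D q) (cond_sw hg hq) ((sw_sub hg).2 hpq)
      rw [ih1]; exact h1
    · intro h q hq hpq h1
      have h2 := h (sw g D q) (cond_sw hg hq) (by rw [← sw_sub hg, sw_sw hg]; exact hpq)
      rw [← ih1, ← ih2, sw_sw hg] at h2
      exact h2 h1
  | @all n φ ih =>
    intro xs p
    have hsn : ∀ x, (Fin.snoc (fun i => sw g D (xs i)) (sw g D x) : Fin (n + 1) → M) =
        fun i => sw g D ((Fin.snoc xs x : Fin (n + 1) → M) i) := by
      intro x
      funext i
      refine Fin.lastCases ?_ (fun i => ?_) i <;> simp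
    constructor
    · intro h x
      have := h (sw g D x)
      rw [hsn, ih] at this
      exact this
    · intro h x
      have := h (sw g D x)
      rw [← ih, ← hsn, sw_sw hg] at this
      exact this

/-- forcing depends only on finitely many free variables -/
theorem forces_support {α : Type*} {n : ℕ} (φ : (Lang Unit).BoundedFormula α n) :
    ∃ s : Set α, s.Finite ∧ ∀ v v' : α → M, (∀ a ∈ s, v a = v' a) → ∀ (xs : Fin n → M) (p : M),
      Forces v φ xs p ↔ Forces v' φ xs p := by
  have hterm : ∀ {n : ℕ} (t : (Lang Unit).Term (α ⊕ Fin n)), ∃ s : Set α, s.Finite ∧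
      ∀ v v' : α → M, (∀ a ∈ s, v a = v' a) → ∀ xs : Fin n → M,
        tval t (Sum.elim v xs) = tval t (Sum.elim v' xs) := by
    intro n t
    cases t with
    | var x =>
      rcases x with a | i
      · exact ⟨{a}, Set.finite_singleton a, fun v v' h xs => h a rfl⟩
      · exact ⟨∅, Set.finite_empty, fun v v' h xs => rfl⟩
    | func g _ => exact Empty.elim g
  induction φ with
  | falsum => exact ⟨∅, Set.finite_empty, fun v v' h xs p => Iff.rfl⟩
  | equal t1 t2 =>
    obtain ⟨s1, h1, h1'⟩ := hterm t1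
    obtain ⟨s2, h2, h2'⟩ := hterm t2
    refine ⟨s1 ∪ s2, h1.union h2, fun v v' h xs p => ?_⟩
    show tval t1 _ = tval t2 _ ↔ tval t1 _ = tval t2 _
    rw [h1' v v' (fun a ha => h a (Or.inl ha)) xs, h2' v v' (fun a ha => h a (Or.inr ha)) xs]
  | rel R ts =>
    choose s hs hs' using fun i => hterm (ts i)
    refine ⟨⋃ i, s i, Set.finite_iUnion hs, fun v v' h xs p => ?_⟩
    have : (fun i => tval (ts i) (Sum.elim v xs)) = (fun i => tval (ts i) (Sum.elim v' xs)) := by
      funext i
      exact hs' i v v' (fun a ha => h a (Set.mem_iUnion.2 ⟨i, ha⟩)) xs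
    show relF R _ _ ↔ relF R _ _
    rw [this]
  | imp φ ψ ih1 ih2 =>
    obtain ⟨s1, h1, h1'⟩ := ih1
    obtain ⟨s2, h2, h2'⟩ := ih2
    refine ⟨s1 ∪ s2, h1.union h2, fun v v' h xs p => ?_⟩
    have e1 := h1' v v' (fun a ha => h a (Or.inl ha)) xs
    have e2 := h2' v v' (fun a ha => h a (Or.inr ha)) xs
    constructor
    · intro h q hq hpq h3
      rw [← e2]; apply h q hq hpq; rw [e1]; exact h3
    · intro h q hq hpq h3
      rw [e2]; apply h q hq hpq; rw [← e1]; exact h3
  | all φ ih =>
    obtain ⟨s1, h1, h1'⟩ := ih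
    refine ⟨s1, h1, fun v v' h xs p => ?_⟩
    constructor
    · intro h3 x; rw [← h1' v v' h]; exact h3 x
    · intro h3 x; rw [h1' v v' h]; exact h3 x

end Pool.Agent.H55.ZFU
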