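import Mathlib
import Pool.Agent.H55.Forces

set_option autoImplicit false
set_option linter.all false
universe u

/-!
# Generic sequences, the truth lemma, Separation and Replacement in the expansion
-/

namespace Pool.Agent.H55.ZFU

open FirstOrder FirstOrder.Language
open Pool.Agent.H55.GB (RSym Lang str)

/-- density among conditions -/
def Dens {M : Type u} [Model M] (D : M → Prop) : Prop := ∀ p, Cond p → ∃ q, Cond q ∧ p ⊆ q ∧ D q

/-- generic sequences of conditions -/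
structure Gen {M : Type u} [Model M] (I : ℕ → M) : Prop where
  cond : ∀ n, Cond (I n)
  mono : ∀ n, I n ⊆ I (n + 1)
  gen : ∀ D : M → Prop, Dfn1 D → Dens D → ∃ n, D (I n)

theorem exists_gen {M : Type u} [Model M] [Countable M] [hL : Countable (DSys.L M).Symbols] :
    ∃ I : ℕ → M, Gen I := by
  classical
  -- countably many definable sets
  have hc : Countable {D : M → Prop // Dfn1 D ∧ Dens D} := by
    let F : (DSys.L M)[[(DSys.A : Set M)]].Formula (Fin 1) → (M → Prop) := fun χ x => χ.Realize (fun _ => x)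
    have hcount : Countable ((DSys.L M)[[(DSys.A : Set M)]].Formula (Fin 1)) := inferInstance
    have hr : (Set.range F).Countable := Set.countable_range F
    have hsub : {D : M → Prop | Dfn1 D ∧ Dens D} ⊆ Set.range F := by
      rintro D ⟨⟨χ, hχ⟩, _⟩
      refine ⟨χ, ?_⟩
      funext x
      apply propext
      have : (fun _ : Fin 1 => x) ∈ {v : Fin 1 → M | D (v 0)} ↔ χ.Realize (fun _ : Fin 1 => x) := by
        rw [hχ]; rfl
      exact this.symm
    exact (hr.mono hsub).to_subtype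
  have hne : Nonempty {D : M → Prop // Dfn1 D ∧ Dens D} :=
    ⟨⟨fun _ => True, inferInstance, fun p hp => ⟨p, hp, Sub.refl p, trivial⟩⟩⟩
  obtain ⟨e, he⟩ := exists_surjective_nat {D : M → Prop // Dfn1 D ∧ Dens D}
  -- the sequence of conditions
  let J : ℕ → {p : M // Cond p} := fun n => Nat.rec ⟨∅, cond_empty⟩
    (fun n p => ⟨Classical.choose ((e n).2.2 p.1 p.2), (Classical.choose_spec ((e n).2.2 p.1 p.2)).1⟩) n
  have hJ : ∀ n, (J n).1 ⊆ (J (n + 1)).1 ∧ (e n).1 (J (n + 1)).1 := fun n =>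
    (Classical.choose_spec ((e n).2.2 (J n).1 (J n).2)).2
  refine ⟨fun n => (J n).1, fun n => (J n).2, fun n => (hJ n).1, ?_⟩
  intro D hD hdens
  obtain ⟨n, hn⟩ := he ⟨D, hD, hdens⟩
  refine ⟨n + 1, ?_⟩
  have := (hJ n).2
  rw [hn] at this
  exact this

section
variable {M : Type} [Model M] {I : ℕ → M}

theorem Gen.le (hI : Gen I) {m n : ℕ} (h : m ≤ n) : I m ⊆ I n := by
  induction h with
  | refl => exact Sub.refl _
  | step _ ih => exact Sub.trans ih (hI.mono _)

/-- all elements, as parameters -/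
abbrev PU (M : Type) : Type := ↥(Set.univ : Set M)

/-- the inclusion of the parameters -/
def pv {M : Type} : PU M → M := Subtype.val

/-- the generic class -/
def gcl (I : ℕ → M) : Set M := {z | ∃ n, z ∈ I n}

/-- the expansion -/
@[reducible] def gstr (I : ℕ → M) : (Lang Unit).Structure M := str Model.E Model.Ur (fun _ : Unit => gcl I)

theorem forces_dfn1 {α : Type*} (v : α → M) {n : ℕ} (φ : (Lang Unit).BoundedFormula α n) (xs : Fin n → M) :
    Dfn1 (fun p => Forces v φ xs p) := by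
  have h1 : Dfn (fun w : Fin n ⊕ Fin 1 → M => Forces v φ (fun i => w (Sum.inl i)) (w (Sum.inr 0))) :=
    Dfn.rename (fun o : Option (Fin n) => o.elim (Sum.inr 0) Sum.inl) (forces_dfn v φ)
  exact Dfn.inst h1 xs (fun i => inferInstance)

theorem forces_dfn_snoc {α : Type*} (v : α → M) {n : ℕ} (φ : (Lang Unit).BoundedFormula α (n + 1)) (xs : Fin n → M) :
    Dfn2 (fun x p => Forces v φ (Fin.snoc xs x) p) := by
  have h1 : Dfn (fun w : Fin n ⊕ Fin 2 → M => Forces v φ (Fin.snoc (fun i => w (Sum.inl i)) (w (Sum.inr 0))) (w (Sum.inr 1))) := by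
    have h2 := Dfn.rename (fun o : Option (Fin (n + 1)) =>
      o.elim (Sum.inr 1 : Fin n ⊕ Fin 2) (Fin.snoc (α := fun _ => Fin n ⊕ Fin 2)
        (fun i => Sum.inl i) (Sum.inr 0))) (forces_dfn v φ)
    refine Dfn.congr h2 ?_
    intro w
    apply iff_of_eq
    congr 1
    funext i
    refine Fin.lastCases ?_ (fun i => ?_) i <;> simp
  exact Dfn.inst h1 xs (fun i => inferInstance)

theorem realize_tval {γ : Type*} (t : (Lang Unit).Term γ) (w : γ → M) :
    @Term.realize (Lang Unit) M (gstr I) γ w t = tval t w := by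
  cases t with
  | var x => rfl
  | func g _ => exact Empty.elim g

/-- the truth lemma -/
theorem truth (hI : Gen I) {α : Type*} (v : α → M) {n : ℕ} (φ : (Lang Unit).BoundedFormula α n) :
    ∀ xs : Fin n → M, (@BoundedFormula.Realize (Lang Unit) M (gstr I) α n φ v xs) ↔ ∃ m, Forces v φ xs (I m) := by
  induction φ with
  | falsum =>
    intro xs
    constructor
    · intro h; exact h.elim
    · rintro ⟨_, h⟩; exact h.elim
  | equal t1 t2 =>
    intro xs
    constructor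
    · intro h
      refine ⟨0, ?_⟩
      have h' : @Term.realize (Lang Unit) M (gstr I) _ (Sum.elim v xs) t1 =
        @Term.realize (Lang Unit) M (gstr I) _ (Sum.elim v xs) t2 := h
      rw [realize_tval, realize_tval] at h'
      exact h'
    · rintro ⟨_, h⟩
      show @Term.realize (Lang Unit) M (gstr I) _ (Sum.elim v xs) t1 =
        @Term.realize (Lang Unit) M (gstr I) _ (Sum.elim v xs) t2
      rw [realize_tval, realize_tval]
      exact h
  | rel R ts =>
    intro xs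
    have hts : (fun i => @Term.realize (Lang Unit) M (gstr I) _ (Sum.elim v xs) (ts i)) =
        fun i => tval (ts i) (Sum.elim v xs) := by funext i; exact realize_tval _ _
    show (@Structure.RelMap (Lang Unit) M (gstr I) _ R (fun i => @Term.realize (Lang Unit) M (gstr I) _ (Sum.elim v xs) (ts i))) ↔ _
    rw [hts]
    cases R with
    | mem => exact ⟨fun h => ⟨0, h⟩, fun ⟨_, h⟩ => h⟩
    | ur => exact ⟨fun h => ⟨0, h⟩, fun ⟨_, h⟩ => h⟩
    | cls c =>
      obtain ⟨z, hz⟩ : ∃ z, z = tval (ts 0) (Sum.elim v xs) := ⟨_, rfl⟩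
      show (∃ m, tval (ts 0) (Sum.elim v xs) ∈ I m) ↔
        ∃ m, ∀ q, Cond q → I m ⊆ q → ∃ r, Cond r ∧ q ⊆ r ∧ tval (ts 0) (Sum.elim v xs) ∈ r
      rw [← hz]
      constructor
      · rintro ⟨m, hm⟩
        exact ⟨m, fun q hq hmq => ⟨q, hq, Sub.refl q, hmq _ hm⟩⟩
      · rintro ⟨m, hm⟩
        obtain ⟨l, hl⟩ := hI.gen (fun p : M => z ∈ p ∨ ∀ r : M, Cond r → p ⊆ r → z ∉ r) inferInstance (by
          intro p hp
          by_cases h : ∃ r, Cond r ∧ p ⊆ r ∧ z ∈ r
          · obtain ⟨r, hr, hpr, hzr⟩ := h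
            exact ⟨r, hr, hpr, Or.inl hzr⟩
          · push Not at h
            exact ⟨p, hp, Sub.refl p, Or.inr h⟩)
        rcases hl with hl | hl
        · exact ⟨l, hl⟩
        · exfalso
          obtain ⟨r, hr, hqr, hzr⟩ := hm (I (max m l)) (hI.cond _) (hI.le (le_max_left _ _))
          exact hl r hr (Sub.trans (hI.le (le_max_right _ _)) hqr) hzr
  | imp φ ψ ih1 ih2 =>
    intro xs
    show ((@BoundedFormula.Realize (Lang Unit) M (gstr I) _ _ φ v xs) →
      (@BoundedFormula.Realize (Lang Unit) M (gstr I) _ _ ψ v xs)) ↔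
      ∃ m, ∀ q, Cond q → I m ⊆ q → Forces v φ xs q → Forces v ψ xs q
    rw [ih1, ih2]
    constructor
    · intro h
      have i1 := forces_dfn1 v φ xs
      by_cases hφ : ∃ m, Forces v φ xs (I m)
      · obtain ⟨m, hm⟩ := h hφ
        exact ⟨m, fun q hq hmq _ => forces_mono v ψ _ _ _ (hI.cond m) hq hmq hm⟩
      · obtain ⟨l, hl⟩ := hI.gen (fun p : M => Forces v φ xs p ∨ ∀ r : M, Cond r → p ⊆ r → ¬ Forces v φ xs r) (by
          have i2 : ∀ {ι : Type} (t : (ι → M) → M) [DFun t], Dfn (fun w => Forces v φ xs (t w)) :=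
            fun t => Dfn.comp1 i1 t
          infer_instance) (by
          intro p hp
          by_cases h : ∃ r, Cond r ∧ p ⊆ r ∧ Forces v φ xs r
          · obtain ⟨r, hr, hpr, hzr⟩ := h
            exact ⟨r, hr, hpr, Or.inl hzr⟩
          · push Not at h
            exact ⟨p, hp, Sub.refl p, Or.inr h⟩)
        rcases hl with hl | hl
        · exact absurd ⟨l, hl⟩ hφ
        · exact ⟨l, fun q hq hlq h => absurd h (hl q hq hlq)⟩
    · rintro ⟨m, hm⟩ ⟨l, hl⟩
      exact ⟨max m l, hm _ (hI.cond _) (hI.le (le_max_left _ _))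
        (forces_mono v φ _ _ _ (hI.cond l) (hI.cond _) (hI.le (le_max_right _ _)) hl)⟩
  | @all n φ ih =>
    intro xs
    show (∀ x, (@BoundedFormula.Realize (Lang Unit) M (gstr I) _ _ φ v (Fin.snoc xs x))) ↔
      ∃ m, ∀ x, Forces v φ (Fin.snoc xs x) (I m)
    constructor
    · intro h
      have i1 := forces_dfn_snoc v φ xs
      have i2 : ∀ {ι : Type} (t s : (ι → M) → M) [DFun t] [DFun s],
        Dfn (fun w => Forces v φ (Fin.snoc xs (t w)) (s w)) :=
          fun t s => Dfn.comp2 (P := fun x p => Forces v φ (Fin.snoc xs x) p) i1 t s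
      obtain ⟨l, hl⟩ := hI.gen (fun p : M => (∀ x : M, Forces v φ (Fin.snoc xs x) p) ∨
        ∃ x : M, ∀ r : M, Cond r → p ⊆ r → ¬ Forces v φ (Fin.snoc xs x) r) inferInstance (by
          intro p hp
          by_cases h : ∀ x, Forces v φ (Fin.snoc xs x) p
          · exact ⟨p, hp, Sub.refl p, Or.inl h⟩
          · push Not at h
            obtain ⟨x, hx⟩ := h
            have : ¬ ∀ q, Cond q → p ⊆ q → ∃ r, Cond r ∧ q ⊆ r ∧ Forces v φ (Fin.snoc xs x) r :=
              fun hh => hx (forces_stable v φ _ p hp hh)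
            push Not at this
            obtain ⟨q, hq, hpq, hr⟩ := this
            exact ⟨q, hq, hpq, Or.inr ⟨x, hr⟩⟩)
      rcases hl with hl | ⟨x, hx⟩
      · exact ⟨l, hl⟩
      · exfalso
        obtain ⟨m, hm⟩ := (ih _).1 (h x)
        exact hx (I (max m l)) (hI.cond _) (hI.le (le_max_right _ _))
          (forces_mono v φ _ _ _ (hI.cond m) (hI.cond _) (hI.le (le_max_left _ _)) hm)
    · rintro ⟨m, hm⟩ x
      rw [ih]
      exact ⟨m, hm x⟩

/-- Replacement for generically true relations -/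
theorem generic_repl [Choice M] (hI : Gen I) (Φ : M → M → M → Prop) (hdfn : Dfn3 Φ)
    (mono : ∀ x y q r, Cond q → Cond r → q ⊆ r → Φ x y q → Φ x y r)
    (stable : ∀ x y q, Cond q → (∀ r, Cond r → q ⊆ r → ∃ s, Cond s ∧ r ⊆ s ∧ Φ x y s) → Φ x y q)
    {k1 : M} (hk1 : ∀ u, u ∈ k1 → Ur u)
    (inv : ∀ g D, IsInv g D → (∀ u, u ∈ D → u ∉ k1) → ∀ x y q, Φ x y q → Φ (sw g D x) (sw g D y) (sw g D q))
    (T : M → M → Prop) (hT : ∀ x y, T x y ↔ ∃ n, Φ x y (I n)) (a : M) (ha : ∀ x, x ∈ a → ∃! y, T x y) :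
    ∃ f, FnOn f a ∧ ∀ x, x ∈ a → T x (app f x) := by
  have hΦ : ∀ {ι : Type} (t s r : (ι → M) → M) [DFun t] [DFun s] [DFun r], Dfn (fun v => Φ (t v) (s v) (r v)) :=
    fun t s r => Dfn.comp3 hdfn t s r
  let Good : M → Prop := fun p => (∀ x, x ∈ a → ∀ q, Cond q → p ⊆ q → ∃ r, Cond r ∧ q ⊆ r ∧ ∃ y, Φ x y r) ∧
    (∀ x, x ∈ a → ∀ q, Cond q → p ⊆ q → ∀ y y', Φ x y q → Φ x y' q → y = y')
  have iGood : ∀ {ι : Type} (t : (ι → M) → M) [DFun t], Dfn (fun v => Good (t v)) := by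
    intro ι t _
    refine Dfn.comp1 (P := Good) ?_ t
    show Dfn (fun v : Fin 1 → M => (∀ x, x ∈ a → ∀ q, Cond q → v 0 ⊆ q → ∃ r, Cond r ∧ q ⊆ r ∧ ∃ y, Φ x y r) ∧
      (∀ x, x ∈ a → ∀ q, Cond q → v 0 ⊆ q → ∀ y y', Φ x y q → Φ x y' q → y = y'))
    infer_instance
  have hgood_mono : ∀ p q, p ⊆ q → Good p → Good q := by
    rintro p q hpq ⟨h1, h2⟩
    exact ⟨fun x hx r hr hqr => h1 x hx r hr (Sub.trans hpq hqr), fun x hx r hr hqr => h2 x hx r hr (Sub.trans hpq hqr)⟩
  -- a good condition in the generic sequence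
  obtain ⟨n, hn⟩ : ∃ n, Good (I n) := by
    obtain ⟨l, hl⟩ := hI.gen (fun p : M => Good p ∨ ∃ x : M, x ∈ a ∧ ((∀ r : M, Cond r → p ⊆ r → ∀ y : M, ¬ Φ x y r) ∨
      ∃ y y' : M, Φ x y p ∧ Φ x y' p ∧ ¬ y = y')) inferInstance (by
      intro p hp
      by_cases h : Good p
      · exact ⟨p, hp, Sub.refl p, Or.inl h⟩
      · have h' : ¬ ((∀ x, x ∈ a → ∀ q, Cond q → p ⊆ q → ∃ r, Cond r ∧ q ⊆ r ∧ ∃ y, Φ x y r) ∧
          (∀ x, x ∈ a → ∀ q, Cond q → p ⊆ q → ∀ y y', Φ x y q → Φ x y' q → y = y')) := h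
        rw [not_and_or] at h'
        rcases h' with h' | h'
        · push Not at h'
          obtain ⟨x, hx, q, hq, hpq, hr⟩ := h'
          exact ⟨q, hq, hpq, Or.inr ⟨x, hx, Or.inl hr⟩⟩
        · push Not at h'
          obtain ⟨x, hx, q, hq, hpq, y, y', h1, h2, h3⟩ := h'
          exact ⟨q, hq, hpq, Or.inr ⟨x, hx, Or.inr ⟨y, y', h1, h2, h3⟩⟩⟩)
    rcases hl with hl | ⟨x, hx, hl | ⟨y, y', h1, h2, h3⟩⟩
    · exact ⟨l, hl⟩
    · exfalso
      obtain ⟨y, hy, _⟩ := ha x hx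
      obtain ⟨m, hm⟩ := (hT x y).1 hy
      exact hl (I (max m l)) (hI.cond _) (hI.le (le_max_right _ _)) y
        (mono _ _ _ _ (hI.cond m) (hI.cond _) (hI.le (le_max_left _ _)) hm)
    · exact absurd ((ha x hx).unique ((hT x y).2 ⟨l, h1⟩) ((hT x y').2 ⟨l, h2⟩)) h3
  obtain ⟨k0, hk0, hk0u, hk0hom⟩ := exists_hom (M := M)
  -- density below the good condition
  have hdens : ∀ p, Cond p → I n ⊆ p → ∃ q, Cond q ∧ p ⊆ q ∧ ∃ f, FnOn f a ∧ ∀ x, x ∈ a → Φ x (app f x) q := by
    intro p hp hnp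
    let k := un (un k0 k1) (un (ker a) (ker p))
    have hk : ∀ u, u ∈ k ↔ (u ∈ k0 ∨ u ∈ k1) ∨ (u ∈ ker a ∨ u ∈ ker p) := by
      intro u; show u ∈ un _ _ ↔ _; simp only [mem_un]
    have hku : ∀ u, u ∈ k → Ur u := by
      intro u hu
      rw [hk] at hu
      rcases hu with (hu | hu) | (hu | hu)
      · exact hk0u u hu
      · exact hk1 u hu
      · exact ker_is_ur _ _ hu
      · exact ker_is_ur _ _ hu
    have hg := hgood_mono _ _ hnp hn
    have H : Hyp Φ a k p := 
      { dfn := hdfn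
        hom := hk0hom k inferInstance hku (fun u hu => (hk u).2 (Or.inl (Or.inl hu)))
        mono := mono
        stable := stable
        inv := fun g D hgD hD => inv g D hgD (fun u hu hu' => hD u hu ((hk u).2 (Or.inl (Or.inr hu'))))
        ha := fun u hu => (hk u).2 (Or.inr (Or.inl hu))
        hp0 := hp
        hp0k := fun u hu => (hk u).2 (Or.inr (Or.inr hu))
        tot := hg.1
        uni := hg.2 }
    exact H.main
  obtain ⟨m, hm⟩ := hI.gen (fun q : M => (∃ f : M, FnOn f a ∧ ∀ x : M, x ∈ a → Φ x (app f x) q) ∨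
    ¬ ∃ r : M, Cond r ∧ q ⊆ r ∧ I n ⊆ r) inferInstance (by
    intro p hp
    by_cases h : ∃ r, Cond r ∧ p ⊆ r ∧ I n ⊆ r
    · obtain ⟨r, hr, hpr, hnr⟩ := h
      obtain ⟨q, hq, hrq, hf⟩ := hdens r hr hnr
      exact ⟨q, hq, Sub.trans hpr hrq, Or.inl hf⟩
    · exact ⟨p, hp, Sub.refl p, Or.inr h⟩)
  rcases hm with ⟨f, hf, hf'⟩ | hm
  · exact ⟨f, hf, fun x hx => (hT _ _).2 ⟨m, hf' x hx⟩⟩
  · exact absurd ⟨I (max m n), hI.cond _, hI.le (le_max_left _ _), hI.le (le_max_right _ _)⟩ hm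

/-- a set of urelements containing the kernels of finitely many parameters -/
theorem exists_kers {α : Type*} (v : α → M) {s : Set α} (hs : s.Finite) :
    ∃ k : M, (∀ u, u ∈ k → Ur u) ∧ ∀ i ∈ s, ker (v i) ⊆ k := by
  induction s, hs using Set.Finite.induction_on with
  | empty => exact ⟨∅, fun u hu => by simp at hu, fun i hi => by simp at hi⟩
  | @insert a s _ _ ih =>
    obtain ⟨k, hk, hk'⟩ := ih
    refine ⟨un k (ker (v a)), ?_, ?_⟩
    · intro u hu
      rw [mem_un] at hu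
      rcases hu with hu | hu
      · exact hk u hu
      · exact ker_is_ur _ _ hu
    · intro i hi u hu
      rw [mem_un]
      rcases hi with rfl | hi
      · exact Or.inr hu
      · exact Or.inl (hk' i hi u hu)

theorem forces_inv {α : Type*} (v : α → M) {n : ℕ} (φ : (Lang Unit).BoundedFormula α n) :
    ∃ k : M, (∀ u, u ∈ k → Ur u) ∧ ∀ g D, IsInv g D → (∀ u, u ∈ D → u ∉ k) → ∀ (xs : Fin n → M) (q : M),
      Forces v φ (fun i => sw g D (xs i)) (sw g D q) ↔ Forces v φ xs q := by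
  obtain ⟨s, hs, hs'⟩ := forces_support (M := M) φ
  obtain ⟨k, hk, hk'⟩ := exists_kers v hs
  refine ⟨k, hk, fun g D hg hD xs q => ?_⟩
  rw [← forces_sw hg v φ xs q]
  apply hs'
  intro a ha
  exact (sw_fix (v a) (fun u hu hu' => hD u hu' (hk' a ha u hu))).symm

/-- Replacement in the expansion -/
theorem repl_gen [Choice M] (hI : Gen I) (R : Set (M × M))
    (hR : @Set.Definable₂ M Set.univ (Lang Unit) (gstr I) R) (a : M)
    (ha : ∀ x, x ∈ a → ∃! y, (x, y) ∈ R) : ∃ f, FnOn f a ∧ ∀ x, x ∈ a → (x, app f x) ∈ R := by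
  letI := gstr I
  have hR' : Set.Definable Set.univ (Lang Unit) {v : Fin 2 → M | (v 0, v 1) ∈ R} := hR
  rw [Set.definable_iff_exists_formula_sum] at hR'
  obtain ⟨χ, hχ⟩ := hR'
  let φ : (Lang Unit).BoundedFormula (PU M) 2 :=
    BoundedFormula.relabel (L := Lang Unit) (n := 2) (k := 0) (fun s : PU M ⊕ Fin 2 => s) χ
  have hφ : ∀ x y : M, φ.Realize pv ![x, y] ↔ (x, y) ∈ R := by
    intro x y
    show (BoundedFormula.relabel (L := Lang Unit) (n := 2) (k := 0) (fun s : PU M ⊕ Fin 2 => s) χ).Realize pv ![x, y] ↔ _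
    rw [BoundedFormula.realize_relabel]
    have h1 : (![x, y] : Fin 2 → M) ∈ {v : Fin 2 → M | (v 0, v 1) ∈ R} ↔
        (![x, y] : Fin 2 → M) ∈ {v : Fin 2 → M | χ.Realize (Sum.elim pv v)} := by rw [hχ]; exact Iff.rfl
    simp only [Set.mem_ofPred_eq] at h1
    have h2 : ((x, y) ∈ R) ↔ χ.Realize (Sum.elim pv (![x, y] : Fin 2 → M)) := h1
    rw [h2]
    apply iff_of_eq
    unfold Formula.Realize
    congr 1
    funext i
    exact i.elim0
  have hd := forces_dfn (M := M) (pv : PU M → M) φ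
  have hd3 : Dfn3 (fun x y q => Forces (pv : PU M → M) φ ![x, y] q) := by
    have h2 := Dfn.rename (fun o : Option (Fin 2) => o.elim (2 : Fin 3) (fun i => if i = 0 then 0 else 1)) hd
    refine Dfn.congr h2 ?_
    intro w
    apply iff_of_eq
    show Forces _ φ ![w 0, w 1] (w 2) = Forces _ φ (fun i : Fin 2 => w (if i = 0 then 0 else 1)) (w 2)
    congr 1
    funext i
    fin_cases i <;> simp
  obtain ⟨k1, hk1, hk1'⟩ := forces_inv (M := M) (pv : PU M → M) φ
  exact generic_repl hI (fun x y q => Forces (pv : PU M → M) φ ![x, y] q) hd3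
    (fun x y q r hq hr hqr h => forces_mono _ φ _ _ _ hq hr hqr h)
    (fun x y q hq h => forces_stable _ φ _ _ hq h) hk1
    (by
      intro g D hg hD x y q h
      have h2 := (hk1' g D hg hD ![x, y] q).2 h
      have h3 : (fun i => sw g D ((![x, y] : Fin 2 → M) i)) = ![sw g D x, sw g D y] := by
        funext i
        fin_cases i <;> simp
      rw [h3] at h2
      exact h2)
    (fun x y => (x, y) ∈ R)
    (fun x y => by rw [← hφ x y]; exact truth hI _ φ _) a ha

/-- Separation in the expansion -/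
theorem sep_gen [Choice M] (hI : Gen I) (S : Set M)
    (hS : @Set.Definable₁ M Set.univ (Lang Unit) (gstr I) S) (a : M) :
    ∃ c : M, IsSet c ∧ ∀ x, x ∈ c ↔ x ∈ a ∧ x ∈ S := by
  letI := gstr I
  have hS' : Set.Definable Set.univ (Lang Unit) {v : Fin 1 → M | v 0 ∈ S} := hS
  rw [Set.definable_iff_exists_formula_sum] at hS'
  obtain ⟨χ, hχ⟩ := hS'
  let φ : (Lang Unit).BoundedFormula (PU M) 1 :=
    BoundedFormula.relabel (L := Lang Unit) (n := 1) (k := 0) (fun s : PU M ⊕ Fin 1 => s) χ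
  have hφ : ∀ x : M, φ.Realize pv ![x] ↔ x ∈ S := by
    intro x
    show (BoundedFormula.relabel (L := Lang Unit) (n := 1) (k := 0) (fun s : PU M ⊕ Fin 1 => s) χ).Realize pv ![x] ↔ _
    rw [BoundedFormula.realize_relabel]
    have h1 : (![x] : Fin 1 → M) ∈ {v : Fin 1 → M | v 0 ∈ S} ↔
        (![x] : Fin 1 → M) ∈ {v : Fin 1 → M | χ.Realize (Sum.elim pv v)} := by rw [hχ]; exact Iff.rfl
    simp only [Set.mem_ofPred_eq] at h1
    have h2 : (x ∈ S) ↔ χ.Realize (Sum.elim pv (![x] : Fin 1 → M)) := h1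
    rw [h2]
    apply iff_of_eq
    unfold Formula.Realize
    congr 1
    funext i
    exact i.elim0
  have hd := forces_dfn (M := M) (pv : PU M → M) φ
  have hd2 : Dfn2 (fun x q => Forces (pv : PU M → M) φ ![x] q) := by
    have h2 := Dfn.rename (fun o : Option (Fin 1) => o.elim (1 : Fin 2) (fun i => 0)) hd
    refine Dfn.congr h2 ?_
    intro w
    apply iff_of_eq
    show Forces _ φ ![w 0] (w 1) = Forces _ φ (fun i : Fin 1 => w 0) (w 1)
    congr 1
    funext i
    fin_cases i; simp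
  have iF : ∀ {ι : Type} (t s : (ι → M) → M) [DFun t] [DFun s],
      Dfn (fun w => Forces (pv : PU M → M) φ ![t w] (s w)) :=
        fun t s => Dfn.comp2 (P := fun x q => Forces (pv : PU M → M) φ ![x] q) hd2 t s
  obtain ⟨k1, hk1, hk1'⟩ := forces_inv (M := M) (pv : PU M → M) φ
  let Φ : M → M → M → Prop := fun x y q => (y = ∅ ∧ ∀ r, Cond r → q ⊆ r → ¬ Forces (pv : PU M → M) φ ![x] r) ∨
    (y = sing ∅ ∧ Forces (pv : PU M → M) φ ![x] q)
  have hd3 : Dfn3 Φ := by
    show Dfn (fun v : Fin 3 → M => (v 1 = ∅ ∧ ∀ r, Cond r → v 2 ⊆ r → ¬ Forces (pv : PU M → M) φ ![v 0] r) ∨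
      (v 1 = sing ∅ ∧ Forces (pv : PU M → M) φ ![v 0] (v 2)))
    infer_instance
  have hne : (∅ : M) ≠ sing ∅ := by
    intro h
    have : (∅ : M) ∈ (∅ : M) := by
      conv_lhs => rw [h]
      simp
    simp at this
  have hT : ∀ x y, ((y = ∅ ∧ x ∉ S) ∨ (y = sing ∅ ∧ x ∈ S)) ↔ ∃ n, Φ x y (I n) := by
    intro x y
    have htr := truth hI (pv : PU M → M) φ ![x]
    rw [← hφ x]
    constructor
    · rintro (⟨rfl, h⟩ | ⟨rfl, h⟩)
      · rw [htr] at h
        push Not at h
        obtain ⟨l, hl⟩ := hI.gen (fun p : M => Forces (pv : PU M → M) φ ![x] p ∨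
            ∀ r : M, Cond r → p ⊆ r → ¬ Forces (pv : PU M → M) φ ![x] r) inferInstance (by
          intro p hp
          by_cases h : ∃ r, Cond r ∧ p ⊆ r ∧ Forces (pv : PU M → M) φ ![x] r
          · obtain ⟨r, hr, hpr, hzr⟩ := h
            exact ⟨r, hr, hpr, Or.inl hzr⟩
          · push Not at h
            exact ⟨p, hp, Sub.refl p, Or.inr h⟩)
        rcases hl with hl | hl
        · exact absurd hl (h l)
        · exact ⟨l, Or.inl ⟨rfl, hl⟩⟩
      · obtain ⟨n, hn⟩ := htr.1 h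
        exact ⟨n, Or.inr ⟨rfl, hn⟩⟩
    · rintro ⟨n, ⟨rfl, hn⟩ | ⟨rfl, hn⟩⟩
      · left
        refine ⟨rfl, ?_⟩
        intro h
        obtain ⟨m, hm⟩ := htr.1 h
        exact hn (I (max m n)) (hI.cond _) (hI.le (le_max_right _ _))
          (forces_mono _ φ _ _ _ (hI.cond m) (hI.cond _) (hI.le (le_max_left _ _)) hm)
      · exact Or.inr ⟨rfl, htr.2 ⟨n, hn⟩⟩
  obtain ⟨f, hf, hf'⟩ := generic_repl hI Φ hd3
    (by
      rintro x y q r hq hr hqr (⟨h1, h2⟩ | ⟨h1, h2⟩)
      · exact Or.inl ⟨h1, fun s hs hrs => h2 s hs (Sub.trans hqr hrs)⟩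
      · exact Or.inr ⟨h1, forces_mono _ φ _ _ _ hq hr hqr h2⟩)
    (by
      intro x y q hq h
      obtain ⟨s, hs, hqs, h1⟩ := h q hq (Sub.refl q)
      rcases h1 with ⟨h1, h2⟩ | ⟨h1, h2⟩
      · left
        refine ⟨h1, ?_⟩
        intro r hr hqr hF
        obtain ⟨s', hs', hrs', h3⟩ := h r hr hqr
        rcases h3 with ⟨h3, h4⟩ | ⟨h3, h4⟩
        · exact h4 s' hs' (Sub.refl s') (forces_mono _ φ _ _ _ hr hs' hrs' hF)
        · exact hne (h1.symm.trans h3)
      · right
        refine ⟨h1, forces_stable _ φ _ _ hq ?_⟩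
        intro r hr hqr
        obtain ⟨s', hs', hrs', h3⟩ := h r hr hqr
        rcases h3 with ⟨h3, h4⟩ | ⟨h3, h4⟩
        · exact absurd (h3.symm.trans h1) hne
        · exact ⟨s', hs', hrs', h4⟩) hk1
    (by
      intro g D hg hD x y q h
      have hv : ∀ z : M, (fun i => sw g D ((![z] : Fin 1 → M) i)) = ![sw g D z] := by
        intro z; funext i; fin_cases i; simp
      have hF : ∀ z r : M, Forces (pv : PU M → M) φ ![sw g D z] (sw g D r) ↔
          Forces (pv : PU M → M) φ ![z] r := by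
        intro z r
        rw [← hv z]
        exact hk1' g D hg hD ![z] r
      have he : sw g D (∅ : M) = ∅ := sw_fix _ (by
        intro u hu
        rw [mem_ker (isSet_iff.1 inferInstance)] at hu
        obtain ⟨y, hy, _⟩ := hu
        simp at hy)
      have hse : sw g D (sing ∅ : M) = sing ∅ := by
        unfold sing
        rw [sw_upair hg, he]
      rcases h with ⟨h1, h2⟩ | ⟨h1, h2⟩
      · left
        refine ⟨by rw [h1, he], ?_⟩
        intro r hr hqr hF'
        have h3 := (hF x (sw g D r)).1 (by rw [sw_sw hg]; exact hF')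
        exact h2 (sw g D r) (cond_sw hg hr) (by rw [← sw_sub hg, sw_sw hg]; exact hqr) h3
      · right
        exact ⟨by rw [h1, hse], (hF x q).2 h2⟩)
    (fun x y => (y = ∅ ∧ x ∉ S) ∨ (y = sing ∅ ∧ x ∈ S)) hT a
    (by
      intro x hx
      by_cases h : x ∈ S
      · refine ⟨sing ∅, Or.inr ⟨rfl, h⟩, ?_⟩
        rintro y (⟨_, h'⟩ | ⟨h', _⟩)
        · exact absurd h h'
        · exact h'
      · refine ⟨∅, Or.inl ⟨rfl, h⟩, ?_⟩
        rintro y (⟨h', _⟩ | ⟨_, h'⟩)
        · exact h'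
        · exact absurd h' h)
  refine ⟨ZFU.sep a (fun x => app f x = sing ∅), inferInstance, ?_⟩
  intro x
  rw [mem_sep]
  constructor
  · rintro ⟨hx, h⟩
    refine ⟨hx, ?_⟩
    rcases hf' x hx with ⟨h1, _⟩ | ⟨_, h2⟩
    · exact absurd (h1.symm.trans h) hne
    · exact h2
  · rintro ⟨hx, h⟩
    refine ⟨hx, ?_⟩
    rcases hf' x hx with ⟨_, h1⟩ | ⟨h2, _⟩
    · exact absurd h h1
    · exact h2

end

end Pool.Agent.H55.ZFU
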