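import Mathlib
import Pool.Agent.H55.Generic

set_option autoImplicit false
set_option linter.all false
universe u

/-!
# Expanding countable models of ZFCU_R to models of GBU_R + Global Choice
-/

namespace Pool.Agent.H55.ZFU

open FirstOrder FirstOrder.Language
open Pool.Agent.H55.GB

/-! ### Formulas of one language defined in another -/

section trans
variable {M : Type} [DSys M] {E : M → M → Prop} {A : M → Prop} {C : Type} {X : C → Set M}

theorem realize_tval' {γ : Type*} (t : (Lang C).Term γ) (w : γ → M) :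
    @Term.realize (Lang C) M (str E A X) γ w t = tval t w := by
  cases t with
  | var x => rfl
  | func g _ => exact Empty.elim g

theorem tval_dfun' {γ : Type} (t : (Lang C).Term γ) : DFun (fun w : γ → M => tval t w) := by
  cases t with
  | var x => exact (inferInstance : DFun (fun w : γ → M => w x))
  | func g _ => exact Empty.elim g

theorem lang_trans_dfn (hE : Dfn (fun v : Fin 2 → M => E (v 0) (v 1))) (hA : Dfn (fun v : Fin 1 → M => A (v 0)))
    (hX : ∀ c, Dfn (fun v : Fin 1 → M => v 0 ∈ X c)) {α : Type} {n : ℕ} (ψ : (Lang C).BoundedFormula α n) :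
    Dfn (fun w : α ⊕ Fin n → M => @BoundedFormula.Realize (Lang C) M (str E A X) α n ψ
      (fun i => w (Sum.inl i)) (fun i => w (Sum.inr i))) := by
  have hel : ∀ {n : ℕ} (w : α ⊕ Fin n → M), (Sum.elim (fun i => w (Sum.inl i)) (fun i => w (Sum.inr i))) = w := by
    intro n w; funext i; cases i <;> rfl
  induction ψ with
  | falsum => exact (inferInstance : Dfn (fun w : α ⊕ Fin _ → M => False))
  | @equal n t1 t2 =>
    have h1 := tval_dfun' (M := M) t1
    have h2 := tval_dfun' (M := M) t2
    refine Dfn.congr (φ := fun w => tval t1 w = tval t2 w) inferInstance ?_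
    intro w
    show @Term.realize (Lang C) M (str E A X) _ (Sum.elim (fun i => w (Sum.inl i)) (fun i => w (Sum.inr i))) t1 =
      @Term.realize (Lang C) M (str E A X) _ (Sum.elim (fun i => w (Sum.inl i)) (fun i => w (Sum.inr i))) t2 ↔ _
    rw [realize_tval', realize_tval', hel]
  | @rel n l R ts =>
    have h0 : ∀ w : α ⊕ Fin n → M, (@BoundedFormula.Realize (Lang C) M (str E A X) α n (BoundedFormula.rel R ts)
      (fun i => w (Sum.inl i)) (fun i => w (Sum.inr i))) ↔
        @Structure.RelMap (Lang C) M (str E A X) _ R (fun i => tval (ts i) w) := by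
      intro w
      show @Structure.RelMap (Lang C) M (str E A X) _ R (fun i => @Term.realize (Lang C) M (str E A X) _
        (Sum.elim (fun i => w (Sum.inl i)) (fun i => w (Sum.inr i))) (ts i)) ↔ _
      have : (fun i => @Term.realize (Lang C) M (str E A X) _
        (Sum.elim (fun i => w (Sum.inl i)) (fun i => w (Sum.inr i))) (ts i)) = fun i => tval (ts i) w := by
        funext i; rw [realize_tval', hel]
      rw [this]
    refine Dfn.congr ?_ h0
    cases R with
    | mem =>
      have := tval_dfun' (M := M) (ts 0)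
      have := tval_dfun' (M := M) (ts 1)
      exact Dfn.comp2 (P := E) hE _ _
    | ur =>
      have := tval_dfun' (M := M) (ts 0)
      exact Dfn.comp1 (P := A) hA _
    | cls c =>
      have := tval_dfun' (M := M) (ts 0)
      exact Dfn.comp1 (P := fun x => x ∈ X c) (hX c) _
  | @imp n φ ψ ih1 ih2 => exact Dfn.imp _ _
  | @all n φ ih =>
    have h1 : Dfn (fun w : Option (α ⊕ Fin n) → M => @BoundedFormula.Realize (Lang C) M (str E A X) α (n + 1) φ
        (fun i => w (some (Sum.inl i))) (Fin.snoc (fun i => w (some (Sum.inr i))) (w none))) := by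
      have h2 := Dfn.rename (fun s : α ⊕ Fin (n + 1) => Sum.elim (fun a => (some (Sum.inl a) : Option (α ⊕ Fin n)))
        (Fin.snoc (α := fun _ => Option (α ⊕ Fin n)) (fun i => some (Sum.inr i)) none) s) ih
      refine Dfn.congr h2 ?_
      intro w
      apply iff_of_eq
      congr 1
      funext i
      refine Fin.lastCases ?_ (fun i => ?_) i <;> simp
    exact Dfn.all (fun (w : α ⊕ Fin n → M) x => @BoundedFormula.Realize (Lang C) M (str E A X) α (n + 1) φ
        (fun i => w (Sum.inl i)) (Fin.snoc (fun i => w (Sum.inr i)) x))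

theorem trans_definable1 (hpar : ∀ c : M, c ∈ (DSys.A : Set M)) (hE : Dfn (fun v : Fin 2 → M => E (v 0) (v 1)))
    (hA : Dfn (fun v : Fin 1 → M => A (v 0)))
    (hX : ∀ c, Dfn (fun v : Fin 1 → M => v 0 ∈ X c)) {S : Set M}
    (hS : @Set.Definable₁ M Set.univ (Lang C) (str E A X) S) : Dfn (fun v : Fin 1 → M => v 0 ∈ S) := by
  letI := str E A X
  have hS' : Set.Definable Set.univ (Lang C) {v : Fin 1 → M | v 0 ∈ S} := hS
  rw [Set.definable_iff_exists_formula_sum] at hS'
  obtain ⟨χ, hχ⟩ := hS'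
  have h1 := lang_trans_dfn hE hA hX χ
  have h2 : Dfn (fun w : ↥(Set.univ : Set M) ⊕ Fin 1 → M => @Formula.Realize (Lang C) M (str E A X) _ χ w) := by
    refine Dfn.congr (Dfn.rename (fun s : (↥(Set.univ : Set M) ⊕ Fin 1) ⊕ Fin 0 => Sum.elim id (fun i => i.elim0) s) h1) ?_
    intro w
    show BoundedFormula.Realize _ _ _ ↔ BoundedFormula.Realize _ _ _
    apply iff_of_eq
    congr 1
    funext i
    exact i.elim0
  have h3 := Dfn.inst h2 (Subtype.val) (fun k => ⟨hpar _⟩)
  refine Dfn.congr h3 ?_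
  intro v
  have : v ∈ {v : Fin 1 → M | v 0 ∈ S} ↔ v ∈ {v : Fin 1 → M | χ.Realize (Sum.elim Subtype.val v)} := by rw [hχ]
  exact this

end trans

section rel
variable {M : Type} [DSys M] {E : M → M → Prop} {F : Set M}

theorem rel_dfn (hE : Dfn fun v : Fin 2 → M => E (v 0) (v 1)) (hF : Dfn fun v : Fin 1 → M => v 0 ∈ F) :
    Dfn (fun v : Fin 2 → M => ∃ p : M, IsPair E p (v 0) (v 1) ∧ p ∈ F) := by
  have iE : ∀ {ι : Type} (t s : (ι → M) → M) [DFun t] [DFun s], Dfn (fun v => E (t v) (s v)) :=
    fun t s => Dfn.comp2 (P := E) hE _ _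
  have iF : ∀ {ι : Type} (t : (ι → M) → M) [DFun t], Dfn (fun v => t v ∈ F) :=
    fun t => Dfn.comp1 (P := fun x => x ∈ F) hF _
  unfold IsPair
  infer_instance

theorem dom_dfn (hE : Dfn fun v : Fin 2 → M => E (v 0) (v 1)) (hF : Dfn fun v : Fin 1 → M => v 0 ∈ F) :
    Dfn (fun v : Fin 1 → M => ∃ y p : M, IsPair E p (v 0) y ∧ p ∈ F) := by
  have iE : ∀ {ι : Type} (t s : (ι → M) → M) [DFun t] [DFun s], Dfn (fun v => E (t v) (s v)) :=
    fun t s => Dfn.comp2 (P := E) hE _ _
  have iF : ∀ {ι : Type} (t : (ι → M) → M) [DFun t], Dfn (fun v => t v ∈ F) :=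
    fun t => Dfn.comp1 (P := fun x => x ∈ F) hF _
  unfold IsPair
  infer_instance

end rel

/-! ### The model of a structure satisfying ZFCU -/

section model
variable {M : Type} {E : M → M → Prop} {A : M → Prop}

/-- definability system of a structure -/
@[reducible] def sys (E : M → M → Prop) (A : M → Prop) {C : Type} (X : C → Set M) (P : Set M) : DSys M :=
  { L := Lang C, str := str E A X, A := P }

theorem E_dfn {C : Type} (X : C → Set M) (P : Set M) : @Dfn M (sys E A X P) (Fin 2) (fun v => E (v 0) (v 1)) := by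
  letI := str E A X
  have : Set.Definable P (Lang C) {v : Fin 2 → M | E (v 0) (v 1)} := by
    refine Set.Definable.mono (A := ∅) ?_ (Set.empty_subset _)
    rw [Set.empty_definable_iff]
    refine ⟨Relations.formula₂ (L := Lang C) (RSym.mem : (Lang C).Relations 2) (Term.var 0) (Term.var 1), ?_⟩
    ext v
    exact Iff.rfl
  exact @Dfn.mk M (sys E A X P) _ _ this

theorem A_dfn {C : Type} (X : C → Set M) (P : Set M) : @Dfn M (sys E A X P) (Fin 1) (fun v => A (v 0)) := by
  letI := str E A X
  have : Set.Definable P (Lang C) {v : Fin 1 → M | A (v 0)} := by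
    refine Set.Definable.mono (A := ∅) ?_ (Set.empty_subset _)
    rw [Set.empty_definable_iff]
    refine ⟨Relations.formula₁ (L := Lang C) (RSym.ur : (Lang C).Relations 1) (Term.var 0), ?_⟩
    ext v
    exact Iff.rfl
  exact @Dfn.mk M (sys E A X P) _ _ this

theorem X_dfn {C : Type} (X : C → Set M) (P : Set M) (c : C) :
    @Dfn M (sys E A X P) (Fin 1) (fun v => v 0 ∈ X c) := by
  letI := str E A X
  have : Set.Definable P (Lang C) {v : Fin 1 → M | v 0 ∈ X c} := by
    refine Set.Definable.mono (A := ∅) ?_ (Set.empty_subset _)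
    rw [Set.empty_definable_iff]
    refine ⟨Relations.formula₁ (L := Lang C) (RSym.cls c : (Lang C).Relations 1) (Term.var 0), ?_⟩
    ext v
    exact Iff.rfl
  exact @Dfn.mk M (sys E A X P) _ _ this

/-- a structure satisfying ZFCU is a model -/
@[reducible] def toModel (h : ZFCU E A) : Model M :=
  { toDSys := sys E A (Empty.elim : Empty → Set M) Set.univ
    par := fun c => trivial
    E := E
    Ur := A
    E_def := E_dfn _ _
    Ur_def := A_dfn _ _
    ext' := h.ext
    ur' := h.urelement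
    found' := h.foundation
    pair' := h.pairing
    union' := h.union
    pow' := h.power
    inf' := h.infinity
    sep' := fun φ hφ a => h.separation {x | φ x} hφ.out a
    repl' := fun R hR a ha => h.replacement {p | R p.1 p.2} hR.out a ha }

theorem toChoice (h : ZFCU E A) : @Choice M (toModel h) := by
  letI := toModel h
  refine ⟨fun a => ?_⟩
  let B : M := img (sep a (fun x : M => ∃ y : M, y ∈ x)) (fun x => prod (sing x) x)
  have hB : ∀ z, z ∈ B ↔ ∃ x, (x ∈ a ∧ ∃ y, y ∈ x) ∧ z = prod (sing x) x := by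
    intro z
    show z ∈ img _ _ ↔ _
    rw [mem_img]
    constructor
    · rintro ⟨x, hx, rfl⟩; exact ⟨x, mem_sep.1 hx, rfl⟩
    · rintro ⟨x, hx, rfl⟩; exact ⟨x, mem_sep.2 hx, rfl⟩
  obtain ⟨c, hc⟩ := h.choice B (by
    intro z hz
    obtain ⟨x, ⟨hx, y, hy⟩, rfl⟩ := (hB z).1 hz
    exact ⟨opair x y, opair_mem_prod.2 ⟨by simp, hy⟩⟩) (by
    intro z z' p hz hz' hp hp'
    obtain ⟨x, ⟨hx, y, hy⟩, rfl⟩ := (hB z).1 hz
    obtain ⟨x', ⟨hx', y', hy'⟩, rfl⟩ := (hB z').1 hz'
    obtain ⟨u, hu, v, hv, rfl⟩ := mem_prod.1 (show p ∈ prod (sing x) x from hp)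
    have h2 : opair u v ∈ prod (sing x') x' := hp'
    rw [opair_mem_prod] at h2
    have h3 : x = x' := by
      have e1 := mem_sing.1 hu
      have e2 := mem_sing.1 h2.1
      rw [← e1, ← e2]
    rw [h3])
  refine ⟨sep (bigU B) (fun p => p ∈ c), ?_⟩
  intro x hx hne
  have hxB : prod (sing x) x ∈ B := (hB _).2 ⟨x, ⟨hx, hne⟩, rfl⟩
  obtain ⟨p, ⟨hp, hpc⟩, huniq⟩ := hc _ hxB
  obtain ⟨u, hu, y, hy, rfl⟩ := mem_prod.1 (show p ∈ prod (sing x) x from hp)
  rw [mem_sing] at hu
  subst hu
  have hex : ∃! y, opair u y ∈ sep (bigU B) (fun p => p ∈ c) := by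
    refine ⟨y, mem_sep.2 ⟨mem_bigU.2 ⟨_, hxB, hp⟩, hpc⟩, ?_⟩
    intro z hz
    obtain ⟨hz1, hz2⟩ := mem_sep.1 hz
    obtain ⟨w, hw, hzw⟩ := mem_bigU.1 hz1
    obtain ⟨x', ⟨hx', _⟩, rfl⟩ := (hB w).1 hw
    rw [opair_mem_prod, mem_sing] at hzw
    obtain ⟨rfl, hzu⟩ := hzw
    have := huniq (opair u z) ⟨opair_mem_prod.2 ⟨by simp, hzu⟩, hz2⟩
    exact (opair_inj.1 this).2
  have := app_eq hex (mem_sep.2 ⟨mem_bigU.2 ⟨_, hxB, hp⟩, hpc⟩)
  rw [this]
  exact hy

end model

section pairs
variable {M : Type} [Model M]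

theorem isPair_iff {p x y : M} : IsPair Model.E p x y ↔ p = opair x y := by
  have h1 : ∀ z a b : M, (∀ w, Model.E w z ↔ w = a ∨ w = b) ↔ z = upair a b := by
    intro z a b
    constructor
    · intro h
      have : IsSet z := isSet_of_mem (x := a) ((h a).2 (Or.inl rfl))
      exact ext (fun w => by rw [mem_upair]; exact h w)
    · rintro rfl w; exact mem_upair
  have h2 : ∀ z a : M, (∀ w, Model.E w z ↔ w = a) ↔ z = sing a := by
    intro z a
    unfold sing
    rw [← h1]
    simp
  constructor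
  · intro h
    have : IsSet p := isSet_of_mem (x := sing x) ((h _).2 (Or.inl ((h2 _ _).2 rfl)))
    apply ext
    intro z
    unfold opair
    rw [mem_upair, ← h1, ← h2]
    exact h z
  · rintro rfl z
    rw [h1, h2]
    exact mem_upair

end pairs

theorem countable_symbols : Countable (Lang Empty).Symbols := by
  show Countable ((Σ l, (fun _ : ℕ => Empty) l) ⊕ (Σ l, RSym Empty l))
  have h1 : Countable (Σ l, (fun _ : ℕ => Empty) l) := inferInstance
  have h2 : Countable (Σ l, RSym Empty l) := by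
    have : Function.Injective (fun s : (Σ l, RSym Empty l) => s.1) := by
      rintro ⟨l, s⟩ ⟨l', s'⟩ h
      have h' : l = l' := h
      subst h'
      cases s with
      | mem => cases s' with
        | mem => rfl
      | ur => cases s' with
        | ur => rfl
        | cls c => exact c.elim
      | cls c => exact c.elim
    exact this.countable
  infer_instance

/-- Countable models of ZFCU_R expand to models of GBU_R + Global Choice. -/
theorem countable_expansion {M : Type} [Countable M] {E : M → M → Prop} {A : M → Prop} (h : ZFCU E A) :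
    ∃ (C : Type) (X : C → Set M), GBUGC E A X := by
  letI := toModel h
  haveI := toChoice h
  haveI : Countable (DSys.L M).Symbols := countable_symbols
  obtain ⟨I, hI⟩ := exists_gen (M := M)
  -- the definable classes of the expansion
  let C : Type := {S : Set M // @Set.Definable₁ M Set.univ (Lang Unit) (gstr I) S}
  let X : C → Set M := Subtype.val
  refine ⟨C, X, ?_⟩
  have hXd : ∀ c : C, @Dfn M (sys E A (fun _ : Unit => gcl I) Set.univ) (Fin 1) (fun v => v 0 ∈ X c) :=
    fun c => @Dfn.mk M (sys E A (fun _ : Unit => gcl I) Set.univ) (Fin 1) _ c.2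
  refine ⟨h.toBase, ?_, ?_, ?_, ?_, ?_⟩
  · intro c d hcd
    exact Subtype.ext (Set.ext hcd)
  · intro S hS
    have h1 := @trans_definable1 M (sys E A (fun _ : Unit => gcl I) Set.univ) E A C X (fun c => trivial)
      (E_dfn _ _) (A_dfn _ _) hXd S hS
    exact ⟨⟨S, h1.out⟩, rfl⟩
  · intro c a
    obtain ⟨b, hb, hb'⟩ := sep_gen hI c.1 c.2 a
    exact ⟨b, hb.out, hb'⟩
  · intro F hF a
    -- the relation
    have hFd := hXd F
    have hR2 : @Dfn M (sys E A (fun _ : Unit => gcl I) Set.univ) (Fin 2)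
        (fun v => ∃ p : M, IsPair E p (v 0) (v 1) ∧ p ∈ X F) :=
      @rel_dfn M (sys E A (fun _ : Unit => gcl I) Set.univ) E (X F) (E_dfn _ _) hFd
    have hR1 : @Dfn M (sys E A (fun _ : Unit => gcl I) Set.univ) (Fin 1)
        (fun v => ∃ y p : M, IsPair E p (v 0) y ∧ p ∈ X F) :=
      @dom_dfn M (sys E A (fun _ : Unit => gcl I) Set.univ) E (X F) (E_dfn _ _) hFd
    obtain ⟨a', ha's, ha'⟩ := sep_gen hI {x | ∃ y p : M, IsPair E p x y ∧ p ∈ X F} hR1.out a
    obtain ⟨f, hf, hf'⟩ := repl_gen hI {q | ∃ p : M, IsPair E p q.1 q.2 ∧ p ∈ X F} hR2.out a' (by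
      intro x hx
      obtain ⟨_, y, p, hp, hpF⟩ := (ha' x).1 hx
      refine ⟨y, ⟨p, hp, hpF⟩, ?_⟩
      rintro z ⟨q, hq, hqF⟩
      exact hF x z y q p hq hp hqF hpF)
    refine ⟨img a' (fun x : M => app f x), ?_, ?_⟩
    · exact (inferInstance : IsSet (img a' (fun x : M => app f x))).out
    intro y
    show y ∈ img a' (fun x : M => app f x) ↔ _
    rw [mem_img]
    constructor
    · rintro ⟨x, hx, rfl⟩
      obtain ⟨p, hp, hpF⟩ := hf' x hx
      exact ⟨x, p, ((ha' x).1 hx).1, hp, hpF⟩
    · rintro ⟨x, p, hx, hp, hpF⟩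
      have hx' : x ∈ a' := (ha' x).2 ⟨hx, y, p, hp, hpF⟩
      refine ⟨x, hx', ?_⟩
      obtain ⟨q, hq, hqF⟩ := hf' x hx'
      exact hF x y _ p q hp hq hpF hqF
  · -- the generic class is a global choice function
    have hG := X_dfn (E := E) (A := A) (fun _ : Unit => gcl I) Set.univ ()
    refine ⟨⟨gcl I, hG.out⟩, ?_, ?_⟩
    · intro x y z p q hp hq hpG hqG
      have hp' := isPair_iff.1 hp
      have hq' := isPair_iff.1 hq
      subst hp' hq'
      obtain ⟨m, hm⟩ := hpG
      obtain ⟨l, hl⟩ := hqG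
      exact (hI.cond (max m l)).2.2 x y z (hI.le (le_max_left _ _) _ hm) (hI.le (le_max_right _ _) _ hl)
    · rintro x ⟨y, hy⟩
      obtain ⟨n, z, hz⟩ := hI.gen (fun p : M => ∃ z : M, opair x z ∈ p) inferInstance (by
        intro p hp
        by_cases hex : ∃ z, opair x z ∈ p
        · exact ⟨p, hp, Sub.refl p, hex⟩
        · refine ⟨un p (sing (opair x y)), ⟨inferInstance, ?_, ?_⟩, fun q hq => mem_un.2 (Or.inl hq), y, by simp⟩
          · intro q hq
            rw [mem_un, mem_sing] at hq
            rcases hq with hq | rfl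
            · exact hp.2.1 q hq
            · exact ⟨x, y, rfl, hy⟩
          · intro u v w huv huw
            rw [mem_un, mem_sing, opair_inj] at huv huw
            rcases huv with huv | ⟨rfl, rfl⟩ <;> rcases huw with huw | ⟨h1, h2⟩
            · exact hp.2.2 _ _ _ huv huw
            · subst h1; exact absurd ⟨v, huv⟩ hex
            · exact absurd ⟨w, huw⟩ hex
            · rw [h2])
      have hzx : z ∈ x := by
        obtain ⟨x', z', he, hz'⟩ := (hI.cond n).2.1 _ hz
        rw [opair_inj] at he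
        rw [he.1, he.2]; exact hz'
      exact ⟨z, opair x z, hzx, isPair_iff.2 rfl, n, hz⟩

end Pool.Agent.H55.ZFU
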