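import Mathlib
import Pool.Agent.H55.GBCountable

set_option autoImplicit false
set_option linter.all false
universe u

/-!
# Countable elementary submodels of models of ZFCU_R
-/

namespace Pool.Agent.H55.ZFU

open FirstOrder FirstOrder.Language
open Pool.Agent.H55.GB

section transfer

variable {M : Type} {E : M → M → Prop} {A : M → Prop}

/-- A subset of `M` which meets all nonempty definable sets with parameters in it, and the definability
transfers between the structures. -/
structure Sub (E : M → M → Prop) (A : M → Prop) (N : Set M) : Prop where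
  tv : ∀ (P : M → Prop), @Dfn M (sys E A (Empty.elim : Empty → Set M) N) (Fin 1) (fun v => P (v 0)) →
    (∃ x, P x) → ∃ x : N, P x
  def1 : ∀ S : Set N, (letI := str (fun x y : N => E x y) (fun x : N => A x) (Empty.elim : Empty → Set N);
    Set.univ.Definable₁ (Lang Empty) S) → ∃ S' : Set M,
      @Dfn M (sys E A (Empty.elim : Empty → Set M) N) (Fin 1) (fun v => v 0 ∈ S') ∧ ∀ x : N, x ∈ S ↔ (x : M) ∈ S'
  def2 : ∀ S : Set (N × N), (letI := str (fun x y : N => E x y) (fun x : N => A x) (Empty.elim : Empty → Set N);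
    Set.univ.Definable₂ (Lang Empty) S) → ∃ S' : Set (M × M),
      @Dfn M (sys E A (Empty.elim : Empty → Set M) N) (Fin 2) (fun v => (v 0, v 1) ∈ S') ∧
        ∀ x y : N, (x, y) ∈ S ↔ ((x : M), (y : M)) ∈ S'

theorem mono_dfn {C : Type} {X : C → Set M} {P Q : Set M} (hPQ : P ⊆ Q) {ι : Type} {φ : (ι → M) → Prop}
    (h : @Dfn M (sys E A X P) ι φ) : @Dfn M (sys E A X Q) ι φ := by
  letI := str E A X
  have : Set.Definable P (Lang C) {v : ι → M | φ v} := h.out
  exact @Dfn.mk M (sys E A X Q) _ _ (this.mono hPQ)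

theorem transfer {N : Set M} (hN : Sub E A N) (h : ZFCU E A) :
    ZFCU (fun x y : N => E x y) (fun x : N => A x) := by
  letI := sys E A (Empty.elim : Empty → Set M) N
  have iE : ∀ {ι : Type} (t s : (ι → M) → M) [DFun t] [DFun s], Dfn (fun v => E (t v) (s v)) :=
    fun t s => Dfn.comp2 (P := E) (E_dfn _ _) _ _
  have iA : ∀ {ι : Type} (t : (ι → M) → M) [DFun t], Dfn (fun v => A (t v)) :=
    fun t => Dfn.comp1 (P := A) (A_dfn _ _) _
  haveI iN : ∀ x : N, Par (x : M) := fun x => ⟨x.2⟩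
  have tv : ∀ (P : M → Prop) [Dfn1 P], (∃ x, P x) → ∃ x : N, P x := fun P hP => hN.tv P hP
  have all : ∀ (P : M → Prop) [Dfn1 P], (∀ x : N, P x) → ∀ x, P x := by
    intro P hP hx
    by_contra hcon
    push Not at hcon
    haveI : Dfn1 (fun x => ¬ P x) := Dfn.not (fun v : Fin 1 → M => P (v 0))
    obtain ⟨x, hx'⟩ := tv (fun x => ¬ P x) hcon
    exact hx' (hx x)
  constructor
  · constructor
    · -- extensionality
      intro a b ha hb hab
      exact Subtype.ext (h.ext a b ha hb (all (fun x : M => E x a ↔ E x b) hab))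
    · intro a x ha
      exact h.urelement a x ha
    · -- foundation
      rintro a ⟨x, hx⟩
      obtain ⟨y, hy1, hy2⟩ := tv (fun x : M => E x a ∧ ∀ y : M, E y x → ¬ E y a) (h.foundation a ⟨x, hx⟩)
      exact ⟨y, hy1, fun z hz => hy2 z hz⟩
    · -- pairing
      intro a b
      obtain ⟨c, hc⟩ := tv (fun c : M => ∀ x : M, E x c ↔ x = a ∨ x = b) (h.pairing a b)
      exact ⟨c, fun x => (hc x).trans (by rw [Subtype.ext_iff, Subtype.ext_iff])⟩
    · -- union
      intro a
      obtain ⟨c, hc1, hc2⟩ := tv (fun c : M => ¬ A c ∧ ∀ x : M, E x c ↔ ∃ y : M, E y a ∧ E x y) (h.union a)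
      refine ⟨c, hc1, fun x => (hc2 x).trans ⟨fun hx => ?_, fun ⟨y, hy⟩ => ⟨y, hy⟩⟩⟩
      exact tv (fun y : M => E y a ∧ E x y) hx
    · -- power set
      intro a
      obtain ⟨c, hc⟩ := tv (fun c : M => ∀ x : M, E x c ↔ ¬ A x ∧ ∀ y : M, E y x → E y a) (h.power a)
      refine ⟨c, fun x => (hc x).trans (and_congr_right fun _ => ⟨fun hx y => hx y, fun hx => ?_⟩)⟩
      exact all (fun y : M => E y x → E y a) hx
    · -- infinity
      obtain ⟨w, ⟨hw1, hw2⟩⟩ := tv (fun w : M => (∃ e : M, E e w ∧ ¬ A e ∧ ∀ x : M, ¬ E x e) ∧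
        ∀ x : M, E x w → ∃ y : M, E y w ∧ ∀ z : M, E z y ↔ E z x ∨ z = x) h.infinity
      refine ⟨w, ?_, ?_⟩
      · obtain ⟨e, he1, he2, he3⟩ := tv (fun e : M => E e w ∧ ¬ A e ∧ ∀ x : M, ¬ E x e) hw1
        exact ⟨e, he1, he2, fun x => he3 x⟩
      · intro x hx
        obtain ⟨y, hy1, hy2⟩ := tv (fun y : M => E y w ∧ ∀ z : M, E z y ↔ E z x ∨ z = x) (hw2 x hx)
        exact ⟨y, hy1, fun z => (hy2 z).trans (by rw [Subtype.ext_iff])⟩
    · -- choice
      intro a h1 h2
      have h1' := all (fun x : M => E x a → ∃ y : M, E y x) (fun x hx => by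
        obtain ⟨y, hy⟩ := h1 x hx; exact ⟨y, hy⟩)
      have h2' : ∀ x y z : M, E x a → E y a → E z x → E z y → x = y := by
        intro x
        refine all (fun x : M => ∀ y z : M, E x a → E y a → E z x → E z y → x = y) (fun x => ?_) x
        refine all (fun y : M => ∀ z : M, E x a → E y a → E z x → E z y → (x : M) = y) (fun y => ?_)
        refine all (fun z : M => E x a → E y a → E z x → E z y → (x : M) = y) (fun z h3 h4 h5 h6 => ?_)
        exact congrArg Subtype.val (h2 x y z h3 h4 h5 h6)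
      obtain ⟨c, hc⟩ := tv (fun c : M => ∀ x : M, E x a → ∃ y : M, (E y x ∧ E y c) ∧ ∀ z : M, (E z x ∧ E z c) → z = y) (by
        obtain ⟨c, hc⟩ := h.choice a h1' h2'
        exact ⟨c, fun x hx => by obtain ⟨y, hy, hy'⟩ := hc x hx; exact ⟨y, hy, fun z hz => hy' z hz⟩⟩)
      refine ⟨c, fun x hx => ?_⟩
      obtain ⟨y, hy, hy'⟩ := tv (fun y : M => (E y x ∧ E y c) ∧ ∀ z : M, (E z x ∧ E z c) → z = y) (hc x hx)
      exact ⟨y, hy, fun z hz => Subtype.ext (hy' z hz)⟩
  · -- separation
    intro S hS a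
    obtain ⟨S', hS'1, hS'2⟩ := hN.def1 S hS
    have iS : ∀ {ι : Type} (t : (ι → M) → M) [DFun t], Dfn (fun v => t v ∈ S') :=
      fun t => Dfn.comp1 (P := fun x => x ∈ S') hS'1 _
    have hS'd : @Dfn M (sys E A (Empty.elim : Empty → Set M) Set.univ) (Fin 1) (fun v => v 0 ∈ S') :=
      mono_dfn (Set.subset_univ _) hS'1
    obtain ⟨c, hc1, hc2⟩ := tv (fun c : M => ¬ A c ∧ ∀ x : M, E x c ↔ E x a ∧ x ∈ S') (h.separation S' hS'd.out a)
    exact ⟨c, hc1, fun x => (hc2 x).trans (and_congr_right fun _ => (hS'2 x).symm)⟩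
  · -- replacement
    intro R hR a ha
    obtain ⟨R', hR'1, hR'2⟩ := hN.def2 R hR
    have iR : ∀ {ι : Type} (t s : (ι → M) → M) [DFun t] [DFun s], Dfn (fun v => (t v, s v) ∈ R') :=
      fun t s => Dfn.comp2 (P := fun x y => (x, y) ∈ R') hR'1 _ _
    have hR'd : @Dfn M (sys E A (Empty.elim : Empty → Set M) Set.univ) (Fin 2) (fun v => (v 0, v 1) ∈ R') :=
      mono_dfn (Set.subset_univ _) hR'1
    have ha' : ∀ x : M, E x a → ∃! y, (x, y) ∈ R' := by
      have := all (fun x : M => E x a → ∃ y : M, (x, y) ∈ R' ∧ ∀ z : M, (x, z) ∈ R' → z = y) (fun x hx => by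
        obtain ⟨y, hy, hy'⟩ := ha x hx
        refine ⟨y, (hR'2 x y).1 hy, ?_⟩
        refine all (fun z : M => ((x : M), z) ∈ R' → z = y) (fun z hz => ?_)
        exact congrArg Subtype.val (hy' z ((hR'2 x z).2 hz)))
      intro x hx
      obtain ⟨y, hy, hy'⟩ := this x hx
      exact ⟨y, hy, hy'⟩
    obtain ⟨c, hc1, hc2⟩ := tv (fun c : M => ¬ A c ∧ ∀ y : M, E y c ↔ ∃ x : M, E x a ∧ (x, y) ∈ R')
      (h.replacement R' hR'd.out a ha')
    refine ⟨c, hc1, fun y => (hc2 y).trans ⟨fun hy => ?_, fun ⟨x, hx, hx'⟩ => ⟨x, hx, (hR'2 x y).1 hx'⟩⟩⟩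
    obtain ⟨x, hx, hx'⟩ := tv (fun x : M => E x a ∧ (x, (y : M)) ∈ R') hy
    exact ⟨x, hx, (hR'2 x y).2 hx'⟩

theorem formula_dfn [DSys M] {C : Type} {X : C → Set M} (hE : Dfn (fun v : Fin 2 → M => E (v 0) (v 1)))
    (hA : Dfn (fun v : Fin 1 → M => A (v 0))) (hX : ∀ c, Dfn (fun v : Fin 1 → M => v 0 ∈ X c))
    {γ : Type} (χ : (Lang C).Formula γ) :
    Dfn (fun w : γ → M => @Formula.Realize (Lang C) M (str E A X) γ χ w) := by
  have h1 := lang_trans_dfn hE hA hX χ
  letI := str E A X
  refine Dfn.congr (Dfn.rename (fun s : γ ⊕ Fin 0 => Sum.elim id (fun i => i.elim0) s) h1) ?_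
  intro w
  show BoundedFormula.Realize _ _ _ ↔ BoundedFormula.Realize _ _ _
  apply iff_of_eq
  congr 1
  funext i
  exact i.elim0

theorem str_restrict (S : @ElementarySubstructure (Lang Empty) M (str E A (Empty.elim : Empty → Set M))) :
    str (fun x y : S => E x y) (fun x : S => A x) (Empty.elim : Empty → Set S) =
      @ElementarySubstructure.inducedStructure (Lang Empty) M (str E A (Empty.elim : Empty → Set M)) S := by
  letI := str E A (Empty.elim : Empty → Set M)
  apply Structure.ext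
  · funext n f
    exact Empty.elim f
  · funext n R v
    cases R with
    | mem => rfl
    | ur => rfl
    | cls c => exact c.elim

theorem exists_sub (E : M → M → Prop) (A : M → Prop) (hM : Cardinal.aleph0 ≤ Cardinal.mk M) :
    ∃ N : Set M, N.Countable ∧ Sub E A N ∧
      ∀ φ : (Lang Empty).Sentence, Holds (fun x y : N => E x y) (fun x : N => A x) φ ↔ Holds E A φ := by
  letI := str E A (Empty.elim : Empty → Set M)
  have hcard : (Lang Empty).card ≤ Cardinal.aleph0 := by
    haveI : Countable (Lang Empty).Symbols := countable_symbols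
    exact Cardinal.mk_le_aleph0
  obtain ⟨S, -, hS⟩ := exists_elementarySubstructure_card_eq (Lang Empty) (∅ : Set M) (Cardinal.aleph0 : Cardinal.{0}) le_rfl
    (by simp) (by simpa using hcard) (by simpa using hM)
  have hst := str_restrict S
  refine ⟨(S : Set M), ?_, ⟨?_, ?_, ?_⟩, ?_⟩
  · have : Cardinal.mk S = Cardinal.aleph0 := by simpa using hS
    exact Cardinal.le_aleph0_iff_set_countable.1 this.le
  · intro P hP hex
    obtain ⟨x, hx, hxS⟩ := S.meetsDefinable {x | P x} hex hP.out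
    exact ⟨⟨x, hxS⟩, hx⟩
  · intro D hD
    have hD' : Set.Definable Set.univ (Lang Empty) {v : Fin 1 → S | v 0 ∈ D} := by
      rw [← hst]
      exact hD
    rw [Set.definable_iff_exists_formula_sum] at hD'
    obtain ⟨χ, hχ⟩ := hD'
    refine ⟨{x : M | χ.Realize (Sum.elim (fun c : ↥(Set.univ : Set S) => ((c : S) : M)) (fun _ => x))}, ?_, ?_⟩
    · letI := sys E A (Empty.elim : Empty → Set M) (S : Set M)
      have h1 := formula_dfn (X := (Empty.elim : Empty → Set M)) (E_dfn (E := E) (A := A) (Empty.elim : Empty → Set M) (S : Set M))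
        (A_dfn _ _) (fun c => c.elim) χ
      have h2 := Dfn.inst h1 (fun c : ↥(Set.univ : Set S) => ((c : S) : M)) (fun k => ⟨k.1.2⟩)
      refine Dfn.congr h2 ?_
      intro v
      show χ.Realize _ ↔ χ.Realize _
      apply iff_of_eq
      congr 1
      funext i
      rcases i with i | i
      · rfl
      · fin_cases i; rfl
    · intro x
      have h1 : (fun _ : Fin 1 => x) ∈ {v : Fin 1 → S | v 0 ∈ D} ↔ (fun _ : Fin 1 => x) ∈
        {v : Fin 1 → S | χ.Realize (Sum.elim Subtype.val v)} := by rw [hχ]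
      refine h1.trans ?_
      show χ.Realize _ ↔ χ.Realize _
      rw [← S.subtype.map_formula]
      apply iff_of_eq
      congr 1
      funext i
      rcases i with i | i <;> rfl
  · intro D hD
    have hD' : Set.Definable Set.univ (Lang Empty) {v : Fin 2 → S | (v 0, v 1) ∈ D} := by
      rw [← hst]
      exact hD
    rw [Set.definable_iff_exists_formula_sum] at hD'
    obtain ⟨χ, hχ⟩ := hD'
    refine ⟨{x : M × M | χ.Realize (Sum.elim (fun c : ↥(Set.univ : Set S) => ((c : S) : M)) ![x.1, x.2])}, ?_, ?_⟩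
    · letI := sys E A (Empty.elim : Empty → Set M) (S : Set M)
      have h1 := formula_dfn (X := (Empty.elim : Empty → Set M)) (E_dfn (E := E) (A := A) (Empty.elim : Empty → Set M) (S : Set M))
        (A_dfn _ _) (fun c => c.elim) χ
      have h2 := Dfn.inst h1 (fun c : ↥(Set.univ : Set S) => ((c : S) : M)) (fun k => ⟨k.1.2⟩)
      refine Dfn.congr h2 ?_
      intro v
      show χ.Realize _ ↔ χ.Realize _
      apply iff_of_eq
      congr 1
      funext i
      rcases i with i | i
      · rfl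
      · fin_cases i <;> rfl
    · intro x y
      have h1 : (![x, y] : Fin 2 → S) ∈ {v : Fin 2 → S | (v 0, v 1) ∈ D} ↔ (![x, y] : Fin 2 → S) ∈
        {v : Fin 2 → S | χ.Realize (Sum.elim Subtype.val v)} := by rw [hχ]
      refine h1.trans ?_
      show χ.Realize _ ↔ χ.Realize _
      rw [← S.subtype.map_formula]
      apply iff_of_eq
      congr 1
      funext i
      rcases i with i | i
      · rfl
      · fin_cases i <;> rfl
  · intro φ
    have := S.realize_sentence φ
    show @Sentence.Realize (Lang Empty) S (str (fun x y : S => E x y) (fun x : S => A x) (Empty.elim : Empty → Set S)) φ ↔ _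
    rw [hst]
    exact this

end transfer

/-! ### The first-order part of a model of `GBU_R` + Global Choice is a model of `ZFCU_R` -/

section converse

variable {M : Type} {E : M → M → Prop} {A : M → Prop}

theorem isPair_inj (h : Base E A) {p x y x' y' : M} (h1 : IsPair E p x y) (h2 : IsPair E p x' y') :
    x = x' ∧ y = y' := by
  obtain ⟨s, hs⟩ := h.pairing x x
  have hs' : ∀ w, E w s ↔ w = x := fun w => by rw [hs]; simp
  have hsp : E s p := (h1 s).2 (Or.inl hs')
  have hx : x' = x := by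
    rcases (h2 s).1 hsp with h3 | h3
    · exact (hs' _).1 ((h3 x').2 rfl)
    · exact (hs' _).1 ((h3 x').2 (Or.inl rfl))
  subst hx
  refine ⟨rfl, ?_⟩
  obtain ⟨t, ht⟩ := h.pairing x' y
  have htp : E t p := (h1 t).2 (Or.inr ht)
  obtain ⟨t', ht'⟩ := h.pairing x' y'
  have htp' : E t' p := (h2 t').2 (Or.inr ht')
  have hy : y = x' ∨ y = y' := by
    rcases (h2 t).1 htp with h3 | h3
    · exact Or.inl ((h3 _).1 ((ht y).2 (Or.inr rfl)))
    · exact (h3 _).1 ((ht y).2 (Or.inr rfl))
  have hy' : y' = x' ∨ y' = y := by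
    rcases (h1 t').1 htp' with h3 | h3
    · exact Or.inl ((h3 _).1 ((ht' y').2 (Or.inr rfl)))
    · exact (h3 _).1 ((ht' y').2 (Or.inr rfl))
  rcases hy with hy | hy
  · rcases hy' with hy' | hy'
    · rw [hy, hy']
    · exact hy'.symm
  · exact hy

theorem trans_definable2 [DSys M] {C : Type} {X : C → Set M} (hpar : ∀ c : M, c ∈ (DSys.A : Set M))
    (hE : Dfn (fun v : Fin 2 → M => E (v 0) (v 1))) (hA : Dfn (fun v : Fin 1 → M => A (v 0)))
    (hX : ∀ c, Dfn (fun v : Fin 1 → M => v 0 ∈ X c)) {S : Set (M × M)}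
    (hS : @Set.Definable₂ M Set.univ (Lang C) (str E A X) S) : Dfn (fun v : Fin 2 → M => (v 0, v 1) ∈ S) := by
  letI := str E A X
  have hS' : Set.Definable Set.univ (Lang C) {v : Fin 2 → M | (v 0, v 1) ∈ S} := hS
  rw [Set.definable_iff_exists_formula_sum] at hS'
  obtain ⟨χ, hχ⟩ := hS'
  have h3 := Dfn.inst (formula_dfn hE hA hX χ) (Subtype.val) (fun k => ⟨hpar _⟩)
  refine Dfn.congr h3 ?_
  intro v
  have : v ∈ {v : Fin 2 → M | (v 0, v 1) ∈ S} ↔ v ∈ {v : Fin 2 → M | χ.Realize (Sum.elim Subtype.val v)} := by rw [hχ]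
  exact this

theorem toZFCU {C : Type} {X : C → Set M} (h : GBUGC E A X) : ZFCU E A := by
  letI := sys E A X Set.univ
  have iE : ∀ {ι : Type} (t s : (ι → M) → M) [DFun t] [DFun s], Dfn (fun v => E (t v) (s v)) :=
    fun t s => Dfn.comp2 (P := E) (E_dfn _ _) _ _
  haveI iPar : ∀ x : M, Par (x : M) := fun x => ⟨trivial⟩
  refine ⟨h.toBase, ?_, ?_⟩
  · intro S hS a
    have h1 := trans_definable1 (E := E) (A := A) (X := (Empty.elim : Empty → Set M)) (fun c => trivial)
      (E_dfn _ _) (A_dfn _ _) (fun c => c.elim) hS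
    obtain ⟨c, rfl⟩ := h.comprehension S h1.out
    exact h.class_separation c a
  · intro R hR a ha
    have h1 := trans_definable2 (E := E) (A := A) (X := (Empty.elim : Empty → Set M)) (fun c => trivial)
      (E_dfn _ _) (A_dfn _ _) (fun c => c.elim) hR
    have iR : ∀ {ι : Type} (t s : (ι → M) → M) [DFun t] [DFun s], Dfn (fun v => (t v, s v) ∈ R) :=
      fun t s => Dfn.comp2 (P := fun x y => (x, y) ∈ R) h1 _ _
    have h2 : Dfn1 (fun p : M => ∃ x y : M, E x a ∧ IsPair E p x y ∧ (x, y) ∈ R) := by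
      unfold IsPair
      infer_instance
    obtain ⟨F, hF⟩ := h.comprehension {p | ∃ x y : M, E x a ∧ IsPair E p x y ∧ (x, y) ∈ R} h2.out
    have hF' : ∀ p x y : M, IsPair E p x y → (p ∈ X F ↔ E x a ∧ (x, y) ∈ R) := by
      intro p x y hp
      rw [hF]
      constructor
      · rintro ⟨x', y', hx', hp', hR'⟩
        obtain ⟨rfl, rfl⟩ := isPair_inj h.toBase hp hp'
        exact ⟨hx', hR'⟩
      · rintro ⟨hx, hR⟩
        exact ⟨x, y, hx, hp, hR⟩
    obtain ⟨b, hb1, hb2⟩ := h.class_replacement F (by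
      intro x y z p q hp hq hpF hqF
      obtain ⟨hx, hy⟩ := (hF' _ _ _ hp).1 hpF
      obtain ⟨_, hz⟩ := (hF' _ _ _ hq).1 hqF
      exact (ha x hx).unique hy hz) a
    refine ⟨b, hb1, fun y => (hb2 y).trans ⟨?_, ?_⟩⟩
    · rintro ⟨x, p, hx, hp, hpF⟩
      exact ⟨x, hx, ((hF' _ _ _ hp).1 hpF).2⟩
    · rintro ⟨x, hx, hR'⟩
      obtain ⟨s, hs⟩ := h.pairing x x
      obtain ⟨t, ht⟩ := h.pairing x y
      obtain ⟨p, hp⟩ := h.pairing s t
      have hns : ∀ {s x : M}, E x s → ¬ A s := fun hx hA => h.urelement _ _ hA hx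
      have hpp : IsPair E p x y := by
        intro z
        rw [hp]
        constructor
        · rintro (rfl | rfl)
          · left; intro w; rw [hs]; simp
          · right; exact ht
        · rintro (hz | hz)
          · left
            refine h.ext z s (hns ((hz x).2 rfl)) (hns ((hs x).2 (Or.inl rfl))) (fun w => ?_)
            rw [hz, hs]; simp
          · right
            refine h.ext z t (hns ((hz x).2 (Or.inl rfl))) (hns ((ht x).2 (Or.inl rfl))) (fun w => ?_)
            rw [hz, ht]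
      exact ⟨x, p, hx, hpp, (hF' _ _ _ hpp).2 ⟨hx, hR'⟩⟩

end converse

theorem conservative (φ : (Lang Empty).Sentence)
    (h : ∀ (M C : Type) (E : M → M → Prop) (A : M → Prop) (X : C → Set M), GBUGC E A X → Holds E A φ)
    (M : Type) (E : M → M → Prop) (A : M → Prop) (hM : ZFCU E A) : Holds E A φ := by
  by_cases hc : Countable M
  · obtain ⟨C, X, hX⟩ := countable_expansion hM
    exact h M C E A X hX
  · have hinf : Cardinal.aleph0 ≤ Cardinal.mk M := by
      by_contra hlt
      rw [not_le] at hlt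
      exact hc (Cardinal.mk_le_aleph0_iff.1 hlt.le)
    obtain ⟨N, hN, hsub, hiff⟩ := exists_sub E A hinf
    haveI : Countable N := hN.to_subtype
    obtain ⟨C, X, hX⟩ := countable_expansion (transfer hsub hM)
    exact (hiff φ).1 (h N C _ _ X hX)

end Pool.Agent.H55.ZFU
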