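import Pool.Agent.H55.GenPlace

/-! The endgame for homogeneous data. -/

set_option autoImplicit false
set_option linter.unusedSectionVars false

namespace Pool.Agent.H55.Gen

open Finset

namespace EndData

variable {KK PT : Type} [Field KK] [Inhabited PT] [DecidableEq PT] {n q0 : ℕ}
  (D : EndData KK PT n q0)

/-- the support of the code -/
def supp (w : ℕ) : Finset (Fin n) := univ.filter (fun j => D.code w j ≠ default)

/-- reduced code: the list of the nonempty letters -/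
def rc (w : ℕ) : List PT := ((D.supp w).sort).map (D.code w)

theorem mem_supp {w : ℕ} {j : Fin n} : j ∈ D.supp w ↔ D.code w j ≠ default := by
  simp [supp]

theorem code_eq_empty {w : ℕ} {j : Fin n} (h : j ∉ D.supp w) : D.code w j = default := by
  by_contra h1
  exact h (D.mem_supp.2 h1)

theorem length_rc (w : ℕ) : (D.rc w).length = (D.supp w).card := by
  simp [rc]

theorem supp_subset {T : Finset (Fin n)} {w : ℕ} (h : w ∈ D.WW T) : D.supp w ⊆ T := by
  intro j hj
  exact D.supp_sub T w h j (D.mem_supp.1 hj)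

theorem univ_mem {T : Finset (Fin n)} {w : ℕ} (h : w ∈ D.WW T) : w ∈ D.WW univ :=
  D.WW_mono _ _ (Finset.subset_univ _) h

theorem eq_of_rc {w w' : ℕ} (h : w ∈ D.WW univ) (h' : w' ∈ D.WW univ)
    (hs : D.supp w = D.supp w') (hr : D.rc w = D.rc w') : w = w' := by
  apply D.code_inj _ h _ h'
  funext j
  by_cases hj : j ∈ D.supp w
  · unfold rc at hr
    rw [← hs] at hr
    exact List.map_inj_left.1 hr j ((Finset.mem_sort _).2 hj)
  · rw [D.code_eq_empty hj, D.code_eq_empty (by rw [← hs]; exact hj)]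

/-- transport of the support and the reduced code -/
theorem supp_transport {S : Finset (Fin n)} {ψ : Fin n → Fin n} {w w' : ℕ}
    (hψ : StrictMonoOn ψ (S : Set (Fin n))) (hw : w ∈ D.WW S) (hw' : w' ∈ D.WW (S.image ψ))
    (hc : ∀ x ∈ S, D.code w' (ψ x) = D.code w x) :
    D.supp w' = (D.supp w).image ψ ∧ D.rc w' = D.rc w := by
  have h1 : D.supp w' = (D.supp w).image ψ := by
    ext y
    rw [Finset.mem_image]
    constructor
    · intro hy
      obtain ⟨x, hx, rfl⟩ := Finset.mem_image.1 (D.supp_subset hw' hy)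
      refine ⟨x, ?_, rfl⟩
      rw [D.mem_supp] at hy ⊢
      rw [← hc x hx]
      exact hy
    · rintro ⟨x, hx, rfl⟩
      have hxS := D.supp_subset hw hx
      rw [D.mem_supp] at hx ⊢
      rw [hc x hxS]
      exact hx
  refine ⟨h1, ?_⟩
  unfold rc
  have hsub : ((D.supp w : Finset (Fin n)) : Set (Fin n)) ⊆ (S : Set (Fin n)) := by
    exact_mod_cast D.supp_subset hw
  rw [h1, sort_image _ ψ (hψ.mono hsub), List.map_map]
  apply List.map_inj_left.2
  intro x hx
  rw [Finset.mem_sort] at hx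
  exact hc x (D.supp_subset hw hx)

theorem transport1 {M : ℕ} (hM : D.Hom M) {S : Finset (Fin n)} (hS : S.card ≤ M)
    {ψ : Fin n → Fin n} (hψ : StrictMonoOn ψ (S : Set (Fin n))) {w : ℕ} (hw : w ∈ D.WW S) :
    ∃ w' ∈ D.WW (S.image ψ), ∀ x ∈ S, D.code w' (ψ x) = D.code w x := by
  obtain ⟨w', h1, h2, -⟩ := hM S hS ψ hψ (fun _ => w) (fun _ => hw) (by simp [Rel])
  exact ⟨w' 0, h1 0, h2 0⟩

/-- the reduced codes of the elements with at most `h` sources -/
def Red (h : ℕ) : Set (List PT) :=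
  {ρ | ∃ T : Finset (Fin n), T.card ≤ h ∧ ∃ w ∈ D.WW T, D.rc w = ρ}

theorem Red_sub (h : ℕ) : D.Red h ⊆ {l : List PT | l.length ≤ q0} := by
  rintro ρ ⟨T, -, w, hw, rfl⟩
  change (D.rc w).length ≤ q0
  rw [D.length_rc]
  exact D.supp_card w (D.univ_mem hw) _ (fun j hj => D.mem_supp.1 hj)

theorem Red_fin [Finite PT] (h : ℕ) : (D.Red h).Finite := (List.finite_length_le _ q0).subset (D.Red_sub h)

theorem Red_mono {h h' : ℕ} (hh : h ≤ h') : D.Red h ⊆ D.Red h' := by
  rintro ρ ⟨T, hT, w, hw, rfl⟩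
  exact ⟨T, hT.trans hh, w, hw, rfl⟩

/-- the number of reduced codes -/
noncomputable def PP (PT : Type) (q0 : ℕ) : ℕ := {l : List PT | l.length ≤ q0}.ncard

theorem exists_stable [Finite PT] : ∃ i ≤ PP PT q0, D.Red (2 ^ i) = D.Red (2 ^ (i + 1)) := by
  by_contra hcon
  push Not at hcon
  have key : ∀ i, i ≤ PP PT q0 + 1 → i ≤ (D.Red (2 ^ i)).ncard := by
    intro i
    induction i with
    | zero => intro _; exact Nat.zero_le _
    | succ i ih =>
      intro hi
      have h1 := ih (by omega)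
      have h2 : D.Red (2 ^ i) ⊂ D.Red (2 ^ (i + 1)) :=
        lt_of_le_of_ne (D.Red_mono (Nat.pow_le_pow_right (by norm_num) (Nat.le_succ i)))
          (hcon i (by omega))
      have h3 := Set.ncard_lt_ncard h2 (D.Red_fin _)
      omega
  have h1 := key _ le_rfl
  have h2 : (D.Red (2 ^ (PP PT q0 + 1))).ncard ≤ PP PT q0 :=
    Set.ncard_le_ncard (D.Red_sub _) (List.finite_length_le _ q0)
  omega

/-- good supports -/
def Good (g : ℕ) (K : Finset (Fin n)) : Prop :=
  ∀ k ∈ K, (k : ℕ) % g = 0 ∧ g ≤ (k : ℕ) ∧ (k : ℕ) + g ≤ n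

theorem place {M h g : ℕ} (hM : D.Hom M) (hh : h ≤ M) (hg : g = 4 * h + 4) (hn : g ≤ n)
    {T : Finset (Fin n)} (hT : T.card ≤ h) {w : ℕ} (hw : w ∈ D.WW T) {K : Finset (Fin n)}
    (hK : Good g K) (hcard : K.card = (D.supp w).card) {ε : ℕ} (hε : ε ≤ 1) :
    ∃ (T' : Finset (Fin n)) (w' : ℕ), T'.card ≤ h ∧ w' ∈ D.WW T' ∧ D.supp w' = K ∧
      D.rc w' = D.rc w ∧
      ∀ x ∈ T', x ∈ K ∨ ∃ i, 1 ≤ i ∧ i ≤ h ∧ (x : ℕ) % g = 2 * i + ε := by
  obtain ⟨ψ, hψ, hψK, hψx⟩ := placement T (D.supp w) K hT (D.supp_subset hw) hcard hg hK hn ε hε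
  obtain ⟨w', hw', hc⟩ := D.transport1 hM (hT.trans hh) hψ hw
  obtain ⟨h1, h2⟩ := D.supp_transport hψ hw hw' hc
  exact ⟨T.image ψ, w', Finset.card_image_le.trans hT, hw', h1.trans hψK, h2, hψx⟩

theorem small {M h g : ℕ} (hM : D.Hom M) (hh : h ≤ M) (hg : g = 4 * h + 4) (hn : g ≤ n)
    (hst : D.Red h = D.Red (2 * h))
    {T : Finset (Fin n)} (hT : T.card ≤ 2 * h) {w : ℕ} (hw : w ∈ D.WW T)
    (hK : Good g (D.supp w)) {ε : ℕ} (hε : ε ≤ 1) :
    ∃ T' : Finset (Fin n), T'.card ≤ h ∧ w ∈ D.WW T' ∧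
      ∀ x ∈ T', x ∈ D.supp w ∨ ∃ i, 1 ≤ i ∧ i ≤ h ∧ (x : ℕ) % g = 2 * i + ε := by
  have h1 : D.rc w ∈ D.Red h := by
    rw [hst]
    exact ⟨T, hT, w, hw, rfl⟩
  obtain ⟨T1, hT1, w1, hw1, hr1⟩ := h1
  have hc : (D.supp w).card = (D.supp w1).card := by
    rw [← D.length_rc, ← D.length_rc, hr1]
  obtain ⟨T', w', hT', hw', hs', hr', hx⟩ := D.place hM hh hg hn hT1 hw1 hK hc hε
  have h2 : w' = w := D.eq_of_rc (D.univ_mem hw') (D.univ_mem hw) hs' (hr'.trans hr1)
  rw [h2] at hw'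
  exact ⟨T', hT', hw', hx⟩

theorem cover {M : ℕ} (hM : D.Hom M) {S : Finset (Fin n)} (hS : S.card ≤ M) {j : Fin n}
    (hjn : (j : ℕ) + 1 < n) (hj1 : (⟨(j : ℕ) + 1, hjn⟩ : Fin n) ∉ S)
    {a b u u' : ℕ} (ha : a ∈ D.WW S) (hb : b ∈ D.WW S) (hu : u ∈ D.WW S) (hu' : u' ∈ D.WW S)
    (hr : D.Rel a b u u') (hja : j ∈ D.supp a) (hjb : j ∉ D.supp b) :
    j ∈ D.supp u ∨ j ∈ D.supp u' := by
  by_contra hcon
  push Not at hcon
  obtain ⟨hju, hju'⟩ := hcon
  set j1 : Fin n := ⟨(j : ℕ) + 1, hjn⟩ with hj1def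
  have hne : j1 ≠ j := by
    intro h
    have := congrArg Fin.val h
    simp [hj1def] at this
  set ψ : Fin n → Fin n := fun x => if x = j then j1 else x with hψdef
  have hψj : ψ j = j1 := by simp [hψdef]
  have hψx : ∀ x, x ≠ j → ψ x = x := by
    intro x hx
    simp [hψdef, hx]
  have hψ : StrictMonoOn ψ (S : Set (Fin n)) := by
    intro x hx y hy hxy
    have hx' : x ∈ S := by exact_mod_cast hx
    have hy' : y ∈ S := by exact_mod_cast hy
    by_cases hxj : x = j
    · have hyj : y ≠ j := by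
        intro h
        rw [hxj, h] at hxy
        exact lt_irrefl _ hxy
      rw [hxj, hψj, hψx y hyj, Fin.lt_def]
      rw [hxj, Fin.lt_def] at hxy
      have : (y : ℕ) ≠ (j : ℕ) + 1 := by
        intro h
        apply hj1
        have : y = j1 := Fin.ext h
        rw [← this]
        exact hy'
      simp only [hj1def]
      omega
    · rw [hψx x hxj]
      by_cases hyj : y = j
      · rw [hyj, hψj, Fin.lt_def]
        rw [hyj, Fin.lt_def] at hxy
        simp only [hj1def]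
        omega
      · rw [hψx y hyj]
        exact hxy
  have hjnot : j ∉ S.image ψ := by
    intro h
    obtain ⟨x, hx, hxj⟩ := Finset.mem_image.1 h
    by_cases hxj' : x = j
    · rw [hxj', hψj] at hxj
      exact hne hxj
    · rw [hψx x hxj'] at hxj
      exact hxj' hxj
  -- elements without `j` are fixed
  have fix : ∀ z z' : ℕ, z ∈ D.WW S → z' ∈ D.WW (S.image ψ) →
      (∀ x ∈ S, D.code z' (ψ x) = D.code z x) → j ∉ D.supp z → z' = z := by
    intro z z' hz hz' hc hjz
    apply D.code_inj _ (D.univ_mem hz') _ (D.univ_mem hz)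
    funext y
    by_cases hy : y ∈ S.image ψ
    · obtain ⟨x, hx, rfl⟩ := Finset.mem_image.1 hy
      rw [hc x hx]
      by_cases hxj : x = j
      · rw [hxj, hψj, D.code_eq_empty hjz]
        symm
        apply D.code_eq_empty
        intro h
        exact hj1 (D.supp_subset hz h)
      · rw [hψx x hxj]
    · rw [D.code_eq_empty (fun h => hy (D.supp_subset hz' h))]
      symm
      by_cases hyj : y = j
      · rw [hyj]
        exact D.code_eq_empty hjz
      · apply D.code_eq_empty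
        intro h
        apply hy
        rw [Finset.mem_image]
        exact ⟨y, D.supp_subset hz h, hψx y hyj⟩
  obtain ⟨w', hw', hc', hr'⟩ := hM S hS ψ hψ ![a, b, u, u'] (by
    intro i
    fin_cases i
    · exact ha
    · exact hb
    · exact hu
    · exact hu') hr
  have e1 : w' 1 = b := fix b (w' 1) hb (hw' 1) (hc' 1) hjb
  have e2 : w' 2 = u := fix u (w' 2) hu (hw' 2) (hc' 2) hju
  have e3 : w' 3 = u' := fix u' (w' 3) hu' (hw' 3) (hc' 3) hju'
  have e0 : w' 0 = a := by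
    by_contra hne0
    have h1 := D.sep a (D.univ_mem ha) (w' 0) (D.WW_sub _ _ (hw' 0)) hne0
    rw [e1, e2, e3] at hr'
    unfold Rel at hr hr'
    rw [abs_le] at hr hr'
    rcases lt_abs.1 h1 with h2 | h2 <;> omega
  have h5 : D.code a j = default := by
    rw [← e0]
    exact D.code_eq_empty (fun h => hjnot (D.supp_subset (hw' 0) h))
  exact D.mem_supp.1 hja h5

/-- the elements with support exactly `K` -/
def WWh (h : ℕ) (K : Finset (Fin n)) : Set ℕ :=
  {w | D.supp w = K ∧ ∃ T : Finset (Fin n), T.card ≤ h ∧ w ∈ D.WW T}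

theorem closure {M h g s : ℕ} (hM : D.Hom M) (hh : 2 * h ≤ M) (hg : g = 4 * h + 4) (hn : g ≤ n)
    (hst : D.Red h = D.Red (2 * h)) (hs : ∀ ρ ∈ D.Red h, ρ.length ≤ s)
    {K K' : Finset (Fin n)} (hK : Good g K) (hK' : Good g K') (hd : Disjoint K K')
    (hKs : K.card = s) (hKs' : K'.card = s) {w w' u u' : ℕ} (hw : w ∈ D.WWh h K)
    (hw' : w' ∈ D.WWh h K') (hu : u ∈ D.V) (hu' : u' ∈ D.V) (hr : D.Rel w w' u u') :
    (D.supp u).card = s ∧ D.supp u ⊆ K ∪ K' ∧ D.supp u' = (K ∪ K') \ D.supp u ∧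
      u ∈ D.WWh h (D.supp u) ∧ u' ∈ D.WWh h (D.supp u') := by
  obtain ⟨hwK, T0, hT0, hwT0⟩ := hw
  obtain ⟨hwK', T0', hT0', hwT0'⟩ := hw'
  obtain ⟨T, hT, hwT, hTx⟩ := D.small hM (by omega) hg hn hst (by omega : T0.card ≤ 2 * h) hwT0
    (by rw [hwK]; exact hK) (ε := 0) (by omega)
  obtain ⟨T', hT', hwT', hTx'⟩ := D.small hM (by omega) hg hn hst (by omega : T0'.card ≤ 2 * h)
    hwT0' (by rw [hwK']; exact hK') (ε := 1) le_rfl
  rw [hwK] at hTx
  rw [hwK'] at hTx'
  have hdT : Disjoint T T' := by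
    rw [Finset.disjoint_left]
    intro x hx hx'
    rcases hTx x hx with h1 | ⟨i, hi1, hi2, hi3⟩
    · rcases hTx' x hx' with h2 | ⟨i', hi1', hi2', hi3'⟩
      · exact (Finset.disjoint_left.1 hd) h1 h2
      · have := (hK x h1).1
        omega
    · rcases hTx' x hx' with h2 | ⟨i', hi1', hi2', hi3'⟩
      · have := (hK' x h2).1
        omega
      · omega
  have hr2 : |(u : ℤ) + u' - (w + w')| ≤ D.r := by
    unfold Rel at hr
    rw [abs_sub_comm]
    exact hr
  obtain ⟨huT, huT'⟩ := D.closed T T' hdT w hwT w' hwT' u hu u' hu' hr2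
  set S := T ∪ T' with hS
  have hSc : S.card ≤ 2 * h := by
    have := Finset.card_union_le T T'
    rw [← hS] at this
    omega
  have hwS : w ∈ D.WW S := D.WW_mono _ _ Finset.subset_union_left hwT
  have hwS' : w' ∈ D.WW S := D.WW_mono _ _ Finset.subset_union_right hwT'
  have hsu : (D.supp u).card ≤ s := by
    rw [← D.length_rc]
    apply hs
    rw [hst]
    exact ⟨S, hSc, u, huT, rfl⟩
  have hsu' : (D.supp u').card ≤ s := by
    rw [← D.length_rc]
    apply hs
    rw [hst]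
    exact ⟨S, hSc, u', huT', rfl⟩
  -- residues
  have hres : ∀ x ∈ S, (x : ℕ) % g ≠ 1 := by
    intro x hx h1
    rcases Finset.mem_union.1 hx with h2 | h2
    · rcases hTx x h2 with h3 | ⟨i, hi1, hi2, hi3⟩
      · have := (hK x h3).1
        omega
      · omega
    · rcases hTx' x h2 with h3 | ⟨i, hi1, hi2, hi3⟩
      · have := (hK' x h3).1
        omega
      · omega
  have hcov : K ∪ K' ⊆ D.supp u ∪ D.supp u' := by
    intro j hj
    rw [Finset.mem_union] at hj ⊢
    have hgood : (j : ℕ) % g = 0 ∧ g ≤ (j : ℕ) ∧ (j : ℕ) + g ≤ n := by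
      rcases hj with h1 | h1
      · exact hK j h1
      · exact hK' j h1
    have hjn : (j : ℕ) + 1 < n := by omega
    have hj1 : (⟨(j : ℕ) + 1, hjn⟩ : Fin n) ∉ S := by
      intro h1
      apply hres _ h1
      change ((j : ℕ) + 1) % g = 1
      rw [Nat.add_mod, hgood.1, Nat.zero_add, Nat.mod_mod, Nat.mod_eq_of_lt (by omega)]
    rcases hj with h1 | h1
    · have hjw : j ∈ D.supp w := by rw [hwK]; exact h1
      have hjw' : j ∉ D.supp w' := by
        rw [hwK']
        exact (Finset.disjoint_left.1 hd) h1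
      exact D.cover hM (hSc.trans hh) hjn hj1 hwS hwS' huT huT' hr hjw hjw'
    · have hjw : j ∈ D.supp w' := by rw [hwK']; exact h1
      have hjw' : j ∉ D.supp w := by
        rw [hwK]
        exact (Finset.disjoint_right.1 hd) h1
      have hr3 : D.Rel w' w u u' := by
        unfold Rel at hr ⊢
        rw [add_comm (w' : ℤ) w]
        exact hr
      exact D.cover hM (hSc.trans hh) hjn hj1 hwS' hwS huT huT' hr3
        hjw hjw'
  have hcK : (K ∪ K').card = 2 * s := by
    rw [Finset.card_union_of_disjoint hd]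
    omega
  have hcu := Finset.card_union_add_card_inter (D.supp u) (D.supp u')
  have hcle := Finset.card_le_card hcov
  have heq : K ∪ K' = D.supp u ∪ D.supp u' := by
    apply Finset.eq_of_subset_of_card_le hcov
    omega
  have hinter : (D.supp u ∩ D.supp u').card = 0 := by omega
  have hdis : Disjoint (D.supp u) (D.supp u') := by
    rw [Finset.disjoint_iff_inter_eq_empty]
    exact Finset.card_eq_zero.1 hinter
  have hus : (D.supp u).card = s := by omega
  have hsub : D.supp u ⊆ K ∪ K' := by rw [heq]; exact Finset.subset_union_left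
  have hsub' : D.supp u' ⊆ K ∪ K' := by rw [heq]; exact Finset.subset_union_right
  have hgood : ∀ J : Finset (Fin n), J ⊆ K ∪ K' → Good g J := by
    intro J hJ k hk
    rcases Finset.mem_union.1 (hJ hk) with h1 | h1
    · exact hK k h1
    · exact hK' k h1
  refine ⟨hus, hsub, ?_, ?_, ?_⟩
  · rw [heq, Finset.union_sdiff_left]
    exact (Finset.sdiff_eq_self_of_disjoint hdis.symm).symm
  · obtain ⟨T1, hT1, huT1, -⟩ := D.small hM (by omega) hg hn hst hSc huT (hgood _ hsub) (ε := 0)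
      (by omega)
    exact ⟨rfl, T1, hT1, huT1⟩
  · obtain ⟨T1, hT1, huT1, -⟩ := D.small hM (by omega) hg hn hst hSc huT' (hgood _ hsub') (ε := 0)
      (by omega)
    exact ⟨rfl, T1, hT1, huT1⟩

/-- the top element with support `K` -/
noncomputable def top (h : ℕ) (K : Finset (Fin n)) : ℕ := sSup (D.WWh h K)

theorem WWh_bdd (h : ℕ) (K : Finset (Fin n)) : BddAbove (D.WWh h K) := by
  refine ⟨D.V.sup id, ?_⟩
  rintro w ⟨-, T, -, hw⟩
  exact Finset.le_sup (f := id) (D.WW_sub _ _ hw)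

theorem top_mem {h : ℕ} {K : Finset (Fin n)} (hne : (D.WWh h K).Nonempty) :
    D.top h K ∈ D.WWh h K := Nat.sSup_mem hne (D.WWh_bdd h K)

theorem le_top {h : ℕ} {K : Finset (Fin n)} {w : ℕ} (hw : w ∈ D.WWh h K) : w ≤ D.top h K :=
  le_csSup (D.WWh_bdd h K) hw

theorem WWh_univ {h : ℕ} {K : Finset (Fin n)} {w : ℕ} (hw : w ∈ D.WWh h K) : w ∈ D.WW univ := by
  obtain ⟨-, T, -, hw⟩ := hw
  exact D.univ_mem hw

theorem final {M h g s : ℕ} (hM : D.Hom M) (hh : 2 * h ≤ M) (hg : g = 4 * h + 4)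
    (hn : g ≤ n) (hst : D.Red h = D.Red (2 * h)) (hs : ∀ ρ ∈ D.Red h, ρ.length ≤ s)
    (hs' : ∃ ρ ∈ D.Red h, ρ.length = s)
    (hK : ∀ k : ℕ, 1 ≤ k → k ≤ (2 * s).choose s → (k : KK) ≠ 0) (hs1 : 1 ≤ s)
    {W : Finset (Fin n)} (hW : Good g W) (hWs : W.card = 2 * s) {c : KK}
    (hc : ∀ K ⊆ W, K.card = s → D.F (D.top h K) = c) : False := by
  classical
  have hgood : ∀ J : Finset (Fin n), J ⊆ W → Good g J := fun J hJ k hk => hW k (hJ hk)
  have hne : ∀ K ⊆ W, K.card = s → (D.WWh h K).Nonempty := by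
    intro K hK hKs
    obtain ⟨ρ, ⟨T, hT, w, hw, rfl⟩, hρ⟩ := hs'
    obtain ⟨T', w', hT', hw', hs1, -, -⟩ := D.place hM (by omega) hg hn hT hw (hgood K hK)
      (by rw [hKs, ← D.length_rc, hρ]) (ε := 0) (by omega)
    exact ⟨w', hs1, T', hT', hw'⟩
  have hsd : ∀ K ⊆ W, K.card = s → (W \ K).card = s := by
    intro K hK hKs
    rw [Finset.card_sdiff_of_subset hK]
    omega
  obtain ⟨J0, hJ0, hmax⟩ := Finset.exists_max_image (W.powersetCard s)
    (fun J => D.top h J + D.top h (W \ J))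
    (Finset.powersetCard_nonempty.2 (by omega))
  rw [Finset.mem_powersetCard] at hJ0
  obtain ⟨hJ0W, hJ0s⟩ := hJ0
  have hJ1W : W \ J0 ⊆ W := Finset.sdiff_subset
  have hJ1s := hsd J0 hJ0W hJ0s
  set w := D.top h J0 with hwdef
  set w' := D.top h (W \ J0) with hwdef'
  have hw : w ∈ D.WWh h J0 := D.top_mem (hne J0 hJ0W hJ0s)
  have hw' : w' ∈ D.WWh h (W \ J0) := D.top_mem (hne _ hJ1W hJ1s)
  have hww : w ≠ w' := by
    intro h
    have h1 : J0 = W \ J0 := by
      rw [← hw.1, h]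
      conv_lhs => rw [hw'.1]
      rw [← h, hw.1]
    have h2 : Disjoint J0 J0 := by
      conv_rhs => rw [h1]
      exact Finset.disjoint_sdiff
    rw [disjoint_self] at h2
    rw [h2] at hJ0s
    simp at hJ0s
    omega
  obtain ⟨α, β, hα1, hα2, hβ1, hβ2, hsum⟩ :=
    D.arith w (D.WWh_univ hw) w' (D.WWh_univ hw') hww
  set P := (D.V ×ˢ D.V).filter (fun x => α ≤ (x.1 : ℤ) + x.2 ∧ (x.1 : ℤ) + x.2 ≤ β) with hP
  have hunion : J0 ∪ (W \ J0) = W := Finset.union_sdiff_of_subset hJ0W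
  -- the pairs in the window
  have hpair : ∀ x ∈ P, D.supp x.1 ∈ W.powersetCard s ∧ x.1 = D.top h (D.supp x.1) ∧
      x.2 = D.top h (W \ D.supp x.1) := by
    rintro ⟨u, u'⟩ hx
    rw [hP, Finset.mem_filter, Finset.mem_product] at hx
    obtain ⟨⟨hu, hu'⟩, h1, h2⟩ := hx
    simp only at hu hu' h1 h2 ⊢
    have hr : D.Rel w w' u u' := by
      unfold Rel
      rw [abs_le]
      constructor <;> omega
    obtain ⟨c1, c2, c3, c4, c5⟩ := D.closure hM hh hg hn hst hs (hgood J0 hJ0W)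
      (hgood _ hJ1W) Finset.disjoint_sdiff hJ0s hJ1s hw hw' hu hu' hr
    rw [hunion] at c2 c3
    rw [c3] at c5
    have hle := D.le_top c4
    have hle' := D.le_top c5
    have hm := hmax (D.supp u) (Finset.mem_powersetCard.2 ⟨c2, c1⟩)
    have e1 : u = D.top h (D.supp u) := by
      by_contra hne1
      have h3 := D.sep _ (D.WWh_univ (D.top_mem (hne _ c2 c1))) u hu hne1
      rcases lt_abs.1 h3 with h4 | h4 <;> omega
    have e2 : u' = D.top h (W \ D.supp u) := by
      by_contra hne1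
      have h3 := D.sep _ (D.WWh_univ (D.top_mem (hne _ (Finset.sdiff_subset) (hsd _ c2 c1)))) u' hu'
        hne1
      rcases lt_abs.1 h3 with h4 | h4 <;> omega
    exact ⟨Finset.mem_powersetCard.2 ⟨c2, c1⟩, e1, e2⟩
  have hval : ∀ x ∈ P, D.F x.1 * D.F x.2 = c * c := by
    intro x hx
    obtain ⟨h1, h2, h3⟩ := hpair x hx
    rw [Finset.mem_powersetCard] at h1
    rw [h3, hc _ Finset.sdiff_subset (hsd _ h1.1 h1.2)]
    rw [h2, hc _ h1.1 h1.2]
  rw [Finset.sum_congr rfl hval, Finset.sum_const, nsmul_eq_mul] at hsum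
  have hwV : w ∈ D.V := D.WW_sub _ _ (D.WWh_univ hw)
  have hwV' : w' ∈ D.V := D.WW_sub _ _ (D.WWh_univ hw')
  have hc0 : c ≠ 0 := by
    rw [← hc J0 hJ0W hJ0s]
    exact D.F_ne _ hwV
  have hP0 : ((P.card : ℕ) : KK) = 0 := by
    rcases mul_eq_zero.1 hsum with h1 | h1
    · exact h1
    · exact absurd (mul_self_eq_zero.1 h1) hc0
  have hPpos : 0 < P.card := by
    apply Finset.card_pos.2
    refine ⟨(w, w'), ?_⟩
    rw [hP, Finset.mem_filter, Finset.mem_product]
    exact ⟨⟨hwV, hwV'⟩, hα2, hβ1⟩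
  have hPle : P.card ≤ (2 * s).choose s := by
    rw [← hWs, ← Finset.card_powersetCard]
    apply Finset.card_le_card_of_injOn (fun x => D.supp x.1)
    · intro x hx
      exact (hpair x hx).1
    · intro x hx y hy hxy
      obtain ⟨-, h2, h3⟩ := hpair x hx
      obtain ⟨-, h2', h3'⟩ := hpair y hy
      simp only at hxy
      apply Prod.ext
      · rw [h2, h2', hxy]
      · rw [h3, h3', hxy]
  exact hK _ hPpos hPle hP0

end EndData

/-- the endgame: for suitable `m` there are no data with `m` sources -/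
theorem endgame (KK PT : Type) [Field KK] [Finite KK] [Inhabited PT] [DecidableEq PT] [Finite PT]
    (q0 : ℕ) (hK : ∀ n : ℕ, 1 ≤ n → n ≤ (2 * q0).choose q0 → (n : KK) ≠ 0) :
    ∃ m : ℕ, ∀ m', m ≤ m' → ∀ _ : EndData KK PT m' q0, False := by
  classical
  -- the second Ramsey number
  choose t2 ht2 using fun s : ℕ => ramsey_r KK s (2 * s)
  set L := (Finset.range (q0 + 1)).sup t2 with hL
  set hm := 2 ^ EndData.PP PT q0 with hhm
  set n := (4 * hm + 4) * (L + 1) with hn
  obtain ⟨m, hm'⟩ := exists_hom KK PT q0 (2 * hm) n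
  refine ⟨m, ?_⟩
  intro m' hmm D0
  obtain ⟨D, hD⟩ := hm' m' hmm D0
  obtain ⟨i, hi, hst⟩ := D.exists_stable
  set h := 2 ^ i with hh
  have hhle : h ≤ hm := Nat.pow_le_pow_right (by norm_num) hi
  have hh1 : 1 ≤ h := Nat.one_le_two_pow
  rw [pow_succ, mul_comm (2 ^ i) 2, ← hh] at hst
  set g := 4 * h + 4 with hg
  have hgle : g ≤ 4 * hm + 4 := by omega
  have hgn : g * (L + 1) ≤ n := Nat.mul_le_mul_right _ hgle
  have hgn' : g ≤ n := le_trans (Nat.le_mul_of_pos_right g (Nat.succ_pos L)) hgn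
  have hnpos : 0 < n := by omega
  -- the maximal length
  have hnonempty : (D.Red h).Nonempty := by
    exact ⟨_, {⟨0, hnpos⟩}, by rw [Finset.card_singleton]; exact hh1, _, D.src ⟨0, hnpos⟩, rfl⟩
  obtain ⟨ρ, hρ, hρmax⟩ := Set.exists_max_image (D.Red h) List.length (D.Red_fin h) hnonempty
  set s := ρ.length with hs
  have hsq : s ≤ q0 := D.Red_sub h hρ
  have hbins : (2 * s).choose s ≤ (2 * q0).choose q0 := by
    calc (2 * s).choose s ≤ (2 * q0).choose s := Nat.choose_le_choose s (by omega)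
      _ ≤ (2 * q0).choose q0 := Nat.choose_le_centralBinom s q0
  have hs1 : 1 ≤ s := by
    by_contra hs0
    have hn1 : 1 < n := by omega
    have hempty : ∀ j : Fin n, D.supp (D.vs j) = ∅ := by
      intro j
      have h1 := hρmax (D.rc (D.vs j)) ⟨{j}, by rw [Finset.card_singleton]; exact hh1, _, D.src j, rfl⟩
      rw [D.length_rc] at h1
      apply Finset.card_eq_zero.1
      omega
    have h2 : D.vs ⟨0, hnpos⟩ = D.vs ⟨1, hn1⟩ := by
      apply D.eq_of_rc (D.univ_mem (D.src _)) (D.univ_mem (D.src _))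
      · rw [hempty, hempty]
      · simp [EndData.rc, hempty]
    have h3 := D.src_inj h2
    simp at h3
  -- the multiples of `g`
  set H : Finset (Fin n) := univ.filter
    (fun x => (x : ℕ) % g = 0 ∧ g ≤ (x : ℕ) ∧ (x : ℕ) + g ≤ n) with hH
  have hHcard : L ≤ H.card := by
    have hlt : ∀ j : Fin L, g * ((j : ℕ) + 1) < n := by
      intro j
      have h1 : (j : ℕ) + 1 < L + 1 := by omega
      have h2 : g * ((j : ℕ) + 1) < g * (L + 1) := Nat.mul_lt_mul_of_pos_left h1 (by omega)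
      omega
    have h1 : (Finset.univ : Finset (Fin L)).card ≤ H.card := by
      apply Finset.card_le_card_of_injOn (fun j : Fin L => (⟨g * ((j : ℕ) + 1), hlt j⟩ : Fin n))
      · intro j _
        simp only [hH, Finset.coe_filter, Finset.mem_univ, true_and, Set.mem_ofPred_eq]
        refine ⟨Nat.mul_mod_right _ _, Nat.le_mul_of_pos_right g (Nat.succ_pos _), ?_⟩
        have h2 : (j : ℕ) + 1 + 1 ≤ L + 1 := by omega
        have h3 : g * ((j : ℕ) + 1 + 1) ≤ g * (L + 1) := Nat.mul_le_mul_left g h2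
        have h4 : g * ((j : ℕ) + 1 + 1) = g * ((j : ℕ) + 1) + g := by ring
        omega
      · intro a _ b _ hab
        simp only [Fin.mk.injEq] at hab
        have := Nat.eq_of_mul_eq_mul_left (by omega : 0 < g) hab
        exact Fin.ext (by omega)
    rw [Finset.card_univ, Fintype.card_fin] at h1
    exact h1
  have ht : t2 s ≤ H.card :=
    le_trans (Finset.le_sup (f := t2) (Finset.mem_range.2 (by omega))) hHcard
  obtain ⟨W, hWH, hWs, c, hc⟩ := ht2 s H (fun K => D.F (D.top h K)) ht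
  have hWgood : EndData.Good g W := by
    intro k hk
    have := hWH hk
    rw [hH, Finset.mem_filter] at this
    exact this.2
  exact D.final hD (by omega) hg hgn' hst (fun ρ' h' => hρmax ρ' h') ⟨ρ, hρ, rfl⟩
    (fun k hk1 hk2 => hK k hk1 (hk2.trans hbins)) hs1 hWgood hWs hc

end Pool.Agent.H55.Gen
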