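import Pool.Agent.H55.GenHom

/-! Placement of a set of sources around a prescribed support. -/

set_option autoImplicit false

namespace Pool.Agent.H55.Gen

open Finset

theorem placement {n g h : ℕ} (T K0 K : Finset (Fin n)) (hT : T.card ≤ h) (hK0 : K0 ⊆ T)
    (hcard : K.card = K0.card) (hg : g = 4 * h + 4)
    (hK : ∀ k ∈ K, (k : ℕ) % g = 0 ∧ g ≤ (k : ℕ) ∧ (k : ℕ) + g ≤ n) (hn : g ≤ n)
    (ε : ℕ) (hε : ε ≤ 1) :
    ∃ ψ : Fin n → Fin n, StrictMonoOn ψ (T : Set (Fin n)) ∧ K0.image ψ = K ∧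
      ∀ x ∈ T.image ψ, x ∈ K ∨ ∃ i, 1 ≤ i ∧ i ≤ h ∧ (x : ℕ) % g = 2 * i + ε := by
  classical
  have hg0 : 0 < g := by omega
  set B : ℕ → ℕ := fun i => if h : i - 1 < K.card ∧ 0 < i then
    ((K.orderEmbOfFin rfl ⟨i - 1, h.1⟩ : Fin n) : ℕ) else 0 with hB
  have hB0 : B 0 = 0 := by simp [hB]
  have hBval : ∀ i (h1 : 0 < i) (h2 : i - 1 < K.card),
      B i = ((K.orderEmbOfFin rfl ⟨i - 1, h2⟩ : Fin n) : ℕ) := by
    intro i h1 h2
    simp only [hB]
    rw [dif_pos ⟨h2, h1⟩]
  have hBmem : ∀ i, 0 < i → i ≤ K.card → ∃ k ∈ K, (k : ℕ) = B i := by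
    intro i h1 h2
    have h3 : i - 1 < K.card := by omega
    exact ⟨K.orderEmbOfFin rfl ⟨i - 1, h3⟩, Finset.orderEmbOfFin_mem K rfl _, (hBval i h1 h3).symm⟩
  have hBg : ∀ i, i ≤ K.card → B i % g = 0 ∧ B i + g ≤ n := by
    intro i hi
    rcases Nat.eq_zero_or_pos i with h0 | h0
    · rw [h0, hB0]
      exact ⟨Nat.zero_mod _, by omega⟩
    · obtain ⟨k, hk, hkB⟩ := hBmem i h0 hi
      rw [← hkB]
      exact ⟨(hK k hk).1, (hK k hk).2.2⟩
  have hBmono : ∀ i j, i < j → j ≤ K.card → B i + g ≤ B j := by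
    intro i j hij hj
    rcases Nat.eq_zero_or_pos i with h0 | h0
    · rw [h0, hB0]
      obtain ⟨k, hk, hkB⟩ := hBmem j (by omega) hj
      rw [← hkB]
      have := (hK k hk).2.1
      omega
    · have h1 : B i < B j := by
        rw [hBval i h0 (by omega), hBval j (by omega) (by omega)]
        apply (K.orderEmbOfFin rfl).strictMono
        rw [Fin.mk_lt_mk]
        omega
      have h2 := (hBg i (by omega)).1
      have h3 := (hBg j hj).1
      obtain ⟨a, ha⟩ := Nat.dvd_of_mod_eq_zero h2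
      obtain ⟨b, hb⟩ := Nat.dvd_of_mod_eq_zero h3
      rw [ha, hb] at h1 ⊢
      have h4 : a < b := lt_of_mul_lt_mul_left h1 (Nat.zero_le g)
      calc g * a + g = g * (a + 1) := by ring
        _ ≤ g * b := Nat.mul_le_mul_left g h4
  set κ : Fin n → ℕ := fun x => (K0.filter (fun y => y ≤ x)).card with hκ
  set rk : Fin n → ℕ := fun x => (T.filter (fun y => y < x)).card with hrk
  have hκle : ∀ x, κ x ≤ K.card := by
    intro x
    rw [hcard]
    exact Finset.card_le_card (Finset.filter_subset _ _)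
  have hκmono : ∀ x y, x ≤ y → κ x ≤ κ y := by
    intro x y hxy
    apply Finset.card_le_card
    intro z hz
    rw [Finset.mem_filter] at hz ⊢
    exact ⟨hz.1, hz.2.trans hxy⟩
  have hκlt : ∀ x y, x < y → y ∈ K0 → κ x < κ y := by
    intro x y hxy hy
    apply Finset.card_lt_card
    refine ⟨?_, ?_⟩
    · intro z hz
      rw [Finset.mem_filter] at hz ⊢
      exact ⟨hz.1, hz.2.trans hxy.le⟩
    · intro hcon
      have := hcon (Finset.mem_filter.2 ⟨hy, le_rfl⟩)
      rw [Finset.mem_filter] at this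
      exact absurd this.2 (not_le.2 hxy)
  have hκpos : ∀ x ∈ K0, 0 < κ x := by
    intro x hx
    exact Finset.card_pos.2 ⟨x, Finset.mem_filter.2 ⟨hx, le_rfl⟩⟩
  have hrklt : ∀ x ∈ T, rk x < h := by
    intro x hx
    refine lt_of_lt_of_le ?_ hT
    apply Finset.card_lt_card
    refine ⟨Finset.filter_subset _ _, ?_⟩
    intro hcon
    have := hcon hx
    rw [Finset.mem_filter] at this
    exact absurd this.2 (lt_irrefl _)
  have hrkmono : ∀ x ∈ T, ∀ y, x < y → rk x < rk y := by
    intro x hx y hxy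
    apply Finset.card_lt_card
    refine ⟨?_, ?_⟩
    · intro z hz
      rw [Finset.mem_filter] at hz ⊢
      exact ⟨hz.1, hz.2.trans hxy⟩
    · intro hcon
      have := hcon (Finset.mem_filter.2 ⟨hx, hxy⟩)
      rw [Finset.mem_filter] at this
      exact absurd this.2 (lt_irrefl _)
  set off : Fin n → ℕ := fun x => if x ∈ K0 then 0 else 2 * (rk x + 1) + ε with hoff
  have hofflt : ∀ x ∈ T, off x < g := by
    intro x hx
    simp only [hoff]
    have := hrklt x hx
    split_ifs <;> omega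
  have hval : ∀ x ∈ T, B (κ x) + off x < n := by
    intro x hx
    have h1 := (hBg (κ x) (hκle x)).2
    have h2 := hofflt x hx
    omega
  refine ⟨fun x => if h : B (κ x) + off x < n then ⟨B (κ x) + off x, h⟩ else x, ?_⟩
  set ψ : Fin n → Fin n := fun x => if h : B (κ x) + off x < n then ⟨B (κ x) + off x, h⟩ else x
    with hψ
  have hψval : ∀ x ∈ T, ((ψ x : Fin n) : ℕ) = B (κ x) + off x := by
    intro x hx
    simp only [hψ]
    rw [dif_pos (hval x hx)]
  have hmono : StrictMonoOn ψ (T : Set (Fin n)) := by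
    intro x hx y hy hxy
    rw [Fin.lt_def, hψval x hx, hψval y hy]
    rcases lt_or_eq_of_le (hκmono x y hxy.le) with h1 | h1
    · have h2 := hBmono _ _ h1 (hκle y)
      have h3 := hofflt x hx
      omega
    · have hy0 : y ∉ K0 := by
        intro hy0
        have := hκlt x y hxy hy0
        omega
      rw [h1]
      have h4 := hrkmono x hx y hxy
      simp only [hoff]
      rw [if_neg hy0]
      split_ifs <;> omega
  have hsubK : ∀ x ∈ K0, ψ x ∈ K := by
    intro x hx
    obtain ⟨k, hk, hkB⟩ := hBmem (κ x) (hκpos x hx) (hκle x)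
    have : ψ x = k := by
      apply Fin.ext
      rw [hψval x (hK0 hx), hkB]
      simp only [hoff]
      rw [if_pos hx, Nat.add_zero]
    rw [this]
    exact hk
  refine ⟨hmono, ?_, ?_⟩
  · apply Finset.eq_of_subset_of_card_le
    · intro z hz
      obtain ⟨x, hx, rfl⟩ := Finset.mem_image.1 hz
      exact hsubK x hx
    · rw [Finset.card_image_of_injOn (hmono.injOn.mono (by exact_mod_cast hK0)), hcard]
  · intro z hz
    obtain ⟨x, hx, rfl⟩ := Finset.mem_image.1 hz
    by_cases hx0 : x ∈ K0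
    · exact Or.inl (hsubK x hx0)
    · right
      refine ⟨rk x + 1, by omega, hrklt x hx, ?_⟩
      rw [hψval x hx]
      have h1 := (hBg (κ x) (hκle x)).1
      have h2 : off x = 2 * (rk x + 1) + ε := by
        simp only [hoff]
        rw [if_neg hx0]
      rw [Nat.add_mod, h1, Nat.zero_add, Nat.mod_mod, Nat.mod_eq_of_lt (hofflt x hx), h2]

end Pool.Agent.H55.Gen
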