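import Mathlib

set_option autoImplicit false

/-!
# Models of ZF; Polish spaces, Polish group actions and strong Choquet topologies inside a model
-/

namespace Pool.Agent.H55.SC

open FirstOrder

universe u

/-- The relation symbols of the language of set theory: one binary symbol. -/
inductive Sym : ℕ → Type
  | mem : Sym 2

/-- The first-order language of set theory. -/
def Lang : Language := ⟨fun _ => Empty, Sym⟩

/-- `M` with the binary relation `E` as a structure for the language of set theory. -/
@[reducible] def str {M : Type u} (E : M → M → Prop) : Lang.Structure M where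
  funMap := fun f => f.elim
  RelMap := fun R v => match R with
    | .mem => E (v 0) (v 1)

variable {M : Type u} (E : M → M → Prop)

/-- `(M, E)` is a model of `ZF`. Separation and Replacement are required for all subsets and relations which are
first-order definable with parameters. -/
structure ZF : Prop where
  extensionality : ∀ a b, (∀ x, E x a ↔ E x b) → a = b
  foundation : ∀ a, (∃ x, E x a) → ∃ x, E x a ∧ ∀ y, E y x → ¬ E y a
  pairing : ∀ a b, ∃ c, ∀ x, E x c ↔ x = a ∨ x = b
  union : ∀ a, ∃ c, ∀ x, E x c ↔ ∃ y, E y a ∧ E x y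
  power : ∀ a, ∃ c, ∀ x, E x c ↔ ∀ y, E y x → E y a
  infinity : ∃ w, (∃ e, E e w ∧ ∀ x, ¬ E x e) ∧ ∀ x, E x w → ∃ y, E y w ∧ ∀ z, E z y ↔ E z x ∨ z = x
  separation : ∀ S : Set M, (letI := str E; Set.univ.Definable₁ Lang S) → ∀ a, ∃ c, ∀ x, E x c ↔ E x a ∧ x ∈ S
  replacement : ∀ R : Set (M × M), (letI := str E; Set.univ.Definable₂ Lang R) →
    ∀ a, (∀ x, E x a → ∃! y, (x, y) ∈ R) → ∃ c, ∀ y, E y c ↔ ∃ x, E x a ∧ (x, y) ∈ R

/-- In the model, `p` is the Kuratowski pair `{{x}, {x, y}}`. -/
def IsPair (p x y : M) : Prop :=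
  ∀ z, E z p ↔ (∀ w, E w z ↔ w = x) ∨ (∀ w, E w z ↔ w = x ∨ w = y)

/-- In the model, the pair of `x` and `y` belongs to `r`. -/
def Rel (r x y : M) : Prop := ∃ p, E p r ∧ IsPair E p x y

/-- In the model, `l` is the successor `k ∪ {k}`. -/
def IsSucc (l k : M) : Prop := ∀ z, E z l ↔ E z k ∨ z = k

/-- In the model, `v` contains the empty set and is closed under successors. -/
def Ind (v : M) : Prop := (∃ e, E e v ∧ ∀ x, ¬ E x e) ∧ ∀ x, E x v → ∃ y, E y v ∧ IsSucc E y x

/-- `w` is the set of natural numbers of the model. For natural numbers of the model, `E` is the order. -/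
def IsOmega (w : M) : Prop := Ind E w ∧ ∀ v, Ind E v → ∀ x, E x w → E x v

/-- The type of the elements of the set `a` of the model. -/
abbrev El (a : M) : Type u := {x : M // E x a}

/-- The subset `S` of the set `a` of the model is a set of the model. -/
def IntSet {a : M} (S : Set (El E a)) : Prop := ∃ s, ∀ x : El E a, x ∈ S ↔ E x.1 s

/-- The relation `R` between elements of `a` and elements of `b` belongs to the model (as a set of pairs). -/
def IntRel {a b : M} (R : El E a → El E b → Prop) : Prop :=
  ∃ r, ∀ (x : El E a) (y : El E b), R x y ↔ Rel E r x.1 y.1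

/-- The function `f` from `a` to `b` belongs to the model. -/
def IntFun {a b : M} (f : El E a → El E b) : Prop := IntRel E (fun x y => f x = y)

/-- The function `f` from `a × b` to `c` belongs to the model. -/
def IntFun₂ {a b c : M} (f : El E a → El E b → El E c) : Prop :=
  ∃ r, ∀ (x : El E a) (y : El E b) (z : El E c), f x y = z ↔ ∃ q, IsPair E q x.1 y.1 ∧ Rel E r q z.1

/-- `R` is the field of real numbers of the model: a complete ordered field in the model. -/
structure IsReals (R : M) [Field (El E R)] [LinearOrder (El E R)] : Prop where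
  ordered : IsStrictOrderedRing (El E R)
  add : IntFun₂ E (fun x y : El E R => x + y)
  mul : IntFun₂ E (fun x y : El E R => x * y)
  lt : IntRel E (fun x y : El E R => x < y)
  complete : ∀ S : Set (El E R), IntSet E S → S.Nonempty → BddAbove S → ∃ x, IsLUB S x

/-- In the model, `t` is a topology on `P`. -/
structure IsTopology (P t : M) : Prop where
  sub : ∀ U, E U t → ∀ x, E x U → E x P
  whole : E P t
  inter : ∀ U V W, E U t → E V t → (∀ x, E x W ↔ E x U ∧ E x V) → E W t
  union : ∀ s W, (∀ U, E U s → E U t) → (∀ x, E x W ↔ ∃ U, E U s ∧ E x U) → E W t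

/-- In the model, `d` is a complete separable metric on `X` which induces the topology `τ`; here `w` is the set of
natural numbers and `R` the set of real numbers of the model. -/
structure IsPolishMetric (w X τ R : M) [Field (El E R)] [LinearOrder (El E R)]
    (d : El E X → El E X → El E R) : Prop where
  reals : IsReals E R
  internal : IntFun₂ E d
  eq_zero : ∀ x y, d x y = 0 ↔ x = y
  symm : ∀ x y, d x y = d y x
  triangle : ∀ x y z, d x z ≤ d x y + d y z
  topology : ∀ U, E U τ ↔ (∀ x, E x U → E x X) ∧
    ∀ x : El E X, E x.1 U → ∃ ε, 0 < ε ∧ ∀ y : El E X, d x y < ε → E y.1 U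
  separable : (∀ x, ¬ E x X) ∨ ∃ u : El E w → El E X, IntFun E u ∧ ∀ x ε, 0 < ε → ∃ n, d x (u n) < ε
  complete : ∀ u : El E w → El E X, IntFun E u →
    (∀ ε, 0 < ε → ∃ k : El E w, ∀ m n : El E w, E k.1 m.1 → E k.1 n.1 → d (u m) (u n) < ε) →
    ∃ x, ∀ ε, 0 < ε → ∃ k : El E w, ∀ m : El E w, E k.1 m.1 → d (u m) x < ε

/-- In the model, `(X, τ)` is a Polish space. -/
def IsPolish (w X τ : M) : Prop :=
  ∃ (R : M) (_ : Field (El E R)) (_ : LinearOrder (El E R)) (d : El E X → El E X → El E R),
    IsPolishMetric E w X τ R d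

/-- `f` is continuous from `(a, σ)` to `(b, τ)`. -/
def Cont {a b : M} (σ τ : M) (f : El E a → El E b) : Prop :=
  ∀ x V, E V τ → E (f x).1 V → ∃ U, E U σ ∧ E x.1 U ∧ ∀ x' : El E a, E x'.1 U → E (f x').1 V

/-- `f` is continuous from the product of `(a, σ)` and `(b, τ)` to a space with the topology `ρ`. -/
def Cont₂ {a b : M} (σ τ ρ : M) (f : El E a → El E b → M) : Prop :=
  ∀ x y V, E V ρ → E (f x y) V → ∃ U W, E U σ ∧ E W τ ∧ E x.1 U ∧ E y.1 W ∧
    ∀ (x' : El E a) (y' : El E b), E x'.1 U → E y'.1 W → E (f x' y') V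

/-- In the model, `A` is an analytic subset of the Polish space `(X, τ)`: the image of a Polish space under a
continuous function. -/
def IsAnalytic (w X τ : M) (A : Set (El E X)) : Prop :=
  ∃ (Y υ : M) (f : El E Y → El E X), IsPolish E w Y υ ∧ IntFun E f ∧ Cont E υ τ f ∧ Set.range f = A

/-- In the model, `(G, σ)` is a Polish group and `(X, τ)` is a Polish `G`-space. -/
structure IsPolishGSpace (w G σ X τ : M) [Group (El E G)] [MulAction (El E G) (El E X)] : Prop where
  group_polish : IsPolish E w G σ
  mul_internal : IntFun₂ E (fun g h : El E G => g * h)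
  mul_cont : Cont₂ E σ σ σ (fun g h : El E G => (g * h).1)
  inv_cont : Cont E σ σ (fun g : El E G => g⁻¹)
  space_polish : IsPolish E w X τ
  act_internal : IntFun₂ E (fun (g : El E G) (x : El E X) => g • x)
  act_cont : Cont₂ E σ τ τ (fun (g : El E G) (x : El E X) => (g • x).1)

/-- `t` is finer than the subspace topology on `P` given by `τ`. -/
def Finer (τ P t : M) : Prop := ∀ U c, E U τ → (∀ x, E x c ↔ E x U ∧ E x P) → E c t

/-- In the model, the topology `t` has a basis `B` and `B` has a wellordering `r`. -/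
def HasWellorderedBasis (t : M) : Prop :=
  ∃ B r, (∀ b, E b B → E b t) ∧ (∀ O x, E O t → E x O → ∃ b, E b B ∧ E x b ∧ ∀ y, E y b → E y O) ∧
    (∀ b, E b B → ¬ Rel E r b b) ∧
    (∀ b c d, E b B → E c B → E d B → Rel E r b c → Rel E r c d → Rel E r b d) ∧
    ∀ s, (∀ b, E b s → E b B) → (∃ b, E b s) → ∃ b, E b s ∧ ∀ c, E c s → b = c ∨ Rel E r b c

/-- In the model, `s` is the restriction of the sequence `u` to the set of natural numbers `≤ n`. -/
def IsInit (s u n : M) : Prop := ∀ p, E p s ↔ E p u ∧ ∃ k y, (E k n ∨ k = n) ∧ IsPair E p k y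

/-- In the model, the topology `t` on `P` is strong Choquet: player II has a winning strategy `σ`. Against the
moves `(x 0, U 0), (x 1, U 1), …` of player I, coded by the sequence `u`, the strategy replies with the `t`-open set
`V n`, the value of the function `σ` at the finite sequence `(x 0, U 0), …, (x n, U n)`. If player I has obeyed the
rules up to round `n`, then the reply `V n` obeys them; if player I obeys the rules in all rounds, then the
intersection of the sets `V n` is nonempty. -/
def StrongChoquet (w P t : M) : Prop :=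
  ∃ σ, ∀ (x : El E w → El E P) (U : El E w → El E t) (u : M),
    (∀ p, E p u ↔ ∃ (n : El E w) (q : M), IsPair E q (x n).1 (U n).1 ∧ IsPair E p n.1 q) →
    ∃ V : El E w → El E t,
      (∀ (n : El E w) (s : M), IsInit E s u n.1 → ∀ O, Rel E σ s O ↔ O = (V n).1) ∧
      (∀ n : El E w, (∀ k : El E w, (E k.1 n.1 ∨ k = n) → E (x k).1 (U k).1) →
        (∀ k l : El E w, (E l.1 n.1 ∨ l = n) → IsSucc E l.1 k.1 → ∀ z, E z (U l).1 → E z (V k).1) →
        E (x n).1 (V n).1 ∧ ∀ z, E z (V n).1 → E z (U n).1) ∧
      ((∀ k : El E w, E (x k).1 (U k).1) →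
        (∀ k l : El E w, IsSucc E l.1 k.1 → ∀ z, E z (U l).1 → E z (V k).1) →
        ∃ z, ∀ n : El E w, E z (V n).1)

end Pool.Agent.H55.SC
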