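import Mathlib
import Pool.Agent.H55.Topo

set_option autoImplicit false
set_option linter.all false
universe u

/-!
# The strategy of player II
-/

namespace Pool.Agent.H55.ZFU

variable {M : Type u} [Model M]

variable {D : SusData M} (S : Sus D) [Pure M]

include S in
/-- Player II has a winning strategy; `V u n` is the reply at round `n` of the play in which player I plays `u`. -/
theorem exists_strategy : ∃ (σ : M) (V : M → M → M), (∀ u n : M, V u n ∈ topo D) ∧ (∀ u : M, Fn1 (fun n => V u n)) ∧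
    (∀ u : M, FnOn u omega → (∀ n : M, n ∈ (omega : M) → app u n ∈ prod D.P (topo D)) → ∀ n : M, n ∈ (omega : M) →
      restr u (suc n) ∈ fs (prod D.P (topo D)) ∧ app σ (restr u (suc n)) = V u n) ∧
    FnOn σ (fs (prod D.P (topo D))) ∧
    (∀ u : M, FnOn u omega → (∀ n : M, n ∈ (omega : M) → app u n ∈ prod D.P (topo D)) →
      (∀ n : M, n ∈ (omega : M) → (∀ k : M, Le k n → fst (app u k) ∈ snd (app u k)) →
        (∀ k : M, k ∈ n → snd (app u (suc k)) ⊆ V u k) → fst (app u n) ∈ V u n ∧ V u n ⊆ snd (app u n)) ∧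
      ((∀ k : M, k ∈ (omega : M) → fst (app u k) ∈ snd (app u k)) →
        (∀ k : M, k ∈ (omega : M) → snd (app u (suc k)) ⊆ V u k) → ∃ z : M, z ∈ D.P ∧ ∀ n : M, n ∈ (omega : M) → z ∈ V u n)) := by
  obtain ⟨θ, f, hθ, hf⟩ := WOb_fs (Q_wo S)
  obtain ⟨F, hF, hF0, hFs⟩ := exists_nrec (M := M)
    (fun u : M => pick θ f (fun L' : M => Stp D ∅ (fst (app u ∅)) (snd (app u ∅)) L'))
    (fun u n L : M => pick θ f (fun L' : M => Stp D L (fst (app u (suc n))) (snd (app u (suc n))) L'))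
  have iF : ∀ {ι : Type} (t s : (ι → M) → M) [DFun t] [DFun s], DFun (fun v => F (t v) (s v)) :=
    fun t s => DFun.comp2 hF t s
  obtain ⟨V0, hV0⟩ : ∃ V0 : M → M, V0 = fun L : M => iteM (L ∈ fs D.Q) (AS D L) D.P := ⟨_, rfl⟩
  have iV00 : Fn1 V0 := by
    rw [hV0]
    exact (inferInstance : DFun (fun v : Fin 1 → M => iteM (v 0 ∈ fs D.Q) (AS D (v 0)) D.P))
  have iV0 : ∀ {ι : Type} (t : (ι → M) → M) [DFun t], DFun (fun v => V0 (t v)) := fun t => DFun.comp1 iV00 t
  have hV0m : ∀ L : M, V0 L ∈ topo D := by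
    intro L
    rw [hV0]
    show iteM (L ∈ fs D.Q) (AS D L) D.P ∈ _
    by_cases h : L ∈ fs D.Q
    · rw [iteM_pos h]; exact AS_mem_topo S h
    · rw [iteM_neg h]; exact P_mem_topo S
  have hV0e : ∀ L : M, L ∈ fs D.Q → V0 L = AS D L := by
    intro L hL
    rw [hV0]
    exact iteM_pos hL _ _
  -- dependence on finitely many moves
  have dep : ∀ u u' : M, ∀ n : M, n ∈ (omega : M) → ((∀ k : M, Le k n → app u k = app u' k) → F u n = F u' n) := by
    intro u u'
    refine omega_induction (fun n : M => ((∀ k : M, Le k n → app u k = app u' k) → F u n = F u' n)) ?_ ?_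
    · intro h
      rw [hF0, hF0, h ∅ (Le.refl _)]
    · intro n hn ih h
      rw [hFs u n hn, hFs u' n hn, h (suc n) (Le.refl _), ih (fun k hk => h k (Le.trans (suc_mem_omega hn) hk (le_suc _)))]
  obtain ⟨σ, hσ⟩ : ∃ σ : M, σ = lam (fs (prod D.P (topo D))) (fun s : M => V0 (F s (bigU (dom s)))) := ⟨_, rfl⟩
  refine ⟨σ, fun u n => V0 (F u n), fun u n => hV0m _, fun u => inferInstance, ?_, ?_, ?_⟩
  · intro u hu hu' n hn
    have hsub : suc n ⊆ (omega : M) := fun k hk => nat_mem_omega (suc_mem_omega hn) hk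
    have hr := restr_fnOn hu hsub
    have hfs : restr u (suc n) ∈ fs (prod D.P (topo D)) := by
      refine mem_fs.2 ⟨suc n, suc_mem_omega hn, hr, ?_⟩
      intro k hk
      rw [app_restr hu hsub hk]
      exact hu' k (hsub k hk)
    refine ⟨hfs, ?_⟩
    have := nat_isSet hn
    rw [hσ, app_lam hfs, hr.dom_eq, bigU_suc (nat_trans hn)]
    show V0 _ = V0 _
    rw [dep (restr u (suc n)) u n hn (fun k hk => app_restr hu hsub (mem_suc.2 hk))]
  · rw [hσ]; exact lam_fnOn _ _
  · intro u hu hu'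
    have hmem : ∀ n : M, n ∈ (omega : M) → fst (app u n) ∈ D.P ∧ snd (app u n) ∈ topo D := by
      intro n hn
      obtain ⟨x, hx, U, hU, he⟩ := mem_prod.1 (hu' n hn)
      rw [he, fst_opair, snd_opair]
      exact ⟨hx, hU⟩
    -- existence of a step
    have step : ∀ L x U : M, L ∈ fs D.Q → AL D L x → U ∈ topo D → x ∈ U →
        Stp D L x U (pick θ f (fun L' : M => Stp D L x U L')) := by
      intro L x U hL hx hU hxU
      refine pick_spec hθ (f := f) (fun L' : M => Stp D L x U L') ?_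
      obtain ⟨L2, hL2, h1, h2⟩ := (mem_topo.1 hU).2 x hxU
      obtain ⟨L', hL'⟩ := exists_Stp S hL hx hL2 h1 h2
      obtain ⟨j, hj, hj'⟩ := hf L' hL'.1
      refine ⟨j, hj, ?_⟩
      rw [hj']; exact hL'
    have st0 : fst (app u ∅) ∈ snd (app u ∅) → Stp D ∅ (fst (app u ∅)) (snd (app u ∅)) (F u ∅) := by
      intro h
      rw [hF0]
      exact step _ _ _ (empty_mem_fs _) (AL_empty S (hmem ∅ empty_mem_omega).1) (hmem ∅ empty_mem_omega).2 h
    have stn : ∀ n : M, n ∈ (omega : M) → F u n ∈ fs D.Q → fst (app u (suc n)) ∈ snd (app u (suc n)) →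
        snd (app u (suc n)) ⊆ V0 (F u n) → Stp D (F u n) (fst (app u (suc n))) (snd (app u (suc n))) (F u (suc n)) := by
      intro n hn hFn h h'
      rw [hFs u n hn]
      have h3 := h' _ h
      rw [hV0e _ hFn, mem_AS] at h3
      exact step _ _ _ hFn h3 (hmem _ (suc_mem_omega hn)).2 h
    have main : ∀ n : M, n ∈ (omega : M) → ((∀ k : M, Le k n → fst (app u k) ∈ snd (app u k)) →
        (∀ k : M, k ∈ n → snd (app u (suc k)) ⊆ V0 (F u k)) →
        F u n ∈ fs D.Q ∧ ∅ ∈ dom (F u n) ∧ AL D (F u n) (fst (app u n)) ∧ ∀ z : M, AL D (F u n) z → z ∈ snd (app u n)) := by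
      refine omega_induction (fun n : M => ((∀ k : M, Le k n → fst (app u k) ∈ snd (app u k)) →
        (∀ k : M, k ∈ n → snd (app u (suc k)) ⊆ V0 (F u k)) →
        F u n ∈ fs D.Q ∧ ∅ ∈ dom (F u n) ∧ AL D (F u n) (fst (app u n)) ∧ ∀ z : M, AL D (F u n) z → z ∈ snd (app u n))) ?_ ?_
      · intro h _
        have := st0 (h ∅ (Le.refl _))
        exact ⟨this.1, this.2.1, this.2.2.2.1, this.2.2.2.2⟩
      · intro n hn ih h h'
        have h3 := ih (fun k hk => h k (Le.trans (suc_mem_omega hn) hk (le_suc _))) (fun k hk => h' k (by simp [hk]))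
        have := stn n hn h3.1 (h _ (Le.refl _)) (h' n (by simp))
        exact ⟨this.1, this.2.1, this.2.2.2.1, this.2.2.2.2⟩
    refine ⟨?_, ?_⟩
    · intro n hn h h'
      obtain ⟨h1, h2, h3, h4⟩ := main n hn h h'
      show fst (app u n) ∈ V0 (F u n) ∧ V0 (F u n) ⊆ _
      rw [hV0e _ h1]
      exact ⟨mem_AS.2 h3, fun z hz => h4 z (mem_AS.1 hz)⟩
    · intro h h'
      have hm : ∀ n : M, n ∈ (omega : M) → F u n ∈ fs D.Q ∧ ∅ ∈ dom (F u n) ∧ AL D (F u n) (fst (app u n)) ∧
          ∀ z : M, AL D (F u n) z → z ∈ snd (app u n) := by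
        intro n hn
        refine main n hn (fun k hk => ?_) (fun k hk => h' k (nat_mem_omega hn hk))
        apply h
        rcases hk with hk | rfl
        · exact nat_mem_omega hn hk
        · exact hn
      obtain ⟨p, hp⟩ := limit_play S (fun n : M => F u n) (fun n : M => fst (app u n))
        (fun k hk => ⟨(hm k hk).1, (hm k hk).2.2.1⟩)
        (fun k hk i hi => (stn k hk (hm k hk).1 (h _ (suc_mem_omega hk)) (h' k hk)).2.2.1 i hi)
        (fun k hk => (hm k hk).2.1)
      refine ⟨p, (hp ∅ empty_mem_omega).1, fun n hn => ?_⟩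
      show p ∈ V0 (F u n)
      rw [hV0e _ (hm n hn).1, mem_AS]
      exact hp n hn

end Pool.Agent.H55.ZFU
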