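import Mathlib
import Pool.Agent.H55.SCDefs
import Pool.Agent.H55.Strat
import Pool.Agent.H55.Coan

set_option autoImplicit false
set_option linter.all false

/-!
# From structures satisfying ZF to the set theory library
-/

namespace Pool.Agent.H55.ZFU

open FirstOrder FirstOrder.Language
open Pool.Agent.H55.SC

universe u

section model
variable {M : Type u} {E : M → M → Prop}

@[reducible] def zsys (E : M → M → Prop) : DSys M := { L := SC.Lang, str := SC.str E, A := Set.univ }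

theorem zE_dfn : @Dfn M (zsys E) (Fin 2) (fun v => E (v 0) (v 1)) := by
  letI := SC.str E
  have : Set.Definable Set.univ SC.Lang {v : Fin 2 → M | E (v 0) (v 1)} := by
    refine Set.Definable.mono (A := ∅) ?_ (Set.empty_subset _)
    rw [Set.empty_definable_iff]
    refine ⟨Relations.formula₂ (L := SC.Lang) (SC.Sym.mem : SC.Lang.Relations 2) (Term.var 0) (Term.var 1), ?_⟩
    ext v
    exact Iff.rfl
  exact @Dfn.mk M (zsys E) _ _ this

theorem zFalse_dfn : @Dfn M (zsys E) (Fin 1) (fun v => False) := by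
  letI := zsys E
  exact Dfn.const False

/-- a structure satisfying ZF is a model without urelements -/
@[reducible] def zModel (h : SC.ZF E) : Model M :=
  { toDSys := zsys E
    par := fun c => trivial
    E := E
    Ur := fun _ => False
    E_def := zE_dfn
    Ur_def := zFalse_dfn
    ext' := fun a b _ _ hab => h.extensionality a b hab
    ur' := fun a x ha => ha.elim
    found' := h.foundation
    pair' := h.pairing
    union' := fun a => by
      obtain ⟨c, hc⟩ := h.union a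
      exact ⟨c, not_false, hc⟩
    pow' := fun a => by
      obtain ⟨c, hc⟩ := h.power a
      exact ⟨c, fun x => (hc x).trans ⟨fun hx => ⟨not_false, hx⟩, fun hx => hx.2⟩⟩
    inf' := by
      obtain ⟨w, ⟨e, he, he'⟩, hw⟩ := h.infinity
      exact ⟨w, ⟨e, he, not_false, he'⟩, hw⟩
    sep' := fun φ hφ a => by
      obtain ⟨c, hc⟩ := h.separation {x | φ x} hφ.out a
      exact ⟨c, not_false, hc⟩
    repl' := fun R hR a ha => by
      obtain ⟨c, hc⟩ := h.replacement {p | R p.1 p.2} hR.out a ha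
      exact ⟨c, not_false, hc⟩ }

theorem zPure (h : SC.ZF E) : @Pure M (zModel h) := by
  letI := zModel h
  exact ⟨fun x => ⟨fun hx => hx⟩⟩

end model

/-! ### Translation of the basic notions -/

section translate
variable {M : Type u} [Model M] [Pure M]

theorem pair_iff {p x y : M} : SC.IsPair Model.E p x y ↔ p = opair x y := by
  have h1 : ∀ z a b : M, (∀ w, Model.E w z ↔ w = a ∨ w = b) ↔ z = upair a b := by
    intro z a b
    constructor
    · intro h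
      exact ext (fun w => by rw [mem_upair]; exact h w)
    · rintro rfl w; exact mem_upair
  have h2 : ∀ z a : M, (∀ w, Model.E w z ↔ w = a) ↔ z = sing a := by
    intro z a
    unfold sing
    rw [← h1]
    simp
  constructor
  · intro h
    apply ext
    intro z
    unfold opair
    rw [mem_upair, ← h1, ← h2]
    exact h z
  · rintro rfl z
    rw [h1, h2]
    exact mem_upair

theorem rel_iff {r x y : M} : SC.Rel Model.E r x y ↔ opair x y ∈ r := by
  constructor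
  · rintro ⟨p, hp, h⟩
    rw [pair_iff] at h
    rw [← h]; exact hp
  · intro h
    exact ⟨opair x y, h, pair_iff.2 rfl⟩

theorem succ_iff {l k : M} : IsSucc Model.E l k ↔ l = suc k := by
  constructor
  · intro h
    exact ext (fun z => by rw [mem_suc]; exact h z)
  · rintro rfl z; exact mem_suc

theorem ind_iff {v : M} : Ind Model.E v ↔ Inductive' v := by
  constructor
  · rintro ⟨⟨e, he, he'⟩, h⟩
    refine ⟨?_, ?_⟩
    · have : e = ∅ := eq_empty_iff.2 he'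
      rw [← this]; exact he
    · intro x hx
      obtain ⟨y, hy, hy'⟩ := h x hx
      rw [← succ_iff.1 hy']; exact hy
  · rintro ⟨h1, h2⟩
    exact ⟨⟨∅, h1, fun x => not_mem_empty x⟩, fun x hx => ⟨suc x, h2 x hx, succ_iff.2 rfl⟩⟩

theorem omega_inductive : Inductive' (omega : M) := ⟨by simp, fun x hx => suc_mem_omega hx⟩

theorem omega_iff {w : M} : IsOmega Model.E w ↔ w = omega := by
  constructor
  · rintro ⟨h1, h2⟩
    apply ext
    intro x
    constructor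
    · intro hx
      exact h2 omega (ind_iff.2 omega_inductive) x hx
    · intro hx
      exact mem_omega.1 hx w (ind_iff.1 h1)
  · rintro rfl
    exact ⟨ind_iff.2 omega_inductive, fun v hv x hx => mem_omega.1 hx v (ind_iff.1 hv)⟩

/-- type of elements -/
abbrev EL (a : M) : Type u := El (Model.E : M → M → Prop) a

theorem EL.mem {a : M} (x : EL a) : x.1 ∈ a := x.2

theorem fun2_exists {a b c : M} {f : EL a → EL b → EL c} (hf : IntFun₂ Model.E f) :
    ∃ F : M, ∀ (x : EL a) (y : EL b), app F (opair x.1 y.1) = (f x y).1 := by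
  obtain ⟨r, hr⟩ := hf
  refine ⟨inter r (prod (prod a b) c), fun x y => ?_⟩
  have h1 : ∀ z : M, opair (opair x.1 y.1) z ∈ inter r (prod (prod a b) c) ↔ z = (f x y).1 := by
    intro z
    rw [mem_inter, opair_mem_prod, opair_mem_prod]
    constructor
    · rintro ⟨h2, _, h3⟩
      have := (hr x y ⟨z, h3⟩).2 ⟨opair x.1 y.1, pair_iff.2 rfl, rel_iff.2 h2⟩
      rw [this]
    · rintro rfl
      obtain ⟨q, hq, hq'⟩ := (hr x y (f x y)).1 rfl
      rw [pair_iff] at hq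
      subst hq
      exact ⟨rel_iff.1 hq', ⟨x.2, y.2⟩, (f x y).2⟩
  exact ZFU.app_eq ⟨_, (h1 _).2 rfl, fun z hz => (h1 z).1 hz⟩ ((h1 _).2 rfl)

theorem fun1_exists {a b : M} {f : EL a → EL b} (hf : IntFun Model.E f) :
    ∃ F : M, ∀ x : EL a, app F x.1 = (f x).1 := by
  obtain ⟨r, hr⟩ := hf
  refine ⟨inter r (prod a b), fun x => ?_⟩
  have h1 : ∀ z : M, opair x.1 z ∈ inter r (prod a b) ↔ z = (f x).1 := by
    intro z
    rw [mem_inter, opair_mem_prod]
    constructor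
    · rintro ⟨h2, _, h3⟩
      have := (hr x ⟨z, h3⟩).2 (rel_iff.2 h2)
      rw [this]
    · rintro rfl
      exact ⟨rel_iff.1 ((hr x (f x)).1 rfl), x.2, (f x).2⟩
  exact ZFU.app_eq ⟨_, (h1 _).2 rfl, fun z hz => (h1 z).1 hz⟩ ((h1 _).2 rfl)

theorem intFun_of {a b v : M} {f : EL a → EL b} (hv : FnOn v a) (h : ∀ x : EL a, app v x.1 = (f x).1) :
    IntFun Model.E f := by
  refine ⟨v, fun x y => ?_⟩
  rw [rel_iff]
  constructor
  · rintro rfl
    rw [← h x]; exact hv.mem x.2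
  · intro hxy
    have := hv.app_eq hxy
    exact Subtype.ext (by rw [← h x, this])

/-! ### The real numbers and Polish spaces -/

section reals
variable {R : M} [Field (EL R)] [LinearOrder (EL R)] (hR : IsReals Model.E R)
include hR

/-- halving sequence -/
theorem exists_halving : ∃ e lt : M, ∃ he : ∀ k : M, k ∈ (omega : M) → app e k ∈ R,
    (∀ x y : EL R, x < y ↔ opair x.1 y.1 ∈ lt) ∧
    (∀ k (hk : k ∈ (omega : M)), (0 : EL R) < ⟨app e k, he k hk⟩) ∧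
    (∀ k (hk : k ∈ (omega : M)), (⟨app e (suc k), he _ (suc_mem_omega hk)⟩ : EL R) + ⟨app e (suc k), he _ (suc_mem_omega hk)⟩ =
      ⟨app e k, he k hk⟩) ∧
    (∀ ε : EL R, 0 < ε → ∃ k, ∃ hk : k ∈ (omega : M), (⟨app e k, he k hk⟩ : EL R) < ε) := by
  haveI := hR.ordered
  obtain ⟨lt, hlt⟩ := hR.lt
  have hlt' : ∀ x y : EL R, x < y ↔ opair x.1 y.1 ∈ lt := fun x y => (hlt x y).trans rel_iff
  obtain ⟨mul, hmul⟩ := fun2_exists hR.mul
  obtain ⟨half, hhalf⟩ : ∃ half : EL R, half = 2⁻¹ := ⟨_, rfl⟩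
  obtain ⟨e, he, he0, hes⟩ := omega_rec (M := M) (1 : EL R).1 (fun _ y => app mul (opair y half.1))
  have hpos0 : ∀ k : M, k ∈ (omega : M) → (app e k ∈ R ∧ opair (0 : EL R).1 (app e k) ∈ lt) := by
    refine omega_induction (fun k : M => (app e k ∈ R ∧ opair (0 : EL R).1 (app e k) ∈ lt)) ?_ ?_
    · rw [he0]
      exact ⟨(1 : EL R).2, (hlt' 0 1).1 zero_lt_one⟩
    · rintro k hk ⟨h1, h2⟩
      rw [hes k hk]
      have h3 : app mul (opair (app e k) half.1) = ((⟨app e k, h1⟩ : EL R) * half).1 := hmul ⟨app e k, h1⟩ half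
      rw [h3]
      refine ⟨((⟨app e k, h1⟩ : EL R) * half).2, (hlt' 0 _).1 ?_⟩
      have h4 : (0 : EL R) < ⟨app e k, h1⟩ := (hlt' 0 _).2 h2
      rw [hhalf]
      positivity
  have heR : ∀ k : M, k ∈ (omega : M) → app e k ∈ R := fun k hk => (hpos0 k hk).1
  have hpos : ∀ k (hk : k ∈ (omega : M)), (0 : EL R) < ⟨app e k, heR k hk⟩ := fun k hk => (hlt' 0 _).2 (hpos0 k hk).2
  have hhalving : ∀ k (hk : k ∈ (omega : M)), (⟨app e (suc k), heR _ (suc_mem_omega hk)⟩ : EL R) + ⟨app e (suc k), heR _ (suc_mem_omega hk)⟩ =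
      ⟨app e k, heR k hk⟩ := by
    intro k hk
    have h3 : (⟨app e (suc k), heR _ (suc_mem_omega hk)⟩ : EL R) = (⟨app e k, heR k hk⟩ : EL R) * half := by
      apply Subtype.ext
      show app e (suc k) = _
      rw [hes k hk]
      exact hmul ⟨app e k, heR k hk⟩ half
    rw [h3, hhalf]
    ring
  refine ⟨e, lt, heR, hlt', hpos, hhalving, ?_⟩
  intro ε hε
  by_contra hcon
  push Not at hcon
  have hle : ∀ k (hk : k ∈ (omega : M)), ε ≤ ⟨app e k, heR k hk⟩ := fun k hk => hcon k hk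
  let S : Set (EL R) := {x | ∀ k (hk : k ∈ (omega : M)), x ≤ ⟨app e k, heR k hk⟩}
  have hS : IntSet Model.E S := by
    refine ⟨sep R (fun x : M => ∀ k : M, k ∈ (omega : M) → opair (app e k) x ∉ lt), fun x => ?_⟩
    show (∀ k (hk : k ∈ (omega : M)), x ≤ ⟨app e k, heR k hk⟩) ↔ x.1 ∈ sep R (fun x : M => ∀ k : M, k ∈ (omega : M) → opair (app e k) x ∉ lt)
    rw [mem_sep]
    constructor
    · intro h
      refine ⟨x.2, fun k hk hl => ?_⟩
      have := (hlt' ⟨app e k, heR k hk⟩ x).2 hl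
      exact absurd (h k hk) (not_le.2 this)
    · rintro ⟨_, h⟩ k hk
      rw [← not_lt]
      intro hl
      exact h k hk ((hlt' ⟨app e k, heR k hk⟩ x).1 hl)
  obtain ⟨s, hs⟩ := hR.complete S hS ⟨ε, hle⟩ ⟨⟨app e ∅, heR ∅ (by simp)⟩, fun x hx => hx ∅ (by simp)⟩
  have h1 : ε ≤ s := hs.1 hle
  have h2 : ∀ k (hk : k ∈ (omega : M)), s ≤ ⟨app e k, heR k hk⟩ := fun k hk => hs.2 (fun x hx => hx k hk)
  have h3 : s + s ∈ S := by
    intro k hk
    rw [← hhalving k hk]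
    exact add_le_add (h2 _ (suc_mem_omega hk)) (h2 _ (suc_mem_omega hk))
  have h4 : s + s ≤ s := hs.1 h3
  linarith

end reals

/-- the space together with its topology -/
structure PolTop (X τ u N : M) : Prop where
  upol : UPol X u N
  top : ∀ U : M, U ∈ τ ↔ U ⊆ X ∧ ∀ x : M, x ∈ U → ∃ k : M, k ∈ (omega : M) ∧ ∀ y : M, Nb N x y k → y ∈ U

theorem polish_exists {X τ : M} (h : IsPolish Model.E omega X τ) : ∃ u N : M, PolTop X τ u N := by
  obtain ⟨R, iF, iO, d, hd⟩ := h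
  have hR := hd.reals
  haveI := hR.ordered
  obtain ⟨e, lt, he, hlt, hpos, hhalf, harch⟩ := exists_halving hR
  obtain ⟨dd, hdd⟩ := fun2_exists hd.internal
  obtain ⟨N, hN⟩ : ∃ N : M, N = sep (prod omega (prod X X)) (fun p : M => opair (app dd (snd p)) (app e (fst p)) ∈ lt) := ⟨_, rfl⟩
  have hNb0 : ∀ x y k : M, Nb N x y k ↔ (k ∈ (omega : M) ∧ x ∈ X ∧ y ∈ X) ∧ opair (app dd (opair x y)) (app e k) ∈ lt := by
    intro x y k
    unfold Nb
    rw [hN, mem_sep, opair_mem_prod, opair_mem_prod, fst_opair, snd_opair]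
  have hNb : ∀ (x y : EL X) (k : M) (hk : k ∈ (omega : M)), Nb N x.1 y.1 k ↔ d x y < ⟨app e k, he k hk⟩ := by
    intro x y k hk
    rw [hNb0, hlt, hdd]
    exact ⟨fun h => h.2, fun h => ⟨⟨hk, x.2, y.2⟩, h⟩⟩
  have hnn : ∀ x y, 0 ≤ d x y := by
    intro x y
    have h1 := hd.triangle x y x
    rw [(hd.eq_zero x x).2 rfl, hd.symm y x] at h1
    linarith
  -- the dense sequence
  have hdense : ∃ u : M, ∀ x k : M, x ∈ X → k ∈ (omega : M) → ∃ n : M, n ∈ (omega : M) ∧ Nb N x (app u n) k := by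
    rcases hd.separable with hemp | ⟨u, hu, hu'⟩
    · exact ⟨∅, fun x k hx => (hemp x hx).elim⟩
    · obtain ⟨U, hU⟩ := fun1_exists hu
      refine ⟨U, fun x k hx hk => ?_⟩
      obtain ⟨n, hn⟩ := hu' ⟨x, hx⟩ _ (hpos k hk)
      refine ⟨n.1, n.2, ?_⟩
      rw [hU n]
      exact (hNb ⟨x, hx⟩ (u n) k hk).2 hn
  obtain ⟨u, hu⟩ := hdense
  have hop : ∀ (x : EL X) (δ : EL R), 0 < δ → ∃ l : M, l ∈ (omega : M) ∧ ∀ y : M, Nb N x.1 y l → ∃ hy : y ∈ X, d x ⟨y, hy⟩ < δ := by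
    intro x δ hδ
    obtain ⟨l, hl, h1⟩ := harch δ hδ
    refine ⟨l, hl, fun y hy => ?_⟩
    have hyX := ((hNb0 _ _ _).1 hy).1.2.2
    exact ⟨hyX, lt_trans ((hNb x ⟨y, hyX⟩ l hl).1 hy) h1⟩
  have hU : UPol X u N := by
    constructor
    · intro x y k h
      exact ((hNb0 x y k).1 h).1.2
    · intro x k hx hk
      rw [hNb ⟨x, hx⟩ ⟨x, hx⟩ k hk, (hd.eq_zero _ _).2 rfl]
      exact hpos k hk
    · intro x y k h
      obtain ⟨⟨hk, hx, hy⟩, _⟩ := (hNb0 x y k).1 h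
      rw [hNb ⟨x, hx⟩ ⟨y, hy⟩ k hk] at h
      rw [hNb ⟨y, hy⟩ ⟨x, hx⟩ k hk, hd.symm]
      exact h
    · intro x y z k hk h1 h2
      have hk' := suc_mem_omega hk
      obtain ⟨⟨_, hx, hy⟩, _⟩ := (hNb0 _ _ _).1 h1
      obtain ⟨⟨_, _, hz⟩, _⟩ := (hNb0 _ _ _).1 h2
      rw [hNb ⟨x, hx⟩ ⟨y, hy⟩ _ hk'] at h1
      rw [hNb ⟨y, hy⟩ ⟨z, hz⟩ _ hk'] at h2
      rw [hNb ⟨x, hx⟩ ⟨z, hz⟩ k hk, ← hhalf k hk]
      exact lt_of_le_of_lt (hd.triangle _ ⟨y, hy⟩ _) (add_lt_add h1 h2)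
    · intro x y hx hy h
      have h1 : d ⟨x, hx⟩ ⟨y, hy⟩ = 0 := by
        by_contra hne
        have h2 : 0 < d ⟨x, hx⟩ ⟨y, hy⟩ := lt_of_le_of_ne (hnn _ _) (Ne.symm hne)
        obtain ⟨k, hk, h3⟩ := harch _ h2
        exact absurd ((hNb ⟨x, hx⟩ ⟨y, hy⟩ k hk).1 (h k hk)) (not_lt.2 h3.le)
      exact congrArg Subtype.val ((hd.eq_zero _ _).1 h1)
    · intro x y k hk h
      obtain ⟨⟨_, hx, hy⟩, _⟩ := (hNb0 _ _ _).1 h
      rw [hNb ⟨x, hx⟩ ⟨y, hy⟩ _ hk] at h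
      obtain ⟨l, hl, h1⟩ := hop ⟨y, hy⟩ (⟨app e k, he k hk⟩ - d ⟨x, hx⟩ ⟨y, hy⟩) (sub_pos.2 h)
      refine ⟨l, hl, fun z hz => ?_⟩
      obtain ⟨hzX, h2⟩ := h1 z hz
      rw [hNb ⟨x, hx⟩ ⟨z, hzX⟩ _ hk]
      have := hd.triangle ⟨x, hx⟩ ⟨y, hy⟩ ⟨z, hzX⟩
      linarith
    · exact hu
    · intro v hv hvX hcau
      obtain ⟨f, hf⟩ : ∃ f : EL (omega : M) → EL X, ∀ n, app v n.1 = (f n).1 :=
        ⟨fun n => ⟨app v n.1, hvX n.1 n.2⟩, fun n => rfl⟩
      obtain ⟨x, hx⟩ := hd.complete f (intFun_of hv hf) (by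
        intro ε hε
        obtain ⟨l, hl, h1⟩ := harch ε hε
        obtain ⟨n, hn, h2⟩ := hcau l hl
        refine ⟨⟨n, hn⟩, fun m m' hm hm' => ?_⟩
        have h3 := h2 m.1 m'.1 m.2 m'.2 hm hm'
        rw [hf, hf, hNb _ _ l hl] at h3
        exact lt_trans h3 h1)
      refine ⟨x.1, x.2, fun k hk => ?_⟩
      obtain ⟨n, hn⟩ := hx _ (hpos k hk)
      refine ⟨n.1, n.2, fun m hm hnm => ?_⟩
      have h3 := hn ⟨m, hm⟩ hnm
      have h4 : app v m = (f ⟨m, hm⟩).1 := hf ⟨m, hm⟩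
      rw [h4, hNb x (f ⟨m, hm⟩) k hk, hd.symm]
      exact h3
  refine ⟨u, N, hU, fun U => ?_⟩
  refine (hd.topology U).trans (and_congr_right fun hUX => ?_)
  constructor
  · intro h x hx
    obtain ⟨ε, hε, h1⟩ := h ⟨x, hUX x hx⟩ hx
    obtain ⟨l, hl, h2⟩ := hop ⟨x, hUX x hx⟩ ε hε
    refine ⟨l, hl, fun y hy => ?_⟩
    obtain ⟨hyX, h3⟩ := h2 y hy
    exact h1 ⟨y, hyX⟩ h3
  · intro h x hx
    obtain ⟨k, hk, h1⟩ := h x.1 hx
    exact ⟨_, hpos k hk, fun y hy => h1 y.1 ((hNb x y k hk).2 hy)⟩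

/-- open balls -/
theorem PolTop.ball_open {X τ u N : M} (h : PolTop X τ u N) {x k : M} (hk : k ∈ (omega : M)) :
    sep X (fun y : M => Nb N x y k) ∈ τ := by
  rw [h.top]
  refine ⟨fun y hy => (mem_sep.1 hy).1, fun y hy => ?_⟩
  obtain ⟨l, hl, h1⟩ := h.upol.opn x y k hk (mem_sep.1 hy).2
  exact ⟨l, hl, fun z hz => mem_sep.2 ⟨(h.upol.mem _ _ _ hz).2, h1 z hz⟩⟩

theorem cont2_nb {a b c σ τ ρ ua Na ub Nb' uc Nc : M} (ha : PolTop a σ ua Na) (hb : PolTop b τ ub Nb')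
    (hc : PolTop c ρ uc Nc) {f : EL a → EL b → EL c}
    (hf : Cont₂ Model.E σ τ ρ (fun x y => (f x y).1)) (x : EL a) (y : EL b) {k : M} (hk : k ∈ (omega : M)) :
    ∃ l : M, l ∈ (omega : M) ∧ ∀ (x' : EL a) (y' : EL b), Nb Na x.1 x'.1 l → Nb Nb' y.1 y'.1 l →
      Nb Nc (f x y).1 (f x' y').1 k := by
  obtain ⟨U, W, hU, hW, hxU, hyW, h1⟩ := hf x y (sep c (fun z : M => Nb Nc (f x y).1 z k)) (hc.ball_open hk)
    (show (f x y).1 ∈ sep c (fun z : M => Nb Nc (f x y).1 z k) from mem_sep.2 ⟨(f x y).2, hc.upol.refl _ _ (f x y).2 hk⟩)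
  obtain ⟨l1, hl1, h2⟩ := ((ha.top U).1 hU).2 x.1 hxU
  obtain ⟨l2, hl2, h3⟩ := ((hb.top W).1 hW).2 y.1 hyW
  obtain ⟨l, hl, h4, h5⟩ := nat_bd hl1 hl2
  refine ⟨l, hl, fun x' y' hx' hy' => ?_⟩
  have h6 := h1 x' y' (h2 _ (ha.upol.mono hl (Or.inl h4) hx')) (h3 _ (hb.upol.mono hl (Or.inl h5) hy'))
  have h7 : (f x' y').1 ∈ sep c (fun z : M => Nb Nc (f x y).1 z k) := h6
  exact (mem_sep.1 h7).2

theorem cont1_nb {a c σ ρ ua Na uc Nc : M} (ha : PolTop a σ ua Na)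
    (hc : PolTop c ρ uc Nc) {f : EL a → EL c}
    (hf : Cont Model.E σ ρ f) (x : EL a) {k : M} (hk : k ∈ (omega : M)) :
    ∃ l : M, l ∈ (omega : M) ∧ ∀ (x' : EL a), Nb Na x.1 x'.1 l → Nb Nc (f x).1 (f x').1 k := by
  obtain ⟨U, hU, hxU, h1⟩ := hf x (sep c (fun z : M => Nb Nc (f x).1 z k)) (hc.ball_open hk)
    (show (f x).1 ∈ sep c (fun z : M => Nb Nc (f x).1 z k) from mem_sep.2 ⟨(f x).2, hc.upol.refl _ _ (f x).2 hk⟩)
  obtain ⟨l1, hl1, h2⟩ := ((ha.top U).1 hU).2 x.1 hxU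
  refine ⟨l1, hl1, fun x' hx' => ?_⟩
  have h7 : (f x').1 ∈ sep c (fun z : M => Nb Nc (f x).1 z k) := h1 x' (h2 _ hx')
  exact (mem_sep.1 h7).2

end translate

end Pool.Agent.H55.ZFU
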