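import Mathlib
import Pool.Agent.H55.SCBridge

set_option autoImplicit false
set_option linter.all false

/-!
# Strong Choquet topologies on invariant coanalytic sets
-/

namespace Pool.Agent.H55.ZFU

open Pool.Agent.H55.SC

universe u

section
variable {M : Type u} [Model M] [Pure M]

theorem exists_sus {G σ X τ P : M} [Group (EL G)] [MulAction (EL G) (EL X)]
    (h : IsPolishGSpace Model.E omega G σ X τ) (hPX : ∀ x : M, x ∈ P → x ∈ X)
    (hinv : ∀ (g : EL G) (x : EL X), x.1 ∈ P → (g • x).1 ∈ P)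
    (hP : IsAnalytic Model.E omega X τ {x : EL X | ¬ x.1 ∈ P}) :
    ∃ D : SusData M, Sus D ∧ D.P = P ∧ D.G = G ∧ PolTop G σ D.uG D.NG ∧ PolTop X τ D.uX D.NX ∧
      ∀ (g : EL G) (x : EL X), app D.aX (opair g.1 x.1) = (g • x).1 := by
  obtain ⟨uG, NG, hG⟩ := polish_exists h.group_polish
  obtain ⟨uX, NX, hX⟩ := polish_exists h.space_polish
  obtain ⟨mG, hmG⟩ := fun2_exists h.mul_internal
  obtain ⟨aX, haX⟩ := fun2_exists h.act_internal
  obtain ⟨Y, υ, f, hY0, hf, hfc, hr⟩ := hP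
  obtain ⟨uY, NY, hY⟩ := polish_exists hY0
  obtain ⟨F, hF⟩ := fun1_exists hf
  have hr' : ∀ x : EL X, x.1 ∈ P ↔ ∀ y : EL Y, f y ≠ x := by
    intro x
    have : x ∈ Set.range f ↔ x ∈ {x : EL X | ¬ x.1 ∈ P} := by rw [hr]
    constructor
    · intro hx y hy
      exact (this.1 ⟨y, hy⟩) hx
    · intro hx
      by_contra hxP
      obtain ⟨y, hy⟩ := this.2 hxP
      exact hx y hy
  obtain ⟨K, C, hK, hC1, hC2, hC3⟩ := exists_rep (P := P) (F := F) hX.upol hY.upol
    (fun y hy => by rw [hF ⟨y, hy⟩]; exact (f ⟨y, hy⟩).2)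
    (fun y k hy hk => by
      obtain ⟨l, hl, h1⟩ := cont1_nb hY hX hfc ⟨y, hy⟩ hk
      refine ⟨l, hl, fun y' hy' => ?_⟩
      have hy'Y := (hY.upol.mem _ _ _ hy').2
      rw [hF ⟨y, hy⟩, hF ⟨y', hy'Y⟩]
      exact h1 ⟨y', hy'Y⟩ hy')
    (fun x => by
      constructor
      · intro hx
        refine ⟨hPX x hx, fun y hy he => ?_⟩
        exact (hr' ⟨x, hPX x hx⟩).1 hx ⟨y, hy⟩ (Subtype.ext (by rw [← hF ⟨y, hy⟩]; exact he))
      · rintro ⟨hx, h1⟩
        refine (hr' ⟨x, hx⟩).2 (fun y hy => h1 y.1 y.2 ?_)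
        rw [hF y, hy])
  refine ⟨⟨G, X, uG, NG, uX, NX, mG, aX, (1 : EL G).1, P, K, C⟩, ?_, rfl, rfl, hG, hX, haX⟩
  have hact : ∀ g x : M, ∀ (hg : g ∈ G) (hx : x ∈ X), app aX (opair g x) = ((⟨g, hg⟩ : EL G) • (⟨x, hx⟩ : EL X)).1 :=
    fun g x hg hx => haX ⟨g, hg⟩ ⟨x, hx⟩
  have hmul : ∀ g g' : M, ∀ (hg : g ∈ G) (hg' : g' ∈ G), app mG (opair g g') = ((⟨g, hg⟩ : EL G) * (⟨g', hg'⟩ : EL G)).1 :=
    fun g x hg hx => hmG ⟨g, hg⟩ ⟨x, hx⟩
  refine
    { hG := hG.upol
      hX := hX.upol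
      one_mem := (1 : EL G).2
      act_mem := fun g x hg hx => by
        show app aX (opair g x) ∈ X
        rw [hact g x hg hx]; exact Subtype.property _
      mul_mem := fun g g' hg hg' => by
        show app mG (opair g g') ∈ G
        rw [hmul g g' hg hg']; exact Subtype.property _
      act_one := fun x hx => by
        show app aX (opair (1 : EL G).1 x) = x
        rw [hact _ x (1 : EL G).2 hx]
        have : (⟨(1 : EL G).1, (1 : EL G).2⟩ : EL G) = 1 := rfl
        rw [this, one_smul]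
      act_mul := fun g g' x hg hg' hx => by
        show app aX (opair (app mG (opair g g')) x) = app aX (opair g (app aX (opair g' x)))
        rw [hact g' x hg' hx, hmul g g' hg hg', hact _ x (Subtype.property _) hx, hact g _ hg (Subtype.property _)]
        exact congrArg Subtype.val (mul_smul (⟨g, hg⟩ : EL G) (⟨g', hg'⟩ : EL G) (⟨x, hx⟩ : EL X))
      act_inj := fun g x y hg hx hy he => by
        have he' : app aX (opair g x) = app aX (opair g y) := he
        rw [hact g x hg hx, hact g y hg hy] at he'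
        have := Subtype.ext he'
        exact congrArg Subtype.val (smul_left_cancel (⟨g, hg⟩ : EL G) this)
      div := fun g g' hg hg' => by
        refine ⟨((⟨g, hg⟩ : EL G)⁻¹ * (⟨g', hg'⟩ : EL G)).1, Subtype.property _, ?_⟩
        show app mG (opair g _) = g'
        rw [hmul g _ hg (Subtype.property _)]
        exact congrArg Subtype.val (mul_inv_cancel_left (⟨g, hg⟩ : EL G) (⟨g', hg'⟩ : EL G))
      cont_act := fun g x k hg hx hk => by
        obtain ⟨l, hl, h1⟩ := cont2_nb hG hX hX h.act_cont ⟨g, hg⟩ ⟨x, hx⟩ hk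
        refine ⟨l, hl, fun g' x' hg' hx' => ?_⟩
        have hg'' := (hG.upol.mem _ _ _ hg').2
        have hx'' := (hX.upol.mem _ _ _ hx').2
        show Nb NX (app aX (opair g x)) (app aX (opair g' x')) k
        rw [hact g x hg hx, hact g' x' hg'' hx'']
        exact h1 ⟨g', hg''⟩ ⟨x', hx''⟩ hg' hx'
      cont_mul := fun g x k hg hx hk => by
        obtain ⟨l, hl, h1⟩ := cont2_nb hG hG hG h.mul_cont ⟨g, hg⟩ ⟨x, hx⟩ hk
        refine ⟨l, hl, fun g' x' hg' hx' => ?_⟩
        have hg'' := (hG.upol.mem _ _ _ hg').2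
        have hx'' := (hG.upol.mem _ _ _ hx').2
        show Nb NG (app mG (opair g x)) (app mG (opair g' x')) k
        rw [hmul g x hg hx, hmul g' x' hg'' hx'']
        exact h1 ⟨g', hg''⟩ ⟨x', hx''⟩ hg' hx'
      PX := hPX
      inv := fun g x hg hx => by
        show app aX (opair g x) ∈ P
        rw [hact g x hg (hPX x hx)]
        exact hinv ⟨g, hg⟩ ⟨x, hPX x hx⟩ hx
      K_wo := hK
      C_sub := hC1
      C_sur := hC2
      C_closed := hC3 }

theorem main_model {G σ X τ P : M} [Group (EL G)] [MulAction (EL G) (EL X)]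
    (h : IsPolishGSpace Model.E omega G σ X τ) (hPX : ∀ x : M, Model.E x P → Model.E x X)
    (hinv : ∀ (g : EL G) (x : EL X), Model.E x.1 P → Model.E (g • x).1 P)
    (hP : IsAnalytic Model.E omega X τ {x : EL X | ¬ Model.E x.1 P}) :
    ∃ t : M, IsTopology Model.E P t ∧ Finer Model.E τ P t ∧ HasWellorderedBasis Model.E t ∧
      StrongChoquet Model.E omega P t ∧
      Cont₂ Model.E σ t t (fun (g : EL G) (x : EL P) => (g • (⟨x.1, hPX x.1 x.2⟩ : EL X)).1) := by
  obtain ⟨D, S, hDP, hDG, hG, hX, hact⟩ := exists_sus h hPX hinv hP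
  subst hDP hDG
  refine ⟨topo D, ?_, ?_, ?_, ?_, ?_⟩
  · refine ⟨fun U hU x hx => (mem_topo.1 hU).1 x hx, P_mem_topo S, ?_, ?_⟩
    · intro U V W hU hV hW
      have : W = inter U V := ext (fun x => by rw [mem_inter]; exact hW x)
      rw [this]
      exact inter_mem_topo S hU hV
    · intro s W hs hW
      have : W = bigU s := ext (fun x => by rw [mem_bigU]; exact hW x)
      rw [this]
      exact union_mem_topo S hs
  · intro U c hU hc
    refine finer S (fun x hx => ((hc x).1 hx).2) (fun p hp => ?_)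
    obtain ⟨k, hk, h1⟩ := ((hX.top U).1 hU).2 p ((hc p).1 hp).1
    exact ⟨k, hk, fun z hz hN => (hc z).2 ⟨h1 z hN, hz⟩⟩
  · obtain ⟨B, r, h1, h2, h3, h4, h5⟩ := wo_basis S
    refine ⟨B, r, h1, h2, ?_, ?_, ?_⟩
    · intro b hb hr
      exact h3 b hb (rel_iff.1 hr)
    · intro b c d hb hc hd hbc hcd
      exact rel_iff.2 (h4 b c d hb hc hd (rel_iff.1 hbc) (rel_iff.1 hcd))
    · intro s hs hne
      obtain ⟨b, hb, hb'⟩ := h5 s hs hne
      refine ⟨b, hb, fun c hc => ?_⟩
      rcases hb' c hc with h6 | h6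
      · exact Or.inl h6
      · exact Or.inr (rel_iff.2 h6)
  · obtain ⟨st, V, hV, _, h1, hfn, h2⟩ := exists_strategy S
    refine ⟨st, ?_⟩
    intro x U u hu
    have hu1 : ∀ p : M, p ∈ u ↔ ∃ n : EL (omega : M), p = opair n.1 (opair (x n).1 (U n).1) := by
      intro p
      refine (hu p).trans ⟨?_, ?_⟩
      · rintro ⟨n, q, hq, hp⟩
        rw [pair_iff] at hq hp
        exact ⟨n, by rw [hp, hq]⟩
      · rintro ⟨n, hp⟩
        exact ⟨n, _, pair_iff.2 rfl, pair_iff.2 hp⟩
    have hfu : FnOn u omega := by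
      refine ⟨inferInstance, ?_, ?_⟩
      · intro p hp
        obtain ⟨n, rfl⟩ := (hu1 p).1 hp
        exact ⟨n.1, n.2, _, rfl⟩
      · intro n hn
        refine ⟨opair (x ⟨n, hn⟩).1 (U ⟨n, hn⟩).1, (hu1 _).2 ⟨⟨n, hn⟩, rfl⟩, ?_⟩
        intro z hz
        obtain ⟨m, hm⟩ := (hu1 _).1 hz
        rw [opair_inj] at hm
        obtain ⟨h3, h4⟩ := hm
        have : m = ⟨n, hn⟩ := Subtype.ext h3.symm
        rw [h4, this]
    have happ : ∀ n : EL (omega : M), app u n.1 = opair (x n).1 (U n).1 := fun n => hfu.app_eq ((hu1 _).2 ⟨n, rfl⟩)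
    have hprod : ∀ n : M, n ∈ (omega : M) → app u n ∈ prod D.P (topo D) := by
      intro n hn
      rw [happ ⟨n, hn⟩, opair_mem_prod]
      exact ⟨(x ⟨n, hn⟩).2, (U ⟨n, hn⟩).2⟩
    obtain ⟨h3, h4⟩ := h2 u hfu hprod
    have hfst : ∀ n : EL (omega : M), fst (app u n.1) = (x n).1 := fun n => by rw [happ, fst_opair]
    have hsnd : ∀ n : EL (omega : M), snd (app u n.1) = (U n).1 := fun n => by rw [happ, snd_opair]
    refine ⟨fun n => ⟨V u n.1, hV u n.1⟩, ?_, ?_, ?_⟩
    · intro n s hs O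
      have hs' : s = restr u (suc n.1) := by
        apply ext
        intro p
        rw [mem_restr]
        refine (hs p).trans (and_congr_right fun _ => ?_)
        constructor
        · rintro ⟨k, y, hk, hp⟩
          exact ⟨k, mem_suc.2 hk, y, pair_iff.1 hp⟩
        · rintro ⟨k, hk, y, hp⟩
          exact ⟨k, y, mem_suc.1 hk, pair_iff.2 hp⟩
      obtain ⟨h5, h6⟩ := h1 u hfu hprod n.1 n.2
      rw [rel_iff, hs']
      constructor
      · intro h7
        rw [← hfn.app_eq h7, h6]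
      · rintro rfl
        show opair _ (V u n.1) ∈ st
        rw [← h6]
        exact hfn.mem h5
    · intro n hk hkl
      have h7 := h3 n.1 n.2 (fun k hk' => by
        have hkω : k ∈ (omega : M) := by
          rcases hk' with hk' | rfl
          · exact nat_mem_omega n.2 hk'
          · exact n.2
        rw [hfst ⟨k, hkω⟩, hsnd ⟨k, hkω⟩]
        refine hk ⟨k, hkω⟩ ?_
        rcases hk' with hk' | hk'
        · exact Or.inl hk'
        · exact Or.inr (Subtype.ext hk')) (fun k hk' z hz => by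
        have hkω : k ∈ (omega : M) := nat_mem_omega n.2 hk'
        rw [hsnd ⟨suc k, suc_mem_omega hkω⟩] at hz
        refine hkl ⟨k, hkω⟩ ⟨suc k, suc_mem_omega hkω⟩ ?_ (succ_iff.2 rfl) z hz
        rcases suc_le_of_mem n.2 hk' with h8 | h8
        · exact Or.inl h8
        · exact Or.inr (Subtype.ext h8))
      rw [hfst n, hsnd n] at h7
      exact h7
    · intro hk hkl
      obtain ⟨z, _, hz⟩ := h4 (fun k hkω => by
        rw [hfst ⟨k, hkω⟩, hsnd ⟨k, hkω⟩]
        exact hk ⟨k, hkω⟩) (fun k hkω z hz => by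
        rw [hsnd ⟨suc k, suc_mem_omega hkω⟩] at hz
        exact hkl ⟨k, hkω⟩ ⟨suc k, suc_mem_omega hkω⟩ (succ_iff.2 rfl) z hz)
      exact ⟨z, fun n => hz n.1 n.2⟩
  · intro g x V hV hgx
    obtain ⟨l, hl, W, hW, hxW, h1⟩ := cont_topo S (O := V) g.2 x.2 hV (by
      rw [hact g ⟨x.1, hPX x.1 x.2⟩]; exact hgx)
    refine ⟨sep D.G (fun y : M => Nb D.NG g.1 y l), W, hG.ball_open hl, hW, ?_, hxW, ?_⟩
    · exact mem_sep.2 ⟨g.2, hG.upol.refl _ _ g.2 hl⟩
    · intro g' x' hg' hx'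
      have h2 := h1 g'.1 x'.1 (mem_sep.1 hg').2 hx'
      rw [hact g' ⟨x'.1, hPX x'.1 x'.2⟩] at h2
      exact h2

end

/-- The main theorem for structures satisfying ZF. -/
theorem main_zf {M : Type u} (E : M → M → Prop) (hZF : SC.ZF E) (w : M) (hw : IsOmega E w) (G σ X τ P : M)
    [Group (El E G)] [MulAction (El E G) (El E X)] (h : IsPolishGSpace E w G σ X τ)
    (hPX : ∀ x, E x P → E x X) (hinv : ∀ (g : El E G) (x : El E X), E x.1 P → E (g • x).1 P)
    (hP : IsAnalytic E w X τ {x | ¬ E x.1 P}) :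
    ∃ t, IsTopology E P t ∧ Finer E τ P t ∧ HasWellorderedBasis E t ∧ StrongChoquet E w P t ∧
      Cont₂ E σ t t (fun (g : El E G) (x : El E P) => (g • (⟨x.1, hPX x.1 x.2⟩ : El E X)).1) := by
  letI := zModel hZF
  haveI := zPure hZF
  have hw' : w = omega := omega_iff.1 hw
  subst hw'
  exact main_model h hPX hinv hP

end Pool.Agent.H55.ZFU
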