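import Mathlib

set_option autoImplicit false

namespace Pool.Agent.H55.SelUlt

open Set Filter

/-- Non-principal ultrafilters on the naturals. -/
def Nonprincipal (U : Ultrafilter ℕ) : Prop := ∀ n : ℕ, ({n} : Set ℕ) ∉ U

/-- Selective ultrafilters: every function is constant or injective on a set of the ultrafilter. -/
def Selective (U : Ultrafilter ℕ) : Prop :=
  Nonprincipal U ∧ ∀ f : ℕ → ℕ, ∃ X ∈ U, (∃ c : ℕ, ∀ x ∈ X, f x = c) ∨ Set.InjOn f X

/-- Pseudo-intersection property of p-points. -/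
def PInt (U : Ultrafilter ℕ) : Prop :=
  ∀ A : ℕ → Set ℕ, (∀ n, A n ∈ U) → ∃ X ∈ U, ∀ n, (X \ A n).Finite

theorem Nonprincipal.infinite {U : Ultrafilter ℕ} (hU : Nonprincipal U) {X : Set ℕ}
    (hX : X ∈ U) : X.Infinite := by
  intro hfin
  have : ∃ x ∈ X, ({x} : Set ℕ) ∈ U := by
    have h1 : (⋃ x ∈ X, ({x} : Set ℕ)) ∈ U := by
      simpa using hX
    have := (Ultrafilter.finite_biUnion_mem_iff (f := U) (s := fun x : ℕ => ({x} : Set ℕ)) hfin).1 h1
    simpa using this
  obtain ⟨x, _, hx⟩ := this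
  exact hU x hx

theorem Nonprincipal.of_infinite {U : Ultrafilter ℕ} (h : ∀ X ∈ U, X.Infinite) :
    Nonprincipal U := fun n hn => h _ hn (Set.finite_singleton n)

theorem Nonprincipal.diff_finite {U : Ultrafilter ℕ} (hU : Nonprincipal U) {X F : Set ℕ}
    (hX : X ∈ U) (hF : F.Finite) : X \ F ∈ U := by
  have : Fᶜ ∈ U := by
    rw [Ultrafilter.compl_mem_iff_notMem]
    intro h
    exact hU.infinite h hF
  exact Filter.inter_mem hX this

theorem Selective.pInt {U : Ultrafilter ℕ} (hU : Selective U) : PInt U := by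
  classical
  intro A hA
  by_cases hZ : (⋂ n, A n) ∈ U
  · exact ⟨_, hZ, fun n => by
      have : (⋂ n, A n) \ A n = ∅ := by
        ext x; simp only [Set.mem_sdiff, mem_iInter, mem_empty_iff_false, iff_false, not_and, not_not]
        exact fun h => h n
      rw [this]; exact Set.finite_empty⟩
  · have hZ' : (⋂ n, A n)ᶜ ∈ U := by
      rw [Ultrafilter.compl_mem_iff_notMem]; exact hZ
    let f : ℕ → ℕ := fun x => if h : ∃ n, x ∉ A n then Nat.find h else 0
    obtain ⟨X, hX, h⟩ := hU.2 f
    refine ⟨X ∩ (⋂ n, A n)ᶜ, Filter.inter_mem hX hZ', fun n => ?_⟩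
    rcases h with ⟨c, hc⟩ | hinj
    · exfalso
      have h3 : (X ∩ (⋂ n, A n)ᶜ) ∩ A c ∈ U :=
        Filter.inter_mem (Filter.inter_mem hX hZ') (hA c)
      obtain ⟨x, ⟨hxX, hxZ⟩, hxc⟩ := (hU.1.infinite h3).nonempty
      have hex : ∃ n, x ∉ A n := by simpa using hxZ
      have : f x = Nat.find hex := dif_pos hex
      have h4 := Nat.find_spec hex
      rw [← this, hc x hxX] at h4
      exact h4 hxc
    · have hsub : (X ∩ (⋂ n, A n)ᶜ) \ A n ⊆ X ∩ f ⁻¹' (Set.Iic n) := by
        rintro x ⟨⟨hxX, hxZ⟩, hxn⟩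
        refine ⟨hxX, ?_⟩
        have hex : ∃ n, x ∉ A n := ⟨n, hxn⟩
        have : f x = Nat.find hex := dif_pos hex
        simp only [mem_preimage, mem_Iic]
        rw [this]
        exact Nat.find_min' hex hxn
      refine Set.Finite.subset ?_ hsub
      apply Set.Finite.of_finite_image (f := f)
      · exact (Set.finite_Iic n).subset (by rintro _ ⟨x, ⟨_, hx⟩, rfl⟩; exact hx)
      · exact hinj.mono Set.inter_subset_left

theorem PInt.map {U : Ultrafilter ℕ} (hU : PInt U) (g : ℕ → ℕ) : PInt (U.map g) := by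
  intro A hA
  obtain ⟨X, hX, hfin⟩ := hU (fun n => g ⁻¹' (A n)) (fun n => hA n)
  refine ⟨g '' X, ?_, fun n => ?_⟩
  · show g ⁻¹' (g '' X) ∈ U
    exact Filter.mem_of_superset hX (Set.subset_preimage_image g X)
  · refine ((hfin n).image g).subset ?_
    rintro _ ⟨⟨x, hx, rfl⟩, hn⟩
    exact ⟨x, ⟨hx, hn⟩, rfl⟩

/-- Countably many distinct non-principal ultrafilters with the p-point property can be separated. -/
theorem exists_disjoint (Z : ℕ → Ultrafilter ℕ) (hnp : ∀ n, Nonprincipal (Z n))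
    (hp : ∀ n, PInt (Z n)) (hne : ∀ n m, n ≠ m → Z n ≠ Z m) :
    ∃ B : ℕ → Set ℕ, (∀ n, B n ∈ Z n) ∧ ∀ n m, n ≠ m → Disjoint (B n) (B m) := by
  classical
  have h1 : ∀ n m, ∃ C : Set ℕ, C ∈ Z n ∧ (n ≠ m → C ∉ Z m) := by
    intro n m
    by_cases h : n = m
    · exact ⟨univ, Filter.univ_mem, fun h' => absurd h h'⟩
    · have : ∃ C, C ∈ Z n ∧ C ∉ Z m := by
        by_contra hcon
        push Not at hcon
        apply hne n m h
        have hle : (Z m : Filter ℕ) ≤ (Z n : Filter ℕ) := fun s hs => hcon s hs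
        exact (Ultrafilter.coe_le_coe.1 hle).symm
      obtain ⟨C, h1, h2⟩ := this
      exact ⟨C, h1, fun _ => h2⟩
  choose C hC hC' using h1
  have h2 : ∀ n, ∃ D ∈ Z n, ∀ m, (D \ C n m).Finite := fun n => hp n (C n) (hC n)
  choose D hD hDf using h2
  have h3 : ∀ n m, n ≠ m → D n ∉ Z m := by
    intro n m h hmem
    have := (hnp m).diff_finite hmem (hDf n m)
    apply hC' n m h
    refine Filter.mem_of_superset this ?_
    intro x hx
    by_contra hxc
    exact hx.2 ⟨hx.1, hxc⟩
  refine ⟨fun n => D n \ ⋃ m ∈ Finset.range n, D m, fun n => ?_, fun n m h => ?_⟩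
  · have : (⋃ m ∈ Finset.range n, D m)ᶜ ∈ Z n := by
      rw [Ultrafilter.compl_mem_iff_notMem]
      intro hcon
      have := (Ultrafilter.finite_biUnion_mem_iff (f := Z n) (is := (Finset.range n : Set ℕ)) (s := D)
        (Finset.finite_toSet _)).1 (by simpa using hcon)
      obtain ⟨m, hm, hm'⟩ := this
      have : m < n := by simpa using hm
      exact h3 m n (by omega) hm'
    exact Filter.inter_mem (hD n) this
  · rw [Set.disjoint_left]
    rintro x ⟨hx1, hx2⟩ ⟨hx3, hx4⟩
    rcases lt_or_gt_of_ne h with hlt | hlt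
    · apply hx4
      simp only [mem_iUnion, Finset.mem_range]
      exact ⟨n, hlt, hx1⟩
    · apply hx2
      simp only [mem_iUnion, Finset.mem_range]
      exact ⟨m, hlt, hx3⟩

/-- If images of two non-principal ultrafilters under functions that are injective on large sets coincide then
the ultrafilters are isomorphic via a permutation. -/
theorem iso_of_map_eq {U V : Ultrafilter ℕ} (hU : Nonprincipal U) {g h : ℕ → ℕ}
    {X Y : Set ℕ} (hX : X ∈ U) (hY : Y ∈ V) (hg : Set.InjOn g X) (hh : Set.InjOn h Y)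
    (heq : U.map g = V.map h) : ∃ e : ℕ ≃ ℕ, U.map e = V := by
  classical
  -- the large set on which `h⁻¹ ∘ g` is defined
  let X1 : Set ℕ := X ∩ g ⁻¹' (h '' Y)
  have hX1 : X1 ∈ U := by
    refine Filter.inter_mem hX ?_
    have : h '' Y ∈ U.map g := by
      rw [heq]
      show h ⁻¹' (h '' Y) ∈ V
      exact Filter.mem_of_superset hY (Set.subset_preimage_image h Y)
    exact this
  have hex : ∀ x ∈ X1, ∃ y ∈ Y, h y = g x := fun x hx => hx.2
  choose! k hkY hk using hex
  have hkinj : Set.InjOn k X1 := by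
    intro a ha b hb hab
    apply hg ha.1 hb.1
    rw [← hk a ha, ← hk b hb, hab]
  -- the image of `U` under `k` is `V`
  have hkU : U.map k = V := by
    have hle : (V : Filter ℕ) ≤ (U.map k : Filter ℕ) := by
      intro S hS
      have hS' : k ⁻¹' S ∈ U := hS
      have h1 : g '' (X1 ∩ k ⁻¹' S) ∈ U.map g := by
        show g ⁻¹' (g '' (X1 ∩ k ⁻¹' S)) ∈ U
        exact Filter.mem_of_superset (Filter.inter_mem hX1 hS') (Set.subset_preimage_image g _)
      rw [heq] at h1
      have h2 : h ⁻¹' (g '' (X1 ∩ k ⁻¹' S)) ∈ V := h1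
      refine Filter.mem_of_superset (Filter.inter_mem hY h2) ?_
      rintro y ⟨hy, x, ⟨hx1, hx2⟩, hxy⟩
      have : k x = y := hh (hkY x hx1) hy (by rw [hk x hx1, hxy])
      rw [← this]; exact hx2
    exact (Ultrafilter.coe_le_coe.1 hle).symm
  -- split
  have hinf : X1.Infinite := hU.infinite hX1
  obtain ⟨X2, hX2, hX2U, hcoinf⟩ : ∃ X2 ⊆ X1, X2 ∈ U ∧ (X1 \ X2).Infinite := by
    have := hinf.to_subtype
    let φ := Nat.orderEmbeddingOfSet X1
    have hr : Set.range φ = X1 := Nat.orderEmbeddingOfSet_range X1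
    let E : Set ℕ := φ '' {n | Even n}
    have hE : E ⊆ X1 := by
      rw [← hr]; exact Set.image_subset_range _ _
    have hEinf : E.Infinite := by
      apply Set.Infinite.image (φ.injective.injOn)
      apply Set.infinite_of_forall_exists_gt
      intro a; exact ⟨2 * (a + 1), by simp, by omega⟩
    have hOinf : (X1 \ E).Infinite := by
      have : φ '' {n | Odd n} ⊆ X1 \ E := by
        rintro _ ⟨n, hn, rfl⟩
        refine ⟨by rw [← hr]; exact Set.mem_range_self _, ?_⟩
        rintro ⟨m, hm, hmn⟩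
        have := φ.injective hmn
        rw [this] at hm
        exact (Nat.not_even_iff_odd.2 hn) hm
      refine Set.Infinite.mono this ?_
      apply Set.Infinite.image (φ.injective.injOn)
      apply Set.infinite_of_forall_exists_gt
      intro a; exact ⟨2 * a + 1, by simp, by omega⟩
    by_cases hEU : E ∈ U
    · exact ⟨E, hE, hEU, hOinf⟩
    · refine ⟨X1 \ E, Set.sdiff_subset, ?_, ?_⟩
      · have : Eᶜ ∈ U := by rw [Ultrafilter.compl_mem_iff_notMem]; exact hEU
        exact Filter.inter_mem hX1 this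
      · rw [Set.sdiff_sdiff_cancel_left hE]; exact hEinf
  have hc1 : (X2ᶜ).Infinite := hcoinf.mono (fun x hx => hx.2)
  have hc2 : ((k '' X2)ᶜ).Infinite := by
    have : k '' (X1 \ X2) ⊆ (k '' X2)ᶜ := by
      rintro _ ⟨x, hx, rfl⟩ ⟨y, hy, hxy⟩
      have := hkinj (hX2 hy) hx.1 hxy
      rw [this] at hy
      exact hx.2 hy
    exact (hcoinf.image (hkinj.mono Set.sdiff_subset)).mono this
  -- the permutation
  let e1 : X2 ≃ (k '' X2) := Equiv.Set.imageOfInjOn k X2 (hkinj.mono hX2)
  have : Infinite (X2ᶜ : Set ℕ) := hc1.to_subtype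
  have : Infinite ((k '' X2)ᶜ : Set ℕ) := hc2.to_subtype
  obtain ⟨e2⟩ : Nonempty ((X2ᶜ : Set ℕ) ≃ ((k '' X2)ᶜ : Set ℕ)) := by
    rw [← Cardinal.eq]
    rw [Cardinal.mk_eq_aleph0, Cardinal.mk_eq_aleph0]
  let e : ℕ ≃ ℕ := ((Equiv.Set.sumCompl X2).symm.trans (Equiv.sumCongr e1 e2)).trans
    (Equiv.Set.sumCompl (k '' X2))
  refine ⟨e, ?_⟩
  rw [← hkU]
  have hek : ∀ x ∈ X2, e x = k x := by
    intro x hx
    simp only [e, Equiv.trans_apply, Equiv.Set.sumCompl_symm_apply_of_mem hx]
    simp [e1, Equiv.Set.imageOfInjOn]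
  have hle : (U.map e : Filter ℕ) ≤ (U.map k : Filter ℕ) := by
    intro S hS
    have hS' : k ⁻¹' S ∈ U := hS
    have : e ⁻¹' S ∈ U := by
      refine Filter.mem_of_superset (Filter.inter_mem hX2U hS') ?_
      rintro x ⟨hx, hxS⟩
      simp only [mem_preimage] at hxS ⊢
      rw [hek x hx]; exact hxS
    exact this
  exact Ultrafilter.coe_le_coe.1 hle

/-- The Fubini sum coded on the naturals by pairing. -/
noncomputable def fsum (W : Ultrafilter ℕ) (Y : ℕ → Ultrafilter ℕ) : Ultrafilter ℕ :=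
  W.bind (fun n => (Y n).map (Nat.pair n))

theorem mem_fsum {W : Ultrafilter ℕ} {Y : ℕ → Ultrafilter ℕ} {A : Set ℕ} :
    A ∈ fsum W Y ↔ {n | Nat.pair n ⁻¹' A ∈ Y n} ∈ W := Iff.rfl

theorem fsum_nonprincipal {W : Ultrafilter ℕ} {Y : ℕ → Ultrafilter ℕ}
    (hY : ∀ n, Nonprincipal (Y n)) : Nonprincipal (fsum W Y) := by
  apply Nonprincipal.of_infinite
  intro X hX
  obtain ⟨n, hn⟩ := Ultrafilter.nonempty_of_mem (mem_fsum.1 hX)
  have := (hY n).infinite hn
  intro hfin
  apply this
  exact hfin.preimage (fun a _ b _ hab => by simpa using hab)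

theorem fsum_qpoint {W : Ultrafilter ℕ} {Y : ℕ → Ultrafilter ℕ}
    (hY : ∀ n, Selective (Y n)) (hiso : ∀ n m, n ≠ m → ∀ e : ℕ ≃ ℕ, (Y n).map e ≠ Y m)
    (f : ℕ → ℕ) (hf : ∀ m : ℕ, {n : ℕ | f n = m}.Finite) :
    ∃ X ∈ fsum W Y, Set.InjOn f X := by
  classical
  let g : ℕ → ℕ → ℕ := fun n x => f (Nat.pair n x)
  have hg : ∀ n, ∃ X ∈ Y n, Set.InjOn (g n) X := by
    intro n
    obtain ⟨X, hX, h⟩ := (hY n).2 (g n)
    rcases h with ⟨c, hc⟩ | h
    · exfalso
      apply (hY n).1.infinite hX
      have h1 : (Nat.pair n ⁻¹' {k : ℕ | f k = c}).Finite :=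
        (hf c).preimage (fun a _ b _ hab => by simpa using hab)
      exact h1.subset (fun x hx => hc x hx)
    · exact ⟨X, hX, h⟩
  choose X hX hXinj using hg
  let Z : ℕ → Ultrafilter ℕ := fun n => (Y n).map (g n)
  have hZnp : ∀ n, Nonprincipal (Z n) := by
    intro n
    apply Nonprincipal.of_infinite
    intro S hS hfin
    have hS' : g n ⁻¹' S ∈ Y n := hS
    have h1 := (hY n).1.infinite (Filter.inter_mem (hX n) hS')
    apply h1
    apply Set.Finite.of_finite_image (f := g n)
    · exact hfin.subset (by rintro _ ⟨x, ⟨_, hx⟩, rfl⟩; exact hx)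
    · exact (hXinj n).mono Set.inter_subset_left
  obtain ⟨B, hB, hBd⟩ := exists_disjoint Z hZnp (fun n => ((hY n).pInt).map _) (by
    intro n m hnm heq
    obtain ⟨e, he⟩ := iso_of_map_eq (hY n).1 (hX n) (hX m) (hXinj n) (hXinj m) heq
    exact hiso n m hnm e he)
  refine ⟨{k | (Nat.unpair k).2 ∈ X (Nat.unpair k).1 ∧ f k ∈ B (Nat.unpair k).1}, ?_, ?_⟩
  · rw [mem_fsum]
    refine Filter.mem_of_superset Filter.univ_mem ?_
    intro n _
    have hBn : g n ⁻¹' (B n) ∈ Y n := hB n
    refine Filter.mem_of_superset (Filter.inter_mem (hX n) hBn) ?_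
    rintro x ⟨hx1, hx2⟩
    simpa using ⟨hx1, hx2⟩
  · rintro a ⟨ha1, ha2⟩ b ⟨hb1, hb2⟩ hab
    have hfst : (Nat.unpair a).1 = (Nat.unpair b).1 := by
      by_contra hne
      have := Set.disjoint_left.1 (hBd _ _ hne) ha2
      rw [hab] at this
      exact this hb2
    have hsnd : (Nat.unpair a).2 = (Nat.unpair b).2 := by
      rw [← hfst] at hb1
      apply hXinj _ ha1 hb1
      show f _ = f _
      rw [Nat.pair_unpair]
      rw [hfst, Nat.pair_unpair]
      exact hab
    rw [← Nat.pair_unpair a, ← Nat.pair_unpair b, hfst, hsnd]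

theorem fsum_not_selective {W : Ultrafilter ℕ} {Y : ℕ → Ultrafilter ℕ}
    (hW : Nonprincipal W) (hY : ∀ n, Nonprincipal (Y n)) : ¬ Selective (fsum W Y) := by
  intro h
  obtain ⟨X, hX, h⟩ := h.2 (fun k => (Nat.unpair k).1)
  have hX' := mem_fsum.1 hX
  rcases h with ⟨c, hc⟩ | hinj
  · obtain ⟨n, hn1, hn2⟩ := (hW.infinite hX').exists_gt c |>.imp (fun n hn => hn)
    obtain ⟨x, hx⟩ := ((hY n).infinite hn1).nonempty
    have := hc _ hx
    simp at this
    omega
  · obtain ⟨n, hn⟩ := (hW.infinite hX').nonempty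
    have hinf := (hY n).infinite hn
    obtain ⟨x, hx⟩ := hinf.nonempty
    obtain ⟨y, hy, hxy⟩ := hinf.exists_gt x
    have := hinj hx hy (by simp)
    have : x = y := by simpa using this
    omega

/-! ### Existence under CH of infinitely many non-isomorphic selective ultrafilters -/

/-- The filter of a set modulo finite sets. -/
def FF (A : Set ℕ) : Filter ℕ := cofinite ⊓ 𝓟 A

theorem FF_le {A B : Set ℕ} (h : (A \ B).Finite) : FF A ≤ FF B := by
  refine le_inf inf_le_left ?_
  rw [le_principal_iff, FF, mem_inf_principal, mem_cofinite]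
  refine h.subset ?_
  intro x hx
  simp only [mem_compl_iff, Set.mem_ofPred_eq, Classical.not_imp] at hx
  exact hx

theorem FF_neBot {A : Set ℕ} (h : A.Infinite) : (FF A).NeBot := by
  rw [FF, Filter.cofinite_inf_principal_neBot_iff]
  exact h

/-- Lower bounds of countable chains in the product order modulo finite. -/
theorem exists_lower {ι : Type} [Countable ι] (p : ι → ℕ → Set ℕ) (hinf : ∀ i n, (p i n).Infinite)
    (hch : ∀ i j, (∀ n, (p i n \ p j n).Finite) ∨ (∀ n, (p j n \ p i n).Finite)) :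
    ∃ q : ℕ → Set ℕ, (∀ n, (q n).Infinite) ∧ ∀ i n, (q n \ p i n).Finite := by
  have key : ∀ n, ∃ q : Set ℕ, q.Infinite ∧ ∀ i, (q \ p i n).Finite := by
    intro n
    cases isEmpty_or_nonempty ι with
    | inl h => exact ⟨univ, Set.infinite_univ, fun i => (h.false i).elim⟩
    | inr h =>
      let F : Filter ℕ := ⨅ i, FF (p i n)
      have hcg : ∀ i, (FF (p i n)).IsCountablyGenerated := by
        intro i
        unfold FF
        rw [Nat.cofinite_eq_atTop]
        infer_instance
      have hcgF : F.IsCountablyGenerated := Filter.iInf.isCountablyGenerated _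
      have hNB : F.NeBot := by
        refine Filter.iInf_neBot_of_directed ?_ (fun i => FF_neBot (hinf i n))
        intro i j
        rcases hch i j with h | h
        · exact ⟨i, le_rfl, FF_le (h n)⟩
        · exact ⟨j, FF_le (h n), le_rfl⟩
      obtain ⟨x, hx⟩ := Filter.exists_seq_tendsto F
      have hFle : ∀ i, F ≤ FF (p i n) := fun i => iInf_le _ i
      refine ⟨Set.range x, ?_, fun i => ?_⟩
      · obtain ⟨i0⟩ := h
        have h1 : Tendsto x atTop cofinite :=
          hx.mono_right ((hFle i0).trans inf_le_left)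
        intro hfin
        have h2 : (Set.range x)ᶜ ∈ (cofinite : Filter ℕ) := by
          rw [mem_cofinite, compl_compl]; exact hfin
        have h3 := h1 h2
        rw [Filter.mem_map] at h3
        obtain ⟨m, hm⟩ := Ultrafilter.nonempty_of_mem (f := Ultrafilter.of atTop) ((Ultrafilter.of_le (f := (atTop : Filter ℕ))) h3)
        exact hm (Set.mem_range_self m)
      · have h1 : Tendsto x atTop (𝓟 (p i n)) :=
          hx.mono_right ((hFle i).trans inf_le_right)
        have h2 : ∀ᶠ k in atTop, x k ∈ p i n := tendsto_principal.1 h1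
        obtain ⟨K, hK⟩ := eventually_atTop.1 h2
        refine ((Set.finite_Iio K).image x).subset ?_
        rintro _ ⟨⟨k, rfl⟩, hk⟩
        refine ⟨k, ?_, rfl⟩
        by_contra hcon
        exact hk (hK k (by simpa using hcon))
  choose q hq1 hq2 using key
  exact ⟨q, hq1, fun i n => hq2 n i⟩

/-- Every function is constant or injective on an infinite subset of a given infinite set. -/
theorem exists_const_or_inj (A : Set ℕ) (hA : A.Infinite) (f : ℕ → ℕ) :
    ∃ B ⊆ A, B.Infinite ∧ ((∃ c, ∀ x ∈ B, f x = c) ∨ Set.InjOn f B) := by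
  classical
  by_cases h : (f '' A).Finite
  · -- pigeonhole
    by_contra hcon
    push Not at hcon
    apply hA
    have : A ⊆ ⋃ c ∈ f '' A, (A ∩ f ⁻¹' {c}) := by
      intro x hx
      simp only [mem_iUnion]
      exact ⟨f x, ⟨x, hx, rfl⟩, hx, rfl⟩
    refine Set.Finite.subset (h.biUnion ?_) this
    intro c _
    by_contra hinf
    obtain ⟨h1, _⟩ := hcon (A ∩ f ⁻¹' {c}) Set.inter_subset_left hinf
    obtain ⟨x, hx, hne⟩ := h1 c
    exact hne hx.2
  · have hinf : (f '' A).Infinite := h
    obtain ⟨B, hB, hBbij⟩ : ∃ B ⊆ A, Set.BijOn f B (f '' A) :=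
      (Set.surjOn_image f A).exists_bijOn_subset
    refine ⟨B, hB, ?_, Or.inr hBbij.injOn⟩
    intro hfin
    apply hinf
    rw [← hBbij.image_eq]
    exact hfin.image f

theorem exists_split (A : Set ℕ) (hA : A.Infinite) :
    ∃ B C : Set ℕ, B ⊆ A ∧ C ⊆ A ∧ B.Infinite ∧ C.Infinite ∧ Disjoint B C := by
  classical
  have := hA.to_subtype
  let φ := Nat.orderEmbeddingOfSet A
  have hr : Set.range φ = A := Nat.orderEmbeddingOfSet_range A
  refine ⟨φ '' {n | Even n}, φ '' {n | Odd n}, ?_, ?_, ?_, ?_, ?_⟩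
  · rw [← hr]; exact Set.image_subset_range _ _
  · rw [← hr]; exact Set.image_subset_range _ _
  · apply Set.Infinite.image (φ.injective.injOn)
    apply Set.infinite_of_forall_exists_gt
    intro a; exact ⟨2 * (a + 1), by simp, by omega⟩
  · apply Set.Infinite.image (φ.injective.injOn)
    apply Set.infinite_of_forall_exists_gt
    intro a; exact ⟨2 * a + 1, by simp, by omega⟩
  · rw [Set.disjoint_left]
    rintro _ ⟨n, hn, rfl⟩ ⟨m, hm, hmn⟩
    have := φ.injective hmn
    rw [this] at hm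
    exact (Nat.not_even_iff_odd.2 hm) hn

/-- The requirement handled at one step. -/
def Req (f : ℕ → ℕ) (n m : ℕ) (p : ℕ → Set ℕ) : Prop :=
  ((∃ c, ∀ x ∈ p n, f x = c) ∨ Set.InjOn f (p n)) ∧ (n ≠ m → ((f '' p n) ∩ p m).Finite)

theorem exists_req (p : ℕ → Set ℕ) (hp : ∀ n, (p n).Infinite) (f : ℕ → ℕ) (n m : ℕ) :
    ∃ q : ℕ → Set ℕ, (∀ k, (q k).Infinite) ∧ (∀ k, q k ⊆ p k) ∧ Req f n m q := by
  classical
  obtain ⟨A, hAp, hAinf, hA⟩ := exists_const_or_inj (p n) (hp n) f
  by_cases hnm : n = m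
  · subst hnm
    refine ⟨Function.update p n A, ?_, ?_, ?_, fun h => absurd rfl h⟩
    · intro k
      by_cases hk : k = n
      · subst hk; simpa using hAinf
      · simpa [hk] using hp k
    · intro k
      by_cases hk : k = n
      · subst hk; simpa using hAp
      · simp [hk]
    · simpa using hA
  · -- two coordinates
    have key : ∃ A' ⊆ A, A'.Infinite ∧ ∃ B ⊆ p m, B.Infinite ∧ (f '' A' ∩ B).Finite := by
      by_cases hfin : (f '' A ∩ p m).Finite
      · exact ⟨A, subset_rfl, hAinf, p m, subset_rfl, hp m, hfin⟩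
      · obtain ⟨C, D, hC, hD, hCi, hDi, hCD⟩ := exists_split _ hfin
        refine ⟨A ∩ f ⁻¹' C, Set.inter_subset_left, ?_, D, fun x hx => (hD hx).2, hDi, ?_⟩
        · intro hf
          apply hCi
          refine (hf.image f).subset ?_
          intro c hc
          obtain ⟨x, hx, rfl⟩ := (hC hc).1
          exact ⟨x, ⟨hx, hc⟩, rfl⟩
        · have : f '' (A ∩ f ⁻¹' C) ∩ D = ∅ := by
            rw [Set.eq_empty_iff_forall_notMem]
            rintro _ ⟨⟨x, ⟨_, hx⟩, rfl⟩, hD'⟩
            exact Set.disjoint_left.1 hCD hx hD'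
          rw [this]; exact Set.finite_empty
    obtain ⟨A', hA', hA'inf, B, hB, hBinf, hAB⟩ := key
    refine ⟨Function.update (Function.update p n A') m B, ?_, ?_, ?_, ?_⟩
    · intro k
      by_cases hk : k = m
      · subst hk; simpa using hBinf
      · by_cases hk' : k = n
        · subst hk'; simpa [hk] using hA'inf
        · simpa [hk, hk'] using hp k
    · intro k
      by_cases hk : k = m
      · subst hk; simpa using hB
      · by_cases hk' : k = n
        · subst hk'; simpa [hk] using hA'.trans hAp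
        · simp [hk, hk']
    · have : Function.update (Function.update p n A') m B n = A' := by simp [hnm]
      rw [this]
      rcases hA with ⟨c, hc⟩ | h
      · exact Or.inl ⟨c, fun x hx => hc x (hA' hx)⟩
      · exact Or.inr (h.mono hA')
    · intro _
      have : Function.update (Function.update p n A') m B n = A' := by simp [hnm]
      rw [this]
      simpa using hAB

/-- Under CH there is a sequence of pairwise non-isomorphic selective ultrafilters. -/
theorem exists_selective_seq (CH : Cardinal.aleph 1 = Cardinal.continuum.{0}) :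
    ∃ Y : ℕ → Ultrafilter ℕ, (∀ n, Selective (Y n)) ∧
      ∀ n m, n ≠ m → ∀ f : ℕ → ℕ, (Y n).map f ≠ Y m := by
  classical
  let R := (ℕ → ℕ) × ℕ × ℕ
  let ι := (Cardinal.aleph.{0} 1).ord.ToType
  have hR : Cardinal.mk R ≤ Cardinal.mk ι := by
    have h1 : Cardinal.mk R = Cardinal.continuum := by
      simp [R]
    rw [h1, ← CH]
    simp [ι]
  obtain ⟨⟨emb⟩⟩ : Nonempty (Nonempty (R ↪ ι)) := ⟨Cardinal.le_def _ _ |>.1 hR⟩
  have hRne : Nonempty R := ⟨(id, 0, 0)⟩
  let e : ι → R := Function.invFun emb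
  have he : Function.Surjective e := Function.invFun_surjective emb.injective
  have hcount : ∀ i : ι, Countable (Set.Iio i) := by
    intro i
    have h1 : Cardinal.mk (Set.Iio i) < Cardinal.aleph 1 := Cardinal.mk_Iio_toType_ord_lt i
    rw [← Cardinal.mk_le_aleph0_iff]
    have h2 : Cardinal.aleph 1 = Order.succ Cardinal.aleph0 := Cardinal.succ_aleph0.symm
    exact Order.lt_succ_iff.1 (h1.trans_eq h2)
  -- good next step
  let Good : (i : ι) → ((j : ι) → j < i → (ℕ → Set ℕ)) → (ℕ → Set ℕ) → Prop :=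
    fun i prev q => (∀ n, (q n).Infinite) ∧ Req (e i).1 (e i).2.1 (e i).2.2 q ∧
      ∀ j (hj : j < i) n, (q n \ prev j hj n).Finite
  let step : (i : ι) → ((j : ι) → j < i → (ℕ → Set ℕ)) → (ℕ → Set ℕ) :=
    fun i prev => if h : ∃ q, Good i prev q then Classical.choose h else fun _ => univ
  have hwf : WellFounded (fun a b : ι => a < b) := wellFounded_lt
  let p : ι → (ℕ → Set ℕ) := hwf.fix step
  have hp : ∀ i, p i = step i (fun j _ => p j) := fun i => hwf.fix_eq step i
  have hgood : ∀ i, Good i (fun j _ => p j) (p i) := by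
    intro i
    induction i using hwf.induction with
    | _ i ih =>
      have hex : ∃ q, Good i (fun j _ => p j) q := by
        have hc := hcount i
        obtain ⟨q0, hq0, hq0'⟩ := exists_lower (ι := Set.Iio i) (fun j => p j)
          (fun j n => (ih j.1 j.2).1 n) (by
            intro a b
            rcases lt_trichotomy a.1 b.1 with h | h | h
            · right; intro n; exact (ih b.1 b.2).2.2 a.1 h n
            · left; intro n
              have : a = b := Subtype.ext h
              rw [this]; simp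
            · left; intro n; exact (ih a.1 a.2).2.2 b.1 h n)
        obtain ⟨q, hq, hqs, hreq⟩ := exists_req q0 hq0 (e i).1 (e i).2.1 (e i).2.2
        refine ⟨q, hq, hreq, fun j hj n => ?_⟩
        exact (hq0' ⟨j, hj⟩ n).subset (Set.sdiff_subset_sdiff_left (hqs n))
      have : p i = Classical.choose hex := by
        rw [hp i]
        exact dif_pos hex
      rw [this]
      exact Classical.choose_spec hex
  have hmono : ∀ i j n, i ≤ j → (p j n \ p i n).Finite := by
    intro i j n hij
    rcases hij.lt_or_eq with h | h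
    · exact (hgood j).2.2 i h n
    · subst h; simp
  have hne : Nonempty ι := ⟨emb (id, 0, 0)⟩
  -- the filters
  let F : ℕ → Filter ℕ := fun n => ⨅ i, FF (p i n)
  have hdir : ∀ n, Directed (· ≥ ·) (fun i => FF (p i n)) := by
    intro n i j
    rcases le_total i j with h | h
    · exact ⟨j, FF_le (hmono i j n h), le_rfl⟩
    · exact ⟨i, le_rfl, FF_le (hmono j i n h)⟩
  have hNB : ∀ n, (F n).NeBot := fun n =>
    Filter.iInf_neBot_of_directed (hdir n) (fun i => FF_neBot ((hgood i).1 n))
  have hmemF : ∀ n i, p i n ∈ F n := by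
    intro n i
    have : F n ≤ FF (p i n) := iInf_le _ i
    apply this
    exact Filter.mem_inf_of_right (Filter.mem_principal_self _)
  have hcof : ∀ n, F n ≤ cofinite := by
    intro n
    obtain ⟨i⟩ := hne
    exact (iInf_le _ i).trans inf_le_left
  let Y : ℕ → Ultrafilter ℕ := fun n => @Ultrafilter.of _ (F n) (hNB n)
  have hY : ∀ n, (Y n : Filter ℕ) ≤ F n := fun n => @Ultrafilter.of_le _ (F n) (hNB n)
  have hYnp : ∀ n, Nonprincipal (Y n) := by
    intro n k hk
    have h1 : ({k} : Set ℕ)ᶜ ∈ (Y n : Filter ℕ) := by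
      apply (hY n).trans (hcof n)
      rw [mem_cofinite, compl_compl]; exact Set.finite_singleton k
    have := Filter.inter_mem hk h1
    rw [Set.inter_compl_self] at this
    exact Ultrafilter.empty_notMem this
  refine ⟨Y, fun n => ⟨hYnp n, fun f => ?_⟩, fun n m hnm f heq => ?_⟩
  · obtain ⟨i, hi⟩ := he (f, n, n)
    have h := (hgood i).2.1.1
    rw [hi] at h
    exact ⟨p i n, hY n (hmemF n i), h⟩
  · obtain ⟨i, hi⟩ := he (f, n, m)
    have h := (hgood i).2.1.2
    rw [hi] at h
    have hfin := h hnm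
    have h1 : f '' (p i n) ∈ Y m := by
      rw [← heq]
      show f ⁻¹' (f '' (p i n)) ∈ Y n
      exact Filter.mem_of_superset (hY n (hmemF n i)) (Set.subset_preimage_image f _)
    have h2 : p i m ∈ Y m := hY m (hmemF m i)
    exact (hYnp m).infinite (Filter.inter_mem h1 h2) hfin

end Pool.Agent.H55.SelUlt
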