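import Mathlib
import Pool.Agent.H55.SelUlt

set_option autoImplicit false

namespace Pool.Agent.H55.TukeyDefs

/-- `U` is nonprincipal: it contains no singleton. -/
def IsNonprincipal (U : Ultrafilter ℕ) : Prop := ∀ n : ℕ, ({n} : Set ℕ) ∉ U

/-- `U` is a p-point: it is nonprincipal, and every `f : ℕ → ℕ` is constant or finite-to-one on some set in `U`. -/
def IsPPoint (U : Ultrafilter ℕ) : Prop :=
  IsNonprincipal U ∧ ∀ f : ℕ → ℕ, ∃ X ∈ U, (∃ c : ℕ, ∀ x ∈ X, f x = c) ∨ ∀ m : ℕ, {x ∈ X | f x = m}.Finite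

/-- `U` is a q-point: it is nonprincipal, and every finite-to-one `f : ℕ → ℕ` is injective on some set in `U`. -/
def IsQPoint (U : Ultrafilter ℕ) : Prop :=
  IsNonprincipal U ∧ ∀ f : ℕ → ℕ, (∀ m : ℕ, {x : ℕ | f x = m}.Finite) → ∃ X ∈ U, Set.InjOn f X

/-- `U` is selective: it is nonprincipal, and every `f : ℕ → ℕ` is constant or injective on some set in `U`. -/
def IsSelective (U : Ultrafilter ℕ) : Prop :=
  IsNonprincipal U ∧ ∀ f : ℕ → ℕ, ∃ X ∈ U, (∃ c : ℕ, ∀ x ∈ X, f x = c) ∨ Set.InjOn f X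

/-- Tukey reducibility `V ≤_T U`: there is a monotone map `U → V` with cofinal image. -/
def TukeyLE (V U : Ultrafilter ℕ) : Prop :=
  ∃ g : Set ℕ → Set ℕ, (∀ A ∈ U, g A ∈ V) ∧ (∀ A ∈ U, ∀ B ∈ U, A ⊆ B → g A ⊆ g B) ∧
    ∀ B ∈ V, ∃ A ∈ U, g A ⊆ B

/-- `L` is (a copy on `ℕ`, via the pairing bijection `ℕ × ℕ ≃ ℕ`, of) the Fubini limit of the `Y n` along `W`:
a set `A` is in `L` iff, for `W`-many `n`, the `n`-th section of `A` is in `Y n`. -/
def IsFubiniLimit (W : Ultrafilter ℕ) (Y : ℕ → Ultrafilter ℕ) (L : Ultrafilter ℕ) : Prop :=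
  ∀ A : Set ℕ, A ∈ L ↔ {n : ℕ | {x : ℕ | Nat.pair n x ∈ A} ∈ Y n} ∈ W

/-- The Fubini iterates of p-points of depth at most `k` (coded on `ℕ` by pairing). -/
inductive IsIterate : ℕ → Ultrafilter ℕ → Prop
  | ppoint (U : Ultrafilter ℕ) : IsPPoint U → IsIterate 1 U
  | mono (k : ℕ) (U : Ultrafilter ℕ) : IsIterate k U → IsIterate (k + 1) U
  | limit (k : ℕ) (W : Ultrafilter ℕ) (Y : ℕ → Ultrafilter ℕ) (L : Ultrafilter ℕ) :
      IsPPoint W → (∀ n, IsIterate k (Y n)) → IsFubiniLimit W Y L → IsIterate (k + 1) L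

theorem IsSelective.isPPoint {U : Ultrafilter ℕ} (h : IsSelective U) : IsPPoint U := by
  refine ⟨h.1, fun f => ?_⟩
  obtain ⟨X, hX, hc | hi⟩ := h.2 f
  · exact ⟨X, hX, Or.inl hc⟩
  · refine ⟨X, hX, Or.inr fun m => ?_⟩
    apply Set.Subsingleton.finite
    rintro x ⟨hx, hxm⟩ y ⟨hy, hym⟩
    exact hi hx hy (hxm.trans hym.symm)

theorem TukeyLE.refl (U : Ultrafilter ℕ) : TukeyLE U U :=
  ⟨id, fun _ h => h, fun _ _ _ _ h => h, fun B hB => ⟨B, hB, subset_rfl⟩⟩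

/-- The main construction. -/
theorem main {W : Ultrafilter ℕ} {Y : ℕ → Ultrafilter ℕ} {L : Ultrafilter ℕ} (hW : IsNonprincipal W)
    (hY : ∀ n, IsSelective (Y n)) (hiso : ∀ n m, n ≠ m → ∀ e : ℕ ≃ ℕ, (Y n).map e ≠ Y m)
    (hL : IsFubiniLimit W Y L) : IsQPoint L ∧ ¬ IsSelective L := by
  have hLeq : L = SelUlt.fsum W Y := by
    apply Ultrafilter.ext
    intro A
    rw [hL A, SelUlt.mem_fsum]
    rfl
  subst hLeq
  refine ⟨⟨?_, fun f hf => ?_⟩, ?_⟩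
  · exact SelUlt.fsum_nonprincipal (fun n => (hY n).1)
  · exact SelUlt.fsum_qpoint (fun n => hY n) hiso f hf
  · exact SelUlt.fsum_not_selective hW (fun n => (hY n).1)

end Pool.Agent.H55.TukeyDefs
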